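import Pool.Agent.Lib.MP_deef39_co_Ord.WT

/-! # Ord module Red2: `TGp` replaced by the closing law `CLp`

`CLp`: every class of plane paths with a fixed first edge `u z` (`u`, `z` arbitrary points)
contains a state whose end sees `u`. Then the path closes up to a plane Hamiltonian cycle and
every vertex becomes an end.
-/

set_option autoImplicit false

namespace FPW

variable {α : Type*} {p : α → ℝ × ℝ}

/-- closing law -/
def CLp (p : α → ℝ × ℝ) : Prop :=
  ∀ (u z : α) (B : List α), (u :: z :: B).Nodup → Plane p (Ed (u :: z :: B)) →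
    ∃ A w, Reach p (Ed [u, z]) (z :: B) (A ++ [w]) ∧ Vis p (EO (A ++ [w]) (Ed [u, z])) w u

/-- cyclic shift by one -/
private theorem cl_shift {u : α} {M : List α} (hM : M ≠ [])
    (hp : Plane p (Ed (u :: (M ++ [u])))) :
    Relation.ReflTransGen (U p) (u :: M) (M ++ [u]) := by
  rcases List.eq_nil_or_concat M with h | ⟨M₀, w, h⟩
  · exact absurd h hM
  rw [List.concat_eq_append] at h
  subst h
  have h1 : U p (u :: (M₀ ++ [w])) (u :: w :: M₀.reverse) := by
    refine Or.inl ⟨u, w, ⟨[], M₀, rfl, rfl⟩, ?_⟩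
    intro a b hab
    refine hp w u a b ?_ ?_
    · have h2 : u :: (M₀ ++ [w] ++ [u]) = (u :: M₀) ++ w :: u :: [] := by simp
      rw [h2]
      exact ed_of_split
    · have h2 : u :: (M₀ ++ [w] ++ [u]) = (u :: M₀) ++ w :: [u] := by simp
      rw [h2, ed_mid]
      left
      exact eo_no.1 hab
  refine (Relation.ReflTransGen.single h1).tail (Or.inr ?_)
  simp

/-- closed paths: every vertex becomes the first one -/
private theorem cl_cyc {x : α} (M₁ : List α) : ∀ (u : α) (M₂ : List α),
    Plane p (Ed (u :: (M₁ ++ x :: M₂ ++ [u]))) →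
    Relation.ReflTransGen (U p) (u :: (M₁ ++ x :: M₂)) (x :: (M₂ ++ u :: M₁)) := by
  induction M₁ with
  | nil =>
    intro u M₂ hp
    have h1 := cl_shift (p := p) (u := u) (M := x :: M₂) (by simp) hp
    simpa using h1
  | cons z M₁ ih =>
    intro u M₂ hp
    have h1 := cl_shift (p := p) (u := u) (M := z :: M₁ ++ x :: M₂) (by simp) hp
    have h2 : Plane p (Ed (z :: (M₁ ++ x :: (M₂ ++ [u]) ++ [z]))) := by
      refine Plane_mono ?_ hp
      intro a b hab
      have h3 : z :: (M₁ ++ x :: (M₂ ++ [u]) ++ [z]) =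
          (z :: (M₁ ++ x :: M₂)) ++ u :: [z] := by simp
      rw [h3, ed_mid] at hab
      have h4 : u :: (z :: M₁ ++ x :: M₂ ++ [u]) = u :: z :: (M₁ ++ x :: M₂ ++ [u]) := by simp
      rw [h4, ed_cons2]
      rcases hab with hab | hab
      · right; right
        have h5 : z :: (M₁ ++ x :: M₂ ++ [u]) = z :: (M₁ ++ x :: M₂) ++ [u] := by simp
        rw [h5]
        exact hab
      · rw [ed_cons2] at hab
        rcases hab with hab | hab | hab
        · exact Or.inl hab
        · exact Or.inr (Or.inl hab)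
        · exact absurd hab ed_single
    have h3 := ih z (M₂ ++ [u]) h2
    have h4 : z :: M₁ ++ x :: M₂ ++ [u] = z :: (M₁ ++ x :: (M₂ ++ [u])) := by simp
    rw [h4] at h1
    have h5 : M₂ ++ [u] ++ z :: M₁ = M₂ ++ u :: z :: M₁ := by simp
    rw [h5] at h3
    exact h1.trans h3

/-- every plane path can be turned into one which starts in `x` -/
theorem cl_h1 (hcl : CLp p) {l : List α} {x : α} (hn : l.Nodup) (hp : Plane p (Ed l))
    (hx : x ∈ l) : ∃ Q, Relation.ReflTransGen (U p) l (x :: Q) := by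
  match l, hn, hp, hx with
  | [], _, _, hx => exact absurd hx (by simp)
  | [u], _, _, hx =>
    rw [List.mem_singleton] at hx
    subst hx
    exact ⟨[], Relation.ReflTransGen.refl⟩
  | u :: z :: B, hn, hp, hx =>
    obtain ⟨A, w, h1, h2⟩ := hcl u z B hn hp
    have hr : Relation.ReflTransGen (U p) (u :: z :: B) (u :: (A ++ [w])) := by
      obtain ⟨B₂, h3, h4⟩ := da_lift (A₀ := [u]) (by simpa using h1)
      rw [h3]
      have h5 : Relation.ReflTransGen (U p) ([u] ++ z :: B) ([u] ++ z :: B₂) :=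
        Relation.ReflTransGen.mono (fun a b h => Or.inl h) _ _ h4
      exact h5
    have hx' : x ∈ u :: (A ++ [w]) := (u_perm hr).mem_iff.2 hx
    rcases List.mem_cons.1 hx' with h3 | h3
    · subst h3
      exact ⟨_, hr⟩
    · obtain ⟨M₁, M₂, h4⟩ := List.append_of_mem h3
      have hpl : Plane p (Ed (u :: (M₁ ++ x :: M₂ ++ [u]))) := by
        rw [← h4]
        have hp' := u_plane hp hr
        have hed : ∀ a b, Ed (u :: (A ++ [w] ++ [u])) a b →
            Ed (u :: (A ++ [w])) a b ∨ (a = w ∧ b = u) ∨ (a = u ∧ b = w) := by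
          intro a b hab
          have h6 : u :: (A ++ [w] ++ [u]) = (u :: A) ++ w :: [u] := by simp
          rw [h6, ed_mid] at hab
          rcases hab with hab | hab
          · exact Or.inl hab
          · rw [ed_cons2] at hab
            rcases hab with hab | hab | hab
            · exact Or.inr (Or.inl hab)
            · exact Or.inr (Or.inr hab)
            · exact absurd hab ed_single
        have hA : ∃ B₂, A ++ [w] = z :: B₂ := by
          obtain ⟨B₂, h3, -⟩ := da_lift (A₀ := [u]) (by simpa using h1)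
          exact ⟨B₂, h3⟩
        obtain ⟨B₂, hB₂⟩ := hA
        have hv : ∀ c d, Ed (u :: (A ++ [w])) c d → ¬ X p w u c d := by
          intro c d hcd
          refine h2 c d ?_
          rw [hB₂] at hcd ⊢
          exact (da_eo (A₀ := [u])).2 hcd
        intro a b c d hab hcd hX
        rcases hed a b hab with h7 | ⟨h7, h8⟩ | ⟨h7, h8⟩
        · rcases hed c d hcd with h9 | ⟨h9, h10⟩ | ⟨h9, h10⟩
          · exact hp' a b c d h7 h9 hX
          · subst h9 h10
            exact hv a b h7 (X_comm.1 hX)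
          · subst h9 h10
            exact hv a b h7 (X_sw1.1 (X_comm.1 hX))
        · subst h7 h8
          rcases hed c d hcd with h9 | ⟨h9, h10⟩ | ⟨h9, h10⟩
          · exact hv c d h9 hX
          · exact (X_ne hX).2.2.1 h9.symm
          · exact (X_ne hX).2.2.2.1 h10.symm
        · subst h7 h8
          rcases hed c d hcd with h9 | ⟨h9, h10⟩ | ⟨h9, h10⟩
          · exact hv c d h9 (X_sw1.1 hX)
          · exact (X_ne hX).2.2.2.1 h10.symm
          · exact (X_ne hX).2.2.1 h9.symm
      have h5 := cl_cyc (p := p) (x := x) M₁ u M₂ hpl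
      rw [← h4] at h5
      exact ⟨_, hr.trans h5⟩

/-- all plane paths on the same set are connected by rotations and reversals -/
theorem cl_conn (hgp : GP p) (hvl : VLp p) (hcl : CLp p) {l l' : List α}
    (hn : l.Nodup) (hperm : l'.Perm l) (hp : Plane p (Ed l)) (hp' : Plane p (Ed l')) :
    Relation.ReflTransGen (U p) l l' := by
  by_cases hne : l = []
  · subst hne
    rw [hperm.eq_nil]
  obtain ⟨h, hh, hv⟩ := da_hull hgp hne
  have hn' : l'.Nodup := hperm.nodup_iff.2 hn
  obtain ⟨Q, hQ⟩ := cl_h1 hcl hn hp hh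
  obtain ⟨Q', hQ'⟩ := cl_h1 hcl hn' hp' (hperm.mem_iff.2 hh)
  have q1 := u_perm hQ
  have q1' := u_perm hQ'
  have q2 : Q'.Perm Q := (List.perm_cons h).1 ((q1'.trans hperm).trans q1.symm)
  have h1 := da_fc hgp hvl Q.length h Q Q' rfl (q1.nodup_iff.2 hn) (u_plane hp hQ)
    (u_plane hp' hQ') q2 (hv_mono (fun t ht => q1.mem_iff.1 ht) hv)
  have h2 : Relation.ReflTransGen (U p) (h :: Q) (h :: Q') :=
    Relation.ReflTransGen.mono (fun a b h => Or.inl h) _ _ h1
  exact (hQ.trans h2).trans (u_symm hp' hQ')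

/-- the statement for the point family `p` from a connectivity statement for lists -/
theorem graph_of_conn (n : ℕ) (p : Fin n → ℝ × ℝ) (hgp : GP p)
    (hconn : ∀ l l' : List (Fin n), l.Nodup → l'.Perm l → Plane p (Ed l) → Plane p (Ed l') →
      Relation.ReflTransGen (U p) l l') :
    ∀ P : SimpleGraph (Fin n) → Prop,
      (∀ A : SimpleGraph (Fin n), P A ↔
        (A.IsTree ∧ (∀ v : Fin n, (A.neighborSet v).ncard ≤ 2) ∧
          ∀ a b c d : Fin n, A.Adj a b → A.Adj c d → s(a, b) ≠ s(c, d) →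
            ∀ x : ℝ × ℝ, x ∈ segment ℝ (p a) (p b) → x ∈ segment ℝ (p c) (p d) →
              (x = p a ∨ x = p b) ∧ (x = p c ∨ x = p d))) →
      ∀ G H : SimpleGraph (Fin n), P G → P H →
        Relation.ReflTransGen
          (fun A B : SimpleGraph (Fin n) =>
            P A ∧ P B ∧ (A.edgeSet \ B.edgeSet).ncard = 1 ∧
              (B.edgeSet \ A.edgeSet).ncard = 1)
          G H := by
  intro P hP G H hG hH
  have hlist : ∀ A : SimpleGraph (Fin n), P A → ∃ l : List (Fin n),
      l.Nodup ∧ (∀ v, v ∈ l) ∧ A = gr l ∧ Plane p (Ed l) := by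
    intro A hA
    obtain ⟨h1, h2, h3⟩ := (hP A).1 hA
    obtain ⟨l, hl1, hl2, hl3⟩ := tree_list A h1 h2
    refine ⟨l, hl1, hl2, ?_, ?_⟩
    · ext x y
      rw [gr_adj hl1, hl3]
    · intro a b c d hab hcd hX
      have hne := X_ne hX
      by_cases hs : s(a, b) = s(c, d)
      · rcases Sym2.eq_iff.1 hs with ⟨h4, _⟩ | ⟨h4, _⟩
        · exact hne.2.2.1 h4
        · exact hne.2.2.2.1 h4
      · exact (seg_iff hgp hne.1 hne.2.1 hs).1
          (h3 a b c d ((hl3 a b).2 hab) ((hl3 c d).2 hcd) hs) hX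
  obtain ⟨v0⟩ := ((hP G).1 hG).1.connected.nonempty
  have hback : ∀ l : List (Fin n), l.Nodup → (∀ v, v ∈ l) → Plane p (Ed l) → P (gr l) := by
    intro l h1 h2 h3
    refine (hP _).2 ⟨gr_tree h1 (List.ne_nil_of_mem (h2 v0)) h2, gr_deg h1, ?_⟩
    intro a b c d hab hcd hs
    have h4 := (gr_adj h1).1 hab
    have h5 := (gr_adj h1).1 hcd
    exact (seg_iff hgp (ed_ne h1 h4) (ed_ne h1 h5) hs).2 (h3 a b c d h4 h5)
  obtain ⟨l, hl1, hl2, rfl, hl4⟩ := hlist G hG
  obtain ⟨l', hl1', hl2', rfl, hl4'⟩ := hlist H hH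
  have hperm : l'.Perm l :=
    (List.perm_ext_iff_of_nodup hl1' hl1).2 fun v => ⟨fun _ => hl2 v, fun _ => hl2' v⟩
  have hU : Relation.ReflTransGen (U p) l l' := hconn l l' hl1 hperm hl4 hl4'
  have hmain : ∀ l₁ : List (Fin n), Relation.ReflTransGen (U p) l l₁ →
      Relation.ReflTransGen
        (fun A B : SimpleGraph (Fin n) =>
          P A ∧ P B ∧ (A.edgeSet \ B.edgeSet).ncard = 1 ∧
            (B.edgeSet \ A.edgeSet).ncard = 1)
        (gr l) (gr l₁) := by
    intro l₁ h
    induction h with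
    | refl => exact Relation.ReflTransGen.refl
    | @tail l₁ l₂ h1 h2 ih =>
      have hP' : ∀ m : List (Fin n), Relation.ReflTransGen (U p) l m → P (gr m) := by
        intro m hm
        have h3 := u_perm hm
        exact hback m (h3.nodup_iff.2 hl1) (fun v => h3.mem_iff.2 (hl2 v)) (u_plane hl4 hm)
      have hn1 : l₁.Nodup := (u_perm h1).nodup_iff.2 hl1
      rcases h2 with h3 | h3
      · obtain ⟨v, z, h4, _⟩ := id h3
        rcases gr_rot hn1 h4 with h5 | h5
        · rw [h5]
          exact ih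
        · exact ih.tail ⟨hP' l₁ h1, hP' l₂ (h1.tail (Or.inl h3)), h5.1, h5.2⟩
      · rw [h3, gr_reverse]
        exact ih
  exact hmain l' hU

/-- the frozen statement for the point family `p` from `VLp` and the closing law -/
theorem cl_graph (n : ℕ) (p : Fin n → ℝ × ℝ) (hi : Function.Injective p)
    (hc : ∀ i j k : Fin n, i ≠ j → j ≠ k → i ≠ k →
      ¬ Collinear ℝ ({p i, p j, p k} : Set (ℝ × ℝ)))
    (hvl : VLp p) (hcl : CLp p) :
    ∀ P : SimpleGraph (Fin n) → Prop,
      (∀ A : SimpleGraph (Fin n), P A ↔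
        (A.IsTree ∧ (∀ v : Fin n, (A.neighborSet v).ncard ≤ 2) ∧
          ∀ a b c d : Fin n, A.Adj a b → A.Adj c d → s(a, b) ≠ s(c, d) →
            ∀ x : ℝ × ℝ, x ∈ segment ℝ (p a) (p b) → x ∈ segment ℝ (p c) (p d) →
              (x = p a ∨ x = p b) ∧ (x = p c ∨ x = p d))) →
      ∀ G H : SimpleGraph (Fin n), P G → P H →
        Relation.ReflTransGen
          (fun A B : SimpleGraph (Fin n) =>
            P A ∧ P B ∧ (A.edgeSet \ B.edgeSet).ncard = 1 ∧
              (B.edgeSet \ A.edgeSet).ncard = 1)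
          G H :=
  graph_of_conn n p (gp_of hi hc) fun _ _ h1 h2 h3 h4 => cl_conn (gp_of hi hc) hvl hcl h1 h2 h3 h4

end FPW
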