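import Pool.Agent.Lib.MP_deef39_co_Ord.HCyc
import Pool.Agent.Lib.MP_deef39_co_Ord.Red2
import Pool.Agent.Lib.MP_deef39_co_PW.InsP

/-! # Ord module KRed: connectivity from two closing lemmas

`CL0`: every plane path leads to a closable one. `CLK`: every plane path containing the hull edge
`u v` leads, by steps which keep `u v`, to a closable path or to a path with end `u` or `v`.
Then all plane paths on the same set are connected. Induction: paths containing the hull edge
`u v` are connected by steps keeping `u v`; a path starting in `u v` is turned into a path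
containing `v u q` with `q` the neighbour of `v` on the hull of the other points, and these are
the paths of the set without `u` containing the hull edge `q v`.
-/

set_option autoImplicit false

namespace FPW

variable {α : Type*}

/-- the path closes up to a plane polygon -/
def Clos (p : α → ℝ × ℝ) (l : List α) : Prop :=
  ∃ a B, l = a :: B ∧ Plane p (Ed (l ++ [a]))

/-- a rotation or reversal which keeps the edge `u v` -/
def UK (p : α → ℝ × ℝ) (u v : α) (l l' : List α) : Prop :=
  U p l l' ∧ Ed l u v ∧ Ed l' u v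

/-- closing lemma -/
def CL0 (p : α → ℝ × ℝ) : Prop :=
  ∀ l : List α, l ≠ [] → l.Nodup → Plane p (Ed l) →
    ∃ l', Relation.ReflTransGen (U p) l l' ∧ Clos p l'

/-- closing lemma with a kept hull edge `u v` -/
def CLK (p : α → ℝ × ℝ) : Prop :=
  ∀ (u v : α) (l : List α), l.Nodup → Plane p (Ed l) → Ed l u v → (∀ t ∈ l, 0 ≤ o p u v t) →
    ∃ l', Relation.ReflTransGen (UK p u v) l l' ∧
      (Clos p l' ∨ (∃ B, l' = u :: B) ∨ ∃ B, l' = v :: B)

/-- the connectivity statement for the paths containing a hull edge -/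
def ICn (p : α → ℝ × ℝ) (n : ℕ) : Prop :=
  ∀ (u v : α) (l l' : List α), l.length = n → l.Nodup → l'.Perm l → Plane p (Ed l) →
    Plane p (Ed l') → Ed l u v → Ed l' u v → (∀ t ∈ l, 0 ≤ o p u v t) →
    Relation.ReflTransGen (UK p u v) l l'

variable {p : α → ℝ × ℝ}

theorem clos_of_vis {a b : α} {A : List α} (hp : Plane p (Ed (a :: (A ++ [b]))))
    (hv : Vis p (Ed (a :: (A ++ [b]))) b a) : Clos p (a :: (A ++ [b])) := by
  refine ⟨a, A ++ [b], rfl, ?_⟩
  intro x y c d hab hcd hX
  have e1 : (a :: (A ++ [b])) ++ [a] = ((a :: A) ++ [b]) ++ [a] := by simp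
  rw [e1, ed_snoc] at hab hcd
  have e2 : (a :: A) ++ [b] = a :: (A ++ [b]) := by simp
  rw [e2] at hab hcd
  rcases hab with hab | ⟨rfl, rfl⟩ | ⟨rfl, rfl⟩
  · rcases hcd with hcd | ⟨rfl, rfl⟩ | ⟨rfl, rfl⟩
    · exact hp x y c d hab hcd hX
    · exact hv x y hab (X_comm.1 hX)
    · exact hv x y hab (X_sw1.1 (X_comm.1 hX))
  · rcases hcd with hcd | ⟨h5, h6⟩ | ⟨h5, h6⟩
    · exact hv c d hcd hX
    · rw [h5] at hX; exact not_X_of_eq1 hX
    · rw [h6] at hX; exact not_X_of_eq2 hX
  · rcases hcd with hcd | ⟨h5, h6⟩ | ⟨h5, h6⟩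
    · exact hv c d hcd (X_sw1.1 hX)
    · rw [h6] at hX; exact not_X_of_eq2 hX
    · rw [h5] at hX; exact not_X_of_eq1 hX

/-! ### basic facts on `UK` -/

theorem uk_u {u v : α} {l l' : List α} (h : Relation.ReflTransGen (UK p u v) l l') :
    Relation.ReflTransGen (U p) l l' :=
  Relation.ReflTransGen.mono (fun _ _ h => h.1) _ _ h

theorem uk_swap1 {u v : α} {l l' : List α} (h : UK p u v l l') : UK p v u l l' :=
  ⟨h.1, ed_symm h.2.1, ed_symm h.2.2⟩

theorem uk_swap {u v : α} {l l' : List α} (h : Relation.ReflTransGen (UK p u v) l l') :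
    Relation.ReflTransGen (UK p v u) l l' :=
  Relation.ReflTransGen.mono (fun _ _ h => uk_swap1 h) _ _ h

theorem u_mir {l l' : List α} : U (mir p) l l' ↔ U p l l' := by
  unfold U Rot
  simp only [Vis_mir]

theorem uk_mir {u v : α} {l l' : List α} (h : Relation.ReflTransGen (UK p u v) l l') :
    Relation.ReflTransGen (UK (mir p) u v) l l' :=
  Relation.ReflTransGen.mono (fun _ _ h => ⟨u_mir.2 h.1, h.2⟩) _ _ h

theorem uk_mir' {u v : α} {l l' : List α} (h : Relation.ReflTransGen (UK (mir p) u v) l l') :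
    Relation.ReflTransGen (UK p u v) l l' :=
  Relation.ReflTransGen.mono (fun _ _ h => ⟨u_mir.1 h.1, h.2⟩) _ _ h

theorem uk_symm {u v : α} {l l' : List α} (hp : Plane p (Ed l))
    (h : Relation.ReflTransGen (UK p u v) l l') : Relation.ReflTransGen (UK p u v) l' l := by
  induction h with
  | refl => exact Relation.ReflTransGen.refl
  | tail h1 h2 ih =>
    have hp1 := u_plane hp (uk_u h1)
    refine Relation.ReflTransGen.head ?_ ih
    obtain ⟨h2, h3, h4⟩ := h2
    refine ⟨?_, h4, h3⟩
    rcases h2 with h2 | h2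
    · exact Or.inl (rot_symm (plane_no.2 hp1) h2)
    · right
      rw [h2, List.reverse_reverse]

theorem uk_ed {u v : α} {l l' : List α} (h : Relation.ReflTransGen (UK p u v) l l')
    (he : Ed l u v) : Ed l' u v := by
  induction h with
  | refl => exact he
  | tail _ h2 _ => exact h2.2.2

theorem ic_mir {n : ℕ} (h : ICn p n) : ICn (mir p) n := by
  intro u v l l' h1 h2 h3 h4 h5 h6 h7 h8
  refine uk_swap (uk_mir (h v u l l' h1 h2 h3 (Plane_mir.1 h4) (Plane_mir.1 h5) (ed_symm h6)
    (ed_symm h7) ?_))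
  intro t ht
  have h9 := h8 t ht
  rw [o_mir] at h9
  rw [o_swap]
  exact h9

theorem clk_mir (h : CLK p) : CLK (mir p) := by
  intro u v l h1 h2 h3 h4
  obtain ⟨l', h5, h6⟩ := h v u l h1 (Plane_mir.1 h2) (ed_symm h3) (by
    intro t ht
    have h9 := h4 t ht
    rw [o_mir] at h9
    rw [o_swap]
    exact h9)
  refine ⟨l', uk_swap (uk_mir h5), ?_⟩
  rcases h6 with ⟨a, B, h6, h7⟩ | h6 | h6
  · exact Or.inl ⟨a, B, h6, Plane_mir.2 h7⟩
  · exact Or.inr (Or.inr h6)
  · exact Or.inr (Or.inl h6)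

/-! ### turning a polygon -/

theorem uk_step {a b u v : α} {t : List α} (he : Ed (b :: t) u v)
    (hp : Plane p (Ed ((a :: b :: t) ++ [a]))) :
    Relation.ReflTransGen (UK p u v) (a :: b :: t) ((b :: t) ++ [a]) := by
  obtain ⟨D, z, hD⟩ : ∃ D z, b :: t = D ++ [z] := by
    rcases List.eq_nil_or_concat (b :: t) with h | ⟨D, z, h⟩
    · exact absurd h (by simp)
    · exact ⟨D, z, by rw [h, List.concat_eq_append]⟩
  have h1 : Rot p NO (a :: b :: t) (a :: z :: D.reverse) := by
    refine ⟨a, z, ⟨[], D, by rw [hD]; rfl, rfl⟩, ?_⟩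
    intro c d hcd hX
    refine hp z a c d ?_ ?_ hX
    · rw [hD]
      have h2 : (a :: (D ++ [z])) ++ [a] = (a :: D) ++ z :: a :: [] := by simp
      rw [h2]
      exact ed_of_split
    · have h2 := eo_no.1 hcd
      rw [hD] at h2 ⊢
      have h4 : (a :: (D ++ [z])) ++ [a] = ((a :: D) ++ [z]) ++ [a] := by simp
      rw [h4, ed_snoc]
      left
      exact h2
  have h2 : U p (a :: z :: D.reverse) ((b :: t) ++ [a]) := by
    right
    rw [hD]
    simp
  have h3 : U p (a :: b :: t) (a :: z :: D.reverse) := Or.inl h1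
  have e1 : Ed (a :: b :: t) u v := ed_cons2.2 (Or.inr (Or.inr he))
  have e2 : Ed (a :: z :: D.reverse) u v := by
    refine ed_cons2.2 (Or.inr (Or.inr ?_))
    have h4 : z :: D.reverse = (b :: t).reverse := by rw [hD]; simp
    rw [h4]
    exact ed_reverse.2 he
  have e3 : Ed ((b :: t) ++ [a]) u v := by
    rw [hD, ed_snoc, ← hD]
    exact Or.inl he
  exact (Relation.ReflTransGen.single ⟨h3, e1, e2⟩).tail ⟨h2, e2, e3⟩

theorem uk_turn {u v : α} {Q : List α} : ∀ (P : List α),
    (∀ a l, P ++ u :: v :: Q = a :: l → Plane p (Ed ((a :: l) ++ [a]))) →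
    Relation.ReflTransGen (UK p u v) (P ++ u :: v :: Q) (u :: v :: (Q ++ P)) := by
  intro P
  induction P generalizing Q with
  | nil =>
    intro _
    simp only [List.nil_append, List.append_nil]
    exact Relation.ReflTransGen.refl
  | cons a P ih =>
    intro hp
    obtain ⟨b, t, hbt⟩ : ∃ b t, P ++ u :: v :: Q = b :: t := by
      cases P with
      | nil => exact ⟨u, v :: Q, rfl⟩
      | cons b P => exact ⟨b, P ++ u :: v :: Q, rfl⟩
    have h1 := hp a (b :: t) (by rw [List.cons_append, hbt])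
    have h3 := (hc_step h1).2
    have h2 := uk_step (u := u) (v := v) (by rw [← hbt]; exact ed_of_split) h1
    have h4 : (b :: t) ++ [a] = P ++ u :: v :: (Q ++ [a]) := by
      rw [← hbt]; simp
    have h5 := ih (Q := Q ++ [a]) (by
      intro a' l' hal
      have h6 : a' :: l' = (b :: t) ++ [a] := by rw [h4, hal]
      have h7 : a' = b := by
        rw [List.cons_append] at h6
        exact (List.cons.inj h6).1
      rw [h6, h7]
      exact h3)
    rw [List.cons_append, hbt]
    refine h2.trans ?_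
    rw [h4]
    have h6 : u :: v :: (Q ++ a :: P) = u :: v :: (Q ++ [a] ++ P) := by simp
    rw [h6]
    exact h5

/-! ### lifting from the set without `u` -/

theorem ins_edc {y c d : α} {Q m : List α} (h : Ins y c d Q m) : Ed m y d ∧ Ed m y c := by
  obtain ⟨A, B, ⟨rfl, rfl⟩ | ⟨rfl, rfl⟩⟩ := h
  · constructor
    · have h1 : A ++ c :: y :: d :: B = (A ++ [c]) ++ y :: d :: B := by simp
      rw [h1]; exact ed_of_split
    · exact ed_of_split'
  · constructor
    · exact ed_of_split'
    · have h1 : A ++ d :: y :: c :: B = (A ++ [d]) ++ y :: c :: B := by simp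
      rw [h1]; exact ed_of_split

theorem ins_ed' {y c d : α} {Q m : List α} (h : Ins y c d Q m) {a b : α} (hab : Ed Q a b) :
    Ed m a b ∨ (a = c ∧ b = d) ∨ (a = d ∧ b = c) := by
  have key : ∀ (A B : List α) (s t : α), Ed (A ++ s :: t :: B) a b →
      Ed (A ++ s :: y :: t :: B) a b ∨ (a = s ∧ b = t) ∨ (a = t ∧ b = s) := by
    intro A B s t h1
    rw [ed_mid, ed_cons2] at h1
    rw [ed_mid, ed_cons2, ed_cons2]
    tauto
  obtain ⟨A, B, ⟨rfl, rfl⟩ | ⟨rfl, rfl⟩⟩ := h
  · exact key A B c d hab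
  · have := key A B d c hab
    tauto

/-- segments on the far side of the line `q v` do not meet the segments at `u` -/
theorem k_side {q v u z w e : α} (hz : 0 ≤ o p q v z) (hw : 0 ≤ o p q v w) (hu : o p q v u < 0)
    (he : e = q ∨ e = v) : ¬ X p z w u e := by
  intro hX
  have h1 : ¬ X p u e z w := by
    refine h1_side (u := v) (v := q) ?_ ?_ ?_ ?_ ?_
    · rw [o_swap]; linarith
    · rw [o_swap]; rcases he with rfl | rfl <;> simp
    · rw [o_swap]; linarith
    · rw [o_swap]; linarith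
    · left; rw [o_swap]; linarith
  exact h1 (X_comm.1 hX)

theorem uk_lift1 {q v u : α} {m m' M : List α} (hM : M.Nodup) (hi : Ins u q v m M)
    (hs : ∀ t ∈ m, 0 ≤ o p q v t) (hu : o p q v u < 0) (h : UK p q v m m') :
    ∃ M', Ins u q v m' M' ∧ Relation.ReflTransGen (UK p u v) M M' := by
  obtain ⟨h, he, he'⟩ := h
  have hMu : Ed M u v := (ins_edc hi).1
  have hnm : (u :: m).Nodup := (ins_perm hi).nodup_iff.1 hM
  rcases h with ⟨w, z, hr, hv⟩ | h
  · have hw : w ∈ m := by
      obtain ⟨A, B, hA, _⟩ := hr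
      rw [hA]; simp
    have hz : z ∈ m := by
      obtain ⟨A, B, hA, _⟩ := hr
      rw [hA]; simp
    rcases par (List.nodup_cons.1 hnm).2 hr hi with ⟨M', h1, h2⟩ | ⟨h1, A, e, h2, h3⟩
    · refine ⟨M', h1, Relation.ReflTransGen.single ⟨Or.inl ⟨w, z, h2, ?_⟩, hMu,
        (ins_edc h1).1⟩⟩
      intro c d hcd hX
      rcases ins_ed hi (eo_no.1 hcd) with h5 | ⟨rfl, h5⟩ | ⟨rfl, h5⟩
      · exact hv c d (Or.inl h5) hX
      · exact k_side (hs z hz) (hs w hw) hu h5 hX
      · exact k_side (hs z hz) (hs w hw) hu h5 (X_sw2.1 hX)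
    · have hz' : z ≠ u := by
        rintro rfl
        exact (List.nodup_cons.1 hnm).1 hz
      obtain ⟨A2, B2, h5, h6⟩ := h1
      have hqv : (q = w ∧ v = e) ∨ (q = e ∧ v = w) := h3
      have hmn : m'.Nodup := ((rotL_perm hr).nodup_iff).2 (List.nodup_cons.1 hnm).2
      cases B2 with
      | nil =>
        exfalso
        have h7 : m' ++ [u] = (A2 ++ [w]) ++ [z] := by rw [h6]; simp
        have h8 := List.append_inj_right' h7 rfl
        exact hz' (List.cons.inj h8).1.symm
      | cons b B3 =>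
        have h7 : m' ++ [u] = (A2 ++ w :: z :: B3.reverse) ++ [b] := by rw [h6]; simp
        have h8 : u = b := (List.cons.inj (List.append_inj_right' h7 rfl)).1
        have h9 : m' = A2 ++ w :: z :: B3.reverse := List.append_inj_left' h7 rfl
        subst h8
        cases B3 with
        | nil =>
          have h10 : A2 ++ [w] ++ [z] = A ++ [e] := by rw [← h2, h9]; simp
          have h11 : z = e := (List.cons.inj (List.append_inj_right' h10 rfl)).1
          subst h11
          refine ⟨M, ?_, Relation.ReflTransGen.refl⟩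
          rw [h5, h9]
          rcases hqv with ⟨rfl, rfl⟩ | ⟨rfl, rfl⟩
          · exact ⟨A2, [], Or.inl ⟨by simp, by simp⟩⟩
          · exact ⟨A2, [], Or.inr ⟨by simp, by simp⟩⟩
        | cons f B4 =>
          exfalso
          have h10 : (A2 ++ w :: z :: B4.reverse) ++ [f] = A ++ [e] := by rw [← h2, h9]; simp
          have h11 : f = e := (List.cons.inj (List.append_inj_right' h10 rfl)).1
          subst h11
          have h12 : Ed m' w f := by
            rcases hqv with ⟨rfl, rfl⟩ | ⟨rfl, rfl⟩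
            · exact he'
            · exact ed_symm he'
          have h13 : m' = (A2 ++ [w]) ++ (z :: B4.reverse ++ [f]) := by rw [h9]; simp
          have h14 : m' = A2 ++ w :: z :: (B4.reverse ++ [f]) := by rw [h9]; simp
          have hd := List.nodup_append.1 (h13 ▸ hmn)
          rw [h14, ed_mid] at h12
          rcases h12 with h12 | h12
          · exact hd.2.2 f (ed_mem' h12) f (by simp) rfl
          · rcases ed_cons2.1 h12 with ⟨_, h15⟩ | ⟨h15, _⟩ | h15
            · have hd2 := hd.2.1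
              rw [h15] at hd2
              simp at hd2
            · exact hd.2.2 w (by simp) z (by simp) h15
            · exact hd.2.2 w (by simp) w (by simpa using ed_mem h15) rfl
  · refine ⟨M.reverse, ?_, Relation.ReflTransGen.single ⟨Or.inr rfl, hMu, ed_reverse.2 hMu⟩⟩
    rw [h]
    exact ins_reverse hi

theorem uk_lift {q v u : α} {m m' M : List α} (hM : M.Nodup) (hi : Ins u q v m M)
    (hs : ∀ t ∈ m, 0 ≤ o p q v t) (hu : o p q v u < 0)
    (h : Relation.ReflTransGen (UK p q v) m m') :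
    ∃ M', Ins u q v m' M' ∧ Relation.ReflTransGen (UK p u v) M M' := by
  induction h with
  | refl => exact ⟨M, hi, Relation.ReflTransGen.refl⟩
  | @tail m₁ m₂ h1 h2 ih =>
    obtain ⟨M₁, h3, h4⟩ := ih
    have h5 : M₁.Nodup := (u_perm (uk_u h4)).nodup_iff.2 hM
    have h6 := u_perm (uk_u h1)
    obtain ⟨M₂, h7, h8⟩ := uk_lift1 h5 h3 (fun t ht => hs t (h6.mem_iff.1 ht)) hu h2
    exact ⟨M₂, h7, h4.trans h8⟩

/-- the paths containing `q u v` are connected -/
theorem vu_conn {n : ℕ} (ih : ICn p n) {u v q : α} {m m' M M' : List α} (hM : M.Nodup)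
    (hl : m.length = n) (hi : Ins u q v m M) (hi' : Ins u q v m' M') (hperm : M'.Perm M)
    (hp : Plane p (Ed M)) (hp' : Plane p (Ed M')) (hs : ∀ t ∈ m, 0 ≤ o p q v t)
    (hu : o p q v u < 0) : Relation.ReflTransGen (UK p u v) M M' := by
  have hpm : m'.Perm m := by
    have h1 := ((ins_perm hi').symm.trans hperm).trans (ins_perm hi)
    exact (List.perm_cons u).1 h1
  have hn : m.Nodup := (List.nodup_cons.1 ((ins_perm hi).nodup_iff.1 hM)).2
  have hn' : m'.Nodup := hpm.nodup_iff.2 hn
  have key : ∀ (k K : List α), Ins u q v k K → Plane p (Ed K) → (∀ t ∈ k, 0 ≤ o p q v t) →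
      Plane p (Ed k) := by
    intro k K hk hK hsk a b c d hab hcd hX
    have hside : ∀ x y z w : α, ((x = q ∧ y = v) ∨ (x = v ∧ y = q)) → Ed k z w →
        ¬ X p x y z w := by
      intro x y z w hxy hzw hX'
      have h1 : X p q v z w := by
        rcases hxy with ⟨rfl, rfl⟩ | ⟨rfl, rfl⟩
        · exact hX'
        · exact X_sw1.1 hX'
      have h2 := mul_nonneg (hsk z (ed_mem hzw)) (hsk w (ed_mem' hzw))
      have h3 := h1.1
      linarith
    rcases ins_ed' hk hab with h1 | h1
    · rcases ins_ed' hk hcd with h2 | h2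
      · exact hK a b c d h1 h2 hX
      · exact hside c d a b h2 hab (X_comm.1 hX)
    · exact hside a b c d h1 hcd hX
  have h1 := ih q v m m' hl hn hpm (key m M hi hp hs)
    (key m' M' hi' hp' (fun t ht => hs t (hpm.mem_iff.1 ht))) (ins_edge hi) (ins_edge hi') hs
  obtain ⟨M₂, h2, h3⟩ := uk_lift hM hi hs hu h1
  have h4 : M₂ = M' := ins_unique hn' h2 hi' (Or.inl ⟨rfl, rfl⟩)
  rw [← h4]
  exact h3

/-- a path starting in `u v` leads to a path containing `q u v` -/
theorem to_vu {u v q : α} {B : List α} (hq : q ∈ B) (hs : ∀ t ∈ v :: B, 0 ≤ o p q v t)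
    (hu : o p q v u < 0) :
    ∃ m M, Ins u q v m M ∧ Relation.ReflTransGen (UK p u v) (u :: v :: B) M := by
  obtain ⟨B1, B2, rfl⟩ := List.append_of_mem hq
  have e0 : (u :: v :: (B1 ++ q :: B2)).reverse =
      B2.reverse ++ q :: ((B1.reverse ++ [v]) ++ [u]) := by simp
  have e1 : (B2.reverse ++ q :: u :: (B1.reverse ++ [v]).reverse) =
      B2.reverse ++ q :: u :: v :: B1 := by simp
  refine ⟨B2.reverse ++ q :: v :: B1, B2.reverse ++ q :: u :: v :: B1,
    ⟨B2.reverse, B1, Or.inl ⟨rfl, rfl⟩⟩, ?_⟩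
  have hed : Ed (u :: v :: (B1 ++ q :: B2)) u v := ed_cons2.2 (Or.inl ⟨rfl, rfl⟩)
  have hed2 : Ed (u :: v :: (B1 ++ q :: B2)).reverse u v := ed_reverse.2 hed
  have hed3 : Ed (B2.reverse ++ q :: u :: v :: B1) u v := by
    have h1 : B2.reverse ++ q :: u :: v :: B1 = (B2.reverse ++ [q]) ++ u :: v :: B1 := by simp
    rw [h1]; exact ed_of_split
  refine (Relation.ReflTransGen.single ⟨Or.inr rfl, hed, hed2⟩).tail ⟨Or.inl ?_, hed2, hed3⟩
  refine ⟨q, u, ⟨B2.reverse, B1.reverse ++ [v], e0, e1.symm⟩, ?_⟩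
  intro c d hcd hX
  have h1 := ed_reverse.1 (eo_no.1 hcd)
  rcases ed_cons2.1 h1 with ⟨rfl, _⟩ | ⟨_, rfl⟩ | h2
  · exact not_X_of_eq1 hX
  · exact not_X_of_eq2 hX
  · refine k_side (q := q) (v := v) (hs c (ed_mem h2)) (hs d (ed_mem' h2)) hu (Or.inl rfl)
      (X_comm.1 hX)

/-- the path sorted around `v` links the two kinds -/
theorem k_link {u v : α} {Z : List α} (hu : ∀ t ∈ Z, o p v u t < 0)
    (hZ : Z.Pairwise (fun a b => o p v a b < 0)) {q1 : α} (hq : q1 ∈ Z) :
    Plane p (Ed (v :: u :: Z)) ∧ ∃ m X1, Ins v q1 u m X1 ∧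
      Relation.ReflTransGen (UK p u v) (v :: u :: Z) X1 := by
  have hZ' : (u :: Z).Pairwise (fun a b => o p v a b < 0) := List.pairwise_cons.2 ⟨hu, hZ⟩
  refine ⟨h1_sorted_plane (u :: Z) hZ', ?_⟩
  obtain ⟨Z1, Z2, rfl⟩ := List.append_of_mem hq
  have e0 : (v :: u :: (Z1 ++ q1 :: Z2)).reverse =
      Z2.reverse ++ q1 :: ((Z1.reverse ++ [u]) ++ [v]) := by simp
  have e1 : (Z2.reverse ++ q1 :: v :: (Z1.reverse ++ [u]).reverse) =
      Z2.reverse ++ q1 :: v :: u :: Z1 := by simp
  refine ⟨Z2.reverse ++ q1 :: u :: Z1, Z2.reverse ++ q1 :: v :: u :: Z1,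
    ⟨Z2.reverse, Z1, Or.inl ⟨rfl, rfl⟩⟩, ?_⟩
  have hed : Ed (v :: u :: (Z1 ++ q1 :: Z2)) u v := ed_cons2.2 (Or.inr (Or.inl ⟨rfl, rfl⟩))
  have hed2 : Ed (v :: u :: (Z1 ++ q1 :: Z2)).reverse u v := ed_reverse.2 hed
  have hed3 : Ed (Z2.reverse ++ q1 :: v :: u :: Z1) u v := by
    have h1 : Z2.reverse ++ q1 :: v :: u :: Z1 = (Z2.reverse ++ [q1]) ++ v :: u :: Z1 := by
      simp
    rw [h1]; exact ed_of_split'
  refine (Relation.ReflTransGen.single ⟨Or.inr rfl, hed, hed2⟩).tail ⟨Or.inl ?_, hed2, hed3⟩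
  refine ⟨q1, v, ⟨Z2.reverse, Z1.reverse ++ [u], e0, e1.symm⟩, ?_⟩
  intro c d hcd hX
  have h1 := ed_reverse.1 (eo_no.1 hcd)
  have h2 : Ed (u :: (Z1 ++ q1 :: Z2)) c d := by
    rcases ed_cons2.1 h1 with ⟨rfl, _⟩ | ⟨_, rfl⟩ | h2
    · exact (not_X_of_eq1 hX).elim
    · exact (not_X_of_eq2 hX).elim
    · exact h2
  have h3 : u :: (Z1 ++ q1 :: Z2) = (u :: Z1) ++ q1 :: Z2 := by simp
  rw [h3, ed_mid] at h2
  rw [h3] at hZ'
  have h4 := List.pairwise_append.1 hZ'
  rcases h2 with h2 | h2
  · have hk : ∀ t ∈ (u :: Z1) ++ [q1], 0 ≤ o p v q1 t := by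
      intro t ht
      rcases List.mem_append.1 ht with h5 | h5
      · have h6 := h4.2.2 t h5 q1 List.mem_cons_self
        rw [o_swap'] at h6
        linarith
      · have h6 : t = q1 := by simpa using h5
        rw [h6]; simp
    have h5 := mul_nonneg (hk c (ed_mem h2)) (hk d (ed_mem' h2))
    have h6 := hX.1
    linarith
  · have hk : ∀ t ∈ q1 :: Z2, o p v q1 t ≤ 0 := by
      intro t ht
      rcases List.mem_cons.1 ht with h5 | h5
      · rw [h5]; simp
      · exact ((List.pairwise_cons.1 h4.2.1).1 t h5).le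
    have h5 := mul_nonneg_of_nonpos_of_nonpos (hk c (ed_mem h2)) (hk d (ed_mem' h2))
    have h6 := hX.1
    linarith

theorem ic_step [DecidableEq α] (hgp : GP p) (hk : CLK p) {n : ℕ} (ih : ICn p n) :
    ICn p (n + 1) := by
  intro u v l l' hlen hn hperm hp hp' he he' hs
  have ih' := ic_mir ih
  have hgp' := GP_mir hgp
  have huv : u ≠ v := ed_ne hn he
  -- the other points
  have hul : u ∈ l := ed_mem he
  have hvl : v ∈ l := ed_mem' he
  have hvl' : v ∈ l.erase u := (hn.mem_erase_iff).2 ⟨huv.symm, hvl⟩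
  have hpe : l.Perm (u :: v :: (l.erase u).erase v) :=
    (List.perm_cons_erase hul).trans ((List.perm_cons_erase hvl').cons u)
  have hn0 : (u :: v :: (l.erase u).erase v).Nodup := hpe.nodup_iff.1 hn
  generalize hT : (l.erase u).erase v = T at hpe hn0
  have hnv : (v :: T).Nodup := (List.nodup_cons.1 hn0).2
  have hnu : (u :: T).Nodup := by
    simp only [List.nodup_cons, List.mem_cons, not_or] at hn0 ⊢
    exact ⟨hn0.1.2, hn0.2.2⟩
  have hpos : ∀ t ∈ T, 0 < o p u v t := by
    intro t ht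
    have h1 := hs t (hpe.mem_iff.2 (by simp [ht]))
    have h2 : o p u v t ≠ 0 := hgp.ne u v t huv
      (fun h => (List.nodup_cons.1 hnv).1 (h ▸ ht)) (fun h => (List.nodup_cons.1 hnu).1 (h ▸ ht))
    exact lt_of_le_of_ne h1 (Ne.symm h2)
  by_cases hT0 : T = []
  · -- two points only
    subst hT0
    have h2 : ∀ k : List α, k.Perm [u, v] → k = [u, v] ∨ k = [v, u] := by
      intro k hk
      have h3 : k.length = 2 := hk.length_eq
      match k, h3 with
      | [a, b], _ =>
        have ha := hk.mem_iff.1 (show a ∈ [a, b] by simp)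
        have hb := hk.mem_iff.1 (show b ∈ [a, b] by simp)
        have hab : a ≠ b := by
          have h4 := hk.nodup_iff.2 (by simpa using huv)
          simpa using h4
        simp only [List.mem_cons, List.not_mem_nil, or_false] at ha hb
        rcases ha with rfl | rfl <;> rcases hb with rfl | rfl
        · exact absurd rfl hab
        · exact Or.inl rfl
        · exact Or.inr rfl
        · exact absurd rfl hab
    have h3 := h2 l hpe
    have h4 := h2 l' (hperm.trans hpe)
    rcases h3 with rfl | rfl <;> rcases h4 with rfl | rfl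
    · exact Relation.ReflTransGen.refl
    · exact Relation.ReflTransGen.single ⟨Or.inr rfl, he, he'⟩
    · exact Relation.ReflTransGen.single ⟨Or.inr rfl, he, he'⟩
    · exact Relation.ReflTransGen.refl
  -- sorted around `v`
  have hr : ∀ t ∈ T, 0 < cr ((p v).1 - (p u).1, (p v).2 - (p u).2) (p v) (p t) := by
    intro t ht
    have h1 : cr ((p v).1 - (p u).1, (p v).2 - (p u).2) (p v) (p t) = o p u v t := by
      unfold cr o; ring
    rw [h1]
    exact hpos t ht
  obtain ⟨Z, hZ1, hZ2⟩ := h1_sort hgp T.length T rfl hnv hr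
  obtain ⟨q, Z', rfl⟩ : ∃ q Z', Z = q :: Z' := by
    cases Z with
    | nil => exact absurd hZ1.symm.eq_nil hT0
    | cons a Z => exact ⟨a, Z, rfl⟩
  have hqT : q ∈ T := hZ1.mem_iff.1 List.mem_cons_self
  have hq1 : ∀ t ∈ v :: T, 0 ≤ o p q v t := by
    intro t ht
    rcases List.mem_cons.1 ht with rfl | ht
    · simp
    · rcases List.mem_cons.1 (hZ1.mem_iff.2 ht) with rfl | h1
      · simp
      · have h2 := (List.pairwise_cons.1 hZ2).1 t h1
        rw [o_swap] at h2
        linarith
  have hq2 : o p q v u < 0 := by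
    have h1 := hpos q hqT
    have h2 : o p q v u = - o p u v q := by unfold o; ring
    rw [h2]; linarith
  -- the extreme vertex around `u`
  have hr' : ∀ t ∈ T, 0 < cr ((p u).2 - (p v).2, (p u).1 - (p v).1) (mir p u) (mir p t) := by
    intro t ht
    have h1 : cr ((p u).2 - (p v).2, (p u).1 - (p v).1) (mir p u) (mir p t) = o p u v t := by
      unfold cr o mir; ring
    rw [h1]
    exact hpos t ht
  obtain ⟨q1, hq1T, hq3⟩ := h1_ext hgp' T hnu hT0 hr'
  have hq4 : ∀ t ∈ u :: T, 0 ≤ o (mir p) q1 u t := by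
    intro t ht
    rcases List.mem_cons.1 ht with rfl | ht
    · simp
    · by_cases h1 : t = q1
      · rw [h1]; simp
      · have h2 := hq3 t ht h1
        rw [o_swap] at h2
        linarith
  have hq5 : o (mir p) q1 u v < 0 := by
    have h1 := hpos q1 hq1T
    have h2 : o (mir p) q1 u v = - o p u v q1 := by unfold o mir; ring
    rw [h2]; linarith
  -- the link
  have hu : ∀ t ∈ q :: Z', o p v u t < 0 := by
    intro t ht
    have h1 := hpos t (hZ1.mem_iff.1 ht)
    rw [o_swap]
    linarith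
  obtain ⟨hX0, m1, X1, hX1, hX01⟩ := k_link hu hZ2 (hZ1.mem_iff.2 hq1T)
  have hX0p : (v :: u :: q :: Z').Perm l :=
    ((List.Perm.swap u v _).trans ((hZ1.cons v).cons u)).trans hpe.symm
  have hX1p : X1.Perm l := (u_perm (uk_u hX01)).trans hX0p
  have hX1pl : Plane p (Ed X1) := u_plane hX0 (uk_u hX01)
  have hlenT : (v :: T).length = n := by
    have h1 := hpe.length_eq
    rw [hlen] at h1
    simp only [List.length_cons] at h1 ⊢
    omega
  -- every path reaches `X0`
  have key : ∀ L : List α, L.Perm l → Plane p (Ed L) → Ed L u v →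
      Relation.ReflTransGen (UK p u v) L (v :: u :: q :: Z') := by
    intro L hL hLp hLe
    have hLn : L.Nodup := hL.nodup_iff.2 hn
    -- first case: head `u`
    have c1 : ∀ B, Relation.ReflTransGen (UK p u v) L (u :: v :: B) →
        Relation.ReflTransGen (UK p u v) L (v :: u :: q :: Z') := by
      intro B hB
      have h1 : (u :: v :: B).Perm (u :: v :: T) := ((u_perm (uk_u hB)).trans hL).trans hpe
      have h2 : B.Perm T := (List.perm_cons v).1 ((List.perm_cons u).1 h1)
      obtain ⟨m, M, h3, h4⟩ := to_vu (h2.mem_iff.2 hqT)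
        (fun t ht => hq1 t ((h2.cons v).mem_iff.1 ht)) hq2
      have h5 := hB.trans h4
      have h6 : M.Perm l := (u_perm (uk_u h5)).trans hL
      have h7 : (u :: m).Perm (u :: v :: T) := ((ins_perm h3).symm.trans h6).trans hpe
      have h8 : m.Perm (v :: T) := (List.perm_cons u).1 h7
      have h9 : Ins u q v (v :: q :: Z') (v :: u :: q :: Z') :=
        ⟨[], Z', Or.inr ⟨rfl, rfl⟩⟩
      have h10 := vu_conn ih (h6.nodup_iff.2 hn) (by rw [h8.length_eq, hlenT]) h3 h9
        (hX0p.trans h6.symm) (u_plane hLp (uk_u h5)) hX0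
        (fun t ht => hq1 t (h8.mem_iff.1 ht)) hq2
      exact h5.trans h10
    -- second case: head `v`
    have c2 : ∀ B, Relation.ReflTransGen (UK p u v) L (v :: u :: B) →
        Relation.ReflTransGen (UK p u v) L (v :: u :: q :: Z') := by
      intro B hB
      have h1 : (v :: u :: B).Perm (v :: u :: T) :=
        (((u_perm (uk_u hB)).trans hL).trans hpe).trans (List.Perm.swap v u _)
      have h2 : B.Perm T := (List.perm_cons u).1 ((List.perm_cons v).1 h1)
      obtain ⟨m, M, h3, h4⟩ := to_vu (p := mir p) (h2.mem_iff.2 hq1T)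
        (fun t ht => hq4 t ((h2.cons u).mem_iff.1 ht)) hq5
      have h5 := hB.trans (uk_swap (uk_mir' h4))
      have h6 : M.Perm l := (u_perm (uk_u h5)).trans hL
      have h7 : (v :: m).Perm (v :: u :: T) :=
        (((ins_perm h3).symm.trans h6).trans hpe).trans (List.Perm.swap v u _)
      have h8 : m.Perm (u :: T) := (List.perm_cons v).1 h7
      have h10 := vu_conn ih' (h6.nodup_iff.2 hn) (by
          rw [h8.length_eq, ← hlenT]; simp) h3 hX1
        (hX1p.trans h6.symm) (Plane_mir.2 (u_plane hLp (uk_u h5))) (Plane_mir.2 hX1pl)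
        (fun t ht => hq4 t (h8.mem_iff.1 ht)) hq5
      exact (h5.trans (uk_swap (uk_mir' h10))).trans (uk_symm hX0 hX01)
    obtain ⟨L', h1, h2⟩ := hk u v L hLn hLp hLe (fun t ht => hs t (hL.mem_iff.1 ht))
    have h3 : Ed L' u v := uk_ed h1 hLe
    have h4 : L'.Nodup := (u_perm (uk_u h1)).nodup_iff.2 hLn
    rcases h2 with ⟨a, B, h5, h6⟩ | ⟨B, h5⟩ | ⟨B, h5⟩
    · obtain ⟨P, Q, h7 | h7⟩ := ed_split h3
      · have h8 : Relation.ReflTransGen (UK p u v) (P ++ u :: v :: Q) (u :: v :: (Q ++ P)) := by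
          refine uk_turn P ?_
          intro a' l₁ h9
          rw [← h7, h5] at h9
          obtain ⟨rfl, rfl⟩ := List.cons.inj h9
          rw [h5] at h6
          exact h6
        rw [h7] at h1
        exact c1 _ (h1.trans h8)
      · have h8 : Relation.ReflTransGen (UK p v u) (P ++ v :: u :: Q) (v :: u :: (Q ++ P)) := by
          refine uk_turn P ?_
          intro a' l₁ h9
          rw [← h7, h5] at h9
          obtain ⟨rfl, rfl⟩ := List.cons.inj h9
          rw [h5] at h6
          exact h6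
        rw [h7] at h1
        exact c2 _ (h1.trans (uk_swap h8))
    · rw [h5] at h3 h4 h1
      cases B with
      | nil => exact absurd h3 ed_single
      | cons b B =>
        rcases ed_cons2.1 h3 with ⟨_, rfl⟩ | ⟨_, h6⟩ | h6
        · exact c1 _ h1
        · exact absurd h6.symm huv
        · exact absurd (ed_mem h6) (List.nodup_cons.1 h4).1
    · rw [h5] at h3 h4 h1
      cases B with
      | nil => exact absurd h3 ed_single
      | cons b B =>
        rcases ed_cons2.1 h3 with ⟨h6, _⟩ | ⟨rfl, _⟩ | h6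
        · exact absurd h6 huv
        · exact c2 _ h1
        · exact absurd (ed_mem' h6) (List.nodup_cons.1 h4).1
  exact (key l (List.Perm.refl _) hp he).trans
    (uk_symm hp' (key l' hperm hp' he'))

theorem ic_all [DecidableEq α] (hgp : GP p) (hk : CLK p) (n : ℕ) : ICn p n := by
  induction n with
  | zero =>
    intro u v l l' hl _ _ _ _ he
    rw [List.length_eq_zero_iff.1 hl] at he
    exact absurd he ed_nil
  | succ n ih => exact ic_step hgp hk ih

/-- a hull vertex `h` becomes the head, and then its hull edge `x h` is inserted -/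
theorem k_edge {h x : α} {Q : List α} (hx : x ∈ Q) (hs : ∀ t ∈ h :: Q, 0 ≤ o p x h t) :
    ∃ M, U p (h :: Q).reverse M ∧ Ed M x h := by
  obtain ⟨B1, B2, rfl⟩ := List.append_of_mem hx
  refine ⟨B2.reverse ++ x :: h :: B1, Or.inl ⟨x, h, ⟨B2.reverse, B1.reverse, ?_, ?_⟩, ?_⟩,
    ed_of_split⟩
  · simp
  · simp
  · intro c d hcd hX
    have h1 := ed_reverse.1 (eo_no.1 hcd)
    have h2 := mul_nonneg (hs c (ed_mem h1)) (hs d (ed_mem' h1))
    have h3 := (X_sw1.1 hX).1
    linarith

/-- all plane paths on the same set are connected by rotations and reversals -/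
theorem k_conn [DecidableEq α] (hgp : GP p) (h0 : CL0 p) (hk : CLK p) {l l' : List α}
    (hn : l.Nodup) (hperm : l'.Perm l) (hp : Plane p (Ed l)) (hp' : Plane p (Ed l')) :
    Relation.ReflTransGen (U p) l l' := by
  by_cases hne : l = []
  · subst hne
    rw [hperm.eq_nil]
  obtain ⟨h, hh, hv⟩ := da_hull hgp hne
  by_cases hl0 : l = [h]
  · subst hl0
    rw [List.perm_singleton.1 hperm]
  -- the extreme vertex around `h`
  have hpe : l.Perm (h :: l.erase h) := List.perm_cons_erase hh
  have hn0 : (h :: l.erase h).Nodup := hpe.nodup_iff.1 hn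
  have hne0 : l.erase h ≠ [] := by
    intro h1
    rw [h1] at hpe
    exact hl0 (List.perm_singleton.1 hpe)
  obtain ⟨r, hr⟩ := hv
  obtain ⟨x, hx, hx2⟩ := h1_ext hgp (r := r) (l.erase h) hn0 hne0 (by
    intro t ht
    refine hr t (hpe.mem_iff.2 (List.mem_cons_of_mem _ ht)) ?_
    rintro rfl
    exact (List.nodup_cons.1 hn0).1 ht)
  have hs : ∀ t ∈ l, 0 ≤ o p x h t := by
    intro t ht
    rw [o_swap]
    rcases List.mem_cons.1 (hpe.mem_iff.1 ht) with rfl | h1
    · simp
    · by_cases h2 : t = x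
      · rw [h2]; simp
      · have h3 := hx2 t h1 h2
        linarith
  -- every path reaches a path with the edge `x h`
  have key : ∀ L : List α, L.Perm l → Plane p (Ed L) →
      ∃ M, Relation.ReflTransGen (U p) L M ∧ Ed M x h := by
    intro L hL hLp
    have hLn : L.Nodup := hL.nodup_iff.2 hn
    have hLne : L ≠ [] := by
      rintro rfl
      exact hne hL.symm.eq_nil
    obtain ⟨L', h1, a, B, h2, h3⟩ := h0 L hLne hLn hLp
    have h4 : L'.Perm l := (u_perm h1).trans hL
    obtain ⟨P, Q, h5⟩ := List.append_of_mem (h4.mem_iff.2 hh)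
    have h6 : Relation.ReflTransGen (U p) (P ++ h :: Q) (h :: (Q ++ P)) := by
      refine hc_turn P ?_
      intro a' l₁ h7
      rw [← h5, h2] at h7
      obtain ⟨rfl, rfl⟩ := List.cons.inj h7
      rw [h2] at h3
      exact h3
    rw [h5] at h1 h4
    have h7 := h1.trans h6
    have h8 : (h :: (Q ++ P)).Perm l := (u_perm h7).trans hL
    have h9 : (Q ++ P).Perm (l.erase h) := (List.perm_cons h).1 (h8.trans hpe)
    obtain ⟨M, h10, h11⟩ := k_edge (h9.mem_iff.2 hx) (fun t ht => hs t (h8.mem_iff.1 ht))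
    exact ⟨M, (h7.tail (Or.inr rfl)).tail h10, h11⟩
  obtain ⟨M, h1, h2⟩ := key l (List.Perm.refl _) hp
  obtain ⟨M', h1', h2'⟩ := key l' hperm hp'
  have h3 : M.Perm l := u_perm h1
  have h3' : M'.Perm M := ((u_perm h1').trans hperm).trans h3.symm
  have h4 := ic_all hgp hk M.length x h M M' rfl (h3.nodup_iff.2 hn) h3' (u_plane hp h1)
    (u_plane hp' h1') h2 h2' (fun t ht => hs t (h3.mem_iff.1 ht))
  exact (h1.trans (uk_u h4)).trans (u_symm hp' h1')

/-- the frozen statement for the point family `p` from the two closing lemmas -/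
theorem k_graph (n : ℕ) (p : Fin n → ℝ × ℝ) (hi : Function.Injective p)
    (hc : ∀ i j k : Fin n, i ≠ j → j ≠ k → i ≠ k →
      ¬ Collinear ℝ ({p i, p j, p k} : Set (ℝ × ℝ)))
    (h0 : CL0 p) (hk : CLK p) :
    ∀ P : SimpleGraph (Fin n) → Prop,
      (∀ A : SimpleGraph (Fin n), P A ↔
        (A.IsTree ∧ (∀ v : Fin n, (A.neighborSet v).ncard ≤ 2) ∧
          ∀ a b c d : Fin n, A.Adj a b → A.Adj c d → s(a, b) ≠ s(c, d) →
            ∀ x : ℝ × ℝ, x ∈ segment ℝ (p a) (p b) → x ∈ segment ℝ (p c) (p d) →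
              (x = p a ∨ x = p b) ∧ (x = p c ∨ x = p d))) →
      ∀ G H : SimpleGraph (Fin n), P G → P H →
        Relation.ReflTransGen
          (fun A B : SimpleGraph (Fin n) =>
            P A ∧ P B ∧ (A.edgeSet \ B.edgeSet).ncard = 1 ∧
              (B.edgeSet \ A.edgeSet).ncard = 1)
          G H :=
  graph_of_conn n p (gp_of hi hc) fun _ _ h1 h2 h3 h4 => k_conn (gp_of hi hc) h0 hk h1 h2 h3 h4

end FPW
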