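import Pool.Agent.Lib.MP_deef39_co_Ord.GDef

/-! # Ord module GMir: mirror images of polygons of fences -/

set_option autoImplicit false

namespace FPW

variable {α : Type*} {p : α → ℝ × ℝ}

theorem cr_mir' (r : ℝ × ℝ) (a b : α) :
    cr (-r.2, -r.1) (mir p a) (mir p b) = cr r (p a) (p b) := by
  unfold cr mir
  ring

theorem mir_mir : mir (mir p) = p := rfl

theorem lf_mir {A g B z : α} : Lf (mir p) B g A z ↔ Lf p A g B z := by
  have h1 : o (mir p) g A z = o p g z A := by rw [o_mir, o_swap']; ring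
  have h2 : o (mir p) g z B = o p g B z := by rw [o_mir, o_swap']; ring
  have h3 : o (mir p) g B A = o p g A B := by rw [o_mir, o_swap']; ring
  unfold Lf
  rw [h1, h2, h3]
  tauto

theorem cyc_reverse {v : α} {P : List α} : (cyc v P).reverse = cyc v P.reverse := by
  simp [cyc]

theorem ed_cyc_reverse {v : α} {P : List α} {a b : α} :
    Ed (cyc v P.reverse) a b ↔ Ed (cyc v P) a b := by
  rw [← cyc_reverse, ed_reverse]

private theorem tri3_mir_aux {v : α} {P : List α} {A g B : α} (h : Tri3 v P A g B) :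
    Tri3 v P.reverse B g A := by
  rcases h with ⟨S, T, h⟩ | ⟨T, h, h2⟩ | ⟨S, h, h2⟩ | ⟨h1, h2, h3⟩
  · left
    exact ⟨T.reverse, S.reverse, by rw [h]; simp⟩
  · right; right; left
    exact ⟨T.reverse, by rw [h]; simp, h2⟩
  · right; left
    exact ⟨S.reverse, by rw [h]; simp, h2⟩
  · right; right; right
    exact ⟨h1, by rw [List.head?_reverse]; exact h3, by rw [List.getLast?_reverse]; exact h2⟩

theorem tri3_mir {v : α} {P : List α} {A g B : α} :
    Tri3 v P.reverse B g A ↔ Tri3 v P A g B := by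
  constructor
  · intro h
    have h1 := tri3_mir_aux h
    rwa [List.reverse_reverse] at h1
  · exact tri3_mir_aux

private theorem ext1_mir_aux {L : List α} {g : α} (h : Ext1 p L g) : Ext1 (mir p) L g := by
  obtain ⟨h1, r, h2⟩ := h
  refine ⟨h1, (-r.2, -r.1), fun t ht hne => ?_⟩
  rw [cr_mir']
  exact h2 t ht hne

theorem ext1_mir {L : List α} {g : α} : Ext1 (mir p) L g ↔ Ext1 p L g :=
  ⟨fun h => ext1_mir_aux (p := mir p) h, ext1_mir_aux⟩

theorem mem_mir {v : α} {P : List α} {t : α} : t ∈ v :: P.reverse ↔ t ∈ v :: P := by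
  simp only [List.mem_cons, List.mem_reverse]

theorem ext1_reverse {v : α} {P : List α} {g : α} :
    Ext1 p (v :: P.reverse) g ↔ Ext1 p (v :: P) g := by
  unfold Ext1
  simp only [mem_mir]

theorem xc_mir {s t : α} {l : List α} : xc (mir p) s t l = xc p s t l := by
  induction l with
  | nil => rfl
  | cons a l ih =>
    cases l with
    | nil => rfl
    | cons b l => rw [xc_cons2, xc_cons2, ih, b2_congr X_mir]

theorem lam_mir {v : α} {P : List α} {z : α} : Lam (mir p) v P.reverse z = Lam p v P z := by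
  unfold Lam
  rw [xc_mir, ← cyc_reverse, xc_reverse]
  congr 1
  apply b2_congr
  constructor
  · rintro ⟨A, B, h1, h2, h3⟩
    rw [List.head?_reverse] at h1
    rw [List.getLast?_reverse] at h2
    exact ⟨B, A, h2, h1, lf_mir.1 h3⟩
  · rintro ⟨A, B, h1, h2, h3⟩
    refine ⟨B, A, ?_, ?_, lf_mir.2 h3⟩
    · rw [List.head?_reverse]; exact h2
    · rw [List.getLast?_reverse]; exact h1

theorem sim_mir {v : α} {P : List α} (h : Sim p v P) : Sim (mir p) v P.reverse := by
  refine ⟨?_, ?_, ?_⟩
  · have h1 := h.nodup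
    rw [List.nodup_cons] at h1 ⊢
    exact ⟨by simpa using h1.1, List.nodup_reverse.2 h1.2⟩
  · rw [List.length_reverse]
    exact h.len
  · rw [Plane_mir]
    exact Plane_mono (fun a b hab => ed_cyc_reverse.1 hab) h.plane

theorem pos_mir {v : α} {P : List α} (h : Pos p v P) : Pos (mir p) v P.reverse := by
  intro A g B h1 h2
  have h3 := h B g A (tri3_mir.1 h1) (ext1_reverse.1 (ext1_mir.1 h2))
  rw [o_mir, o_swap'']
  linarith

theorem nx_reverse {L : List α} {x y : α} : Nx L.reverse x y ↔ Nx L y x := by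
  have key : ∀ {L : List α} {x y : α}, Nx L y x → Nx L.reverse x y := by
    rintro L x y ⟨S, T, h⟩
    exact ⟨T.reverse, S.reverse, by rw [h]; simp⟩
  constructor
  · intro h
    have h1 := key h
    rwa [List.reverse_reverse] at h1
  · exact key

theorem chn_mir {V : Set α} {A q B : α} {E : List α} (h : Chn p V A q B E) :
    Chn (mir p) V B q A E.reverse := by
  have hrev : B :: (E.reverse ++ [A]) = (A :: (E ++ [B])).reverse := by simp
  refine ⟨?_, ?_, ?_, ?_, ?_, ?_⟩
  · rw [o_mir, o_swap'']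
    have := h.left
    linarith
  · intro e he
    obtain ⟨h1, h2⟩ := h.mem e (List.mem_reverse.1 he)
    refine ⟨h1, InTri_mir.2 ?_⟩
    unfold InTri at h2 ⊢
    rw [o_swap p q B e, o_swap p A q e, o_swap p B A e] at *
    rcases h2 with ⟨h3, h4, h5⟩ | ⟨h3, h4, h5⟩
    · right; exact ⟨by linarith, by linarith, by linarith⟩
    · left; exact ⟨by linarith, by linarith, by linarith⟩
  · rw [hrev]
    exact List.nodup_reverse.2 h.nodup
  · intro x y z hxyz
    rw [hrev] at hxyz
    have h1 : [z, y, x].Sublist (A :: (E ++ [B])) := by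
      have h2 := hxyz.reverse
      rw [List.reverse_reverse] at h2
      exact h2
    have h3 := h.conv z y x h1
    rw [o_mir, o_swap'']
    linarith
  · intro x y hxy
    rw [hrev] at hxy
    have h1 : [y, x].Sublist (A :: (E ++ [B])) := by
      have h2 := hxy.reverse
      rw [List.reverse_reverse] at h2
      exact h2
    have h3 := h.ang y x h1
    rw [o_mir, o_swap']
    linarith
  · intro x y hxy z hz hin
    rw [hrev, nx_reverse] at hxy
    refine h.emp y x hxy z hz ?_
    have h2 := InTri_mir.1 hin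
    unfold InTri at h2 ⊢
    rw [o_swap p y q z, o_swap p x y z, o_swap p q x z]
    rcases h2 with ⟨h3, h4, h5⟩ | ⟨h3, h4, h5⟩
    · right; exact ⟨by linarith, by linarith, by linarith⟩
    · left; exact ⟨by linarith, by linarith, by linarith⟩

theorem wh_mir (hgp : GP p) {St : Set (List α)} {V W : Set α} {v : α} {P : List α}
    (h : WH p St V W v P) : WH (mir p) St V W v P.reverse := by
  refine ⟨sim_mir h.sim, pos_mir h.pos, ?_, h.wsub, ?_, h.span, h.nd, ?_, ?_, ?_, ?_, ?_, ?_,
    ?_⟩
  · intro t ht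
    exact h.mem t (mem_mir.1 ht)
  · intro l hl
    exact Plane_mir.2 (h.plane l hl)
  · intro a b hab l hl
    exact Vis_mir.2 (h.fen a b (ed_cyc_reverse.1 hab) l hl)
  · intro A g B h1 hg
    have h3 := h.conv B g A (tri3_mir.1 h1) hg
    rw [o_mir, o_swap'']
    linarith
  · intro u hu hu2
    rw [lam_mir]
    exact h.inn u hu (fun h1 => hu2 (mem_mir.2 h1))
  · intro s hs hs2 hs3
    rw [lam_mir]
    exact h.out s hs hs2 (fun h1 => hs3 (mem_mir.2 h1))
  · intro l hl c d hcd hc
    rcases h.clo l hl c d hcd hc with h1 | h1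
    · exact Or.inl h1
    · exact Or.inr (mem_mir.2 h1)
  · intro l hl c d hcd hf hc hd hne A B h1
    have h2 := h.chord l hl c d hcd hf (mem_mir.1 hc) (mem_mir.1 hd)
      (fun h3 => hne (ed_cyc_reverse.2 h3)) B A (tri3_mir.1 h1)
    exact lf_mir.2 h2
  · intro l hl c d hcd hc hd hcm hdm hne A B h1 h4
    exact h.schord l hl c d hcd hc hd (mem_mir.1 hcm) (mem_mir.1 hdm)
      (fun h3 => hne (ed_cyc_reverse.2 h3)) B A (tri3_mir.1 h1) (lf_mir.1 h4)

theorem rhu_mir (hgp : GP p) {St : Set (List α)} {V W : Set α} {v : α} {P : List α}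
    (h : RHu p St V W v P) : RHu (mir p) St V W v P.reverse := by
  refine ⟨wh_mir hgp h.toWH, ?_⟩
  intro A g B h1 hg hv
  have h3 := h.refl B g A (tri3_mir.1 h1) hg hv
  rw [o_mir, o_swap'']
  linarith

theorem ps_mir {Q : List α} {v : α} {W : Set α} : PS (mir p) Q v W = PS p Q v W := by
  unfold PS
  simp only [Plane_mir]

end FPW
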