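import Pool.Agent.Lib.MP_deef39_co_Ord.GDef

/-! # Ord module GReg: the region between the apex `q` and the hull chain

`reg`: a segment without end in the region which does not cross `qA`, `qB` crosses no side and no
spoke of the region. `reg_q`: segments from `q` which leave the cone `A q B` do not cross the
chain. `reg_left`: a segment from a chain vertex which does not cross `qA`, `qB` starts on the left
of the chain.
-/

set_option autoImplicit false

namespace FPW

variable {α : Type*} {p : α → ℝ × ℝ}

private theorem gr_sub2 {L : List α} {x y : α} (h : Nx L x y) : [x, y].Sublist L := by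
  obtain ⟨S, T, rfl⟩ := h
  refine List.sublist_append_of_sublist_right ?_
  exact ((List.nil_sublist T).cons_cons y).cons_cons x

private theorem gr_sub3 {S T : List α} {a e b : α} (ha : a ∈ S) (hb : b ∈ T) :
    [a, e, b].Sublist (S ++ e :: T) := by
  have h1 : [a].Sublist S := List.singleton_sublist.2 ha
  have h2 : [b].Sublist T := List.singleton_sublist.2 hb
  exact h1.append (h2.cons_cons e)

private theorem gr_nx_cons {L : List α} {x y r : α} (h : Nx L x y) : Nx (r :: L) x y := by
  obtain ⟨S, T, rfl⟩ := h
  exact ⟨r :: S, T, rfl⟩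

private theorem gr_nx_app {L S : List α} {x y : α} (h : Nx L x y) : Nx (S ++ L) x y := by
  obtain ⟨S', T, rfl⟩ := h
  exact ⟨S ++ S', T, by simp⟩

private theorem gr_nx_app' {L S : List α} {x y : α} (h : Nx L x y) : Nx (L ++ S) x y := by
  obtain ⟨S', T, rfl⟩ := h
  exact ⟨S', T ++ S, by simp⟩

private theorem gr_nx_rev {L : List α} {x y : α} (h : Nx L.reverse x y) : Nx L y x := by
  obtain ⟨S, T, hST⟩ := h
  refine ⟨T.reverse, S.reverse, ?_⟩
  rw [← L.reverse_reverse, hST]
  simp

private theorem gr_walk {P Q : α → Prop} {B : α} (hB : ¬ P B) : ∀ (T : List α) (r : α), P r →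
    (∀ x y, Nx (r :: (T ++ [B])) x y → P x → ¬ P y → Q y) → ∃ b ∈ T ++ [B], Q b := by
  intro T
  induction T with
  | nil =>
    intro r hr h
    exact ⟨B, by simp, h r B ⟨[], [], rfl⟩ hr hB⟩
  | cons t T ih =>
    intro r hr h
    by_cases ht : P t
    · obtain ⟨b, hb, hQ⟩ := ih t ht (fun x y hn hx hy => h x y (gr_nx_cons hn) hx hy)
      exact ⟨b, by rw [List.cons_append]; exact List.mem_cons_of_mem _ hb, hQ⟩
    · exact ⟨t, by simp, h r t ⟨[], T ++ [B], rfl⟩ hr ht⟩

/-- no admissible point lies in a triangle of the region -/
private theorem gr_emp {V : Set α} {A q B : α} {E : List α} (h : Chn p V A q B E) {x y d : α}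
    (hn : Nx (A :: (E ++ [B])) x y) (hd : d ∈ V ∨ d = A ∨ d = B) : ¬ InTri p q x y d := by
  intro hI
  rcases hd with hd | hd | hd
  · exact h.emp x y hn d hd hI
  · subst hd
    obtain ⟨S, T, hST⟩ := hn
    cases S with
    | nil =>
      have hx : d = x := (List.cons.inj hST).1
      subst hx
      rcases hI with hI | hI
      · have := hI.1
        simp at this
      · have := hI.1
        simp at this
    | cons s S =>
      have hs : d = s := (List.cons.inj hST).1
      subst hs
      have hsub3 : [d, x, y].Sublist (d :: (E ++ [B])) := by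
        rw [hST, List.cons_append]
        refine List.Sublist.cons_cons d (List.sublist_append_of_sublist_right ?_)
        exact ((List.nil_sublist T).cons_cons y).cons_cons x
      have hsub2 : [d, y].Sublist (d :: (E ++ [B])) :=
        List.Sublist.trans (by
          exact List.Sublist.cons_cons d (List.Sublist.cons x (List.Sublist.refl [y]))) hsub3
      have h1 := h.conv d x y hsub3
      have h2 := h.ang d y hsub2
      have e1 : o p x y d = o p d x y := o_rot p d x y
      have e2 : o p y q d = o p q d y := o_rot' p q d y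
      rcases hI with hI | hI
      · have := hI.2.2
        linarith
      · have := hI.2.1
        linarith
  · subst hd
    obtain ⟨S, T, hST⟩ := hn
    rcases List.eq_nil_or_concat T with hT | ⟨T', t, hT⟩
    · subst hT
      have hy : y = d := by
        have h1 : (A :: (E ++ [d])).getLast? = some d := by
          rw [← List.cons_append, List.getLast?_append]
          simp
        have h2 : (S ++ [x, y]).getLast? = some y := by simp
        rw [hST, h2] at h1
        exact Option.some.inj h1
      subst hy
      rcases hI with hI | hI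
      · have := hI.2.1
        simp at this
      · have := hI.2.1
        simp at this
    · rw [List.concat_eq_append] at hT
      have ht : t = d := by
        have h1 : (A :: (E ++ [d])).getLast? = some d := by
          rw [← List.cons_append, List.getLast?_append]
          simp
        have h2 : (S ++ x :: y :: T).getLast? = some t := by
          have e1 : S ++ x :: y :: T = (S ++ x :: y :: T') ++ [t] := by
            rw [hT]
            simp
          rw [e1, List.getLast?_append]
          simp
        rw [hST, h2] at h1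
        exact Option.some.inj h1
      subst ht
      have hsub3 : [x, y, t].Sublist (A :: (E ++ [t])) := by
        rw [hST, hT]
        refine List.sublist_append_of_sublist_right ?_
        refine List.Sublist.cons_cons x (List.Sublist.cons_cons y ?_)
        exact List.sublist_append_right T' [t]
      have hsub2 : [x, t].Sublist (A :: (E ++ [t])) :=
        List.Sublist.trans (by
          exact List.Sublist.cons_cons x (List.Sublist.cons y (List.Sublist.refl [t]))) hsub3
      have h1 := h.conv x y t hsub3
      have h2 := h.ang x t hsub2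
      rcases hI with hI | hI
      · have := hI.1
        linarith
      · have := hI.2.1
        linarith

private theorem gr_neq {V : Set α} {A q B : α} {E : List α} (h : Chn p V A q B E) {x y : α}
    (hn : Nx (A :: (E ++ [B])) x y) : q ≠ x ∧ x ≠ y ∧ q ≠ y := by
  have h1 := h.ang x y (gr_sub2 hn)
  refine ⟨?_, ?_, ?_⟩ <;> rintro rfl <;> simp at h1

/-- parity in one triangle of the region -/
private theorem gr_par (hgp : GP p) {V : Set α} {A q B : α} {E : List α}
    (h : Chn p V A q B E) {c d : α} (hc : c ≠ q) (hd : d ≠ q) (hcV : c ∈ V ∨ c = A ∨ c = B)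
    (hdV : d ∈ V ∨ d = A ∨ d = B) {x y : α} (hn : Nx (A :: (E ++ [B])) x y) (hcx : c ≠ x)
    (hcy : c ≠ y) (hdx : d ≠ x) (hdy : d ≠ y) :
    b2 (X p q x c d) + b2 (X p x y c d) + b2 (X p q y c d) = 0 := by
  obtain ⟨h1, h2, h3⟩ := gr_neq h hn
  have key := tri_par hgp (s := q) (t := x) (r := y) (a := c) (b := d) h1 h2 h3
    ⟨hc.symm, hcx.symm, hcy.symm⟩ ⟨hd.symm, hdx.symm, hdy.symm⟩
  rw [b2_false (gr_emp h hn hcV), b2_false (gr_emp h hn hdV), add_zero,
    b2_congr (X_sw1 (a := y) (b := q))] at key
  exact key

private theorem gr_step (hgp : GP p) {V : Set α} {A q B : α} {E : List α}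
    (h : Chn p V A q B E) {c d : α} (hc : c ≠ q) (hd : d ≠ q) (hcV : c ∈ V ∨ c = A ∨ c = B)
    (hdV : d ∈ V ∨ d = A ∨ d = B) {x y : α} (hn : Nx (A :: (E ++ [B])) x y) :
    (X p q x c d → ¬ X p q y c d → 0 ≤ o p c d y * o p c d q) ∧
      (X p q y c d → ¬ X p q x c d → 0 ≤ o p c d x * o p c d q) ∧
      (¬ X p q x c d → ¬ X p q y c d → ¬ X p x y c d) := by
  refine ⟨fun h1 h2 => ?_, fun h1 h2 => ?_, fun h1 h2 h3 => ?_⟩
  · obtain ⟨-, -, -, -, hxc, hxd⟩ := X_ne h1
    by_cases hcy : c = y
    · subst hcy
      simp
    by_cases hdy : d = y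
    · subst hdy
      simp
    have key := gr_par hgp h hc hd hcV hdV hn hxc.symm hcy hxd.symm hdy
    rw [b2_true h1, b2_false h2, add_zero] at key
    have h3 : X p x y c d := by
      by_contra h3
      rw [b2_false h3, add_zero] at key
      exact one_ne_zero key
    have e1 := h1.2
    have e2 := h3.2
    rcases mul_neg_iff.1 e1 with ⟨k1, k2⟩ | ⟨k1, k2⟩
    · have : 0 < o p c d y := by
        by_contra hh
        have := mul_nonneg_of_nonpos_of_nonpos k2.le (not_lt.1 hh)
        linarith
      exact (mul_pos this k1).le
    · have : o p c d y < 0 := by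
        by_contra hh
        have := mul_nonneg k2.le (not_lt.1 hh)
        linarith
      exact (mul_pos_of_neg_of_neg this k1).le
  · obtain ⟨-, -, -, -, hyc, hyd⟩ := X_ne h1
    by_cases hcx : c = x
    · subst hcx
      simp
    by_cases hdx : d = x
    · subst hdx
      simp
    have key := gr_par hgp h hc hd hcV hdV hn hcx hyc.symm hdx hyd.symm
    rw [b2_true h1, b2_false h2, zero_add] at key
    have h3 : X p x y c d := by
      by_contra h3
      rw [b2_false h3, zero_add] at key
      exact one_ne_zero key
    have e1 := h1.2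
    have e2 := h3.2
    rcases mul_neg_iff.1 e1 with ⟨k1, k2⟩ | ⟨k1, k2⟩
    · have : 0 < o p c d x := by
        by_contra hh
        have := mul_nonneg_of_nonpos_of_nonpos (not_lt.1 hh) k2.le
        linarith
      exact (mul_pos this k1).le
    · have : o p c d x < 0 := by
        by_contra hh
        have := mul_nonneg (not_lt.1 hh) k2.le
        linarith
      exact (mul_pos_of_neg_of_neg this k1).le
  · obtain ⟨-, -, hxc, hxd, hyc, hyd⟩ := X_ne h3
    have key := gr_par hgp h hc hd hcV hdV hn hxc.symm hyc.symm hxd.symm hyd.symm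
    rw [b2_true h3, b2_false h1, b2_false h2, zero_add, add_zero] at key
    exact one_ne_zero key

/-- a segment without end in the region between `q` and the chain which does not cross `qA`,
`qB` crosses no side and no spoke of the region -/
theorem reg (hgp : GP p) {V : Set α} {A q B : α} {E : List α} (h : Chn p V A q B E) {c d : α}
    (hc : c ≠ q) (hd : d ≠ q) (hcV : c ∈ V ∨ c = A ∨ c = B) (hdV : d ∈ V ∨ d = A ∨ d = B)
    (h1 : ¬ X p q A c d) (h2 : ¬ X p q B c d) :
    (∀ e ∈ E, ¬ X p q e c d) ∧ ∀ x y, Nx (A :: (E ++ [B])) x y → ¬ X p x y c d := by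
  have spoke : ∀ e ∈ E, ¬ X p q e c d := by
    intro e he hX
    obtain ⟨S, T, hST⟩ := List.append_of_mem he
    have hR : ∃ b ∈ T ++ [B], 0 ≤ o p c d b * o p c d q := by
      refine gr_walk (P := fun z => X p q z c d) (Q := fun z => 0 ≤ o p c d z * o p c d q) h2 T e
        hX (fun x y hn hx hy => ?_)
      refine (gr_step hgp h hc hd hcV hdV (x := x) (y := y) ?_).1 hx hy
      have e1 : A :: (E ++ [B]) = (A :: S) ++ (e :: (T ++ [B])) := by
        rw [hST]
        simp
      rw [e1]
      exact gr_nx_app hn
    have hL : ∃ a ∈ S.reverse ++ [A], 0 ≤ o p c d a * o p c d q := by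
      refine gr_walk (P := fun z => X p q z c d) (Q := fun z => 0 ≤ o p c d z * o p c d q) h1
        S.reverse e hX (fun x y hn hx hy => ?_)
      refine (gr_step hgp h hc hd hcV hdV (x := y) (y := x) ?_).2.1 hx hy
      have e1 : A :: (E ++ [B]) = (A :: (S ++ [e])) ++ (T ++ [B]) := by
        rw [hST]
        simp
      have e2 : e :: (S.reverse ++ [A]) = (A :: (S ++ [e])).reverse := by simp
      rw [e1]
      rw [e2] at hn
      exact gr_nx_app' (gr_nx_rev hn)
    obtain ⟨b, hb, hbq⟩ := hR
    obtain ⟨a, ha, haq⟩ := hL
    have ha' : a ∈ A :: S := by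
      simp only [List.mem_append, List.mem_reverse, List.mem_singleton] at ha
      rcases ha with ha | ha
      · exact List.mem_cons_of_mem _ ha
      · rw [ha]
        exact List.mem_cons_self
    have e1 : A :: (E ++ [B]) = (A :: S) ++ (e :: (T ++ [B])) := by
      rw [hST]
      simp
    have sub3 : [a, e, b].Sublist (A :: (E ++ [B])) := by
      rw [e1]
      exact gr_sub3 ha' hb
    have s12 : [a, e].Sublist (A :: (E ++ [B])) :=
      List.Sublist.trans
        (List.Sublist.cons_cons a (List.Sublist.cons_cons e (List.nil_sublist [b]))) sub3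
    have s23 : [e, b].Sublist (A :: (E ++ [B])) :=
      List.Sublist.trans (List.Sublist.cons a (List.Sublist.refl [e, b])) sub3
    have s13 : [a, b].Sublist (A :: (E ++ [B])) :=
      List.Sublist.trans
        (List.Sublist.cons_cons a (List.Sublist.cons e (List.Sublist.refl [b]))) sub3
    have c1 := h.conv a e b sub3
    have a1 := h.ang a e s12
    have a2 := h.ang e b s23
    have a3 := h.ang a b s13
    have k1 : o p a b e = - o p a e b := o_swap' p a e b
    have k2 : o p b q e = o p q e b := o_rot' p q e b
    have bary := o_bary p q a b c d e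
    have hX2 := hX.2
    have hq0 : o p c d q ≠ 0 := by
      intro h0
      rw [h0, zero_mul] at hX2
      exact lt_irrefl _ hX2
    have hqq : 0 < o p c d q * o p c d q := by
      rcases lt_or_gt_of_ne hq0 with hh | hh
      · exact mul_pos_of_neg_of_neg hh hh
      · exact mul_pos hh hh
    have m1 : 0 < o p q a b * (o p c d q * o p c d e) := mul_pos_of_neg_of_neg a3 hX2
    have m2 : o p a b e * (o p c d q * o p c d q) < 0 :=
      mul_neg_of_neg_of_pos (by linarith) hqq
    have m3 : o p b q e * (o p c d a * o p c d q) ≤ 0 :=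
      mul_nonpos_of_nonpos_of_nonneg (by linarith) haq
    have m4 : o p q a e * (o p c d b * o p c d q) ≤ 0 :=
      mul_nonpos_of_nonpos_of_nonneg a1.le hbq
    have m5 : o p q a b * (o p c d q * o p c d e) = o p a b e * (o p c d q * o p c d q) +
        o p b q e * (o p c d a * o p c d q) + o p q a e * (o p c d b * o p c d q) := by
      linear_combination (o p c d q) * bary
    linarith
  refine ⟨spoke, fun x y hn => ?_⟩
  have all : ∀ z ∈ A :: (E ++ [B]), ¬ X p q z c d := by
    intro z hz
    simp only [List.mem_cons, List.mem_append, List.not_mem_nil, or_false] at hz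
    rcases hz with rfl | hz | rfl
    · exact h1
    · exact spoke z hz
    · exact h2
  have hsub := gr_sub2 hn
  exact (gr_step hgp h hc hd hcV hdV hn).2.2 (all x (hsub.subset (by simp)))
    (all y (hsub.subset (by simp)))

/-- a segment from `q` which leaves the cone `A q B` does not cross the chain -/
theorem reg_q (hgp : GP p) {V : Set α} {A q B : α} {E : List α} (h : Chn p V A q B E) {d : α}
    (hdq : d ≠ q) (hd : ¬ (0 < o p A q d ∧ 0 < o p q B d)) :
    ∀ x y, Nx (A :: (E ++ [B])) x y → ¬ X p x y q d := by
  intro x y hn hX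
  apply hd
  have hxy := h.ang x y (gr_sub2 hn)
  obtain ⟨hX1, hX2⟩ := hX
  have e0 : o p x y q = o p q x y := o_rot p q x y
  rw [e0] at hX1
  have k1 : 0 < o p x y d := by
    by_contra hh
    have := mul_nonneg_of_nonpos_of_nonpos hxy.le (not_lt.1 hh)
    linarith
  have add := o_add p q x y d
  have e1 : o p q d x = - o p q x d := o_swap' p q x d
  have e2 : o p y q d = o p q d y := o_rot' p q d y
  have k2 : o p q x d < 0 ∧ o p q d y < 0 := by
    rcases mul_neg_iff.1 hX2 with ⟨m1, m2⟩ | ⟨m1, m2⟩
    · exact ⟨by linarith, m2⟩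
    · exfalso
      linarith
  obtain ⟨k2, k3⟩ := k2
  have hA : o p q A x ≤ 0 ∧ o p q A y < 0 := by
    obtain ⟨S, T, hST⟩ := hn
    cases S with
    | nil =>
      have hx : A = x := (List.cons.inj hST).1
      subst hx
      exact ⟨by simp, hxy⟩
    | cons s S =>
      have hs : A = s := (List.cons.inj hST).1
      subst hs
      have hsub3 : [A, x, y].Sublist (A :: (E ++ [B])) := by
        rw [hST, List.cons_append]
        refine List.Sublist.cons_cons A (List.sublist_append_of_sublist_right ?_)
        exact ((List.nil_sublist T).cons_cons y).cons_cons x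
      refine ⟨(h.ang A x (List.Sublist.trans ?_ hsub3)).le, h.ang A y (List.Sublist.trans ?_ hsub3)⟩
      · exact List.Sublist.cons_cons A (List.Sublist.cons_cons x (List.nil_sublist [y]))
      · exact List.Sublist.cons_cons A (List.Sublist.cons x (List.Sublist.refl [y]))
  have hB : o p q x B < 0 ∧ o p q y B ≤ 0 := by
    obtain ⟨S, T, hST⟩ := hn
    rcases List.eq_nil_or_concat T with hT | ⟨T', t, hT⟩
    · subst hT
      have hy : y = B := by
        have h1 : (A :: (E ++ [B])).getLast? = some B := by
          rw [← List.cons_append, List.getLast?_append]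
          simp
        have h2 : (S ++ [x, y]).getLast? = some y := by simp
        rw [hST, h2] at h1
        exact Option.some.inj h1
      subst hy
      exact ⟨hxy, by simp⟩
    · rw [List.concat_eq_append] at hT
      have ht : t = B := by
        have h1 : (A :: (E ++ [B])).getLast? = some B := by
          rw [← List.cons_append, List.getLast?_append]
          simp
        have h2 : (S ++ x :: y :: T).getLast? = some t := by
          have e1 : S ++ x :: y :: T = (S ++ x :: y :: T') ++ [t] := by
            rw [hT]
            simp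
          rw [e1, List.getLast?_append]
          simp
        rw [hST, h2] at h1
        exact Option.some.inj h1
      subst ht
      have hsub3 : [x, y, t].Sublist (A :: (E ++ [t])) := by
        rw [hST, hT]
        refine List.sublist_append_of_sublist_right ?_
        refine List.Sublist.cons_cons x (List.Sublist.cons_cons y ?_)
        exact List.sublist_append_right T' [t]
      refine ⟨h.ang x t (List.Sublist.trans ?_ hsub3), (h.ang y t (List.Sublist.trans ?_ hsub3)).le⟩
      · exact List.Sublist.cons_cons x (List.Sublist.cons y (List.Sublist.refl [t]))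
      · exact List.Sublist.cons x (List.Sublist.refl [y, t])
  have d1 := o_det p q x y A d
  have d2 := o_det p q x y B d
  have f1 : o p y q A = o p q A y := o_rot' p q A y
  have f2 : o p q x A = - o p q A x := o_swap' p q A x
  have f3 : o p y q B = - o p q y B := by
    rw [o_swap p q y B]
  constructor
  · have g1 : o p A q d = - o p q A d := o_swap p q A d
    have m1 : 0 < o p y q A * o p q x d := mul_pos_of_neg_of_neg (by linarith) k2
    have m2 : o p q x A * o p y q d ≤ 0 :=
      mul_nonpos_of_nonneg_of_nonpos (by linarith) (by linarith)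
    have m3 : 0 < o p q x y * o p q A d := by linarith
    have m4 : o p q A d < 0 := by
      by_contra hh
      have := mul_nonpos_of_nonpos_of_nonneg hxy.le (not_lt.1 hh)
      linarith
    linarith
  · have m1 : o p y q B * o p q x d ≤ 0 :=
      mul_nonpos_of_nonneg_of_nonpos (by linarith) k2.le
    have m2 : 0 < o p q x B * o p y q d := mul_pos_of_neg_of_neg hB.1 (by linarith)
    have m3 : o p q x y * o p q B d < 0 := by linarith
    by_contra hh
    have := mul_nonneg_of_nonpos_of_nonpos hxy.le (not_lt.1 hh)
    linarith

private theorem gr_split {v : α} : ∀ {A A' B B' : List α}, (A ++ v :: B).Nodup →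
    A ++ v :: B = A' ++ v :: B' → A = A' ∧ B = B' := by
  intro A
  induction A with
  | nil =>
    intro A' B B' hn h
    cases A' with
    | nil => exact ⟨rfl, (List.cons.inj h).2⟩
    | cons a A' =>
      exfalso
      obtain ⟨h1, h2⟩ := List.cons.inj h
      have h3 := (List.nodup_cons.1 hn).1
      rw [h2] at h3
      exact h3 (by simp)
  | cons a A ih =>
    intro A' B B' hn h
    cases A' with
    | nil =>
      exfalso
      obtain ⟨h1, h2⟩ := List.cons.inj h
      have h3 := (List.nodup_cons.1 hn).1
      apply h3
      rw [h1]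
      simp
    | cons a' A' =>
      obtain ⟨h1, h2⟩ := List.cons.inj h
      obtain ⟨h3, h4⟩ := ih (List.nodup_cons.1 hn).2 h2
      exact ⟨by rw [h1, h3], h4⟩

/-- the segment from a vertex `e` of a triangle `q x e` (or `q e x`) of the region does not start
into the triangle -/
private theorem gr_cone (hgp : GP p) {V : Set α} {A q B : α} {E : List α}
    (h : Chn p V A q B E) {x e d : α} (hn : Nx (A :: (E ++ [B])) x e)
    (hd : d ∈ V ∨ d = A ∨ d = B) (hdq : d ≠ q) (hdx : d ≠ x) (hX : ¬ X p q x e d)
    (h1 : o p x e d < 0) (h2 : o p e q d < 0) : False := by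
  have hxe := h.ang x e (gr_sub2 hn)
  obtain ⟨n1, n2, n3⟩ := gr_neq h hn
  have h3 : o p q x d ≠ 0 := hgp.ne q x d n1 hdx.symm hdq.symm
  rcases lt_or_gt_of_ne h3 with h3 | h3
  · exact gr_emp h hn hd (Or.inr ⟨h3, h1, h2⟩)
  · apply hX
    refine ⟨mul_neg_of_neg_of_pos hxe h3, ?_⟩
    have e1 : o p e d q = - o p e q d := o_swap' p e q d
    have e2 : o p e d x = o p x e d := o_rot p x e d
    rw [e1, e2]
    exact mul_neg_of_pos_of_neg (by linarith) h1

private theorem gr_cone' (hgp : GP p) {V : Set α} {A q B : α} {E : List α}
    (h : Chn p V A q B E) {e y d : α} (hn : Nx (A :: (E ++ [B])) e y)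
    (hd : d ∈ V ∨ d = A ∨ d = B) (hdq : d ≠ q) (hdy : d ≠ y) (hX : ¬ X p q y e d)
    (h1 : o p e y d < 0) (h2 : 0 < o p e q d) : False := by
  have hey := h.ang e y (gr_sub2 hn)
  obtain ⟨n1, n2, n3⟩ := gr_neq h hn
  have e3 : o p y q d = - o p q y d := o_swap p q y d
  have e4 : o p q e d = - o p e q d := o_swap p e q d
  have h3 : o p q y d ≠ 0 := hgp.ne q y d n3 hdy.symm hdq.symm
  rcases lt_or_gt_of_ne h3 with h3 | h3
  · apply hX
    have e0 : o p q y e = - o p q e y := o_swap' p q e y
    have e1 : o p e d q = - o p e q d := o_swap' p e q d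
    have e2 : o p e d y = - o p e y d := o_swap' p e y d
    refine ⟨mul_neg_of_pos_of_neg (by linarith) h3, ?_⟩
    rw [e1, e2]
    exact mul_neg_of_neg_of_pos (by linarith) (by linarith)
  · exact gr_emp h hn hd (Or.inr ⟨by linarith, h1, by linarith⟩)

/-- no direction at a chain vertex points into the region: for `d` outside, not crossing the
sides, `d` is on the left of the chain at `e` -/
theorem reg_left (hgp : GP p) {V : Set α} {A q B : α} {E : List α} (h : Chn p V A q B E)
    {x e y d : α} (hn : Nx (A :: (E ++ [B])) x e) (hn' : Nx (A :: (E ++ [B])) e y)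
    (hd : d ∈ V ∨ d = A ∨ d = B) (hde : d ≠ e) (hdq : d ≠ q) (hdx : d ≠ x) (hdy : d ≠ y)
    (h1 : ¬ X p q A e d) (h2 : ¬ X p q B e d) : 0 < o p x e d ∧ 0 < o p e y d := by
  obtain ⟨S, T, hST⟩ := hn
  obtain ⟨S', T', hST'⟩ := hn'
  have hnd : ((S ++ [x]) ++ e :: T).Nodup := by
    have := h.nodup
    rw [hST] at this
    simpa using this
  have hsp := gr_split hnd (A' := S') (B' := y :: T') (by
    rw [← hST', hST]
    simp)
  obtain ⟨hS, hT⟩ := hsp
  have hLL : A :: (E ++ [B]) = (S ++ [x]) ++ e :: (y :: T') := by
    rw [hST', hS]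
  have hn : Nx (A :: (E ++ [B])) x e := ⟨S, T, hST⟩
  have hn' : Nx (A :: (E ++ [B])) e y := ⟨S', T', hST'⟩
  have sub3 : [x, e, y].Sublist (A :: (E ++ [B])) := by
    rw [hLL]
    exact gr_sub3 (by simp) (by simp)
  have heE : e ∈ E := by
    have hL : A :: (E ++ [B]) = S ++ x :: e :: y :: T' := by
      rw [hLL]
      simp
    have hmem : e ∈ A :: (E ++ [B]) := by
      rw [hL]
      simp
    have hAe : A ≠ e := by
      rintro rfl
      have hnod := h.nodup
      cases S with
      | nil =>
        have := (List.cons.inj hL).1
        subst this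
        exact (gr_neq h hn).2.1 rfl
      | cons s S =>
        have hs := (List.cons.inj hL).2
        have := (List.nodup_cons.1 hnod).1
        rw [hs] at this
        exact this (by simp)
    have hBe : B ≠ e := by
      rintro rfl
      have hnod := h.nodup
      rw [← List.cons_append, List.nodup_append] at hnod
      have h3 : B ∉ A :: E := fun hB => hnod.2.2 B hB B (by simp) rfl
      have h4 : ((S ++ [x]) ++ B :: (y :: T')) = (A :: E) ++ B :: [] := by
        rw [← hLL]
        simp
      have h5 := gr_split (by rw [← hLL]; exact h.nodup) h4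
      exact List.cons_ne_nil _ _ h5.2
    simp only [List.mem_cons, List.mem_append, List.not_mem_nil, or_false] at hmem
    rcases hmem with hm | hm | hm
    · exact absurd hm.symm hAe
    · exact hm
    · exact absurd hm.symm hBe
  have heq : e ≠ q := fun hh => (gr_neq h hn').1 hh.symm
  have heV : e ∈ V ∨ e = A ∨ e = B := Or.inl (h.mem e heE).1
  have hreg := reg hgp h heq hdq heV hd h1 h2
  have all : ∀ z ∈ A :: (E ++ [B]), ¬ X p q z e d := by
    intro z hz
    simp only [List.mem_cons, List.mem_append, List.not_mem_nil, or_false] at hz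
    rcases hz with rfl | hz | rfl
    · exact h1
    · exact hreg.1 z hz
    · exact h2
  have hXx := all x (sub3.subset (by simp))
  have hXy := all y (sub3.subset (by simp))
  obtain ⟨n1, n2, n3⟩ := gr_neq h hn
  obtain ⟨m1, m2, m3⟩ := gr_neq h hn'
  have s1 : o p x e d ≠ 0 := hgp.ne x e d n2 hde.symm hdx.symm
  have s2 : o p e y d ≠ 0 := hgp.ne e y d m2 hdy.symm hde.symm
  have s3 : o p e q d ≠ 0 := hgp.ne e q d heq hdq.symm hde.symm
  have ax := h.ang x e (gr_sub2 hn)
  have ay := h.ang e y (gr_sub2 hn')
  have cc := h.conv x e y sub3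
  have det := o_det p e x y q d
  have u1 : o p e x y = - o p x e y := o_swap p x e y
  have u2 : o p y e q = - o p q e y := by
    rw [o_swap'' p q e y]
  have u3 : o p e x d = - o p x e d := o_swap p x e d
  have u4 : o p e x q = - o p q x e := by
    unfold o
    ring
  have u5 : o p y e d = - o p e y d := o_swap p e y d
  have t1 : o p x e d < 0 → 0 < o p e q d := by
    intro hs
    rcases lt_or_gt_of_ne s3 with hh | hh
    · exact (gr_cone hgp h hn hd hdq hdx hXx hs hh).elim
    · exact hh
  have t2 : o p e y d < 0 → o p e q d < 0 := by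
    intro hs
    rcases lt_or_gt_of_ne s3 with hh | hh
    · exact hh
    · exact (gr_cone' hgp h hn' hd hdq hdy hXy hs hh).elim
  have main : - (o p x e y * o p e q d) = o p q e y * o p x e d - o p q x e * o p e y d := by
    rw [u1, u2, u3, u4, u5] at det
    linear_combination det
  have c1 : 0 < o p x e d := by
    rcases lt_or_gt_of_ne s1 with hs | hs
    · exfalso
      have ht := t1 hs
      rcases lt_or_gt_of_ne s2 with hs2 | hs2
      · have := t2 hs2
        linarith
      · have m1 := mul_pos cc ht
        have m2 := mul_pos_of_neg_of_neg ay hs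
        have m3 := mul_neg_of_neg_of_pos ax hs2
        linarith
    · exact hs
  refine ⟨c1, ?_⟩
  rcases lt_or_gt_of_ne s2 with hs2 | hs2
  · exfalso
    have ht := t2 hs2
    have m1 := mul_neg_of_pos_of_neg cc ht
    have m2 := mul_neg_of_neg_of_pos ay c1
    have m3 := mul_pos_of_neg_of_neg ax hs2
    linarith
  · exact hs2

end FPW
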