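import Pool.Agent.Lib.MP_deef39_co_PW.Lst
import Pool.Agent.Lib.MP_deef39_co_PW.Defs

/-! # Ord module Jor: crossing parities of closed polygons

`xx p a b z w` is `1` in `ZMod 2` if the segments `ab`, `zw` cross, `tt p a b c z` is `1` if `z` is
inside the triangle `abc`. A closed polygon is given by a base `g` and the list `L` of the other
vertices; `fan p g L z : ZMod 2` is `1` if `z` is inside (parity). Main results: `tl` (triangle),
`quad`, `fan_base`, `fan_insert`, `jor1` (crossings with a segment = change of side), `jor2` (the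
same at a vertex of the polygon), `jor_path`.
-/

set_option autoImplicit false

namespace FPW

variable {α : Type*}

open Classical in
/-- indicator in `ZMod 2` -/
noncomputable def xi (P : Prop) : ZMod 2 := if P then 1 else 0

theorem xi_true {P : Prop} (h : P) : xi P = 1 := if_pos h
theorem xi_false {P : Prop} (h : ¬ P) : xi P = 0 := if_neg h
theorem xi_congr {P Q : Prop} (h : P ↔ Q) : xi P = xi Q := by
  by_cases hq : Q
  · rw [xi_true hq, xi_true (h.2 hq)]
  · rw [xi_false hq, xi_false fun hp => hq (h.1 hp)]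
theorem xi_eq_one {P : Prop} : xi P = 1 ↔ P := by
  by_cases h : P
  · rw [xi_true h]; simp [h]
  · rw [xi_false h]; simp [h]
theorem xi_eq_zero {P : Prop} : xi P = 0 ↔ ¬ P := by
  by_cases h : P
  · rw [xi_true h]; simp [h]
  · rw [xi_false h]; simp [h]

theorem z2_add_self (x : ZMod 2) : x + x = 0 := by
  revert x; decide

theorem z2_cases (x : ZMod 2) : x = 0 ∨ x = 1 := by
  revert x; decide

/-- crossing indicator -/
noncomputable def xx (p : α → ℝ × ℝ) (a b z w : α) : ZMod 2 := xi (X p a b z w)

/-- triangle indicator -/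
noncomputable def tt (p : α → ℝ × ℝ) (a b c z : α) : ZMod 2 := xi (InTri p a b c z)

section
variable {p : α → ℝ × ℝ}

theorem xx_sw1 (a b z w : α) : xx p b a z w = xx p a b z w := xi_congr X_sw1
theorem xx_sw2 (a b z w : α) : xx p a b w z = xx p a b z w := xi_congr X_sw2
theorem xx_comm (a b z w : α) : xx p a b z w = xx p z w a b := xi_congr X_comm

theorem xx_self1 (a z w : α) : xx p a a z w = 0 := xi_false fun h => (X_ne h).1 rfl
theorem xx_self2 (a b z : α) : xx p a b z z = 0 := xi_false fun h => (X_ne h).2.1 rfl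
theorem xx_share1 (a b w : α) : xx p a b a w = 0 := xi_false not_X_of_eq1
theorem xx_share2 (a b z : α) : xx p a b z a = 0 := xi_false not_X_of_eq2
theorem xx_share3 (a b w : α) : xx p a b b w = 0 := xi_false not_X_of_eq3
theorem xx_share4 (a b z : α) : xx p a b z b = 0 := xi_false not_X_of_eq4

theorem tt_rot (a b c z : α) : tt p b c a z = tt p a b c z := by
  apply xi_congr
  unfold InTri
  tauto

theorem tt_swap (a b c z : α) : tt p b a c z = tt p a b c z := by
  apply xi_congr
  unfold InTri
  rw [o_swap p a b z, o_swap p c a z, o_swap p b c z]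
  constructor
  · rintro (⟨h1, h2, h3⟩ | ⟨h1, h2, h3⟩)
    · right; refine ⟨by linarith, by linarith, by linarith⟩
    · left; refine ⟨by linarith, by linarith, by linarith⟩
  · rintro (⟨h1, h2, h3⟩ | ⟨h1, h2, h3⟩)
    · right; refine ⟨by linarith, by linarith, by linarith⟩
    · left; refine ⟨by linarith, by linarith, by linarith⟩

theorem tt_self (a c z : α) : tt p a a c z = 0 := by
  apply xi_false
  rintro (⟨h1, -, -⟩ | ⟨h1, -, -⟩)
  · simp at h1
  · simp at h1

theorem tt_self' (a c z : α) : tt p a c a z = 0 := by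
  rw [← tt_rot, ← tt_rot]; exact tt_self _ _ _

theorem tt_self'' (a c z : α) : tt p c a a z = 0 := by
  rw [← tt_rot]; exact tt_self _ _ _

private theorem tl_bool : ∀ d z1 z2 z3 w1 w2 w3 m1 m2 m3 : Bool,
    (z1 = z2 → z2 = z3 → z1 = d) → (w1 = w2 → w2 = w3 → w1 = d) →
    ((z2 == w3) ≠ (z3 == w2) → (d == m1) = (z2 == w3)) →
    ((z3 == w1) ≠ (z1 == w3) → (d == m2) = (z3 == w1)) →
    ((z1 == w2) ≠ (z2 == w1) → (d == m3) = (z1 == w2)) →
    (xor (xor ((z3 != w3) && (m1 != m2)) ((z1 != w1) && (m2 != m3))) ((z2 != w2) && (m3 != m1)))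
      = xor ((z1 == z2) && (z2 == z3)) ((w1 == w2) && (w2 == w3)) := by
  decide

private theorem xi_bool {P : Prop} {b : Bool} (h : P ↔ b = true) :
    xi P = if b then 1 else 0 := by
  cases b
  · rw [xi_false (by simpa using h)]; simp
  · rw [xi_true (by simpa using h)]; simp

private theorem ite_xor (a b : Bool) : (if xor a b then (1 : ZMod 2) else 0) =
    (if a then 1 else 0) + (if b then 1 else 0) := by
  revert a b; decide

/-- positivity as a Boolean -/
private noncomputable def sg (x : ℝ) : Bool := by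
  classical
  exact decide (0 < x)

private theorem sg_iff {x : ℝ} : sg x = true ↔ 0 < x := by
  unfold sg; simp

private theorem sg_false {x : ℝ} (hx : x ≠ 0) : sg x = false ↔ x < 0 := by
  rw [← Bool.not_eq_true, sg_iff, not_lt]
  exact ⟨fun h => lt_of_le_of_ne h hx, le_of_lt⟩

private theorem sg_mul_neg {x y : ℝ} (hx : x ≠ 0) (hy : y ≠ 0) :
    x * y < 0 ↔ (sg x != sg y) = true := by
  rcases lt_or_gt_of_ne hx with h1 | h1 <;> rcases lt_or_gt_of_ne hy with h2 | h2
  · rw [(sg_false hx).2 h1, (sg_false hy).2 h2]; simp; nlinarith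
  · rw [(sg_false hx).2 h1, sg_iff.2 h2]; simp; nlinarith
  · rw [sg_iff.2 h1, (sg_false hy).2 h2]; simp; nlinarith
  · rw [sg_iff.2 h1, sg_iff.2 h2]; simp; nlinarith

private theorem sg_mul {x y : ℝ} (hx : x ≠ 0) (hy : y ≠ 0) :
    sg (x * y) = (sg x == sg y) := by
  rcases lt_or_gt_of_ne hx with h1 | h1 <;> rcases lt_or_gt_of_ne hy with h2 | h2
  · rw [(sg_false hx).2 h1, (sg_false hy).2 h2, sg_iff.2 (by nlinarith)]; rfl
  · rw [(sg_false hx).2 h1, sg_iff.2 h2, (sg_false (mul_ne_zero hx hy)).2 (by nlinarith)]; rfl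
  · rw [sg_iff.2 h1, (sg_false hy).2 h2, (sg_false (mul_ne_zero hx hy)).2 (by nlinarith)]; rfl
  · rw [sg_iff.2 h1, sg_iff.2 h2, sg_iff.2 (by nlinarith)]; rfl

/-- if `D m = x - y` and `x`, `y` have different signs then the sign of `D m` is that of `x` -/
private theorem sg_con {D m a b c e : ℝ} (hD : D ≠ 0) (hm : m ≠ 0) (ha : a ≠ 0) (hb : b ≠ 0)
    (hc : c ≠ 0) (he : e ≠ 0) (h : D * m = a * b - c * e)
    (h1 : (sg a == sg b) ≠ (sg c == sg e)) : (sg D == sg m) = (sg a == sg b) := by
  rw [← sg_mul hD hm, ← sg_mul ha hb, h]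
  rw [← sg_mul ha hb, ← sg_mul hc he] at h1
  rcases lt_or_gt_of_ne (mul_ne_zero ha hb) with h2 | h2
  · rw [(sg_false (mul_ne_zero ha hb)).2 h2] at h1 ⊢
    have h3 : sg (c * e) = true := by
      cases h4 : sg (c * e)
      · exact absurd h4.symm h1
      · rfl
    rw [sg_iff] at h3
    have h5 : a * b - c * e < 0 := by linarith
    exact (sg_false h5.ne).2 h5
  · rw [sg_iff.2 h2] at h1 ⊢
    have h3 : sg (c * e) = false := by
      cases h4 : sg (c * e)
      · rfl
      · exact absurd h4.symm h1
    rw [sg_false (mul_ne_zero hc he)] at h3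
    exact sg_iff.2 (by linarith)

private theorem sg_all {D a b c : ℝ} (ha : a ≠ 0) (hb : b ≠ 0) (hc : c ≠ 0) (hD : D ≠ 0)
    (h : D = a + b + c) (h1 : sg a = sg b) (h2 : sg b = sg c) : sg a = sg D := by
  rcases lt_or_gt_of_ne ha with h3 | h3
  · have h4 := (sg_false ha).2 h3
    have h5 : sg b = false := h1 ▸ h4
    have h6 : sg c = false := h2 ▸ h5
    rw [h4]
    rw [sg_false hb] at h5
    rw [sg_false hc] at h6
    exact ((sg_false hD).2 (by linarith)).symm
  · have h4 := sg_iff.2 h3
    have h5 : sg b = true := h1 ▸ h4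
    have h6 : sg c = true := h2 ▸ h5
    rw [h4]
    rw [sg_iff] at h5 h6
    exact (sg_iff.2 (by linarith)).symm

private theorem sg_tri {a b c : ℝ} (ha : a ≠ 0) (hb : b ≠ 0) (hc : c ≠ 0) :
    ((0 < a ∧ 0 < b ∧ 0 < c) ∨ (a < 0 ∧ b < 0 ∧ c < 0)) ↔
      ((sg b == sg c) && (sg c == sg a)) = true := by
  rw [← sg_iff (x := a), ← sg_iff (x := b), ← sg_iff (x := c), ← sg_false ha, ← sg_false hb,
    ← sg_false hc]
  generalize sg a = x
  generalize sg b = y
  generalize sg c = z
  revert x y z
  decide

theorem tl_id (a b c z w : α) :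
    o p a b c * o p z w a = o p c a z * o p a b w - o p a b z * o p c a w := by
  unfold o; ring

/-- triangle lemma: parity of the number of crossings of a segment with a triangle -/
theorem tl (hgp : GP p) {a b c z w : α} (hza : z ≠ a) (hzb : z ≠ b) (hzc : z ≠ c)
    (hwa : w ≠ a) (hwb : w ≠ b) (hwc : w ≠ c) :
    xx p a b z w + xx p b c z w + xx p c a z w = tt p a b c z + tt p a b c w := by
  by_cases hab : a = b
  · subst hab
    rw [xx_self1, tt_self, tt_self, xx_sw1 a c z w, zero_add, z2_add_self, add_zero]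
  by_cases hbc : b = c
  · subst hbc
    rw [xx_self1, tt_self'', tt_self'', xx_sw1 a b z w, add_zero, z2_add_self, add_zero]
  by_cases hca : c = a
  · subst hca
    rw [xx_self1, tt_self', tt_self', xx_sw1 c b z w, add_zero, z2_add_self, add_zero]
  by_cases hzw : z = w
  · subst hzw
    rw [xx_self2, xx_self2, xx_self2, z2_add_self (tt p a b c z)]; rfl
  have z3 := hgp.ne a b z hab (Ne.symm hzb) (Ne.symm hza)
  have z1 := hgp.ne b c z hbc (Ne.symm hzc) (Ne.symm hzb)
  have z2 := hgp.ne c a z hca (Ne.symm hza) (Ne.symm hzc)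
  have w3 := hgp.ne a b w hab (Ne.symm hwb) (Ne.symm hwa)
  have w1 := hgp.ne b c w hbc (Ne.symm hwc) (Ne.symm hwb)
  have w2 := hgp.ne c a w hca (Ne.symm hwa) (Ne.symm hwc)
  have m1 := hgp.ne z w a hzw hwa hza
  have m2 := hgp.ne z w b hzw hwb hzb
  have m3 := hgp.ne z w c hzw hwc hzc
  have hD := hgp.ne a b c hab hbc (Ne.symm hca)
  have e1 := tl_id (p := p) a b c z w
  have e2 := tl_id (p := p) b c a z w
  have e3 := tl_id (p := p) c a b z w
  rw [o_rot] at e2
  rw [o_rot'] at e3
  have k := tl_bool (sg (o p a b c)) (sg (o p b c z)) (sg (o p c a z)) (sg (o p a b z))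
    (sg (o p b c w)) (sg (o p c a w)) (sg (o p a b w)) (sg (o p z w a)) (sg (o p z w b))
    (sg (o p z w c)) (fun h1 h2 => sg_all z1 z2 z3 hD (by rw [o_add p a b c z]; ring) h1 h2)
    (fun h1 h2 => sg_all w1 w2 w3 hD (by rw [o_add p a b c w]; ring) h1 h2)
    (sg_con hD m1 z2 w3 z3 w2 e1) (sg_con hD m2 z3 w1 z1 w3 e2) (sg_con hD m3 z1 w2 z2 w1 e3)
  unfold xx tt
  rw [xi_bool (P := X p a b z w) (b := ((sg (o p a b z) != sg (o p a b w)) &&
      (sg (o p z w a) != sg (o p z w b)))),
    xi_bool (P := X p b c z w) (b := ((sg (o p b c z) != sg (o p b c w)) &&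
      (sg (o p z w b) != sg (o p z w c)))),
    xi_bool (P := X p c a z w) (b := ((sg (o p c a z) != sg (o p c a w)) &&
      (sg (o p z w c) != sg (o p z w a)))),
    xi_bool (P := InTri p a b c z) (b := ((sg (o p b c z) == sg (o p c a z)) &&
      (sg (o p c a z) == sg (o p a b z)))),
    xi_bool (P := InTri p a b c w) (b := ((sg (o p b c w) == sg (o p c a w)) &&
      (sg (o p c a w) == sg (o p a b w)))),
    ← ite_xor, ← ite_xor, ← ite_xor, k]
  · exact sg_tri w3 w1 w2
  · exact sg_tri z3 z1 z2
  · rw [Bool.and_eq_true, ← sg_mul_neg z2 w2, ← sg_mul_neg m3 m1]; rfl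
  · rw [Bool.and_eq_true, ← sg_mul_neg z1 w1, ← sg_mul_neg m2 m3]; rfl
  · rw [Bool.and_eq_true, ← sg_mul_neg z3 w3, ← sg_mul_neg m1 m2]; rfl

private theorem quad_bool : ∀ ab ac ad bc bd cd : Bool,
    ¬ ((ab == cd) = (ac != bd) ∧ (ac != bd) = (ad == bc)) →
    xor (xor ((bc == !ac) && ((!ac) == ab)) ((bd == !ad) && ((!ad) == ab)))
      (xor ((cd == !ad) && ((!ad) == ac)) ((cd == !bd) && ((!bd) == bc))) = false := by
  decide

private theorem sg_neg {x : ℝ} (hx : x ≠ 0) : sg (-x) = !sg x := by
  rcases lt_or_gt_of_ne hx with h1 | h1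
  · rw [(sg_false hx).2 h1, sg_iff.2 (by linarith)]; rfl
  · rw [sg_iff.2 h1, (sg_false (neg_ne_zero.2 hx)).2 (by linarith)]; rfl

private theorem tt_bool (hgp : GP p) {a b c z : α} (hab : a ≠ b) (hbc : b ≠ c) (hac : a ≠ c)
    (hza : z ≠ a) (hzb : z ≠ b) (hzc : z ≠ c) :
    tt p a b c z = if ((sg (o p z b c) == !sg (o p z a c)) &&
      ((!sg (o p z a c)) == sg (o p z a b))) then 1 else 0 := by
  have h1 := hgp.ne z a b hza hab hzb
  have h2 := hgp.ne z b c hzb hbc hzc
  have h3 := hgp.ne z a c hza hac hzc
  have e1 : o p a b z = o p z a b := (o_rot' p a b z).symm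
  have e2 : o p b c z = o p z b c := (o_rot' p b c z).symm
  have e3 : o p c a z = - o p z a c := by rw [o_swap p a c z, o_rot' p a c z]
  refine xi_bool ?_
  unfold InTri
  rw [e1, e2, e3, ← sg_neg h3]
  exact sg_tri h1 h2 (neg_ne_zero.2 h3)

theorem gp_id (z a b c d : α) :
    o p z a b * o p z c d + o p z a d * o p z b c = o p z a c * o p z b d := by
  unfold o; ring

/-- every point is in an even number of the four triangles of a quadruple -/
theorem quad (hgp : GP p) {a b c d z : α} (hza : z ≠ a) (hzb : z ≠ b) (hzc : z ≠ c)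
    (hzd : z ≠ d) :
    tt p a b c z + tt p a b d z + tt p a c d z + tt p b c d z = 0 := by
  by_cases hab : a = b
  · subst hab
    rw [tt_self, tt_self, zero_add, zero_add, z2_add_self]
  by_cases hac : a = c
  · subst hac
    rw [tt_self', tt_self, tt_swap a b d z, add_zero, zero_add, z2_add_self]
  by_cases had : a = d
  · subst had
    rw [tt_self', tt_self', ← tt_rot a b c z, add_zero, add_zero, z2_add_self]
  by_cases hbc : b = c
  · subst hbc
    rw [tt_self'', tt_self, zero_add, add_zero, z2_add_self]
  by_cases hbd : b = d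
  · subst hbd
    rw [tt_self'', tt_self', add_zero, add_zero, ← tt_rot a c b z, ← tt_swap c b a z,
      tt_rot a b c z, z2_add_self]
  by_cases hcd : c = d
  · subst hcd
    rw [tt_self'', tt_self'', add_zero, add_zero, z2_add_self]
  have ab := hgp.ne z a b hza hab hzb
  have ac := hgp.ne z a c hza hac hzc
  have ad := hgp.ne z a d hza had hzd
  have bc := hgp.ne z b c hzb hbc hzc
  have bd := hgp.ne z b d hzb hbd hzd
  have cd := hgp.ne z c d hzc hcd hzd
  have k := quad_bool (sg (o p z a b)) (sg (o p z a c)) (sg (o p z a d)) (sg (o p z b c))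
    (sg (o p z b d)) (sg (o p z c d)) ?_
  · rw [tt_bool hgp hab hbc hac hza hzb hzc, tt_bool hgp hab hbd had hza hzb hzd,
      tt_bool hgp hac hcd had hza hzc hzd, tt_bool hgp hbc hcd hbd hzb hzc hzd,
      ← ite_xor, add_assoc, ← ite_xor, ← ite_xor, k]
    rfl
  · rintro ⟨h1, h2⟩
    have e := gp_id (p := p) z a b c d
    rw [← sg_mul ab cd] at h1
    rw [← sg_mul ad bc] at h2
    have e2 : (sg (o p z a c) != sg (o p z b d)) = !sg (o p z a c * o p z b d) := by
      rw [sg_mul ac bd]; rfl
    rw [e2] at h1 h2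
    rcases lt_or_gt_of_ne (mul_ne_zero ab cd) with h3 | h3
    · rw [(sg_false (mul_ne_zero ab cd)).2 h3] at h1
      rw [← h1] at h2
      have h4 := (sg_false (mul_ne_zero ad bc)).1 h2.symm
      have h5 : sg (o p z a c * o p z b d) = true := by
        cases h6 : sg (o p z a c * o p z b d)
        · rw [h6] at h1; exact absurd h1 (by decide)
        · rfl
      rw [sg_iff] at h5
      linarith
    · rw [sg_iff.2 h3] at h1
      rw [← h1] at h2
      have h4 := sg_iff.1 h2.symm
      have h5 : sg (o p z a c * o p z b d) = false := by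
        cases h6 : sg (o p z a c * o p z b d)
        · rfl
        · rw [h6] at h1; exact absurd h1 (by decide)
      rw [sg_false (mul_ne_zero ac bd)] at h5
      linarith

end

/-! ### closed polygons -/

/-- crossings of the segment `zw` with the edges of the list -/
noncomputable def lc (p : α → ℝ × ℝ) : List α → α → α → ZMod 2
  | a :: b :: L, z, w => xx p a b z w + lc p (b :: L) z w
  | [_], _, _ => 0
  | [], _, _ => 0

/-- fan triangles with base `g` over the edges of the list -/
noncomputable def fan (p : α → ℝ × ℝ) (g : α) : List α → α → ZMod 2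
  | a :: b :: L, z => tt p g a b z + fan p g (b :: L) z
  | [_], _ => 0
  | [], _ => 0

section
variable {p : α → ℝ × ℝ}

@[simp] theorem lc_nil (z w : α) : lc p [] z w = 0 := rfl
@[simp] theorem lc_single (a z w : α) : lc p [a] z w = 0 := rfl
theorem lc_cons (a b : α) (L : List α) (z w : α) :
    lc p (a :: b :: L) z w = xx p a b z w + lc p (b :: L) z w := rfl
@[simp] theorem fan_nil (g z : α) : fan p g [] z = 0 := rfl
@[simp] theorem fan_single (g a z : α) : fan p g [a] z = 0 := rfl
theorem fan_cons (g a b : α) (L : List α) (z : α) :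
    fan p g (a :: b :: L) z = tt p g a b z + fan p g (b :: L) z := rfl

/-- cutting a list at a vertex -/
theorem lc_append (A B : List α) (a z w : α) :
    lc p (A ++ a :: B) z w = lc p (A ++ [a]) z w + lc p (a :: B) z w := by
  induction A with
  | nil => simp
  | cons c A ih =>
    cases A with
    | nil =>
      simp only [List.cons_append, List.nil_append, lc_cons, lc_single, add_zero]
    | cons d A =>
      simp only [List.cons_append, lc_cons] at ih ⊢
      rw [ih, add_assoc]

theorem fan_append (g : α) (A B : List α) (a z : α) :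
    fan p g (A ++ a :: B) z = fan p g (A ++ [a]) z + fan p g (a :: B) z := by
  induction A with
  | nil => simp
  | cons c A ih =>
    cases A with
    | nil =>
      simp only [List.cons_append, List.nil_append, fan_cons, fan_single, add_zero]
    | cons d A =>
      simp only [List.cons_append, fan_cons] at ih ⊢
      rw [ih, add_assoc]

/-- change of the base -/
theorem fan_base (hgp : GP p) {x z : α} (hx : z ≠ x) (g : α) (L : List α) (hg : z ≠ g)
    (hL : z ∉ L) : fan p x (g :: (L ++ [g])) z = fan p g L z := by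
  induction L with
  | nil => simp [fan_cons, tt_self'']
  | cons a L ih =>
    rw [List.mem_cons, not_or] at hL
    cases L with
    | nil =>
      simp only [List.cons_append, List.nil_append, fan_cons, fan_single, add_zero]
      have e : tt p x a g z = tt p x g a z := by
        rw [← tt_rot x a g z, tt_swap g a x z, tt_rot x g a z]
      rw [e, z2_add_self]
    | cons b L =>
      have hL2 := hL.2
      rw [List.mem_cons, not_or] at hL2
      have ih' := ih hL.2
      simp only [List.cons_append, fan_cons] at ih' ⊢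
      have q := quad hgp (a := x) (b := g) (c := a) (d := b) hx hg hL.1 hL2.1
      revert ih' q
      generalize tt p x g a z = t1
      generalize tt p x a b z = t2
      generalize tt p x g b z = t3
      generalize tt p g a b z = t4
      generalize fan p x (b :: (L ++ [g])) z = f1
      generalize fan p g (b :: L) z = f2
      revert t1 t2 t3 t4 f1 f2
      decide

/-- parity of the crossings of a closed polygon with a segment -/
theorem jor1 (hgp : GP p) {z w : α} (g : α) (L : List α) (hz : z ∉ g :: L) (hw : w ∉ g :: L) :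
    lc p (g :: (L ++ [g])) z w = fan p g L z + fan p g L w := by
  rw [List.mem_cons, not_or] at hz hw
  induction L with
  | nil =>
    simp only [List.nil_append, lc_cons, lc_single, fan_nil, add_zero]
    exact xx_self1 _ _ _
  | cons a L ih =>
    have hz2 := hz.2
    have hw2 := hw.2
    rw [List.mem_cons, not_or] at hz2 hw2
    cases L with
    | nil =>
      simp only [List.cons_append, List.nil_append, lc_cons, lc_single, fan_single, add_zero]
      rw [xx_sw1 g a z w, z2_add_self]
    | cons b L =>
      have hz3 := hz2.2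
      have hw3 := hw2.2
      rw [List.mem_cons, not_or] at hz3 hw3
      have ih' := ih ⟨hz.1, hz2.2⟩ ⟨hw.1, hw2.2⟩
      simp only [List.cons_append, lc_cons, fan_cons] at ih' ⊢
      have q := tl hgp (a := g) (b := a) (c := b) (z := z) (w := w) hz.1 hz2.1 hz3.1 hw.1
        hw2.1 hw3.1
      rw [xx_sw1 g b z w] at q
      revert ih' q
      generalize tt p g a b z = t1
      generalize tt p g a b w = t2
      generalize xx p g a z w = x1
      generalize xx p a b z w = x2
      generalize xx p g b z w = x3
      generalize lc p (b :: (L ++ [g])) z w = l1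
      generalize fan p g (b :: L) z = f1
      generalize fan p g (b :: L) w = f2
      revert t1 t2 x1 x2 x3 l1 f1 f2
      decide

/-- inserting a vertex between the consecutive entries `a`, `b` changes the fan by a triangle -/
theorem fan_insert (hgp : GP p) {z : α} (g : α) (A B : List α) (a q b : α) (hg : z ≠ g)
    (ha : z ≠ a) (hq : z ≠ q) (hb : z ≠ b) :
    fan p g (A ++ a :: q :: b :: B) z = fan p g (A ++ a :: b :: B) z + tt p a q b z := by
  rw [fan_append g A (q :: b :: B) a z, fan_append g A (b :: B) a z]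
  simp only [fan_cons]
  have k := quad hgp (a := g) (b := a) (c := q) (d := b) hg ha hq hb
  revert k
  generalize tt p g a q z = t1
  generalize tt p g a b z = t2
  generalize tt p g q b z = t3
  generalize tt p a q b z = t4
  generalize fan p g (A ++ [a]) z = f1
  generalize fan p g (b :: B) z = f2
  revert t1 t2 t3 t4 f1 f2
  decide

/-- inserting a first vertex -/
theorem fan_insert_first {z : α} (g : α) (B : List α) (q b : α) :
    fan p g (q :: b :: B) z = fan p g (b :: B) z + tt p g q b z := by
  rw [fan_cons, add_comm]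

/-- inserting a last vertex -/
theorem fan_insert_last {z : α} (g : α) (A : List α) (a q : α) :
    fan p g (A ++ [a, q]) z = fan p g (A ++ [a]) z + tt p g a q z := by
  rw [fan_append g A [q] a z, fan_cons, fan_single, add_zero]

/-- indicator of the convex cone `z g w` -/
noncomputable def kk (p : α → ℝ × ℝ) (g z w a : α) : ZMod 2 :=
  xi ((0 < o p g z w ∧ 0 < o p g z a ∧ 0 < o p g a w) ∨
    (o p g z w < 0 ∧ o p g z a < 0 ∧ o p g a w < 0))

private theorem kk_bool : ∀ D s t u : Bool, (s = t → t = u → s = D) →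
    xor ((s == u) && (D != t)) ((t == u) && (u == s)) = ((D == s) && (s == u)) := by
  decide

theorem kk_eq (hgp : GP p) {g z w a : α} (hgz : g ≠ z) (hgw : g ≠ w) (hzw : z ≠ w)
    (hag : a ≠ g) (haz : a ≠ z) (haw : a ≠ w) :
    xx p g a z w + tt p g z w a = kk p g z w a := by
  have D := hgp.ne g z w hgz hzw hgw
  have s := hgp.ne g z a hgz (Ne.symm haz) (Ne.symm hag)
  have t := hgp.ne z w a hzw (Ne.symm haw) (Ne.symm haz)
  have u := hgp.ne g a w (Ne.symm hag) haw hgw
  have e1 : o p w g a = o p g a w := o_rot' p g a w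
  have e2 : o p g a z = - o p g z a := o_swap' p g z a
  have e3 : o p z w g = o p g z w := (o_rot p g z w)
  have h := kk_bool (sg (o p g z w)) (sg (o p g z a)) (sg (o p z w a)) (sg (o p g a w))
    (fun h1 h2 => sg_all s t u D (by rw [o_add p g z w a, e1]) h1 h2)
  unfold xx tt kk
  rw [xi_bool (P := X p g a z w) (b := ((sg (o p g z a) == sg (o p g a w)) &&
      (sg (o p g z w) != sg (o p z w a)))),
    xi_bool (P := InTri p g z w a) (b := ((sg (o p z w a) == sg (o p g a w)) &&
      (sg (o p g a w) == sg (o p g z a)))),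
    xi_bool (P := (0 < o p g z w ∧ 0 < o p g z a ∧ 0 < o p g a w) ∨
      (o p g z w < 0 ∧ o p g z a < 0 ∧ o p g a w < 0)) (b := ((sg (o p g z w) ==
      sg (o p g z a)) && (sg (o p g z a) == sg (o p g a w)))), ← ite_xor, h]
  · rw [← sg_iff (x := o p g z w), ← sg_iff (x := o p g z a), ← sg_iff (x := o p g a w),
      ← sg_false D, ← sg_false s, ← sg_false u]
    generalize sg (o p g z w) = x1
    generalize sg (o p g z a) = x2
    generalize sg (o p g a w) = x3
    revert x1 x2 x3
    decide
  · unfold InTri
    rw [e1]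
    exact sg_tri s t u
  · unfold X
    rw [e2, e3, sg_mul_neg (neg_ne_zero.2 s) u, sg_mul_neg D t, sg_neg s, ← Bool.and_eq_true]
    generalize sg (o p g z a) = x1
    generalize sg (o p g a w) = x2
    generalize sg (o p g z w) = x3
    generalize sg (o p z w a) = x4
    revert x1 x2 x3 x4
    decide

theorem kk_symm {g z w a : α} : kk p g z w a = kk p g w z a := by
  apply xi_congr
  rw [o_swap' p g z w, o_swap' p g a w, o_swap' p g z a]
  constructor
  · rintro (⟨h1, h2, h3⟩ | ⟨h1, h2, h3⟩)
    · right; exact ⟨by linarith, by linarith, by linarith⟩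
    · left; exact ⟨by linarith, by linarith, by linarith⟩
  · rintro (⟨h1, h2, h3⟩ | ⟨h1, h2, h3⟩)
    · right; exact ⟨by linarith, by linarith, by linarith⟩
    · left; exact ⟨by linarith, by linarith, by linarith⟩

/-- crossings of an open list with `zw` if it does not cross `gz`, `gw` -/
theorem lc_tel (hgp : GP p) {g z w : α} (a : α) (M : List α) (hg : g ∉ a :: M) (hz : z ∉ a :: M) (hw : w ∉ a :: M)
    (h1 : ∀ c d, Ed (a :: M) c d → ¬ X p g z c d) (h2 : ∀ c d, Ed (a :: M) c d → ¬ X p g w c d) :
    lc p (a :: M) z w =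
      tt p g z w a + tt p g z w ((a :: M).getLast (List.cons_ne_nil a M)) := by
  induction M generalizing a with
  | nil => simp [z2_add_self]
  | cons b M ih =>
    rw [List.mem_cons, not_or] at hg hz hw
    have hg2 := hg.2
    have hz2 := hz.2
    have hw2 := hw.2
    rw [List.mem_cons, not_or] at hg2 hz2 hw2
    have ih' := ih b hg.2 hz.2 hw.2 (fun c d hcd => h1 c d (Or.inr (Or.inr hcd)))
      (fun c d hcd => h2 c d (Or.inr (Or.inr hcd)))
    have q := tl hgp (a := g) (b := z) (c := w) (z := a) (w := b) (Ne.symm hg.1)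
      (Ne.symm hz.1) (Ne.symm hw.1) (Ne.symm hg2.1) (Ne.symm hz2.1) (Ne.symm hw2.1)
    have q1 : xx p g z a b = 0 := xi_false (h1 a b (Or.inl ⟨rfl, rfl⟩))
    have q2 : xx p w g a b = 0 := by
      rw [xx_sw1 g w a b]; exact xi_false (h2 a b (Or.inl ⟨rfl, rfl⟩))
    rw [q1, q2, xx_comm z w a b, zero_add, add_zero] at q
    rw [lc_cons, ih', q, List.getLast_cons (List.cons_ne_nil b M)]
    generalize tt p g z w a = t1
    generalize tt p g z w b = t2
    generalize tt p g z w ((b :: M).getLast (List.cons_ne_nil b M)) = t3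
    revert t1 t2 t3
    decide

/-- local version at the vertex `g` of a closed polygon `g, a, M`: the side of two points seen
from `g` differs according to the number of polygon edges at `g` inside the cone -/
theorem jor2 (hgp : GP p) {g z w : α} (hgz : g ≠ z) (hgw : g ≠ w) (hzw : z ≠ w)
    (a : α) (M : List α) (hg : g ∉ a :: M) (hz : z ∉ a :: M) (hw : w ∉ a :: M)
    (h1 : ∀ c d, Ed (a :: M) c d → ¬ X p g z c d) (h2 : ∀ c d, Ed (a :: M) c d → ¬ X p g w c d) :
    fan p g (a :: M) z + fan p g (a :: M) w =
      kk p g z w a + kk p g z w ((a :: M).getLast (List.cons_ne_nil a M)) := by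
  have hz' : z ∉ g :: a :: M := by
    rw [List.mem_cons, not_or]; exact ⟨Ne.symm hgz, hz⟩
  have hw' : w ∉ g :: a :: M := by
    rw [List.mem_cons, not_or]; exact ⟨Ne.symm hgw, hw⟩
  have k1 := jor1 hgp g (a :: M) hz' hw'
  have k2 := lc_tel hgp a M hg hz hw h1 h2
  obtain ⟨A, e, hA⟩ : ∃ A e, a :: M = A ++ [e] := by
    rcases List.eq_nil_or_concat (a :: M) with h | ⟨A, e, h⟩
    · exact absurd h (List.cons_ne_nil a M)
    · exact ⟨A, e, by rw [h, List.concat_eq_append]⟩
  have he : (a :: M).getLast (List.cons_ne_nil a M) = e := by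
    simp only [hA, List.getLast_append_of_ne_nil, List.getLast_singleton, ne_eq,
      List.cons_ne_nil, not_false_eq_true]
  have ha : a ∈ a :: M := List.mem_cons_self
  have hee : e ∈ a :: M := by rw [hA]; simp
  rw [he] at k2 ⊢
  rw [← k1, ← kk_eq hgp hgz hgw hzw (fun h => hg (h ▸ ha)) (fun h => hz (h ▸ ha))
    (fun h => hw (h ▸ ha)), ← kk_eq hgp hgz hgw hzw (fun h => hg (h ▸ hee))
    (fun h => hz (h ▸ hee)) (fun h => hw (h ▸ hee))]
  have e1 : lc p (g :: ((a :: M) ++ [g])) z w =
      xx p g a z w + lc p ((a :: M) ++ [g]) z w := rfl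
  have e2 : lc p ((a :: M) ++ [g]) z w = lc p (a :: M) z w + xx p e g z w := by
    rw [hA, List.append_assoc]
    show lc p (A ++ e :: [g]) z w = _
    rw [lc_append A [g] e z w, lc_cons, lc_single, add_zero]
  rw [e1, e2, k2, xx_sw1 g e z w]
  generalize tt p g z w a = t1
  generalize tt p g z w e = t2
  generalize xx p g a z w = t3
  generalize xx p g e z w = t4
  revert t1 t2 t3 t4
  decide

/-- the side is constant along a path which does not cross the polygon and avoids its vertices -/
theorem jor_path (hgp : GP p) (g : α) (L : List α) (R : List α) {z w : α}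
    (hR : ∀ y ∈ z :: R, y ∉ g :: L)
    (hX : ∀ c d, Ed (z :: R) c d → ∀ a b, Ed (g :: (L ++ [g])) a b → ¬ X p a b c d)
    (hw : w ∈ z :: R) : fan p g L w = fan p g L z := by
  induction R generalizing z with
  | nil =>
    rw [List.mem_singleton] at hw
    rw [hw]
  | cons y R ih =>
    rw [List.mem_cons] at hw
    rcases hw with hw | hw
    · rw [hw]
    · have h1 := ih (z := y) (fun x hx => hR x (List.mem_cons_of_mem _ hx))
        (fun c d hcd => hX c d (Or.inr (Or.inr hcd))) hw
      have h2 := jor1 hgp g L (hR z List.mem_cons_self)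
        (hR y (List.mem_cons_of_mem _ List.mem_cons_self))
      have h3 : lc p (g :: (L ++ [g])) z y = 0 := by
        have h4 : ∀ K : List α, (∀ a b, Ed K a b → ¬ X p a b z y) → lc p K z y = 0 := by
          intro K
          induction K with
          | nil => intro _; rfl
          | cons k K ihK =>
            intro hK
            cases K with
            | nil => rfl
            | cons k' K =>
              rw [lc_cons, ihK fun a b hab => hK a b (Or.inr (Or.inr hab)), add_zero]
              exact xi_false (hK k k' (Or.inl ⟨rfl, rfl⟩))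
        exact h4 _ fun a b hab => hX z y (Or.inl ⟨rfl, rfl⟩) a b hab
      rw [h3] at h2
      rw [h1]
      revert h2
      generalize fan p g L z = f1
      generalize fan p g L y = f2
      revert f1 f2
      decide

end

end FPW
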