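import Pool.Agent.Lib.MP_deef39_co_Ord.GLam2

/-! # Ord module GConn: connectivity lemma -/

set_option autoImplicit false

namespace FPW

variable {α : Type*} {p : α → ℝ × ℝ}

/-- a path which starts outside a polygon and whose neighbours of polygon vertices are inside never
touches the polygon -/
theorem conn (hgp : GP p) {b : α} {R : List α} (hs : Sim p b R) {v : α} {C : List α}
    (hX : ∀ c d, Ed (v :: C) c d → ∀ x y, Ed (cyc b R) x y → ¬ X p x y c d)
    (hv : v ∉ b :: R) (h0 : Lam p b R v = 0)
    (hloc : ∀ f ∈ C, f ∈ b :: R → ∀ z, Ed (v :: C) z f → z ∉ b :: R → Lam p b R z = 1) :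
    ∀ f ∈ C, f ∉ b :: R ∧ Lam p b R f = 0 := by
  induction C generalizing v with
  | nil =>
    intro f hf
    exact absurd hf List.not_mem_nil
  | cons g C ih =>
    have hE : Ed (v :: g :: C) v g := Or.inl ⟨rfl, rfl⟩
    have hg : g ∉ b :: R := by
      intro h1
      have h2 := hloc g List.mem_cons_self h1 v hE hv
      rw [h0] at h2
      exact zero_ne_one h2
    have hg0 : Lam p b R g = 0 := by
      rw [← lam_same hgp hs hv hg, h0]
      intro c d hcd h1
      exact hX v g hE c d hcd h1.symm
    intro f hf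
    rcases List.mem_cons.1 hf with h1 | h1
    · rw [h1]
      exact ⟨hg, hg0⟩
    · refine ih (v := g) (fun c d hcd => hX c d (Or.inr (Or.inr hcd))) hg hg0 ?_ f h1
      intro f' hf' hf'R z hz hzR
      exact hloc f' (List.mem_cons_of_mem _ hf') hf'R z (Or.inr (Or.inr hz)) hzR

end FPW
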