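import Pool.Agent.Lib.MP_deef39_co_Ord.GSplit
import Pool.Agent.Lib.MP_deef39_co_Ord.GConn

/-! # Ord module GArc: consequences of connectivity -/

set_option autoImplicit false

namespace FPW

variable {α : Type*} {p : α → ℝ × ℝ}

/-- the triples of the first part at its inner vertices are triples of the polygon -/
private theorem tri_first {q e f A B : α} {S T : List α} (hn : (q :: (S ++ e :: T)).Nodup)
    (hf : f ∈ S) (h : Tri3 q (S ++ [e]) A f B) : Tri3 q (S ++ e :: T) A f B := by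
  have hfe : f ≠ e := by
    rintro rfl
    rw [List.nodup_cons, List.nodup_append] at hn
    exact hn.2.2.2 f hf f List.mem_cons_self rfl
  have hfq : f ≠ q := by
    rintro rfl
    rw [List.nodup_cons] at hn
    exact hn.1 (List.mem_append_left _ hf)
  have hPe : S ++ e :: T = (S ++ [e]) ++ T := by simp
  rcases h with ⟨S1, T1, h⟩ | ⟨T1, h, hA⟩ | ⟨S1, h, hB⟩ | ⟨h, -⟩
  · left
    exact ⟨S1, T1 ++ T, by rw [hPe, h]; simp⟩
  · right; left
    exact ⟨T1 ++ T, by rw [hPe, h]; simp, hA⟩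
  · exfalso
    have h2 : S ++ [e] = (S1 ++ [A]) ++ [f] := by rw [h]; simp
    have h3 := (List.append_inj' h2 rfl).2
    simp only [List.cons.injEq, and_true] at h3
    exact hfe h3.symm
  · exact absurd h hfq

/-- the triples of the second part at its inner vertices are triples of the polygon -/
private theorem tri_second {q e f A B : α} {S T : List α} (hn : (q :: (S ++ e :: T)).Nodup)
    (hf : f ∈ T) (h : Tri3 q (e :: T) A f B) : Tri3 q (S ++ e :: T) A f B := by
  have hfe : f ≠ e := by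
    rintro rfl
    rw [List.nodup_cons, List.nodup_append, List.nodup_cons] at hn
    exact hn.2.2.1.1 hf
  have hfq : f ≠ q := by
    rintro rfl
    rw [List.nodup_cons] at hn
    exact hn.1 (List.mem_append_right _ (List.mem_cons_of_mem _ hf))
  rcases h with ⟨S1, T1, h⟩ | ⟨T1, h, hA⟩ | ⟨S1, h, hB⟩ | ⟨h, -⟩
  · left
    exact ⟨S ++ S1, T1, by rw [h]; simp⟩
  · exfalso
    simp only [List.cons.injEq] at h
    exact hfe h.1.symm
  · right; right; left
    exact ⟨S ++ S1, by rw [h]; simp, hB⟩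
  · exact absurd h hfq

private theorem tri_base {v A B : α} {P : List α} (hn : (v :: P).Nodup)
    (h : Tri3 v P A v B) : P.head? = some B ∧ P.getLast? = some A := by
  rw [List.nodup_cons] at hn
  rcases h with ⟨S1, T1, h⟩ | ⟨T1, h, -⟩ | ⟨S1, h, -⟩ | ⟨-, h1, h2⟩
  · exact absurd (by rw [h]; simp) hn.1
  · exact absurd (by rw [h]; simp) hn.1
  · exact absurd (by rw [h]; simp) hn.1
  · exact ⟨h1, h2⟩

private theorem tri_base1 {v s A B : α} {S T : List α} (hn : (v :: (S ++ s :: T)).Nodup)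
    (hS : S ≠ []) (h : Tri3 v (S ++ s :: T) A v B) : Tri3 v (S ++ [s]) s v B := by
  obtain ⟨h1, -⟩ := tri_base hn h
  refine Or.inr (Or.inr (Or.inr ⟨rfl, ?_, by simp⟩))
  cases S with
  | nil => exact absurd rfl hS
  | cons c S => simpa using h1

private theorem tri_base2 {v s A B : α} {S T : List α} (hn : (v :: (S ++ s :: T)).Nodup)
    (h : Tri3 v (S ++ s :: T) A v B) : Tri3 v (s :: T) A v s := by
  obtain ⟨-, h2⟩ := tri_base hn h
  refine Or.inr (Or.inr (Or.inr ⟨rfl, by simp, ?_⟩))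
  rw [List.getLast?_append] at h2
  cases hT : (s :: T).getLast? with
  | none => simp at hT
  | some c =>
    rw [hT] at h2
    simpa using h2

private theorem ed_first {q e x y : α} {S T : List α} (h : Ed (cyc q (S ++ [e])) x y) :
    Ed (cyc q (S ++ e :: T)) x y ∨ (x = q ∧ y = e) ∨ (x = e ∧ y = q) := by
  have h1 : cyc q (S ++ [e]) = (q :: S) ++ [e, q] := by simp [cyc]
  have h2 : cyc q (S ++ e :: T) = (q :: S) ++ e :: (T ++ [q]) := by simp [cyc]
  rw [h1, ed_snoc2] at h
  rw [h2, ed_mid]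
  rcases h with h | ⟨h3, h4⟩ | ⟨h3, h4⟩
  · exact Or.inl (Or.inl h)
  · exact Or.inr (Or.inr ⟨h3, h4⟩)
  · exact Or.inr (Or.inl ⟨h3, h4⟩)

private theorem ed_second {q e x y : α} {S T : List α} (h : Ed (cyc q (e :: T)) x y) :
    Ed (cyc q (S ++ e :: T)) x y ∨ (x = q ∧ y = e) ∨ (x = e ∧ y = q) := by
  have h1 : cyc q (e :: T) = q :: e :: (T ++ [q]) := by simp [cyc]
  have h2 : cyc q (S ++ e :: T) = (q :: S) ++ e :: (T ++ [q]) := by simp [cyc]
  rw [h1, ed_cons2] at h
  rw [h2, ed_mid]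
  rcases h with h | h | h
  · exact Or.inr (Or.inl h)
  · exact Or.inr (Or.inr h)
  · exact Or.inl (Or.inr h)

/-- the connectivity lemma for a part `R` of the polygon -/
private theorem core (hgp : GP p) {St : Set (List α)} {V W : Set α} {q : α} {P R : List α}
    (h : WH p St V W q P) (hR : Sim p q R) {l : List α} (hl : l ∈ St)
    (hfe : ∀ x y, Ed (cyc q R) x y → Vis p (Ed l) x y) {y : α} {D : List α}
    (hsub : ∀ c d, Ed (y :: D) c d → Ed l c d) (hD : ∀ f ∈ D, f ∈ W)
    (htri : ∀ f ∈ D, f ∈ q :: R → ∀ A B, Tri3 q R A f B → Tri3 q P A f B)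
    (hy : y ∉ q :: R) (hyW : y ∈ W ∨ y ∈ q :: P) (h0 : Lam p q R y = 0) :
    ∀ f ∈ D, f ∉ q :: R := by
  intro f hf
  refine (conn hgp hR (fun c d hcd a b hab => hfe a b hab c d (hsub c d hcd)) hy h0 ?_ f hf).1
  intro g hg hgR z hzg hz
  have hgW := hD g hg
  obtain ⟨A, B, hAB⟩ := tri3_exists hR.len hgR
  have hAB' := htri g hg hgR A B hAB
  have hne := tri3_ne hR.nodup hR.len hAB
  have hlz : Ed l g z := ed_symm (hsub z g hzg)
  have hvR : Vis p (Ed (cyc q R)) g z := by
    intro c d hcd hX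
    exact hfe c d hcd g z hlz (X_comm.1 hX)
  have hvP : Vis p (Ed (cyc q P)) g z := by
    intro c d hcd hX
    exact h.fen c d hcd l hl g z hlz (X_comm.1 hX)
  have hL : Lf p A g B z := by
    by_cases hzP : z ∈ q :: P
    · have hgP : g ∈ q :: P := (tri3_ne h.sim.nodup h.sim.len hAB').2.2.2.2.1
      refine h.chord l hl g z hlz (Or.inl hgW) hgP hzP ?_ A B hAB'
      intro hed
      rcases ed_tri3 h.sim.nodup h.sim.len hed with ⟨A', h3⟩ | ⟨B', h3⟩
      · have := (tri3_unique h.sim.nodup hAB' h3).2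
        exact hz (this ▸ hne.2.2.2.2.2)
      · have := (tri3_unique h.sim.nodup hAB' h3).1
        exact hz (this ▸ hne.2.2.2.1)
    · have hzW : z ∈ W := by
        have hzm := ed_mem hzg
        rcases List.mem_cons.1 hzm with h3 | h3
        · subst h3
          rcases hyW with h4 | h4
          · exact h4
          · exact absurd h4 hzP
        · exact hD z h3
      have h3 := h.inn z hzW hzP
      rw [lam_vis hgp h.sim hAB' hzP hvP, b2_eq_one] at h3
      exact h3
  rw [lam_vis hgp hR hAB hz hvR]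
  exact b2_true hL

private theorem ed_tail {Q C : List α} {v c d : α} (h : Ed (v :: C) c d) :
    Ed (Q ++ v :: C) c d := ed_mid.2 (Or.inr h)

private theorem ed_tail2 {Q C : List α} {v x c d : α} (h : Ed (x :: C) c d) :
    Ed (Q ++ v :: x :: C) c d := ed_tail (Or.inr (Or.inr h))

private theorem fen_first {St : Set (List α)} {V W : Set α} {q e : α} {S T : List α}
    (h : WH p St V W q (S ++ e :: T)) {l : List α} (hl : l ∈ St) (hf : Vis p (Ed l) q e) :
    ∀ x y, Ed (cyc q (S ++ [e])) x y → Vis p (Ed l) x y := by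
  intro x y hxy
  rcases ed_first (T := T) hxy with h1 | ⟨h1, h2⟩ | ⟨h1, h2⟩
  · exact h.fen x y h1 l hl
  · rw [h1, h2]
    exact hf
  · rw [h1, h2]
    exact Vis_comm.1 hf

private theorem fen_second {St : Set (List α)} {V W : Set α} {q e : α} {S T : List α}
    (h : WH p St V W q (S ++ e :: T)) {l : List α} (hl : l ∈ St) (hf : Vis p (Ed l) q e) :
    ∀ x y, Ed (cyc q (e :: T)) x y → Vis p (Ed l) x y := by
  intro x y hxy
  rcases ed_second (S := S) hxy with h1 | ⟨h1, h2⟩ | ⟨h1, h2⟩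
  · exact h.fen x y h1 l hl
  · rw [h1, h2]
    exact hf
  · rw [h1, h2]
    exact Vis_comm.1 hf

/-- a path of free points with a start outside the first part -/
private theorem walk1 (hgp : GP p) {St : Set (List α)} {V W : Set α} {q e : α}
    {S T : List α} (h : WH p St V W q (S ++ e :: T)) (hq : q ∉ W) (hS : S ≠ [])
    (hT : T ≠ []) (hvis : Vis p (Ed (cyc q (S ++ e :: T))) q e) {l : List α} (hl : l ∈ St)
    (hf : Vis p (Ed l) q e) {y : α} {D : List α} (hsub : ∀ c d, Ed (y :: D) c d → Ed l c d)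
    (hD : ∀ f ∈ D, f ∈ W ∧ f ≠ e) (hy : y ∉ q :: (S ++ [e])) (hyW : y ∈ W ∨ y ∈ T)
    (h0 : Lam p q (S ++ [e]) y = 0) : ∀ f ∈ D, f ∉ S := by
  intro f hf' hfS
  refine core hgp h (split_sim h.sim hS hT hvis).1 hl (fen_first h hl hf) hsub
    (fun f hf => (hD f hf).1) ?_ hy ?_ h0 f hf' ?_
  · intro g hg hgR A B hAB
    refine tri_first h.sim.nodup ?_ hAB
    rcases List.mem_cons.1 hgR with h1 | h1
    · exact absurd (h1 ▸ (hD g hg).1) hq
    · rcases List.mem_append.1 h1 with h2 | h2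
      · exact h2
      · exact absurd (List.mem_singleton.1 h2) (hD g hg).2
  · rcases hyW with h1 | h1
    · exact Or.inl h1
    · exact Or.inr (by simp [h1])
  · exact List.mem_cons_of_mem _ (List.mem_append_left _ hfS)

/-- a path of free points with a start outside the second part -/
private theorem walk2 (hgp : GP p) {St : Set (List α)} {V W : Set α} {q e : α}
    {S T : List α} (h : WH p St V W q (S ++ e :: T)) (hq : q ∉ W) (hS : S ≠ [])
    (hT : T ≠ []) (hvis : Vis p (Ed (cyc q (S ++ e :: T))) q e) {l : List α} (hl : l ∈ St)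
    (hf : Vis p (Ed l) q e) {y : α} {D : List α} (hsub : ∀ c d, Ed (y :: D) c d → Ed l c d)
    (hD : ∀ f ∈ D, f ∈ W ∧ f ≠ e) (hy : y ∉ q :: e :: T) (hyW : y ∈ W ∨ y ∈ S)
    (h0 : Lam p q (e :: T) y = 0) : ∀ f ∈ D, f ∉ T := by
  intro f hf' hfT
  refine core hgp h (split_sim h.sim hS hT hvis).2 hl (fen_second h hl hf) hsub
    (fun f hf => (hD f hf).1) ?_ hy ?_ h0 f hf' ?_
  · intro g hg hgR A B hAB
    refine tri_second h.sim.nodup ?_ hAB
    rcases List.mem_cons.1 hgR with h1 | h1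
    · exact absurd (h1 ▸ (hD g hg).1) hq
    · rcases List.mem_cons.1 h1 with h2 | h2
      · exact absurd h2 (hD g hg).2
      · exact h2
  · rcases hyW with h1 | h1
    · exact Or.inl h1
    · exact Or.inr (by simp [h1])
  · exact List.mem_cons_of_mem _ (List.mem_cons_of_mem _ hfT)

private theorem nd1 {q e y : α} {S T : List α} (hn : (q :: (S ++ e :: T)).Nodup) (hy : y ∈ T) :
    y ∉ q :: (S ++ [e]) := by
  rw [List.nodup_cons, List.nodup_append, List.nodup_cons] at hn
  intro h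
  rcases List.mem_cons.1 h with h1 | h1
  · exact hn.1 (h1 ▸ List.mem_append_right _ (List.mem_cons_of_mem _ hy))
  · rcases List.mem_append.1 h1 with h2 | h2
    · exact hn.2.2.2 y h2 y (List.mem_cons_of_mem _ hy) rfl
    · exact hn.2.2.1.1 ((List.mem_singleton.1 h2) ▸ hy)

private theorem nd2 {q e y : α} {S T : List α} (hn : (q :: (S ++ e :: T)).Nodup) (hy : y ∈ S) :
    y ∉ q :: e :: T := by
  rw [List.nodup_cons, List.nodup_append] at hn
  intro h
  rcases List.mem_cons.1 h with h1 | h1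
  · exact hn.1 (h1 ▸ List.mem_append_left _ hy)
  · exact hn.2.2.2 y hy y h1 rfl

/-- chord `q e` between static vertices, tip in `T`: no free vertex in `S` -/
theorem arc_conn1 (hgp : GP p) {St : Set (List α)} {V W : Set α} {q e A B : α}
    {S T : List α} (h : WH p St V W q (S ++ e :: T)) (hq : q ∉ W) (he : e ∉ W) (hS : S ≠ [])
    (hT : T ≠ []) (hvis : Vis p (Ed (cyc q (S ++ e :: T))) q e)
    (hf : ∀ l ∈ St, Vis p (Ed l) q e) (h1 : Tri3 q (S ++ e :: T) A q B)
    (hl : Lf p A q B e) {Q C : List α} {v : α} (hlS : Q ++ v :: C ∈ St)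
    (hn : (Q ++ v :: C).Nodup) (hC : ∀ t, t ∈ C ↔ t ∈ W) (hv : v ∈ T) : ∀ f ∈ S, f ∉ W := by
  intro f hfS hfW
  exact walk1 hgp h hq hS hT hvis hlS (hf _ hlS) (fun c d hcd => ed_tail hcd)
    (fun g hg => ⟨(hC g).1 hg, fun h2 => he (h2 ▸ (hC g).1 hg)⟩) (nd1 h.sim.nodup hv)
    (Or.inr hv) (split_out1 hgp h.sim hS hT hvis h1 hl v hv) f ((hC f).2 hfW) hfS

theorem arc_conn2 (hgp : GP p) {St : Set (List α)} {V W : Set α} {q e A B : α}
    {S T : List α} (h : WH p St V W q (S ++ e :: T)) (hq : q ∉ W) (he : e ∉ W) (hS : S ≠ [])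
    (hT : T ≠ []) (hvis : Vis p (Ed (cyc q (S ++ e :: T))) q e)
    (hf : ∀ l ∈ St, Vis p (Ed l) q e) (h1 : Tri3 q (S ++ e :: T) A q B)
    (hl : Lf p A q B e) {Q C : List α} {v : α} (hlS : Q ++ v :: C ∈ St)
    (hn : (Q ++ v :: C).Nodup) (hC : ∀ t, t ∈ C ↔ t ∈ W) (hv : v ∈ S) : ∀ f ∈ T, f ∉ W := by
  intro f hfT hfW
  exact walk2 hgp h hq hS hT hvis hlS (hf _ hlS) (fun c d hcd => ed_tail hcd)
    (fun g hg => ⟨(hC g).1 hg, fun h2 => he (h2 ▸ (hC g).1 hg)⟩) (nd2 h.sim.nodup hv)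
    (Or.inr hv) (split_out2 hgp h.sim hS hT hvis h1 hl v hv) f ((hC f).2 hfW) hfT

/-- a path of free points, which does not contain `e`: it misses `S` or `T` -/
private theorem walk12 (hgp : GP p) {St : Set (List α)} {V W : Set α} {q e A B : α}
    {S T : List α} (h : WH p St V W q (S ++ e :: T)) (hq : q ∉ W) (hS : S ≠ [])
    (hT : T ≠ []) (hvis : Vis p (Ed (cyc q (S ++ e :: T))) q e) {l : List α} (hl : l ∈ St)
    (hf : Vis p (Ed l) q e) (h1 : Tri3 q (S ++ e :: T) A q B) (hlf : Lf p A q B e)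
    {C : List α} (hsub : ∀ c d, Ed C c d → Ed l c d) (hC : ∀ f ∈ C, f ∈ W ∧ f ≠ e) :
    (∀ f ∈ C, f ∉ S) ∨ ∀ f ∈ C, f ∉ T := by
  cases C with
  | nil => exact Or.inl fun f hf => absurd hf List.not_mem_nil
  | cons y D =>
    have hy := hC y List.mem_cons_self
    have hD : ∀ f ∈ D, f ∈ W ∧ f ≠ e := fun f hf => hC f (List.mem_cons_of_mem _ hf)
    have g1 : y ∉ q :: (S ++ [e]) → Lam p q (S ++ [e]) y = 0 → ∀ f ∈ y :: D, f ∉ S := by
      intro hy1 hy2 f hf1
      rcases List.mem_cons.1 hf1 with h2 | h2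
      · rw [h2]
        exact fun h3 => hy1 (List.mem_cons_of_mem _ (List.mem_append_left _ h3))
      · exact walk1 hgp h hq hS hT hvis hl hf hsub hD hy1 (Or.inl hy.1) hy2 f h2
    have g2 : y ∉ q :: e :: T → Lam p q (e :: T) y = 0 → ∀ f ∈ y :: D, f ∉ T := by
      intro hy1 hy2 f hf1
      rcases List.mem_cons.1 hf1 with h2 | h2
      · rw [h2]
        exact fun h3 => hy1 (List.mem_cons_of_mem _ (List.mem_cons_of_mem _ h3))
      · exact walk2 hgp h hq hS hT hvis hl hf hsub hD hy1 (Or.inl hy.1) hy2 f h2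
    by_cases hyS : y ∈ S
    · exact Or.inr (g2 (nd2 h.sim.nodup hyS) (split_out2 hgp h.sim hS hT hvis h1 hlf y hyS))
    by_cases hyT : y ∈ T
    · exact Or.inl (g1 (nd1 h.sim.nodup hyT) (split_out1 hgp h.sim hS hT hvis h1 hlf y hyT))
    have hyq : y ≠ q := fun h2 => hq (h2 ▸ hy.1)
    have hyP : y ∉ q :: (S ++ e :: T) := by
      simp only [List.mem_cons, List.mem_append, not_or]
      exact ⟨hyq, hyS, hy.2, hyT⟩
    have hy1 : y ∉ q :: (S ++ [e]) := by
      simp only [List.mem_cons, List.mem_append, List.not_mem_nil, or_false, not_or]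
      exact ⟨hyq, hyS, hy.2⟩
    have hy2 : y ∉ q :: e :: T := by
      simp only [List.mem_cons, not_or]
      exact ⟨hyq, hy.2, hyT⟩
    have h3 := split_lam hgp h.sim hS hT hvis h1 hlf hyP
    rw [h.inn y hy.1 hyP] at h3
    rcases (by decide : ∀ a b : ZMod 2, 1 = a + b → a = 0 ∨ b = 0) _ _ h3 with h4 | h4
    · exact Or.inl (g1 hy1 h4)
    · exact Or.inr (g2 hy2 h4)

/-- the tip is an end of the chord -/
theorem arc_tip (hgp : GP p) {St : Set (List α)} {V W : Set α} {q e A B : α}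
    {S T : List α} (h : WH p St V W q (S ++ e :: T)) (hq : q ∉ W) (he : e ∉ W) (hS : S ≠ [])
    (hT : T ≠ []) (hvis : Vis p (Ed (cyc q (S ++ e :: T))) q e)
    (hf : ∀ l ∈ St, Vis p (Ed l) q e) (h1 : Tri3 q (S ++ e :: T) A q B)
    (hl : Lf p A q B e) {Q C : List α} {v : α} (hlS : Q ++ v :: C ∈ St)
    (hn : (Q ++ v :: C).Nodup) (hC : ∀ t, t ∈ C ↔ t ∈ W) (hv : v = q ∨ v = e) :
    (∀ f ∈ S, f ∉ W) ∨ ∀ f ∈ T, f ∉ W := by
  have hsub : ∀ c d, Ed C c d → Ed (Q ++ v :: C) c d := by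
    intro c d hcd
    cases C with
    | nil => exact hcd.elim
    | cons y D => exact ed_tail2 hcd
  rcases walk12 hgp h hq hS hT hvis hlS (hf _ hlS) h1 hl hsub
    (fun g hg => ⟨(hC g).1 hg, fun h2 => he (h2 ▸ (hC g).1 hg)⟩) with h2 | h2
  · exact Or.inl fun f hfS hfW => h2 f ((hC f).2 hfW) hfS
  · exact Or.inr fun f hfT hfW => h2 f ((hC f).2 hfW) hfT

/-- the next vertex `x` is a vertex of the polygon -/
theorem arc_next (hgp : GP p) {St : Set (List α)} {V W : Set α} {v x : α}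
    {S T : List α} (h : WH p St V W v (S ++ x :: T)) (hv : v ∉ W) (hS : S ≠ [])
    (hT : T ≠ []) {Q C : List α} (hlS : Q ++ v :: x :: C ∈ St)
    (hn : (Q ++ v :: x :: C).Nodup) (hC : ∀ t, t ∈ x :: C ↔ t ∈ W) :
    (∀ f ∈ S, f ∉ W) ∨ ∀ f ∈ T, f ∉ W := by
  have hP := h.sim.nodup
  have hxW : x ∈ W := (hC x).1 List.mem_cons_self
  have hed : Ed (Q ++ v :: x :: C) v x := ed_of_split
  have hvis : Vis p (Ed (cyc v (S ++ x :: T))) v x := by
    intro c d hcd hX
    exact h.fen c d hcd _ hlS v x hed (X_comm.1 hX)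
  have hf : Vis p (Ed (Q ++ v :: x :: C)) v x := Vis_of_edge (h.plane _ hlS) hed
  obtain ⟨A, B, h1⟩ := tri3_exists h.sim.len (List.mem_cons_self (a := v) (l := S ++ x :: T))
  have hxS : x ∉ S := by
    intro h2
    rw [List.nodup_cons, List.nodup_append] at hP
    exact hP.2.2.2 x h2 x List.mem_cons_self rfl
  have hxT : x ∉ T := by
    intro h2
    rw [List.nodup_cons, List.nodup_append, List.nodup_cons] at hP
    exact hP.2.2.1.1 h2
  have hnC : x ∉ C := by
    intro h2
    have h3 : (v :: x :: C).Nodup := (List.nodup_append.1 hn).2.1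
    rw [List.nodup_cons, List.nodup_cons] at h3
    exact h3.2.1 h2
  have hlf : Lf p A v B x := by
    refine h.chord _ hlS v x hed (Or.inr hxW) List.mem_cons_self (by simp) ?_ A B h1
    intro h2
    obtain ⟨hB, hA⟩ := tri_base hP h1
    rcases ed_tri3 hP h.sim.len h2 with ⟨A', h3⟩ | ⟨B', h3⟩
    · have h4 := (tri_base hP h3).1
      cases S with
      | nil => exact hS rfl
      | cons c S =>
        simp only [List.cons_append, List.head?_cons, Option.some.injEq] at h4
        exact hxS (by simp [h4])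
    · have h4 := (tri_base hP h3).2
      rcases List.eq_nil_or_concat T with h5 | ⟨T', t, h5⟩
      · exact hT h5
      · rw [h5, List.concat_eq_append] at h4 hxT
        have h6 : S ++ x :: (T' ++ [t]) = (S ++ x :: T') ++ [t] := by simp
        rw [h6, List.getLast?_concat, Option.some.injEq] at h4
        exact hxT (by simp [h4])
  rcases walk12 hgp h hv hS hT hvis hlS hf h1 hlf (C := C)
    (fun c d hcd => by
      cases C with
      | nil => exact hcd.elim
      | cons y D => exact ed_tail2 (Or.inr (Or.inr hcd)))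
    (fun g hg => ⟨(hC g).1 (List.mem_cons_of_mem _ hg), fun h2 => hnC (h2 ▸ hg)⟩)
    with h2 | h2
  · refine Or.inl fun f hfS hfW => ?_
    rcases List.mem_cons.1 ((hC f).2 hfW) with h3 | h3
    · exact hxS (h3 ▸ hfS)
    · exact h2 f h3 hfS
  · refine Or.inr fun f hfT hfW => ?_
    rcases List.mem_cons.1 ((hC f).2 hfW) with h3 | h3
    · exact hxT (h3 ▸ hfT)
    · exact h2 f h3 hfT

/-- chord `v s`, next vertex `x` not on the polygon, inside the part `v, S, s` -/
theorem arc_open1 (hgp : GP p) {St : Set (List α)} {V W : Set α} {v s x A B : α}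
    {S T : List α} (h : WH p St V W v (S ++ s :: T)) (hv : v ∉ W) (hs : s ∉ W) (hS : S ≠ [])
    (hT : T ≠ []) (hvis : Vis p (Ed (cyc v (S ++ s :: T))) v s)
    (hf : ∀ l ∈ St, Vis p (Ed l) v s) (h1 : Tri3 v (S ++ s :: T) A v B)
    (hl : Lf p A v B s) {Q C : List α} (hlS : Q ++ v :: x :: C ∈ St)
    (hn : (Q ++ v :: x :: C).Nodup) (hC : ∀ t, t ∈ x :: C ↔ t ∈ W)
    (hx : x ∉ v :: (S ++ s :: T)) (hx1 : Lf p s v B x) : ∀ f ∈ T, f ∉ W := by
  intro f hfT hfW
  have hP := h.sim.nodup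
  have hxW : x ∈ W := (hC x).1 List.mem_cons_self
  have hed : Ed (Q ++ v :: x :: C) v x := ed_of_split
  have hx1' : x ∉ v :: (S ++ [s]) := by
    intro h2
    apply hx
    simp only [List.mem_cons, List.mem_append, List.not_mem_nil, or_false] at h2 ⊢
    tauto
  have hx2' : x ∉ v :: s :: T := by
    intro h2
    apply hx
    simp only [List.mem_cons, List.mem_append] at h2 ⊢
    tauto
  have hv1 : Vis p (Ed (cyc v (S ++ [s]))) v x := by
    intro c d hcd hX
    exact fen_first h hlS (hf _ hlS) c d hcd v x hed (X_comm.1 hX)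
  have h3 := split_lam hgp h.sim hS hT hvis h1 hl hx
  rw [h.inn x hxW hx, lam_vis hgp (split_sim h.sim hS hT hvis).1 (tri_base1 hP hS h1) hx1' hv1,
    b2_true hx1] at h3
  have h4 : Lam p v (s :: T) x = 0 :=
    (by decide : ∀ a : ZMod 2, 1 = 1 + a → a = 0) _ h3
  have h5 := walk2 hgp h hv hS hT hvis hlS (hf _ hlS) (fun c d hcd => ed_tail2 hcd)
    (fun g hg => ⟨(hC g).1 (List.mem_cons_of_mem _ hg),
      fun h2 => hs (h2 ▸ (hC g).1 (List.mem_cons_of_mem _ hg))⟩) hx2' (Or.inl hxW) h4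
  rcases List.mem_cons.1 ((hC f).2 hfW) with h6 | h6
  · exact hx2' (by simp [← h6, hfT])
  · exact h5 f h6 hfT

theorem arc_open2 (hgp : GP p) {St : Set (List α)} {V W : Set α} {v s x A B : α}
    {S T : List α} (h : WH p St V W v (S ++ s :: T)) (hv : v ∉ W) (hs : s ∉ W) (hS : S ≠ [])
    (hT : T ≠ []) (hvis : Vis p (Ed (cyc v (S ++ s :: T))) v s)
    (hf : ∀ l ∈ St, Vis p (Ed l) v s) (h1 : Tri3 v (S ++ s :: T) A v B)
    (hl : Lf p A v B s) {Q C : List α} (hlS : Q ++ v :: x :: C ∈ St)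
    (hn : (Q ++ v :: x :: C).Nodup) (hC : ∀ t, t ∈ x :: C ↔ t ∈ W)
    (hx : x ∉ v :: (S ++ s :: T)) (hx1 : Lf p A v s x) : ∀ f ∈ S, f ∉ W := by
  intro f hfS hfW
  have hP := h.sim.nodup
  have hxW : x ∈ W := (hC x).1 List.mem_cons_self
  have hed : Ed (Q ++ v :: x :: C) v x := ed_of_split
  have hx1' : x ∉ v :: (S ++ [s]) := by
    intro h2
    apply hx
    simp only [List.mem_cons, List.mem_append, List.not_mem_nil, or_false] at h2 ⊢
    tauto
  have hx2' : x ∉ v :: s :: T := by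
    intro h2
    apply hx
    simp only [List.mem_cons, List.mem_append] at h2 ⊢
    tauto
  have hv1 : Vis p (Ed (cyc v (s :: T))) v x := by
    intro c d hcd hX
    exact fen_second h hlS (hf _ hlS) c d hcd v x hed (X_comm.1 hX)
  have h3 := split_lam hgp h.sim hS hT hvis h1 hl hx
  rw [h.inn x hxW hx, lam_vis hgp (split_sim h.sim hS hT hvis).2 (tri_base2 hP h1) hx2' hv1,
    b2_true hx1] at h3
  have h4 : Lam p v (S ++ [s]) x = 0 :=
    (by decide : ∀ a : ZMod 2, 1 = a + 1 → a = 0) _ h3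
  have h5 := walk1 hgp h hv hS hT hvis hlS (hf _ hlS) (fun c d hcd => ed_tail2 hcd)
    (fun g hg => ⟨(hC g).1 (List.mem_cons_of_mem _ hg),
      fun h2 => hs (h2 ▸ (hC g).1 (List.mem_cons_of_mem _ hg))⟩) hx1' (Or.inl hxW) h4
  rcases List.mem_cons.1 ((hC f).2 hfW) with h6 | h6
  · exact hx1' (by simp [← h6, hfS])
  · exact h5 f h6 hfS

end FPW
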