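import Pool.Agent.Lib.MP_deef39_co_Ord.GStart
import Pool.Agent.Lib.MP_deef39_co_DA.Iface

/-! # Ord module GBegin: the start for `VLp`, and neighbours on the relative hull see each other -/

set_option autoImplicit false

namespace FPW

variable {α : Type*} {p : α → ℝ × ℝ}

theorem rh_begin [Finite α] (hgp : GP p) {h : α} {B : List α} (hn : (h :: B).Nodup)
    (hB : 2 ≤ B.length) (hv : HV p {t | t ∈ h :: B} h) :
    ∃ P, RHu p (PS p [] h {t | t ∈ B}) {t | t ∈ h :: B} {t | t ∈ B} h P ∧
      ∀ A g C, Tri3 h P A g C → 0 < o p A g C := by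
  refine wh_start hgp hn hB ⟨by simp, ?_⟩ ?_
  · obtain ⟨r, hr⟩ := hv
    exact ⟨r, fun t ht hne => hr t ht hne⟩
  · rintro l ⟨C, rfl, hnd, hm, hpl⟩
    refine ⟨?_, hpl⟩
    rw [List.nil_append] at hnd ⊢
    rw [List.perm_ext_iff_of_nodup hnd hn]
    intro t
    simp only [List.mem_cons]
    exact or_congr_right (hm t)

/-- neighbours on the relative hull see each other in all states -/
theorem rh_see {St : Set (List α)} {V W : Set α} {v : α} {P : List α} {a b : α}
    (h : RHu p St V W v P) (hab : Ed (cyc v P) a b) : ∀ l ∈ St, Vis p (Ed l) a b :=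
  h.toWH.fen a b hab

end FPW
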