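import Pool.Agent.Lib.MP_deef39_co_Ord.GDef

/-! # Ord module GChain: the hull chain in a triangle

`chain`: for a positively oriented triangle `A q B` and a set `V` there is the chain of extreme
points of `V` in the triangle facing `q`.
-/

set_option autoImplicit false

namespace FPW

variable {α : Type*} {p : α → ℝ × ℝ}

private theorem tri_iff {A q B z : α} (h : 0 < o p A q B) :
    InTri p A q B z ↔ (0 < o p A q z ∧ 0 < o p q B z ∧ 0 < o p B A z) := by
  constructor
  · rintro (h1 | ⟨h1, h2, h3⟩)
    · exact h1
    · exfalso
      have := o_add p A q B z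
      linarith
  · exact fun h1 => Or.inl h1

/-- sub-triangle at `B` -/
private theorem sub_b {A q B e z : α} (h : 0 < o p A q B) (he : InTri p A q B e)
    (hz : InTri p e q B z) : InTri p A q B z := by
  obtain ⟨h1, h2, h3⟩ := (tri_iff h).1 he
  have hD : 0 < o p e q B := by rw [← o_rot]; exact h2
  obtain ⟨k1, k2, k3⟩ := (tri_iff hD).1 hz
  refine (tri_iff h).2 ⟨?_, k2, ?_⟩
  · have e1 : o p A q z * o p e q B = o p q B z * o p A q e + o p e q z * o p A q B := by
      unfold o; ring
    have e2 : 0 < o p A q z * o p e q B := by
      rw [e1]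
      positivity
    exact (pos_iff_pos_of_mul_pos e2).2 hD
  · have e1 : o p B A z * o p e q B = o p q B z * o p B A e + o p B e z * o p A q B := by
      unfold o; ring
    have e2 : 0 < o p B A z * o p e q B := by
      rw [e1]
      positivity
    exact (pos_iff_pos_of_mul_pos e2).2 hD

/-- sub-triangle at `A` -/
private theorem sub_a {A q B e z : α} (h : 0 < o p A q B) (he : InTri p A q B e)
    (hz : InTri p q A e z) : InTri p A q B z ∧ o p A e z < 0 := by
  obtain ⟨h1, h2, h3⟩ := (tri_iff h).1 he
  have hz2 : 0 < o p A q z ∧ 0 < o p q e z ∧ 0 < o p e A z := by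
    rcases hz with ⟨k1, k2, k3⟩ | ⟨k1, k2, k3⟩
    · exfalso
      have e1 := o_add p q A e z
      have e2 := o_swap p A q e
      linarith
    · rw [o_swap p q A z, o_swap p A e z, o_swap p e q z]
      refine ⟨by linarith, by linarith, by linarith⟩
  obtain ⟨k1, k2, k3⟩ := hz2
  refine ⟨(tri_iff h).2 ⟨k1, ?_, ?_⟩, ?_⟩
  · have e1 : o p q B z * o p A q e = o p q e z * o p A q B + o p A q z * o p q B e := by
      unfold o; ring
    have e2 : 0 < o p q B z * o p A q e := by
      rw [e1]
      positivity
    exact (pos_iff_pos_of_mul_pos e2).2 h1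
  · have e1 : o p B A z * o p A q e = o p e A z * o p A q B + o p A q z * o p B A e := by
      unfold o; ring
    have e2 : 0 < o p B A z * o p A q e := by
      rw [e1]
      positivity
    exact (pos_iff_pos_of_mul_pos e2).2 h1
  · rw [o_swap p e A z]
    linarith

/-- transitivity of left turns in the cone at `q` -/
private theorem conv4 {q A e y z : α} (h1 : 0 < o p A e y) (h2 : 0 < o p e y z)
    (h3 : o p q A y < 0) (h4 : o p q y z < 0) (h5 : o p q e y < 0) : 0 < o p A y z := by
  have e1 : -o p q e y * o p A y z =
      -o p q A y * o p e y z + -o p q y z * o p A e y := by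
    unfold o; ring
  have e2 : 0 < -o p q e y * o p A y z := by
    rw [e1]
    have := mul_pos (neg_pos.2 h3) h2
    have := mul_pos (neg_pos.2 h4) h1
    linarith
  exact (pos_iff_pos_of_mul_pos e2).1 (neg_pos.2 h5)

private theorem min_pt [Finite α] (hgp : GP p) (V : Set α) {A q B : α} (h : 0 < o p A q B)
    (hne : {z | z ∈ V ∧ InTri p A q B z}.Nonempty) :
    ∃ e ∈ V, InTri p A q B e ∧ ∀ z ∈ V, InTri p A q B z → z ≠ e → 0 < o p A e z := by
  obtain ⟨e, ⟨he1, he2⟩, hmin⟩ := Set.exists_min_image {z | z ∈ V ∧ InTri p A q B z}
    (fun z => o p A q z / o p A z B) (Set.toFinite _) hne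
  refine ⟨e, he1, he2, ?_⟩
  intro z hz1 hz2 hze
  obtain ⟨h1, -, h3⟩ := (tri_iff h).1 he2
  obtain ⟨k1, -, k3⟩ := (tri_iff h).1 hz2
  have hm := hmin z ⟨hz1, hz2⟩
  have h3' : 0 < o p A e B := by
    have e0 : o p A e B = o p B A e := by unfold o; ring
    rw [e0]; exact h3
  have k3' : 0 < o p A z B := by
    have e0 : o p A z B = o p B A z := by unfold o; ring
    rw [e0]; exact k3
  rw [div_le_div_iff₀ h3' k3'] at hm
  have e1 : o p A e z * o p A q B = o p A q z * o p A e B - o p A q e * o p A z B := by
    unfold o; ring
  have hAe : A ≠ e := by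
    rintro rfl
    simp at h1
  have hAz : A ≠ z := by
    rintro rfl
    simp at k1
  have hne0 : o p A e z ≠ 0 := hgp.ne A e z hAe hze.symm hAz
  have e2 : 0 ≤ o p A e z * o p A q B := by
    rw [e1]
    linarith
  have e3 : 0 ≤ o p A e z := nonneg_of_mul_nonneg_left e2 h
  exact lt_of_le_of_ne e3 hne0.symm

theorem chain [Finite α] (hgp : GP p) (V : Set α) {A q B : α} (h : 0 < o p A q B) :
    ∃ E, Chn p V A q B E := by
  obtain ⟨n, hn⟩ : ∃ n, {z | z ∈ V ∧ InTri p A q B z}.ncard = n := ⟨_, rfl⟩
  induction n using Nat.strong_induction_on generalizing A with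
  | _ n ih =>
  have hAB : A ≠ B := by
    rintro rfl
    simp at h
  by_cases hne : {z | z ∈ V ∧ InTri p A q B z}.Nonempty
  · obtain ⟨e, he1, he2, he3⟩ := min_pt hgp V h hne
    obtain ⟨h1, h2, h3⟩ := (tri_iff h).1 he2
    have hD : 0 < o p e q B := by rw [← o_rot]; exact h2
    have hlt : {z | z ∈ V ∧ InTri p e q B z}.ncard < n := by
      rw [← hn]
      refine Set.ncard_lt_ncard ⟨?_, ?_⟩ (Set.toFinite _)
      · rintro z ⟨hz1, hz2⟩
        exact ⟨hz1, sub_b h he2 hz2⟩
      · intro hsub
        have h4 := (hsub ⟨he1, he2⟩).2
        rcases h4 with ⟨h5, -, -⟩ | ⟨h5, -, -⟩ <;> simp at h5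
    obtain ⟨E, hE⟩ := ih _ hlt hD rfl
    have hin : ∀ y ∈ E, y ∈ V ∧ InTri p A q B y := fun y hy =>
      ⟨(hE.mem y hy).1, sub_b h he2 (hE.mem y hy).2⟩
    have hnA : A ∉ e :: (E ++ [B]) := by
      intro hA
      rcases List.mem_cons.1 hA with h4 | h4
      · rw [← h4] at h1
        simp at h1
      · rcases List.mem_append.1 h4 with h5 | h5
        · rcases (hin A h5).2 with ⟨h6, -, -⟩ | ⟨h6, -, -⟩ <;> simp at h6
        · rw [List.mem_singleton] at h5
          exact hAB h5
    have hye : ∀ y ∈ E, y ≠ e := by
      intro y hy hye
      have h4 := (List.nodup_cons.1 hE.nodup).1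
      apply h4
      rw [← hye]
      exact List.mem_append_left _ hy
    have hAe : ∀ y ∈ E ++ [B], 0 < o p A e y := by
      intro y hy
      rcases List.mem_append.1 hy with h4 | h4
      · exact he3 y (hin y h4).1 (hin y h4).2 (hye y h4)
      · rw [List.mem_singleton.1 h4]
        have e0 : o p A e B = o p B A e := by unfold o; ring
        rw [e0]; exact h3
    have hqA : ∀ y ∈ e :: (E ++ [B]), o p q A y < 0 := by
      intro y hy
      rw [o_swap p A q y]
      rcases List.mem_cons.1 hy with rfl | h4
      · linarith
      · rcases List.mem_append.1 h4 with h5 | h5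
        · have := ((tri_iff h).1 (hin y h5).2).1
          linarith
        · rw [List.mem_singleton.1 h5]
          linarith
    refine ⟨e :: E, h, ?_, ?_, ?_, ?_, ?_⟩
    · intro y hy
      rcases List.mem_cons.1 hy with rfl | h4
      · exact ⟨he1, he2⟩
      · exact hin y h4
    · rw [List.cons_append]
      exact List.nodup_cons.2 ⟨hnA, hE.nodup⟩
    · intro x y z hs
      rw [List.cons_append] at hs
      rcases List.cons_sublist_cons'.1 hs with h4 | ⟨rfl, h4⟩
      · exact hE.conv x y z h4
      · rcases List.cons_sublist_cons'.1 h4 with h5 | ⟨rfl, h5⟩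
        · have hyz : [y, z].Sublist (E ++ [B]) := h5
          have hy : y ∈ E := by
            have h6 : [y, z].Sublist (E ++ [B]) := h5
            rw [List.sublist_append_iff] at h6
            obtain ⟨l₁, l₂, h7, h8, h9⟩ := h6
            match l₁, h7, h8 with
            | [], h7, _ =>
              rw [List.nil_append] at h7
              rw [← h7] at h9
              have := h9.length_le
              simp at this
            | a :: l₁, h7, h8 =>
              rw [List.cons_append] at h7
              injection h7 with h10 h11
              rw [h10]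
              exact h8.subset (by simp)
          have hz : z ∈ E ++ [B] := h5.subset (by simp)
          refine conv4 (q := q) (e := e) (hAe y (List.mem_append_left _ hy)) ?_
            (hqA y (List.mem_cons_of_mem _ (List.mem_append_left _ hy))) ?_ ?_
          · exact hE.conv e y z (List.Sublist.cons_cons e h5)
          · exact hE.ang y z (List.Sublist.cons e h5)
          · exact hE.ang e y (List.Sublist.cons_cons e
              (List.singleton_sublist.2 (List.mem_append_left _ hy)))
        · exact hAe z (h5.subset (by simp))
    · intro x y hs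
      rw [List.cons_append] at hs
      rcases List.cons_sublist_cons'.1 hs with h4 | ⟨rfl, h4⟩
      · exact hE.ang x y h4
      · exact hqA y (h4.subset (by simp))
    · intro x y hxy z hz hi
      obtain ⟨S, T, hST⟩ := hxy
      rw [List.cons_append] at hST
      cases S with
      | nil =>
        rw [List.nil_append] at hST
        injection hST with h4 h5
        injection h5 with h6 h7
        subst h4 h6
        obtain ⟨k1, k2⟩ := sub_a h he2 hi
        have hze : z ≠ e := by
          rintro rfl
          simp at k2
        have := he3 z hz k1 hze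
        linarith
      | cons s S =>
        rw [List.cons_append] at hST
        injection hST with h4 h5
        exact hE.emp x y ⟨S, T, h5⟩ z hz hi
  · refine ⟨[], h, by simp, by simpa using hAB, ?_, ?_, ?_⟩
    · intro x y z hs
      have := hs.length_le
      simp at this
    · intro x y hs
      have h1 : [x, y] = [A, B] := by
        have h2 : [x, y].Sublist [A, B] := by simpa using hs
        exact h2.eq_of_length rfl
      injection h1 with h2 h3
      injection h3 with h4 h5
      rw [h2, h4, o_swap p A q B]
      linarith
    · intro x y hxy z hz hi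
      obtain ⟨S, T, hST⟩ := hxy
      have hlen := congrArg List.length hST
      simp only [List.nil_append, List.length_cons, List.length_nil, List.length_append] at hlen
      have hS : S = [] := by
        apply List.eq_nil_of_length_eq_zero
        omega
      subst hS
      rw [List.nil_append, List.nil_append] at hST
      injection hST with h4 h5
      injection h5 with h6 h7
      subst h4 h6
      apply hne
      refine ⟨z, hz, ?_⟩
      rcases hi with ⟨k1, k2, k3⟩ | ⟨k1, k2, k3⟩
      · right
        rw [o_swap p q A z, o_swap p B q z, o_swap p A B z]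
        refine ⟨by linarith, by linarith, by linarith⟩
      · left
        rw [o_swap p q A z, o_swap p B q z, o_swap p A B z]
        refine ⟨by linarith, by linarith, by linarith⟩

end FPW
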