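import Pool.Agent.Lib.MP_deef39_co_Ord.GHull
import Pool.Agent.Lib.MP_deef39_co_Ord.GReg

/-! # Ord module GCut: cutting a vertex

The vertex `q` of a simple polygon is replaced by the hull chain of the triangle formed by `q` and
its two neighbours.
-/

set_option autoImplicit false

namespace FPW

variable {α : Type*} {p : α → ℝ × ℝ}

private theorem intri_rot {a b c x : α} : InTri p a b c x ↔ InTri p b c a x := by
  unfold InTri
  tauto

private theorem b2_not {P : Prop} : b2 (¬ P) = 1 + b2 P := by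
  by_cases h : P
  · rw [b2_true h, b2_false (not_not.2 h)]
    decide
  · rw [b2_true h, b2_false h, add_zero]

private theorem nx_sub {L : List α} {x y : α} (h : Nx L x y) : [x, y].Sublist L := by
  obtain ⟨S, T, rfl⟩ := h
  exact (List.Sublist.cons_cons x (List.Sublist.cons_cons y (List.nil_sublist T))).trans
    (List.sublist_append_right S _)

private theorem nx_mem {L : List α} {x y : α} (h : Nx L x y) : x ∈ L ∧ y ∈ L := by
  obtain ⟨S, T, rfl⟩ := h
  constructor <;> simp

private theorem nx_left {L : List α} (hc : ∀ x y z, [x, y, z].Sublist L → 0 < o p x y z)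
    {x y z : α} (h : Nx L x y) (hz : z ∈ L) (h1 : z ≠ x) (h2 : z ≠ y) : 0 < o p x y z := by
  obtain ⟨S, T, rfl⟩ := h
  rcases List.mem_append.1 hz with h3 | h3
  · have h4 : [z, x, y].Sublist (S ++ x :: y :: T) := by
      have h5 : [z].Sublist S := List.singleton_sublist.2 h3
      have h6 : [x, y].Sublist (x :: y :: T) :=
        List.Sublist.cons_cons x (List.Sublist.cons_cons y (List.nil_sublist T))
      exact h5.append h6
    have h5 := hc z x y h4
    rw [← o_rot p z x y] at h5
    exact h5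
  · rcases List.mem_cons.1 h3 with h4 | h4
    · exact absurd h4 h1
    rcases List.mem_cons.1 h4 with h5 | h5
    · exact absurd h5 h2
    have h6 : [x, y, z].Sublist (S ++ x :: y :: T) := by
      have h7 : [x, y, z].Sublist (x :: y :: T) :=
        List.Sublist.cons_cons x (List.Sublist.cons_cons y (List.singleton_sublist.2 h5))
      exact h7.trans (List.sublist_append_right S _)
    exact hc x y z h6

private theorem ed_nx {L : List α} {x y : α} (h : Ed L x y) : Nx L x y ∨ Nx L y x := by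
  obtain ⟨S, T, h | h⟩ := ed_split h
  · exact Or.inl ⟨S, T, h⟩
  · exact Or.inr ⟨S, T, h⟩

/-- chain edges do not cross each other -/
private theorem chain_plane {L : List α} (hc : ∀ x y z, [x, y, z].Sublist L → 0 < o p x y z)
    {x y c d : α} (h : Nx L x y) (hcm : c ∈ L) (hdm : d ∈ L) : ¬ X p x y c d := by
  intro hX
  obtain ⟨-, -, h1, h2, h3, h4⟩ := X_ne hX
  have h5 := nx_left hc h hcm h1.symm h3.symm
  have h6 := nx_left hc h hdm h2.symm h4.symm
  have := hX.1
  have h7 := mul_pos h5 h6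
  linarith

private theorem ed_new {A B : α} {T E : List α} {x y : α} :
    Ed (cyc B (T ++ A :: E)) x y ↔ Ed (B :: (T ++ [A])) x y ∨ Ed (A :: (E ++ [B])) x y := by
  have h : cyc B (T ++ A :: E) = (B :: T) ++ A :: (E ++ [B]) := by simp [cyc]
  rw [h, ed_mid]
  rfl

private theorem ed_old {A B q : α} {T : List α} {x y : α} :
    Ed (cyc q (B :: (T ++ [A]))) x y ↔ Ed (B :: (T ++ [A])) x y ∨ (x = q ∧ y = B) ∨
      (x = B ∧ y = q) ∨ (x = A ∧ y = q) ∨ (x = q ∧ y = A) := by
  have h : cyc q (B :: (T ++ [A])) = q :: B :: (T ++ [A, q]) := by simp [cyc]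
  have h2 : B :: (T ++ [A, q]) = (B :: T) ++ [A, q] := by simp
  have h3 : (B :: T) ++ [A] = B :: (T ++ [A]) := by simp
  rw [h, ed_cons2, h2, ed_snoc2, h3]
  tauto

private theorem xc_new {A B s t : α} {T E : List α} :
    xc p s t (cyc B (T ++ A :: E)) =
      xc p s t (B :: (T ++ [A])) + xc p s t (A :: (E ++ [B])) := by
  have h : cyc B (T ++ A :: E) = (B :: T) ++ A :: (E ++ [B]) := by simp [cyc]
  rw [h, xc_mid]
  rfl

private theorem xc_old {A B q s t : α} {T : List α} :
    xc p s t (cyc q (B :: (T ++ [A]))) =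
      b2 (X p s t q B) + (xc p s t (B :: (T ++ [A])) + b2 (X p s t A q)) := by
  have h : cyc q (B :: (T ++ [A])) = q :: B :: (T ++ [A, q]) := by simp [cyc]
  have h2 : B :: (T ++ [A, q]) = (B :: T) ++ [A, q] := by simp
  have h3 : (B :: T) ++ [A] = B :: (T ++ [A]) := by simp
  rw [h, xc_cons2, h2, xc_snoc, h3]

/-- crossings of `s t` with a path, if no triangle `q x y` over its edges contains `s` or `t` -/
private theorem xc_tele (hgp : GP p) {q s t : α} (hqs : q ≠ s) (hqt : q ≠ t) (l : List α) :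
    ∀ a : α, q ∉ a :: l → s ∉ a :: l → t ∉ a :: l → (a :: l).Nodup →
    (∀ x y, Nx (a :: l) x y → ¬ InTri p q x y s) →
    (∀ x y, Nx (a :: l) x y → ¬ InTri p q x y t) →
    xc p s t (a :: l) = b2 (X p q a s t) +
      b2 (X p q ((a :: l).getLast (List.cons_ne_nil a l)) s t) := by
  induction l with
  | nil =>
    intro a _ _ _ _ _ _
    rw [xc_one, List.getLast_singleton, b2_add_self]
  | cons b l ih =>
    intro a hq hs ht hn h1 h2
    have hnx : ∀ x y, Nx (b :: l) x y → Nx (a :: b :: l) x y := by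
      rintro x y ⟨S, T, h⟩
      exact ⟨a :: S, T, by rw [h]; rfl⟩
    have h3 := ih b (fun h => hq (List.mem_cons_of_mem _ h))
      (fun h => hs (List.mem_cons_of_mem _ h)) (fun h => ht (List.mem_cons_of_mem _ h))
      (List.nodup_cons.1 hn).2 (fun x y h => h1 x y (hnx x y h))
      (fun x y h => h2 x y (hnx x y h))
    have hab : Nx (a :: b :: l) a b := ⟨[], l, rfl⟩
    have hne : a ≠ b := by
      intro h
      apply (List.nodup_cons.1 hn).1
      rw [h]
      exact List.mem_cons_self
    simp only [List.mem_cons, not_or] at hq hs ht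
    have h4 := tri_par hgp (s := q) (t := a) (r := b) hq.1 hne hq.2.1
      (a := s) (b := t) ⟨hqs, Ne.symm hs.1, Ne.symm hs.2.1⟩ ⟨hqt, Ne.symm ht.1, Ne.symm ht.2.1⟩
    rw [b2_false (h1 a b hab), b2_false (h2 a b hab)] at h4
    rw [xc_cons2, List.getLast_cons_cons, h3, b2_congr (X_comm (a := s) (b := t))]
    rw [b2_congr (X_sw1 (a := b) (b := q))] at h4
    have h5 := b2_add_self (X p q a s t)
    linear_combination h4 - h5

private theorem cut_sim (hgp : GP p) {V : Set α} {A q B : α} {E T : List α}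
    (hs : Sim p q (B :: (T ++ [A]))) (h : Chn p V A q B E)
    (hV : ∀ t ∈ B :: (T ++ [A]), t ∈ V ∨ t = A ∨ t = B) (hE : ∀ e ∈ E, e ∉ T)
    (hlen : 2 ≤ (T ++ A :: E).length) : Sim p B (T ++ A :: E) := by
  have hqM : q ∉ B :: (T ++ [A]) := (List.nodup_cons.1 hs.nodup).1
  have hMn : (B :: (T ++ [A])).Nodup := (List.nodup_cons.1 hs.nodup).2
  have hBTA : B ∉ T ++ [A] := (List.nodup_cons.1 hMn).1
  have hTAn : (T ++ [A]).Nodup := (List.nodup_cons.1 hMn).2
  have hTn := List.nodup_append.1 hTAn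
  have hCn := List.nodup_cons.1 h.nodup
  have hEn := List.nodup_append.1 hCn.2
  refine ⟨?_, hlen, ?_⟩
  · rw [List.nodup_cons]
    constructor
    · intro h1
      rcases List.mem_append.1 h1 with h2 | h2
      · exact hBTA (List.mem_append_left _ h2)
      rcases List.mem_cons.1 h2 with h3 | h3
      · exact hBTA (by rw [h3]; simp)
      · exact hEn.2.2 B h3 B (by simp) rfl
    · rw [List.nodup_append]
      refine ⟨hTn.1, ?_, ?_⟩
      · rw [List.nodup_cons]
        exact ⟨fun h1 => hCn.1 (List.mem_append_left _ h1), hEn.1⟩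
      · intro a ha b hb hab
        subst hab
        rcases List.mem_cons.1 hb with h3 | h3
        · exact hTn.2.2 a ha A (by simp) h3
        · exact hE a h3 ha
  · have key : ∀ x y c d, Ed (A :: (E ++ [B])) x y → Ed (B :: (T ++ [A])) c d →
        ¬ X p x y c d := by
      intro x y c d hxy hcd
      have hc := ed_mem hcd
      have hd := ed_mem' hcd
      have h1 : ¬ X p q A c d := hs.plane q A c d (ed_old.2 (by tauto)) (ed_old.2 (Or.inl hcd))
      have h2 : ¬ X p q B c d := hs.plane q B c d (ed_old.2 (by tauto)) (ed_old.2 (Or.inl hcd))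
      have h3 := (reg hgp h (fun e => hqM (e ▸ hc)) (fun e => hqM (e ▸ hd)) (hV c hc) (hV d hd)
        h1 h2).2
      rcases ed_nx hxy with h4 | h4
      · exact h3 x y h4
      · exact fun hX => h3 y x h4 (X_sw1.1 hX)
    intro a b c d hab hcd
    rw [ed_new] at hab hcd
    rcases hab with hab | hab <;> rcases hcd with hcd | hcd
    · exact hs.plane a b c d (ed_old.2 (Or.inl hab)) (ed_old.2 (Or.inl hcd))
    · exact fun hX => key c d a b hcd hab (X_comm.1 hX)
    · exact key a b c d hab hcd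
    · rcases ed_nx hab with h4 | h4
      · exact chain_plane h.conv h4 (ed_mem hcd) (ed_mem' hcd)
      · exact fun hX => chain_plane h.conv h4 (ed_mem hcd) (ed_mem' hcd) (X_sw1.1 hX)

/-- the last edge `e B` of the chain and the next vertex `t` of the polygon -/
private theorem cut_last (hgp : GP p) {V : Set α} {A q B : α} {E T : List α}
    (hs : Sim p q (B :: (T ++ [A]))) (h : Chn p V A q B E)
    (hV : ∀ t ∈ B :: (T ++ [A]), t ∈ V ∨ t = A ∨ t = B) (hE : ∀ e ∈ E, e ∉ T)
    (hlen : 2 ≤ (T ++ A :: E).length) :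
    ∃ F e t T', A :: E = F ++ [e] ∧ T ++ [A] = t :: T' ∧ e ≠ t ∧ B ≠ e ∧ B ≠ t ∧ q ≠ e ∧
      q ≠ t ∧ o p q e B < 0 ∧ ¬ Cone p B q e t ∧ Nx (A :: (E ++ [B])) e B := by
  have hs' := cut_sim hgp hs h hV hE hlen
  have hqM : q ∉ B :: (T ++ [A]) := (List.nodup_cons.1 hs.nodup).1
  obtain ⟨F, e, hF⟩ : ∃ F e, A :: E = F ++ [e] :=
    ⟨(A :: E).dropLast, (A :: E).getLast (List.cons_ne_nil A E),
      (List.dropLast_append_getLast _).symm⟩
  obtain ⟨t, T', hT⟩ : ∃ t T', T ++ [A] = t :: T' := by
    cases T with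
    | nil => exact ⟨A, [], rfl⟩
    | cons t T' => exact ⟨t, T' ++ [A], rfl⟩
  have hP1 : (T ++ A :: E).head? = some t := by
    have : T ++ A :: E = (T ++ [A]) ++ E := by simp
    rw [this, hT]
    rfl
  have hP2 : (T ++ A :: E).getLast? = some e := by
    rw [hF, ← List.append_assoc]
    simp
  have htri : Tri3 B (T ++ A :: E) e B t := Or.inr (Or.inr (Or.inr ⟨rfl, hP1, hP2⟩))
  obtain ⟨hne, hBe, hBt, -, -, -⟩ := tri3_ne hs'.nodup hs'.len htri
  have hnx : Nx (A :: (E ++ [B])) e B := by
    refine ⟨F, [], ?_⟩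
    have : A :: (E ++ [B]) = (A :: E) ++ [B] := rfl
    rw [this, hF]
    simp
  have htM : t ∈ B :: (T ++ [A]) := by rw [hT]; simp
  have hqt : q ≠ t := fun h1 => hqM (h1 ▸ htM)
  have hBM : B ∈ B :: (T ++ [A]) := List.mem_cons_self
  have hqB : q ≠ B := fun h1 => hqM (h1 ▸ hBM)
  have hang := h.ang e B (nx_sub hnx)
  have hqe : q ≠ e := by
    intro h1
    rw [h1, o_self1] at hang
    exact lt_irrefl _ hang
  refine ⟨F, e, t, T', hF, hT, hne, hBe, hBt, hqe, hqt, hang, ?_, hnx⟩
  intro hc
  have h1 := cone_par hgp (w := B) (s := q) (t := e) (a := t) hqB.symm hBe hqe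
    ⟨hBt, hqt, hne⟩
  have hBt2 : Ed (B :: (T ++ [A])) B t := by
    rw [hT]
    exact Or.inl ⟨rfl, rfl⟩
  have h3 : ¬ X p q A B t :=
    hs.plane q A B t (ed_old.2 (by tauto)) (ed_old.2 (Or.inl hBt2))
  have h4 : ¬ X p q B B t := not_X_of_eq3
  have hX : ¬ X p q e B t := by
    have h5 := (reg hgp h hqB.symm hqt.symm (hV B hBM) (hV t htM) h3 h4).1
    have he : e ∈ A :: E := by rw [hF]; simp
    rcases List.mem_cons.1 he with h6 | h6
    · rw [h6]
      exact h3
    · exact h5 e h6
  have hI : ¬ InTri p B q e t := by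
    intro h5
    have h6 : InTri p q e B t := intri_rot.1 h5
    rcases hV t htM with h7 | h7 | h7
    · exact h.emp e B hnx t h7 h6
    · have h8 : 0 < o p e B t := nx_left h.conv hnx (by rw [h7]; exact List.mem_cons_self)
        hne.symm hBt.symm
      rcases h6 with ⟨h9, h10, h11⟩ | ⟨h9, h10, h11⟩
      · have := o_add p q e B t
        linarith
      · linarith
    · exact hBt h7.symm
  rw [b2_false hX, b2_false hI, b2_true hc] at h1
  exact absurd h1 (by decide)

private theorem cut_lam_new {A B e t z : α} {T E F T' : List α} (hF : A :: E = F ++ [e])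
    (hT : T ++ [A] = t :: T') :
    Lam p B (T ++ A :: E) z = xc p B z (cyc B (T ++ A :: E)) + b2 (Lf p e B t z) := by
  have hP1 : (T ++ A :: E).head? = some t := by
    have : T ++ A :: E = (T ++ [A]) ++ E := by simp
    rw [this, hT]
    rfl
  have hP2 : (T ++ A :: E).getLast? = some e := by
    rw [hF, ← List.append_assoc]
    simp
  unfold Lam
  congr 1
  apply b2_congr
  rw [hP1, hP2]
  constructor
  · rintro ⟨A', B', h1, h2, h3⟩
    rw [Option.some.injEq] at h1 h2
    rw [h1, h2]
    exact h3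
  · intro h1
    exact ⟨e, t, rfl, rfl, h1⟩

private theorem cut_lam_q (hgp : GP p) {V : Set α} {A q B : α} {E T : List α}
    (hs : Sim p q (B :: (T ++ [A]))) (h : Chn p V A q B E)
    (hV : ∀ t ∈ B :: (T ++ [A]), t ∈ V ∨ t = A ∨ t = B) (hE : ∀ e ∈ E, e ∉ T)
    (hlen : 2 ≤ (T ++ A :: E).length) : Lam p B (T ++ A :: E) q = 0 := by
  obtain ⟨F, e, t, T', hF, hT, hne, hBe, hBt, hqe, hqt, hang, hcone, hnx⟩ :=
    cut_last hgp hs h hV hE hlen
  have hqM : q ∉ B :: (T ++ [A]) := (List.nodup_cons.1 hs.nodup).1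
  have hqB : q ≠ B := fun h1 => hqM (h1 ▸ List.mem_cons_self)
  rw [cut_lam_new hF hT]
  have h1 : Vis p (Ed (cyc B (T ++ A :: E))) B q := by
    intro c d hcd hX
    rw [ed_new] at hcd
    rcases hcd with hcd | hcd
    · exact hs.plane q B c d (ed_old.2 (by tauto)) (ed_old.2 (Or.inl hcd)) (X_sw1.1 hX)
    · have h2 := reg_q hgp h (d := B) hqB.symm (fun h3 => by
        rw [o_self3] at h3
        exact lt_irrefl _ h3.2)
      rcases ed_nx hcd with h3 | h3
      · exact h2 c d h3 (X_sw2.1 (X_comm.1 hX))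
      · exact h2 d c h3 (X_sw2.1 (X_comm.1 (X_sw2.1 hX)))
  rw [xc_vis h1, zero_add, b2_eq_zero]
  intro h2
  apply hcone
  have e1 : o p B q e < 0 := by
    rw [o_rot' p q e B]
    exact hang
  have e2 : o p B e q = - o p B q e := o_swap' p B q e
  unfold Lf at h2
  right
  have e3 : o p B q t = - o p B t q := o_swap' p B t q
  have e4 : o p B t e = - o p B e t := o_swap' p B e t
  rcases h2 with ⟨h3, h4⟩ | ⟨h3, h4⟩ | ⟨h3, h4⟩
  · exfalso
    linarith
  · exfalso
    linarith
  · exact ⟨e1, by linarith, by linarith⟩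

private theorem cut_lam (hgp : GP p) {V : Set α} {A q B : α} {E T : List α}
    (hs : Sim p q (B :: (T ++ [A]))) (h : Chn p V A q B E)
    (hV : ∀ t ∈ B :: (T ++ [A]), t ∈ V ∨ t = A ∨ t = B) (hE : ∀ e ∈ E, e ∉ T)
    (hlen : 2 ≤ (T ++ A :: E).length) {z : α} (hz : z ∉ q :: B :: (T ++ [A])) (hzE : z ∉ E)
    (hzI : ∀ x y, Nx (A :: (E ++ [B])) x y → ¬ InTri p q x y z) :
    Lam p B (T ++ A :: E) z = Lam p q (B :: (T ++ [A])) z := by
  obtain ⟨F, e, t, T', hF, hT, hne, hBe, hBt, hqe, hqt, hang, hcone, hnx⟩ :=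
    cut_last hgp hs h hV hE hlen
  have hqM : q ∉ B :: (T ++ [A]) := (List.nodup_cons.1 hs.nodup).1
  have hqB : q ≠ B := fun h1 => hqM (h1 ▸ List.mem_cons_self)
  have hzM : z ∉ B :: (T ++ [A]) := fun h1 => hz (List.mem_cons_of_mem _ h1)
  have hqz : q ≠ z := fun h1 => hz (h1 ▸ List.mem_cons_self)
  have hBz : B ≠ z := fun h1 => hzM (h1 ▸ List.mem_cons_self)
  have hzA : z ≠ A := fun h1 => hzM (by rw [h1]; simp)
  have htz : t ≠ z := fun h1 => hzM (by rw [hT, ← h1]; simp)
  have hzAE : z ∉ A :: E := by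
    intro h1
    rcases List.mem_cons.1 h1 with h2 | h2
    · exact hzA h2
    · exact hzE h2
  have hez : e ≠ z := fun h1 => hzAE (by rw [hF, ← h1]; simp)
  have hCn : ((A :: E) ++ [B]).Nodup := h.nodup
  have hCn' := List.nodup_append.1 hCn
  have hBAE : B ∉ A :: E := fun h1 => hCn'.2.2 B h1 B (by simp) rfl
  have hqAE : q ∉ A :: E := by
    intro h1
    rcases List.mem_cons.1 h1 with h2 | h2
    · exact hqM (by rw [h2]; simp)
    · have h3 := InTri_pos (h.mem q h2).2 h.left
      rw [o_self3] at h3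
      exact lt_irrefl _ h3.1
  have hnxC : ∀ x y, Nx (A :: E) x y → Nx (A :: (E ++ [B])) x y := by
    rintro x y ⟨S, R, h1⟩
    refine ⟨S, R ++ [B], ?_⟩
    have : A :: (E ++ [B]) = (A :: E) ++ [B] := rfl
    rw [this, h1]
    simp
  -- the chain seen from `B z`
  have hIB : ∀ x y, Nx (A :: E) x y → ¬ InTri p q x y B := by
    intro x y hxy h1
    have h2 := nx_left h.conv (hnxC x y hxy) (z := B) (by simp)
      (fun h3 => hBAE (h3 ▸ (nx_mem hxy).1)) (fun h3 => hBAE (h3 ▸ (nx_mem hxy).2))
    have h3 := h.ang x y (nx_sub (hnxC x y hxy))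
    rcases h1 with ⟨h4, h5, h6⟩ | ⟨h4, h5, h6⟩
    · have := o_add p q x y B
      linarith
    · linarith
  have hxc := xc_tele hgp hqB hqz E A hqAE hBAE hzAE hCn'.1 hIB
    (fun x y hxy => hzI x y (hnxC x y hxy))
  have hlast : (A :: E).getLast (List.cons_ne_nil A E) = e := by
    simp only [hF]
    simp
  rw [hlast] at hxc
  have hxc2 : xc p B z (A :: (E ++ [B])) = xc p B z (A :: E) := by
    have h1 : A :: (E ++ [B]) = F ++ [e, B] := by
      have : A :: (E ++ [B]) = (A :: E) ++ [B] := rfl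
      rw [this, hF]
      simp
    rw [h1, xc_snoc, ← hF, b2_false (P := X p B z e B) not_X_of_eq2, add_zero]
  -- both sides computed at `B`
  have htri : Tri3 q (B :: (T ++ [A])) q B t := by
    right
    left
    exact ⟨T', by rw [hT], rfl⟩
  rw [cut_lam_new hF hT, lam_at hgp hs htri hz, xc_new, xc_old, hxc2, hxc,
    b2_false (P := X p B z q B) not_X_of_eq2]
  have hXA : b2 (X p B z A q) = b2 (X p q A B z) := b2_congr (X_comm.trans X_sw1)
  have h1 := cone_par hgp (w := B) (s := q) (t := e) (a := z) hqB.symm hBe hqe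
    ⟨hBz, hqz, hez⟩
  have h2 : ¬ InTri p B q e z := fun h3 => hzI e B hnx (intri_rot.1 h3)
  rw [b2_false h2, add_zero] at h1
  have h3 := lf_pair hgp (A := z) (g := B) (B := t) (z := q) (w := e) htz.symm hBz hBt
    ⟨hqB.symm, hqz.symm, hqt.symm⟩ ⟨hBe, hez.symm, hne.symm⟩ hqe
  rw [b2_false hcone, add_zero] at h3
  have h4 := lf_swap2 hgp (A := q) (g := B) (B := t) (z := z) hqt hqB.symm hBt
    ⟨hBz, hqz, htz⟩
  have h5 := lf_swap2 hgp (A := e) (g := B) (B := t) (z := z) hne hBe hBt
    ⟨hBz, hez, htz⟩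
  have hXe : b2 (X p q e B z) = b2 (Cone p B q e z) := h1
  rw [hXA, hXe, b2_congr h4, b2_congr h5, b2_not, b2_not]
  have h6 := b2_add_self (Cone p B q e z)
  linear_combination h6 + h3 - b2_add_self (Lf p z B t q)

private theorem intri_swap {a b c x : α} : InTri p a b c x ↔ InTri p b a c x := by
  unfold InTri
  rw [o_swap p a b x, o_swap p c a x, o_swap p b c x]
  simp only [neg_pos, Left.neg_neg_iff]
  tauto

/-- a supported vertex stays supported -/
private theorem cut_ext {A q B g : α} {E T : List α} (hl : 0 < o p A q B)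
    (hm : ∀ e ∈ E, InTri p A q B e) (he : Ext1 p (q :: B :: (T ++ [A])) g) (hgq : g ≠ q)
    (hg : g ∈ B :: (T ++ A :: E)) : Ext1 p (B :: (T ++ A :: E)) g := by
  obtain ⟨h1, r, hr⟩ := he
  refine ⟨hg, r, ?_⟩
  intro t ht htg
  have key : t ∈ q :: B :: (T ++ [A]) ∨ t ∈ E := by
    simp only [List.mem_cons, List.mem_append, List.not_mem_nil, or_false] at ht ⊢
    tauto
  rcases key with h2 | h2
  · exact hr t h2 htg
  obtain ⟨h3, h4, h5⟩ := InTri_pos (hm t h2) hl
  have hnn : ∀ u ∈ q :: B :: (T ++ [A]), 0 ≤ cr r (p g) (p u) := by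
    intro u hu
    by_cases hug : u = g
    · rw [hug]
      have : cr r (p g) (p g) = 0 := by unfold cr; ring
      rw [this]
    · exact (hr u hu hug).le
  have hA := hnn A (by simp)
  have hB := hnn B (by simp)
  have hq := hr q (by simp) (Ne.symm hgq)
  have hid : o p A q B * cr r (p g) (p t) = o p q B t * cr r (p g) (p A) +
      o p B A t * cr r (p g) (p q) + o p A q t * cr r (p g) (p B) := by
    unfold o cr
    ring
  have h6 : 0 < o p A q B * cr r (p g) (p t) := by
    rw [hid]
    have e1 := mul_nonneg h4.le hA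
    have e2 := mul_pos h5 hq
    have e3 := mul_nonneg h3.le hB
    linarith
  exact pos_of_mul_pos_right h6 hl.le

private theorem cut_pos (hgp : GP p) {V : Set α} {A q B : α} {E T : List α}
    (hs : Sim p q (B :: (T ++ [A]))) (h : Chn p V A q B E)
    (hV : ∀ t ∈ B :: (T ++ [A]), t ∈ V ∨ t = A ∨ t = B) (hE : ∀ e ∈ E, e ∉ T)
    (hlen : 2 ≤ (T ++ A :: E).length) (hpos : Pos p q (B :: (T ++ [A]))) :
    Pos p B (T ++ A :: E) := by
  have hs' := cut_sim hgp hs h hV hE hlen
  have hqM : q ∉ B :: (T ++ [A]) := (List.nodup_cons.1 hs.nodup).1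
  have hqB : q ≠ B := fun h1 => hqM (h1 ▸ List.mem_cons_self)
  obtain ⟨g, hgq, hgB, hg⟩ : ∃ g, g ≠ q ∧ g ≠ B ∧ Ext1 p (q :: B :: (T ++ [A])) g := by
    obtain ⟨a, b, c, hab, hbc, hac, ha, hb, hc⟩ := ext_three hgp hs.nodup (by simp)
    by_cases h1 : a = q ∨ a = B
    · by_cases h2 : b = q ∨ b = B
      · refine ⟨c, ?_, ?_, hc⟩
        · rintro rfl
          rcases h1 with h1 | h1
          · exact hac h1
          · rcases h2 with h2 | h2
            · exact hbc h2
            · exact hab (h1.trans h2.symm)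
        · rintro rfl
          rcases h1 with h1 | h1
          · rcases h2 with h2 | h2
            · exact hab (h1.trans h2.symm)
            · exact hbc h2
          · exact hac h1
      · exact ⟨b, fun h3 => h2 (Or.inl h3), fun h3 => h2 (Or.inr h3), hb⟩
    · exact ⟨a, fun h3 => h1 (Or.inl h3), fun h3 => h1 (Or.inr h3), ha⟩
  have hgTA : g ∈ T ∨ g = A := by
    have := hg.1
    simp only [List.mem_cons, List.mem_append, List.not_mem_nil, or_false] at this
    tauto
  rcases hgTA with hgT | hgA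
  · -- the neighbours of `g` are the same
    have hext := cut_ext h.left (fun e he => (h.mem e he).2) hg hgq
      (List.mem_cons_of_mem _ (List.mem_append_left _ hgT))
    obtain ⟨T1, T2, hT⟩ := List.append_of_mem hgT
    obtain ⟨b, R, hb⟩ : ∃ b R, T2 ++ [A] = b :: R := by
      cases T2 with
      | nil => exact ⟨A, [], rfl⟩
      | cons b R => exact ⟨b, R ++ [A], rfl⟩
    have hP' : T ++ A :: E = T1 ++ g :: b :: (R ++ E) := by
      have e1 : T ++ A :: E = T1 ++ g :: ((T2 ++ [A]) ++ E) := by rw [hT]; simp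
      rw [e1, hb]
      rfl
    have hP : T ++ [A] = T1 ++ g :: b :: R := by
      have e1 : T ++ [A] = T1 ++ g :: (T2 ++ [A]) := by rw [hT]; simp
      rw [e1, hb]
    rcases List.eq_nil_or_concat T1 with h1 | ⟨T0, a, h1⟩
    · have t1 : Tri3 q (B :: (T ++ [A])) B g b := Or.inl ⟨[], R, by rw [hP, h1]; rfl⟩
      have t2 : Tri3 B (T ++ A :: E) B g b := Or.inr (Or.inl ⟨R ++ E, by rw [hP', h1]; rfl, rfl⟩)
      exact pos_of_one hgp hs' t2 hext (hpos B g b t1 hg)
    · rw [List.concat_eq_append] at h1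
      have t1 : Tri3 q (B :: (T ++ [A])) a g b :=
        Or.inl ⟨B :: T0, R, by rw [hP, h1]; simp⟩
      have t2 : Tri3 B (T ++ A :: E) a g b := Or.inl ⟨T0, R ++ E, by rw [hP', h1]; simp⟩
      exact pos_of_one hgp hs' t2 hext (hpos a g b t1 hg)
  · subst hgA
    have hext := cut_ext h.left (fun e he => (h.mem e he).2) hg hgq
      (List.mem_cons_of_mem _ (List.mem_append_right _ List.mem_cons_self))
    obtain ⟨a, b, t1, t2, haM, hab, hnx⟩ : ∃ a b, Tri3 q (B :: (T ++ [g])) a g q ∧
        Tri3 B (T ++ g :: E) a g b ∧ a ∈ B :: (T ++ [g]) ∧ Ed (B :: (T ++ [g])) a g ∧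
        Nx (g :: (E ++ [B])) g b := by
      obtain ⟨b, R, hb⟩ : ∃ b R, E ++ [B] = b :: R := by
        cases E with
        | nil => exact ⟨B, [], rfl⟩
        | cons b R => exact ⟨b, R ++ [B], rfl⟩
      rcases List.eq_nil_or_concat T with h1 | ⟨T0, a, h1⟩
      · subst h1
        refine ⟨B, b, Or.inr (Or.inr (Or.inl ⟨[], rfl, rfl⟩)), ?_, by simp,
          Or.inl ⟨rfl, rfl⟩, ⟨[], R, by rw [hb]; rfl⟩⟩
        cases E with
        | nil => simp at hlen
        | cons b' R' =>
          have hbb : b' = b := by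
            have := congrArg List.head? hb
            simpa using this
          subst hbb
          exact Or.inr (Or.inl ⟨R', rfl, rfl⟩)
      · rw [List.concat_eq_append] at h1
        subst h1
        have e1 : B :: (T0 ++ [a] ++ [g]) = (B :: T0) ++ [a, g] := by simp
        refine ⟨a, b, Or.inr (Or.inr (Or.inl ⟨B :: T0, e1, rfl⟩)), ?_, by simp, ?_,
          ⟨[], R, by rw [hb]; rfl⟩⟩
        · cases E with
          | nil =>
            have hbb : B = b := by
              have := congrArg List.head? hb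
              simpa using this
            exact Or.inr (Or.inr (Or.inl ⟨T0, by simp, hbb.symm⟩))
          | cons b' R' =>
            have hbb : b' = b := by
              have := congrArg List.head? hb
              simpa using this
            subst hbb
            exact Or.inl ⟨T0, R', by simp⟩
        · rw [e1]
          exact ed_of_split
    refine pos_of_one hgp hs' t2 hext ?_
    have hturn := hpos a g q t1 hg
    obtain ⟨hne, hga, hgb, -, -, -⟩ := tri3_ne hs'.nodup hs'.len t2
    by_contra hcon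
    have hneg : o p a g b < 0 := lt_of_le_of_ne (not_lt.1 hcon) (hgp.ne a g b hga.symm hgb hne)
    have hqa : q ≠ a := fun h1 => hqM (h1 ▸ haM)
    have hang := h.ang g b (nx_sub hnx)
    have hqb : q ≠ b := by
      intro h1
      rw [h1, o_self2] at hang
      exact lt_irrefl _ hang
    have hcone : Cone p g q b a := by
      left
      refine ⟨?_, ?_, ?_⟩
      · have := o_swap p q g b
        linarith
      · rw [o_rot p a g q]
        exact hturn
      · have := o_swap p a g b
        linarith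
    have h1 := cone_par hgp (w := g) (s := q) (t := b) (a := a) hgq hgb hqb ⟨hga, hqa, hne.symm⟩
    have hgM : g ∈ B :: (T ++ [g]) := by simp
    have h3 : ¬ X p q B g a :=
      hs.plane q B g a (ed_old.2 (by tauto)) (ed_old.2 (Or.inl (ed_symm hab)))
    have h4 : ¬ X p q g g a := not_X_of_eq3
    have hX : ¬ X p q b g a := by
      have h5 := (reg hgp h hgq hqa.symm (hV g hgM) (hV a haM) h4 h3).1
      have hb := (nx_mem hnx).2
      have hb' : b ∈ E ∨ b = B := by
        simp only [List.mem_cons, List.mem_append, List.not_mem_nil, or_false] at hb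
        rcases hb with hb | hb | hb
        · exact absurd hb.symm hgb
        · exact Or.inl hb
        · exact Or.inr hb
      rcases hb' with h6 | h6
      · exact h5 b h6
      · rw [h6]
        exact h3
    have hI : ¬ InTri p g q b a := by
      intro h5
      have h6 : InTri p q g b a := intri_swap.1 h5
      rcases hV a haM with h7 | h7 | h7
      · exact h.emp g b hnx a h7 h6
      · exact hga h7.symm
      · have h8 : 0 < o p g b a := nx_left h.conv hnx (by rw [h7]; simp) hga.symm hne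
        rcases h6 with ⟨h9, h10, h11⟩ | ⟨h9, h10, h11⟩
        · have := o_add p q g b a
          linarith
        · linarith
    rw [b2_false hX, b2_false hI, b2_true hcone] at h1
    exact absurd h1 (by decide)

/-- deleting the vertex `q`, inserting the chain `E` (base `q`; the new base is `B`) -/
theorem ins_cut (hgp : GP p) {V : Set α} {A q B : α} {E T : List α}
    (hs : Sim p q (B :: (T ++ [A]))) (h : Chn p V A q B E)
    (hV : ∀ t ∈ B :: (T ++ [A]), t ∈ V ∨ t = A ∨ t = B) (hE : ∀ e ∈ E, e ∉ T)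
    (hlen : 2 ≤ (T ++ A :: E).length) :
    Sim p B (T ++ A :: E) ∧
      (∀ z, z ∉ q :: B :: (T ++ [A]) → z ∉ E →
        (∀ x y, Nx (A :: (E ++ [B])) x y → ¬ InTri p q x y z) →
        Lam p B (T ++ A :: E) z = Lam p q (B :: (T ++ [A])) z) ∧
      Lam p B (T ++ A :: E) q = 0 ∧
      (Pos p q (B :: (T ++ [A])) → Pos p B (T ++ A :: E)) :=
  ⟨cut_sim hgp hs h hV hE hlen, fun _ hz hzE hzI => cut_lam hgp hs h hV hE hlen hz hzE hzI,
    cut_lam_q hgp hs h hV hE hlen, cut_pos hgp hs h hV hE hlen⟩

end FPW
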