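import Pool.Agent.Lib.MP_deef39_co_Ord.GDef

/-! # Ord module GCyc: closed lists of polygons, rotation of the base, consecutive triples
-/

set_option autoImplicit false

namespace FPW

variable {α : Type*} {p : α → ℝ × ℝ}

private theorem gc_snoc {P : List α} (h : P ≠ []) : ∃ D z, P = D ++ [z] := by
  rcases List.eq_nil_or_concat P with h1 | ⟨D, z, h1⟩
  · exact absurd h1 h
  · exact ⟨D, z, by rw [h1, List.concat_eq_append]⟩

theorem ed_cyc_rot {v w : α} {S T : List α} {x y : α} :
    Ed (cyc w (T ++ v :: S)) x y ↔ Ed (cyc v (S ++ w :: T)) x y := by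
  have h1 : cyc w (T ++ v :: S) = (w :: T) ++ v :: (S ++ [w]) := by
    unfold cyc; simp
  have h2 : cyc v (S ++ w :: T) = (v :: S) ++ w :: (T ++ [v]) := by
    unfold cyc; simp
  rw [h1, h2, ed_mid, ed_mid (A := v :: S)]
  have h3 : (w :: T) ++ [v] = w :: (T ++ [v]) := rfl
  have h4 : (v :: S) ++ [w] = v :: (S ++ [w]) := rfl
  rw [h3, h4]
  exact or_comm

private theorem gc_perm {v w : α} {S T : List α} :
    List.Perm (w :: (T ++ v :: S)) (v :: (S ++ w :: T)) := by
  have h1 : w :: (T ++ v :: S) = (w :: T) ++ (v :: S) := rfl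
  have h2 : v :: (S ++ w :: T) = (v :: S) ++ (w :: T) := rfl
  rw [h1, h2]
  exact List.perm_append_comm

theorem sim_rot {v w : α} {S T : List α} (h : Sim p v (S ++ w :: T)) :
    Sim p w (T ++ v :: S) := by
  refine ⟨gc_perm.nodup_iff.2 h.nodup, ?_, ?_⟩
  · have h1 := h.len
    simp only [List.length_append, List.length_cons] at h1 ⊢
    omega
  · exact Plane_mono (fun a b hab => ed_cyc_rot.1 hab) h.plane

theorem sim_rot1 {v a : α} {P : List α} (h : Sim p v (a :: P)) : Sim p a (P ++ [v]) :=
  sim_rot (S := []) h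

private theorem tri3_step {v a : α} {P : List α} (hP : P ≠ []) {A g B : α}
    (h : Tri3 v (a :: P) A g B) : Tri3 a (P ++ [v]) A g B := by
  rcases h with ⟨S, T, h⟩ | ⟨T, h, rfl⟩ | ⟨S, h, rfl⟩ | ⟨rfl, h1, h2⟩
  · cases S with
    | nil =>
      obtain ⟨h3, h4⟩ := List.cons.inj (show a :: P = A :: (g :: B :: T) from h)
      exact Or.inr (Or.inl ⟨T ++ [v], by rw [h4]; rfl, h3.symm⟩)
    | cons s S =>
      obtain ⟨-, h4⟩ := List.cons.inj (show a :: P = s :: (S ++ A :: g :: B :: T) from h)
      exact Or.inl ⟨S, T ++ [v], by rw [h4]; simp⟩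
  · obtain ⟨h3, h4⟩ := List.cons.inj h
    refine Or.inr (Or.inr (Or.inr ⟨h3.symm, ?_, ?_⟩))
    · rw [h4]; rfl
    · simp
  · cases S with
    | nil =>
      obtain ⟨h3, h4⟩ := List.cons.inj (show a :: P = A :: [g] from h)
      exact Or.inr (Or.inl ⟨[], by rw [h4]; rfl, h3.symm⟩)
    | cons s S =>
      obtain ⟨-, h4⟩ := List.cons.inj (show a :: P = s :: (S ++ [A, g]) from h)
      exact Or.inl ⟨S, [], by rw [h4]; simp⟩
  · obtain ⟨D, z, hD⟩ := gc_snoc hP
    have h3 : A = z := by
      rw [hD] at h2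
      have h4 : (a :: (D ++ [z])).getLast? = some z := by
        have h5 : a :: (D ++ [z]) = (a :: D) ++ [z] := rfl
        rw [h5, List.getLast?_append]
        simp
      rw [h4] at h2
      exact (Option.some.inj h2).symm
    have h4 : B = a := by
      have h5 : (a :: P).head? = some a := rfl
      rw [h5] at h1
      exact (Option.some.inj h1).symm
    refine Or.inr (Or.inr (Or.inl ⟨D, ?_, h4⟩))
    rw [hD, h3]; simp

private theorem tri3_turn {w : α} : ∀ (S : List α) {v : α} {T : List α},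
    2 ≤ (S ++ w :: T).length → ∀ {A g B : α}, Tri3 v (S ++ w :: T) A g B →
    Tri3 w (T ++ v :: S) A g B := by
  intro S
  induction S with
  | nil =>
    intro v T hl A g B h
    refine tri3_step ?_ h
    rintro rfl
    simp at hl
  | cons s S ih =>
    intro v T hl A g B h
    have h1 : Tri3 s ((S ++ w :: T) ++ [v]) A g B := by
      refine tri3_step ?_ h
      simp
    have h2 : (S ++ w :: T) ++ [v] = S ++ w :: (T ++ [v]) := by simp
    rw [h2] at h1
    have h3 := ih (v := s) (T := T ++ [v]) (by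
      simp only [List.length_append, List.length_cons] at hl ⊢
      omega) h1
    have h4 : (T ++ [v]) ++ s :: S = T ++ v :: s :: S := by simp
    rw [h4] at h3
    exact h3

theorem tri3_rot {v w : α} {S T : List α} (hn : (v :: (S ++ w :: T)).Nodup)
    (hl : 2 ≤ (S ++ w :: T).length) {A g B : α} :
    Tri3 w (T ++ v :: S) A g B ↔ Tri3 v (S ++ w :: T) A g B := by
  have _ := hn
  constructor
  · refine tri3_turn T ?_
    simp only [List.length_append, List.length_cons] at hl ⊢
    omega
  · exact tri3_turn S hl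

theorem tri3_exists {v g : α} {P : List α} (hl : 2 ≤ P.length) (hg : g ∈ v :: P) :
    ∃ A B, Tri3 v P A g B := by
  have hne : P ≠ [] := by
    rintro rfl
    simp at hl
  rcases List.mem_cons.1 hg with rfl | hg
  · obtain ⟨D, z, hD⟩ := gc_snoc hne
    cases P with
    | nil => exact absurd rfl hne
    | cons b P =>
      refine ⟨z, b, Or.inr (Or.inr (Or.inr ⟨rfl, rfl, ?_⟩))⟩
      rw [hD]; simp
  · obtain ⟨S, T, rfl⟩ := List.append_of_mem hg
    cases T with
    | nil =>
      have hS : S ≠ [] := by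
        rintro rfl
        simp at hl
      obtain ⟨D, z, rfl⟩ := gc_snoc hS
      exact ⟨z, v, Or.inr (Or.inr (Or.inl ⟨D, by simp, rfl⟩))⟩
    | cons b T =>
      by_cases hS : S = []
      · subst hS
        exact ⟨v, b, Or.inr (Or.inl ⟨T, rfl, rfl⟩)⟩
      · obtain ⟨D, z, rfl⟩ := gc_snoc hS
        exact ⟨z, b, Or.inl ⟨D, T, by simp⟩⟩

private theorem tri3_base {g A B : α} {Q : List α} (hn : (g :: Q).Nodup)
    (h : Tri3 g Q A g B) : Q.head? = some B ∧ Q.getLast? = some A := by
  have hg : g ∉ Q := (List.nodup_cons.1 hn).1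
  rcases h with ⟨S, T, h⟩ | ⟨T, h, -⟩ | ⟨S, h, -⟩ | ⟨-, h1, h2⟩
  · exact absurd (by rw [h]; simp) hg
  · exact absurd (by rw [h]; simp) hg
  · exact absurd (by rw [h]; simp) hg
  · exact ⟨h1, h2⟩

private theorem tri3_mem {v g A B : α} {P : List α} (h : Tri3 v P A g B) : g ∈ v :: P := by
  rcases h with ⟨S, T, h⟩ | ⟨T, h, -⟩ | ⟨S, h, -⟩ | ⟨rfl, -, -⟩
  · rw [h]; simp
  · rw [h]; simp
  · rw [h]; simp
  · simp

private theorem tri3_len {v g A B : α} {P : List α} (h : Tri3 v P A g B) (hg : g ≠ v) :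
    2 ≤ P.length := by
  rcases h with ⟨S, T, h⟩ | ⟨T, h, -⟩ | ⟨S, h, -⟩ | ⟨h, -, -⟩
  · rw [h]; simp only [List.length_append, List.length_cons]; omega
  · rw [h]; simp only [List.length_cons]; omega
  · rw [h]; simp
  · exact absurd h hg

/-- rotate the base to the middle vertex -/
private theorem tri3_to {v g A B : α} {P : List α} (hn : (v :: P).Nodup)
    (h : Tri3 v P A g B) : ∃ Q, List.Perm (g :: Q) (v :: P) ∧ (g ≠ v ∨ Q = P) ∧
      ∀ A' B', Tri3 v P A' g B' → Q.head? = some B' ∧ Q.getLast? = some A' := by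
  by_cases hg : g = v
  · subst hg
    exact ⟨P, List.Perm.refl _, Or.inr rfl, fun A' B' h' => tri3_base hn h'⟩
  · have hl := tri3_len h hg
    have h1 : g ∈ P := by
      rcases List.mem_cons.1 (tri3_mem h) with h2 | h2
      · exact absurd h2 hg
      · exact h2
    obtain ⟨S, T, rfl⟩ := List.append_of_mem h1
    refine ⟨T ++ v :: S, gc_perm, Or.inl hg, fun A' B' h' => ?_⟩
    exact tri3_base (gc_perm.nodup_iff.2 hn) (tri3_turn S hl h')

theorem tri3_unique {v g A B A' B' : α} {P : List α} (hn : (v :: P).Nodup)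
    (h : Tri3 v P A g B) (h' : Tri3 v P A' g B') : A = A' ∧ B = B' := by
  obtain ⟨Q, -, -, h1⟩ := tri3_to hn h
  have h2 := h1 A B h
  have h3 := h1 A' B' h'
  rw [h2.1] at h3
  rw [h2.2] at h3
  exact ⟨Option.some.inj h3.2, Option.some.inj h3.1⟩

theorem tri3_ne {v g A B : α} {P : List α} (hn : (v :: P).Nodup) (hl : 2 ≤ P.length)
    (h : Tri3 v P A g B) : A ≠ B ∧ g ≠ A ∧ g ≠ B ∧ A ∈ v :: P ∧ g ∈ v :: P ∧ B ∈ v :: P := by
  obtain ⟨Q, h1, -, h2⟩ := tri3_to hn h
  obtain ⟨h3, h4⟩ := h2 A B h
  have h5 : (g :: Q).Nodup := h1.nodup_iff.2 hn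
  have h6 : Q.length = P.length := by
    have := h1.length_eq
    simpa using this
  cases Q with
  | nil => simp at h3
  | cons b Q =>
    have hb : b = B := Option.some.inj h3
    subst hb
    have hQ : Q ≠ [] := by
      rintro rfl
      simp at h6
      omega
    obtain ⟨D, z, rfl⟩ := gc_snoc hQ
    have hz : z = A := by
      have h7 : (b :: (D ++ [z])).getLast? = some z := by
        have h8 : b :: (D ++ [z]) = (b :: D) ++ [z] := rfl
        rw [h8, List.getLast?_append]
        simp
      rw [h7] at h4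
      exact Option.some.inj h4
    subst hz
    have h7 : g ∉ b :: (D ++ [z]) := (List.nodup_cons.1 h5).1
    have h8 : b ∉ D ++ [z] := (List.nodup_cons.1 (List.nodup_cons.1 h5).2).1
    refine ⟨?_, ?_, ?_, ?_, ?_, ?_⟩
    · rintro rfl
      exact h8 (by simp)
    · rintro rfl
      exact h7 (by simp)
    · rintro rfl
      exact h7 (by simp)
    · exact h1.mem_iff.1 (by simp)
    · exact h1.mem_iff.1 (by simp)
    · exact h1.mem_iff.1 (by simp)

theorem tri3_ed {v g A B : α} {P : List α} (h : Tri3 v P A g B) :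
    Ed (cyc v P) A g ∧ Ed (cyc v P) g B := by
  rcases h with ⟨S, T, rfl⟩ | ⟨T, rfl, rfl⟩ | ⟨S, rfl, rfl⟩ | ⟨rfl, h1, h2⟩
  · constructor
    · have h3 : cyc v (S ++ A :: g :: B :: T) = (v :: S) ++ A :: g :: (B :: T ++ [v]) := by
        unfold cyc; simp
      rw [h3]; exact ed_of_split
    · have h3 : cyc v (S ++ A :: g :: B :: T) = (v :: S ++ [A]) ++ g :: B :: (T ++ [v]) := by
        unfold cyc; simp
      rw [h3]; exact ed_of_split
  · constructor
    · have h3 : cyc A (g :: B :: T) = [] ++ A :: g :: (B :: T ++ [A]) := by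
        unfold cyc; simp
      rw [h3]; exact ed_of_split
    · have h3 : cyc A (g :: B :: T) = [A] ++ g :: B :: (T ++ [A]) := by
        unfold cyc; simp
      rw [h3]; exact ed_of_split
  · constructor
    · have h3 : cyc B (S ++ [A, g]) = (B :: S) ++ A :: g :: [B] := by
        unfold cyc; simp
      rw [h3]; exact ed_of_split
    · have h3 : cyc B (S ++ [A, g]) = (B :: S ++ [A]) ++ g :: B :: [] := by
        unfold cyc; simp
      rw [h3]; exact ed_of_split
  · constructor
    · have hP : P ≠ [] := by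
        rintro rfl
        simp at h2
      obtain ⟨D, z, rfl⟩ := gc_snoc hP
      have h3 : A = z := by
        simp at h2
        exact h2.symm
      have h4 : cyc g (D ++ [z]) = (g :: D) ++ A :: g :: [] := by
        unfold cyc; rw [h3]; simp
      rw [h4]; exact ed_of_split
    · cases P with
      | nil => simp at h1
      | cons b P =>
        have h3 : b = B := Option.some.inj h1
        have h4 : cyc g (b :: P) = [] ++ g :: B :: (P ++ [g]) := by
          unfold cyc; rw [h3]; simp
        rw [h4]; exact ed_of_split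

private theorem tri3_of_cyc {v : α} {P S T : List α} (hl : 2 ≤ P.length) {A g B : α}
    (h : cyc v P = S ++ A :: g :: B :: T) : Tri3 v P A g B := by
  unfold cyc at h
  cases S with
  | nil =>
    obtain ⟨h1, h2⟩ := List.cons.inj (show v :: (P ++ [v]) = A :: (g :: B :: T) from h)
    cases P with
    | nil => simp at hl
    | cons c P =>
    cases P with
    | nil => simp at hl
    | cons d P =>
      obtain ⟨h3, h4⟩ := List.cons.inj
        (show c :: (d :: (P ++ [v])) = g :: (B :: T) from h2)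
      obtain ⟨h5, -⟩ := List.cons.inj h4
      exact Or.inr (Or.inl ⟨P, by rw [h3, h5], h1.symm⟩)
  | cons s S =>
    obtain ⟨-, h2⟩ := List.cons.inj
      (show v :: (P ++ [v]) = s :: (S ++ A :: g :: B :: T) from h)
    by_cases hT : T = []
    · subst hT
      have h3 : S ++ A :: g :: [B] = (S ++ [A, g]) ++ [B] := by simp
      rw [h3] at h2
      obtain ⟨h4, h5⟩ := List.append_inj' h2 rfl
      have h6 : v = B := by simpa using h5
      exact Or.inr (Or.inr (Or.inl ⟨S, h4, h6.symm⟩))
    · obtain ⟨D, z, rfl⟩ := gc_snoc hT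
      have h3 : S ++ A :: g :: B :: (D ++ [z]) = (S ++ A :: g :: B :: D) ++ [z] := by simp
      rw [h3] at h2
      obtain ⟨h4, -⟩ := List.append_inj' h2 rfl
      exact Or.inl ⟨S, D, h4⟩

theorem ed_tri3 {v c d : α} {P : List α} (hn : (v :: P).Nodup) (hl : 2 ≤ P.length)
    (h : Ed (cyc v P) c d) : (∃ A, Tri3 v P A c d) ∨ (∃ B, Tri3 v P d c B) := by
  have _ := hn
  have hne : P ≠ [] := by
    rintro rfl
    simp at hl
  obtain ⟨S, T, h1 | h1⟩ := ed_split h
  · left
    by_cases hS : S = []
    · subst hS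
      obtain ⟨h2, h3⟩ := List.cons.inj (show v :: (P ++ [v]) = c :: (d :: T) from h1)
      obtain ⟨D, z, hD⟩ := gc_snoc hne
      refine ⟨z, Or.inr (Or.inr (Or.inr ⟨h2.symm, ?_, ?_⟩))⟩
      · cases P with
        | nil => exact absurd rfl hne
        | cons b P =>
          obtain ⟨h4, -⟩ := List.cons.inj (show b :: (P ++ [v]) = d :: T from h3)
          rw [h4]; rfl
      · rw [hD]; simp
    · obtain ⟨D, z, rfl⟩ := gc_snoc hS
      refine ⟨z, tri3_of_cyc hl (S := D) (T := T) ?_⟩
      rw [h1]; simp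
  · right
    cases T with
    | nil =>
      have h2 : S ++ d :: [c] = (S ++ [d]) ++ [c] := by simp
      have h3 : cyc v P = (v :: P) ++ [v] := rfl
      rw [h2, h3] at h1
      obtain ⟨h4, h5⟩ := List.append_inj' h1 rfl
      have h6 : v = c := by simpa using h5
      cases P with
      | nil => exact absurd rfl hne
      | cons b P =>
        refine ⟨b, Or.inr (Or.inr (Or.inr ⟨h6.symm, rfl, ?_⟩))⟩
        cases S with
        | nil =>
          exfalso
          obtain ⟨-, h7⟩ := List.cons.inj (show v :: (b :: P) = d :: [] from h4)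
          cases h7
        | cons s S =>
          obtain ⟨-, h7⟩ := List.cons.inj (show v :: (b :: P) = s :: (S ++ [d]) from h4)
          rw [h7]; simp
    | cons b T =>
      exact ⟨b, tri3_of_cyc hl (S := S) (T := T) h1⟩

end FPW
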