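import Pool.Agent.Lib.MP_deef39_co_Ord.Par

/-! # Ord module GDef: polygons of fences around the free points, definitions

Polygons are closed lists `v :: (P ++ [v])` (base `v`), traversed counterclockwise, the inside on
the left. `St` is a set of plane spanning paths (the states), `W` the set of free points.
-/

set_option autoImplicit false

namespace FPW

variable {α : Type*}

/-- the closed list of the polygon with base `v` -/
def cyc (v : α) (P : List α) : List α := v :: (P ++ [v])

/-- `z` lies in the open left sector at `g` of the path `A g B` (the directions `B, z, A` are in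
counterclockwise order) -/
def Lf (p : α → ℝ × ℝ) (A g B z : α) : Prop :=
  (0 < o p g B z ∧ 0 < o p g z A) ∨ (0 < o p g z A ∧ 0 < o p g A B) ∨
    (0 < o p g A B ∧ 0 < o p g B z)

/-- `A, g, B` are consecutive in the closed polygon with base `v` -/
def Tri3 (v : α) (P : List α) (A g B : α) : Prop :=
  (∃ S T, P = S ++ A :: g :: B :: T) ∨ (∃ T, P = g :: B :: T ∧ A = v) ∨
    (∃ S, P = S ++ [A, g] ∧ B = v) ∨ (g = v ∧ P.head? = some B ∧ P.getLast? = some A)

/-- orientation aware side of `z` (`1` = left side), computed at the base `v` of the polygon -/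
noncomputable def Lam (p : α → ℝ × ℝ) (v : α) (P : List α) (z : α) : ZMod 2 :=
  xc p v z (cyc v P) + b2 (∃ A B, P.head? = some B ∧ P.getLast? = some A ∧ Lf p A v B z)

/-- simple polygon with at least three vertices -/
structure Sim (p : α → ℝ × ℝ) (v : α) (P : List α) : Prop where
  nodup : (v :: P).Nodup
  len : 2 ≤ P.length
  plane : Plane p (Ed (cyc v P))

/-- `g` is a strictly supported vertex of the list `L` -/
def Ext1 (p : α → ℝ × ℝ) (L : List α) (g : α) : Prop :=
  g ∈ L ∧ ∃ r : ℝ × ℝ, ∀ t ∈ L, t ≠ g → 0 < cr r (p g) (p t)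

/-- positively oriented: the supported vertices are left turns -/
def Pos (p : α → ℝ × ℝ) (v : α) (P : List α) : Prop :=
  ∀ A g B, Tri3 v P A g B → Ext1 p (v :: P) g → 0 < o p A g B

/-- `x, y` are consecutive in this order in the list `L` -/
def Nx (L : List α) (x y : α) : Prop := ∃ S T, L = S ++ x :: y :: T

/-- hull chain `E` in the triangle `A q B` facing `q` (with respect to the points `V`) -/
structure Chn (p : α → ℝ × ℝ) (V : Set α) (A q B : α) (E : List α) : Prop where
  left : 0 < o p A q B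
  mem : ∀ e ∈ E, e ∈ V ∧ InTri p A q B e
  nodup : (A :: (E ++ [B])).Nodup
  conv : ∀ x y z, [x, y, z].Sublist (A :: (E ++ [B])) → 0 < o p x y z
  ang : ∀ x y, [x, y].Sublist (A :: (E ++ [B])) → o p q x y < 0
  emp : ∀ x y, Nx (A :: (E ++ [B])) x y → ∀ z ∈ V, ¬ InTri p q x y z

/-- weak hull polygon: fences around the free points `W` of the states `St` (plane spanning
paths of the point set `V`) -/
structure WH (p : α → ℝ × ℝ) (St : Set (List α)) (V W : Set α) (v : α) (P : List α) :
    Prop where
  sim : Sim p v P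
  pos : Pos p v P
  mem : ∀ t ∈ v :: P, t ∈ V
  wsub : ∀ t ∈ W, t ∈ V
  plane : ∀ l ∈ St, Plane p (Ed l)
  span : ∀ l ∈ St, ∀ t, t ∈ l ↔ t ∈ V
  nd : ∀ l ∈ St, l.Nodup
  fen : ∀ a b, Ed (cyc v P) a b → ∀ l ∈ St, Vis p (Ed l) a b
  conv : ∀ A g B, Tri3 v P A g B → g ∈ W → 0 < o p A g B
  inn : ∀ u ∈ W, u ∉ v :: P → Lam p v P u = 1
  out : ∀ s ∈ V, s ∉ W → s ∉ v :: P → Lam p v P s = 0
  clo : ∀ l ∈ St, ∀ c d, Ed l c d → c ∈ W → d ∈ W ∨ d ∈ v :: P
  /-- edges with a free end between vertices of the polygon run on the left -/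
  chord : ∀ l ∈ St, ∀ c d, Ed l c d → (c ∈ W ∨ d ∈ W) → c ∈ v :: P → d ∈ v :: P →
    ¬ Ed (cyc v P) c d → ∀ A B, Tri3 v P A c B → Lf p A c B d
  /-- static edges between vertices of the polygon run on the right -/
  schord : ∀ l ∈ St, ∀ c d, Ed l c d → c ∉ W → d ∉ W → c ∈ v :: P → d ∈ v :: P →
    ¬ Ed (cyc v P) c d → ∀ A B, Tri3 v P A c B → ¬ Lf p A c B d

/-- relative hull: all vertices which are not free and not the tip `v` are right turns -/
structure RHu (p : α → ℝ × ℝ) (St : Set (List α)) (V W : Set α) (v : α) (P : List α) : Prop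
    extends WH p St V W v P where
  refl : ∀ A g B, Tri3 v P A g B → g ∉ W → g ≠ v → o p A g B < 0

/-- the plane spanning paths which continue the static path `Q ++ [v]` by the free points `W` -/
def PS (p : α → ℝ × ℝ) (Q : List α) (v : α) (W : Set α) : Set (List α) :=
  {l | ∃ C, l = Q ++ v :: C ∧ l.Nodup ∧ (∀ t, t ∈ C ↔ t ∈ W) ∧ Plane p (Ed l)}

end FPW
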