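import Pool.Agent.Lib.MP_deef39_co_Ord.GDef
import Pool.Agent.Lib.MP_deef39_co_DA.Iface

/-! # Ord module GDef2: cutting a static vertex, the slit after a move, definitions -/

set_option autoImplicit false

namespace FPW

variable {α : Type*}

/-- cutting the static vertex `c` of the polygon with base `x` -/
def CutStep (p : α → ℝ × ℝ) (St : Set (List α)) (V W : Set α) (x : α) (P P' : List α) : Prop :=
  ∃ S A c B R E, cyc x P = S ++ A :: c :: B :: R ∧ cyc x P' = S ++ A :: (E ++ B :: R) ∧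
    c ≠ x ∧ c ∉ W ∧ 0 < o p A c B ∧ Chn p V A c B E ∧ (∀ e ∈ E, e ∈ W) ∧
    ∀ e ∈ E, ∀ l ∈ St, Vis p (Ed l) c e

/-- the polygon after the move `v → x`, before cutting -/
inductive Slit (p : α → ℝ × ℝ) (St : Set (List α)) (V W : Set α) (v : α) (x : α) :
    List α → List α → Prop
  | openL {A B : α} {T E : List α} (hl : 0 < o p A v x) (hf : Lf p A v B x)
      (hx : x ∉ v :: B :: (T ++ [A])) (hc : Chn p V A v x E) (hE : ∀ e ∈ E, e ∈ W)
      (hs : ∀ e ∈ E, ∀ l ∈ St, Vis p (Ed l) v e) :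
      Slit p St V W v x (B :: (T ++ [A])) (v :: B :: (T ++ A :: E))
  | openR {A B : α} {T E : List α} (hl : 0 < o p x v B) (hf : Lf p A v B x)
      (hx : x ∉ v :: B :: (T ++ [A])) (hc : Chn p V x v B E) (hE : ∀ e ∈ E, e ∈ W)
      (hs : ∀ e ∈ E, ∀ l ∈ St, Vis p (Ed l) v e) :
      Slit p St V W v x (B :: (T ++ [A])) (E ++ B :: (T ++ [A, v]))
  | takeR {A : α} {T : List α} : Slit p St V W v x (x :: (T ++ [A])) (T ++ [A, v])
  | takeL {B : α} {T : List α} : Slit p St V W v x (B :: (T ++ [x])) (v :: B :: T)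

end FPW
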