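import Pool.Agent.Lib.MP_deef39_co_Ord.GDef2
import Pool.Agent.Lib.MP_deef39_co_Ord.GCyc

/-! # Ord module GFree: the relative hull has two free vertices

A list of at least three points has three supported vertices (`gf_three`); a supported vertex of
the polygon is a left turn, so it is free or the tip.
-/

set_option autoImplicit false

namespace FPW

variable {α : Type*} {p : α → ℝ × ℝ}

open Filter in
/-- in every direction `r` there is a supported vertex which is extreme for `r` -/
private theorem gf_dir (hgp : GP p) {L : List α} (hL : ∃ t, t ∈ L) {r : ℝ × ℝ} (hr : r ≠ 0) :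
    ∃ c, Ext1 p L c ∧ ∀ t ∈ L, 0 ≤ cr r (p c) (p t) := by
  classical
  obtain ⟨t0, ht0⟩ := hL
  have hfin : ({t | t ∈ L} : Set α).Finite := L.finite_toSet
  obtain ⟨a, ha, hmin⟩ := Set.exists_min_image {t | t ∈ L}
    (fun t => r.1 * (p t).2 - r.2 * (p t).1) hfin ⟨t0, ht0⟩
  have hfin2 : ({t | t ∈ L ∧ r.1 * (p t).2 - r.2 * (p t).1 =
      r.1 * (p a).2 - r.2 * (p a).1} : Set α).Finite := hfin.subset (fun t ht => ht.1)
  obtain ⟨c, hc, hmin2⟩ := Set.exists_min_image {t | t ∈ L ∧ r.1 * (p t).2 - r.2 * (p t).1 =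
      r.1 * (p a).2 - r.2 * (p a).1} (fun t => r.1 * (p t).1 + r.2 * (p t).2) hfin2 ⟨a, ha, rfl⟩
  have hle : ∀ t ∈ L, 0 ≤ cr r (p c) (p t) := by
    intro t ht
    have h1 := hmin t ht
    have h2 := hc.2
    unfold cr
    nlinarith
  have key : ∀ t ∈ {t | t ∈ L}, ∀ᶠ ε in nhdsWithin (0 : ℝ) (Set.Ioi 0),
      t ≠ c → 0 < cr (r.1 + ε * r.2, r.2 - ε * r.1) (p c) (p t) := by
    intro t ht
    by_cases htc : t = c
    · exact Eventually.of_forall fun ε h1 => absurd htc h1
    rcases (hle t ht).lt_or_eq with h2 | h2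
    · have hcont : Tendsto (fun ε : ℝ => cr (r.1 + ε * r.2, r.2 - ε * r.1) (p c) (p t))
          (nhdsWithin (0 : ℝ) (Set.Ioi 0))
          (nhds (cr (r.1 + 0 * r.2, r.2 - 0 * r.1) (p c) (p t))) := by
        apply Tendsto.mono_left _ nhdsWithin_le_nhds
        apply Continuous.tendsto
        unfold cr
        fun_prop
      have hpos : 0 < cr (r.1 + 0 * r.2, r.2 - 0 * r.1) (p c) (p t) := by
        have : cr (r.1 + 0 * r.2, r.2 - 0 * r.1) (p c) (p t) = cr r (p c) (p t) := by
          unfold cr; ring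
        rw [this]; exact h2
      filter_upwards [hcont.eventually (lt_mem_nhds hpos)] with ε hε _
      exact hε
    · have h3 : r.1 * (p t).2 - r.2 * (p t).1 = r.1 * (p a).2 - r.2 * (p a).1 := by
        have h4 := hc.2
        unfold cr at h2
        linarith
      have h4 : r.1 * (p c).1 + r.2 * (p c).2 ≤ r.1 * (p t).1 + r.2 * (p t).2 :=
        hmin2 t ⟨ht, h3⟩
      have h5 : r.1 * (p c).1 + r.2 * (p c).2 ≠ r.1 * (p t).1 + r.2 * (p t).2 := by
        intro h6
        apply htc
        apply hgp.inj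
        have hz : r.1 * ((p t).2 - (p c).2) - r.2 * ((p t).1 - (p c).1) = 0 := h2.symm
        have hz2 : r.1 * ((p t).1 - (p c).1) + r.2 * ((p t).2 - (p c).2) = 0 := by linarith
        have hrr : 0 < r.1 ^ 2 + r.2 ^ 2 := by
          by_contra hcon
          apply hr
          have h7 : r.1 = 0 := by nlinarith [sq_nonneg r.1, sq_nonneg r.2]
          have h8 : r.2 = 0 := by nlinarith [sq_nonneg r.1, sq_nonneg r.2]
          exact Prod.ext h7 h8
        have h9 : (r.1 ^ 2 + r.2 ^ 2) * ((p t).2 - (p c).2) = 0 := by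
          linear_combination r.1 * hz + r.2 * hz2
        have h10 : (r.1 ^ 2 + r.2 ^ 2) * ((p t).1 - (p c).1) = 0 := by
          linear_combination r.1 * hz2 - r.2 * hz
        have h11 := (mul_eq_zero.1 h9).resolve_left hrr.ne'
        have h12 := (mul_eq_zero.1 h10).resolve_left hrr.ne'
        exact Prod.ext (by linarith) (by linarith)
      have h6 : r.1 * (p c).1 + r.2 * (p c).2 < r.1 * (p t).1 + r.2 * (p t).2 :=
        lt_of_le_of_ne h4 h5
      filter_upwards [self_mem_nhdsWithin] with ε hε _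
      have h7 : cr (r.1 + ε * r.2, r.2 - ε * r.1) (p c) (p t) = cr r (p c) (p t) +
          ε * ((r.1 * (p t).1 + r.2 * (p t).2) - (r.1 * (p c).1 + r.2 * (p c).2)) := by
        unfold cr; ring
      rw [h7, ← h2]
      have h8 : 0 < ε * ((r.1 * (p t).1 + r.2 * (p t).2) - (r.1 * (p c).1 + r.2 * (p c).2)) :=
        mul_pos hε (by linarith)
      linarith
  have key2 := (hfin.eventually_all).2 key
  obtain ⟨ε, hε⟩ := key2.exists
  exact ⟨c, ⟨hc.1, _, fun t ht hne => hε t ht hne⟩, hle⟩

/-- a third point -/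
private theorem gf_third {L : List α} (hn : L.Nodup) (h3 : 3 ≤ L.length) (x y : α) :
    ∃ z ∈ L, z ≠ x ∧ z ≠ y := by
  classical
  by_contra hcon
  push Not at hcon
  have hsub : L ⊆ [x, y] := by
    intro z hz
    by_cases h1 : z = x
    · simp [h1]
    · simp [hcon z hz h1]
  have := (List.subperm_of_subset hn hsub).length_le
  simp at this
  omega

/-- three supported vertices -/
private theorem gf_three (hgp : GP p) {L : List α} (hn : L.Nodup) (h3 : 3 ≤ L.length) :
    ∃ a b c, a ≠ b ∧ b ≠ c ∧ a ≠ c ∧ Ext1 p L a ∧ Ext1 p L b ∧ Ext1 p L c := by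
  have hne : ∃ t, t ∈ L := by
    cases L with
    | nil => simp at h3
    | cons a L => exact ⟨a, by simp⟩
  obtain ⟨a, ha, ha'⟩ := gf_dir hgp hne (r := (0, -1)) (by simp)
  obtain ⟨b, hb, hb'⟩ := gf_dir hgp hne (r := (0, 1)) (by simp)
  have hab : a ≠ b := by
    rintro rfl
    have hx : ∀ t ∈ L, (p t).1 = (p a).1 := by
      intro t ht
      have h1 := ha' t ht
      have h2 := hb' t ht
      unfold cr at h1 h2
      simp only at h1 h2
      linarith
    obtain ⟨u, hu, hua, -⟩ := gf_third hn h3 a a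
    obtain ⟨w, hw, hwa, hwu⟩ := gf_third hn h3 a u
    have h5 := hgp.ne a u w hua.symm hwu.symm hwa.symm
    apply h5
    unfold o
    rw [hx u hu, hx w hw]
    ring
  obtain ⟨t0, ht0, h1, h2⟩ := gf_third hn h3 a b
  have h5 : o p a b t0 ≠ 0 := hgp.ne a b t0 hab h2.symm h1.symm
  have hr : ((p b).1 - (p a).1, (p b).2 - (p a).2) ≠ (0 : ℝ × ℝ) := by
    intro h6
    apply hab
    apply hgp.inj
    have h7 := congrArg Prod.fst h6
    have h8 := congrArg Prod.snd h6
    simp only [Prod.fst_zero, Prod.snd_zero] at h7 h8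
    exact Prod.ext (by linarith) (by linarith)
  have hr' : (-((p b).1 - (p a).1), -((p b).2 - (p a).2)) ≠ (0 : ℝ × ℝ) := by
    intro h6
    apply hr
    have h7 := congrArg Prod.fst h6
    have h8 := congrArg Prod.snd h6
    simp only [Prod.fst_zero, Prod.snd_zero] at h7 h8
    exact Prod.ext (by show (p b).1 - (p a).1 = 0; linarith)
      (by show (p b).2 - (p a).2 = 0; linarith)
  rcases lt_or_gt_of_ne h5 with h6 | h6
  · obtain ⟨c, hc, hc'⟩ := gf_dir hgp hne hr
    have h7 := hc' t0 ht0
    have h8 : o p a b c < 0 := by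
      unfold cr at h7
      unfold o at h6 ⊢
      simp only at h7
      nlinarith
    refine ⟨a, b, c, hab, ?_, ?_, ha, hb, hc⟩
    · rintro rfl
      unfold o at h8
      nlinarith
    · rintro rfl
      unfold o at h8
      nlinarith
  · obtain ⟨c, hc, hc'⟩ := gf_dir hgp hne hr'
    have h7 := hc' t0 ht0
    have h8 : 0 < o p a b c := by
      unfold cr at h7
      unfold o at h6 ⊢
      simp only at h7
      nlinarith
    refine ⟨a, b, c, hab, ?_, ?_, ha, hb, hc⟩
    · rintro rfl
      unfold o at h8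
      nlinarith
    · rintro rfl
      unfold o at h8
      nlinarith

private theorem gf_free {St : Set (List α)} {V W : Set α} {v g : α} {P : List α}
    (h : RHu p St V W v P) (he : Ext1 p (v :: P) g) (hg : g ≠ v) : g ∈ W := by
  obtain ⟨A, B, h3⟩ := tri3_exists h.sim.len he.1
  have hpos := h.pos A g B h3 he
  by_contra hW
  exact absurd (h.refl A g B h3 hW hg) (not_lt.2 hpos.le)

private theorem gf_mem {v g : α} {P : List α} (he : Ext1 p (v :: P) g) (hg : g ≠ v) :
    g ∈ P := by
  rcases List.mem_cons.1 he.1 with h | h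
  · exact absurd h hg
  · exact h

/-- the relative hull has two free vertices -/
theorem free_two (hgp : GP p) {St : Set (List α)} {V W : Set α} {v : α} {P : List α}
    (h : RHu p St V W v P) : ∃ f g, f ≠ g ∧ f ∈ P ∧ g ∈ P ∧ f ∈ W ∧ g ∈ W := by
  have hlen := h.sim.len
  obtain ⟨a, b, c, hab, hbc, hac, ha, hb, hc⟩ := gf_three hgp h.sim.nodup
    (by simp only [List.length_cons]; omega)
  by_cases hav : a = v
  · have hbv : b ≠ v := fun hh => hab (hav.trans hh.symm)
    have hcv : c ≠ v := fun hh => hac (hav.trans hh.symm)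
    exact ⟨b, c, hbc, gf_mem hb hbv, gf_mem hc hcv, gf_free h hb hbv, gf_free h hc hcv⟩
  · by_cases hbv : b = v
    · have hcv : c ≠ v := fun hh => hbc (hbv.trans hh.symm)
      exact ⟨a, c, hac, gf_mem ha hav, gf_mem hc hcv, gf_free h ha hav, gf_free h hc hcv⟩
    · exact ⟨a, b, hab, gf_mem ha hav, gf_mem hb hbv, gf_free h ha hav, gf_free h hb hbv⟩

end FPW
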