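import Pool.Agent.Lib.MP_deef39_co_Ord.GSplit

/-! # Ord module GHull: supported vertices and three convex vertices -/

set_option autoImplicit false

namespace FPW

variable {α : Type*} {p : α → ℝ × ℝ}

/-! ### small parameters -/

private theorem gh_eps (F G : α → ℝ) : ∀ (L : List α),
    (∀ t ∈ L, 0 < F t ∨ (F t = 0 ∧ 0 < G t)) →
    ∃ e : ℝ, 0 < e ∧ ∀ e', 0 < e' → e' ≤ e → ∀ t ∈ L, 0 < F t + e' * G t := by
  intro L
  induction L with
  | nil => intro _; exact ⟨1, one_pos, fun _ _ _ t ht => absurd ht (by simp)⟩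
  | cons a L ih =>
    intro h
    obtain ⟨e, he, h1⟩ := ih (fun t ht => h t (by simp [ht]))
    rcases h a (by simp) with h2 | ⟨h2, h3⟩
    · refine ⟨min e (F a / (|G a| + 1)), lt_min he (by positivity), ?_⟩
      intro e' h3 h4 t ht
      rcases List.mem_cons.1 ht with rfl | ht
      · have h5 : e' ≤ F t / (|G t| + 1) := le_trans h4 (min_le_right _ _)
        have h6 : e' * (|G t| + 1) ≤ F t := by
          rwa [le_div_iff₀ (by positivity)] at h5
        have h7 : -|G t| ≤ G t := neg_abs_le _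
        have h8 : e' * -|G t| ≤ e' * G t := mul_le_mul_of_nonneg_left h7 h3.le
        nlinarith
      · exact h1 e' h3 (le_trans h4 (min_le_left _ _)) t ht
    · refine ⟨e, he, ?_⟩
      intro e' h4 h5 t ht
      rcases List.mem_cons.1 ht with rfl | ht
      · rw [h2, zero_add]
        exact mul_pos h4 h3
      · exact h1 e' h4 h5 t ht

/-! ### hull neighbours -/

private theorem gh_pl (r : ℝ × ℝ) (g a w t : α) :
    o p g a t * cr r (p g) (p w) = cr r (p g) (p a) * o p g w t +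
      o p g a w * cr r (p g) (p t) := by
  unfold o cr; ring

/-- leftmost direction -/
private theorem gh_nb (hgp : GP p) {g : α} {r : ℝ × ℝ} : ∀ (L : List α), L ≠ [] →
    (∀ t ∈ L, 0 < cr r (p g) (p t)) → (∀ t ∈ L, t ≠ g) →
    ∃ w ∈ L, ∀ t ∈ L, t ≠ w → 0 < o p g w t := by
  intro L
  induction L with
  | nil => intro h; exact absurd rfl h
  | cons a L ih =>
    intro _ h1 h2
    by_cases hL : L = []
    · subst hL
      refine ⟨a, by simp, ?_⟩
      intro t ht hta
      simp only [List.mem_singleton] at ht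
      exact absurd ht hta
    obtain ⟨w, hw, h3⟩ := ih hL (fun t ht => h1 t (by simp [ht]))
      (fun t ht => h2 t (by simp [ht]))
    by_cases haw : a = w
    · subst haw
      refine ⟨a, by simp, ?_⟩
      intro t ht hta
      rcases List.mem_cons.1 ht with rfl | ht
      · exact absurd rfl hta
      · exact h3 t ht hta
    have hwg := h2 w (by simp [hw])
    have hag := h2 a (by simp)
    rcases lt_or_gt_of_ne (hgp.ne g w a (Ne.symm hwg) (Ne.symm haw) (Ne.symm hag)) with h4 | h4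
    · refine ⟨a, by simp, ?_⟩
      intro t ht hta
      rcases List.mem_cons.1 ht with rfl | ht
      · exact absurd rfl hta
      have h5 : 0 < o p g a w := by
        have := o_swap' p g w a
        linarith
      by_cases htw : t = w
      · subst htw; exact h5
      have h6 := h3 t ht htw
      have h7 := gh_pl (p := p) r g a w t
      have h8 := h1 a (by simp)
      have h9 := h1 w (by simp [hw])
      have h10 := h1 t (by simp [ht])
      have h11 : 0 < o p g a t * cr r (p g) (p w) := by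
        rw [h7]
        have := mul_pos h8 h6
        have := mul_pos h5 h10
        linarith
      by_contra h12
      have := mul_nonpos_of_nonpos_of_nonneg (not_lt.1 h12) h9.le
      linarith
    · refine ⟨w, by simp [hw], ?_⟩
      intro t ht htw
      rcases List.mem_cons.1 ht with rfl | ht
      · exact h4
      · exact h3 t ht htw

/-- left hull neighbour -/
private theorem gh_hn (hgp : GP p) {g : α} {L : List α} (h2 : ∃ t ∈ L, t ≠ g)
    (hg : Ext1 p L g) :
    ∃ w, w ≠ g ∧ Ext1 p L w ∧ ∀ t ∈ L, t ≠ g → t ≠ w → 0 < o p g w t := by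
  classical
  obtain ⟨hgL, r, hr⟩ := hg
  obtain ⟨t₀, ht₀, ht₀'⟩ := h2
  have hne : L.filter (fun t => decide (t ≠ g)) ≠ [] := by
    intro h
    have : t₀ ∈ L.filter (fun t => decide (t ≠ g)) := by simp [ht₀, ht₀']
    rw [h] at this
    exact absurd this (by simp)
  have hm : ∀ t, t ∈ L.filter (fun t => decide (t ≠ g)) ↔ t ∈ L ∧ t ≠ g := by
    intro t; simp
  obtain ⟨w, hw, h3⟩ := gh_nb hgp (g := g) (r := r) _ hne
    (fun t ht => hr t ((hm t).1 ht).1 ((hm t).1 ht).2) (fun t ht => ((hm t).1 ht).2)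
  obtain ⟨hwL, hwg⟩ := (hm w).1 hw
  have h4 : ∀ t ∈ L, t ≠ g → t ≠ w → 0 < o p g w t := fun t ht h5 h6 =>
    h3 t ((hm t).2 ⟨ht, h5⟩) h6
  refine ⟨w, hwg, ⟨hwL, ?_⟩, h4⟩
  obtain ⟨e, he, h5⟩ := gh_eps (fun t => o p g w t) (fun t => cr (-r) (p w) (p t))
    (L.filter (fun t => decide (t ≠ w))) (by
      intro t ht
      have ht' : t ∈ L ∧ t ≠ w := by simpa using ht
      by_cases htg : t = g
      · right
        subst htg
        refine ⟨by simp, ?_⟩
        have h6 := hr w hwL hwg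
        have h7 : cr (-r) (p w) (p t) = cr r (p t) (p w) := by
          unfold cr; simp only [Prod.fst_neg, Prod.snd_neg]; ring
        rw [h7]; exact h6
      · exact Or.inl (h4 t ht'.1 htg ht'.2))
  refine ⟨((p w).1 - (p g).1 + e * (-r).1, (p w).2 - (p g).2 + e * (-r).2), ?_⟩
  intro t ht htw
  have h6 := h5 e he le_rfl t (by simp [ht, htw])
  have h7 : cr ((p w).1 - (p g).1 + e * (-r).1, (p w).2 - (p g).2 + e * (-r).2) (p w) (p t) =
      o p g w t + e * cr (-r) (p w) (p t) := by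
    unfold cr o; ring
  rw [h7]; exact h6

private theorem gh_ext_mir {L : List α} {g : α} (h : Ext1 p L g) : Ext1 (mir p) L g := by
  obtain ⟨h1, r, hr⟩ := h
  refine ⟨h1, (-r.2, -r.1), ?_⟩
  intro t ht htg
  have h2 := hr t ht htg
  have h3 : cr (-r.2, -r.1) (mir p g) (mir p t) = cr r (p g) (p t) := by
    unfold cr mir; ring
  rw [h3]; exact h2

private theorem gh_mir_mir : mir (mir p) = p := by
  funext a; simp [mir]

/-- right hull neighbour -/
private theorem gh_hn' (hgp : GP p) {g : α} {L : List α} (h2 : ∃ t ∈ L, t ≠ g)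
    (hg : Ext1 p L g) :
    ∃ w, w ≠ g ∧ Ext1 p L w ∧ ∀ t ∈ L, t ≠ g → t ≠ w → o p g w t < 0 := by
  obtain ⟨w, h1, h3, h4⟩ := gh_hn (GP_mir hgp) h2 (gh_ext_mir hg)
  refine ⟨w, h1, ?_, ?_⟩
  · have := gh_ext_mir h3
    rwa [gh_mir_mir] at this
  · intro t ht h5 h6
    have := h4 t ht h5 h6
    rw [o_mir] at this
    linarith

/-- there is a supported vertex -/
private theorem gh_one (hgp : GP p) {L : List α} (hL : L ≠ []) : ∃ g, Ext1 p L g := by
  classical
  obtain ⟨a, ha⟩ := List.exists_mem_of_ne_nil L hL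
  obtain ⟨g, hg, h1⟩ := Set.exists_min_image {t | t ∈ L} (fun t => toLex ((p t).2, (p t).1))
    (List.finite_toSet L) ⟨a, ha⟩
  refine ⟨g, hg, ?_⟩
  obtain ⟨e, he, h5⟩ := gh_eps (fun t => (p t).2 - (p g).2) (fun t => (p t).1 - (p g).1)
    (L.filter (fun t => decide (t ≠ g))) (by
      intro t ht
      have ht' : t ∈ L ∧ t ≠ g := by simpa using ht
      have h2 := h1 t ht'.1
      simp only [Prod.Lex.toLex_le_toLex] at h2
      rcases h2 with h2 | ⟨h2, h3⟩
      · left; linarith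
      · right
        refine ⟨by rw [h2]; ring, ?_⟩
        rcases lt_or_eq_of_le h3 with h4 | h4
        · linarith
        · exact absurd (hgp.inj (Prod.ext h4.symm h2.symm)) ht'.2)
  refine ⟨(1, -e), ?_⟩
  intro t ht htg
  have h6 := h5 e he le_rfl t (by simp [ht, htg])
  have h7 : cr (1, -e) (p g) (p t) = (p t).2 - (p g).2 + e * ((p t).1 - (p g).1) := by
    unfold cr; ring
  rw [h7]; exact h6

private theorem gh_third {L : List α} (hn : L.Nodup) (h3 : 3 ≤ L.length) (x y : α) :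
    ∃ t ∈ L, t ≠ x ∧ t ≠ y := by
  match L, hn, h3 with
  | a :: b :: c :: L', hn, _ =>
    simp only [List.nodup_cons, List.mem_cons, not_or] at hn
    obtain ⟨⟨hab, hac, -⟩, ⟨hbc, -⟩, -⟩ := hn
    by_cases h1 : a ≠ x ∧ a ≠ y
    · exact ⟨a, by simp, h1⟩
    by_cases h2 : b ≠ x ∧ b ≠ y
    · exact ⟨b, by simp, h2⟩
    refine ⟨c, by simp, ?_⟩
    by_contra h4
    rw [not_and_or, not_not, not_not] at h1 h2 h4
    rcases h1 with rfl | rfl <;> rcases h2 with rfl | rfl <;> rcases h4 with rfl | rfl <;>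
      first | exact hab rfl | exact hac rfl | exact hbc rfl

/-- both hull neighbours of a supported vertex -/
private theorem gh_two (hgp : GP p) {L : List α} (hn : L.Nodup) (h3 : 3 ≤ L.length) {g : α}
    (hg : Ext1 p L g) : ∃ u w, u ≠ g ∧ w ≠ g ∧ u ≠ w ∧ Ext1 p L u ∧ Ext1 p L w ∧
      (∀ t ∈ L, t ≠ g → t ≠ w → 0 < o p g w t) ∧ ∀ t ∈ L, t ≠ g → t ≠ u → o p g u t < 0 := by
  have h4 : ∃ t ∈ L, t ≠ g := by
    obtain ⟨t, h1, h2, -⟩ := gh_third hn h3 g g
    exact ⟨t, h1, h2⟩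
  obtain ⟨w, h5, h6, h7⟩ := gh_hn hgp h4 hg
  obtain ⟨u, h8, h9, h10⟩ := gh_hn' hgp h4 hg
  refine ⟨u, w, h8, h5, ?_, h9, h6, h7, h10⟩
  rintro rfl
  obtain ⟨t, h11, h12, h13⟩ := gh_third hn h3 g u
  have h14 := h7 t h11 h12 h13
  have h15 := h10 t h11 h12 h13
  linarith

theorem ext_three (hgp : GP p) {L : List α} (hn : L.Nodup) (h3 : 3 ≤ L.length) :
    ∃ a b c, a ≠ b ∧ b ≠ c ∧ a ≠ c ∧ Ext1 p L a ∧ Ext1 p L b ∧ Ext1 p L c := by
  obtain ⟨g, hg⟩ := gh_one hgp (L := L) (by rintro rfl; simp at h3)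
  obtain ⟨u, w, h1, h2, h4, h5, h6, -, -⟩ := gh_two hgp hn h3 hg
  exact ⟨u, g, w, h1, h2.symm, h4, h5, hg, h6⟩

/-! ### the turns at the supported vertices -/

/-- change of the base -/
private theorem gh_base {v g : α} {P : List α} (hs : Sim p v P) (hg : g ∈ v :: P) :
    ∃ Q, Sim p g Q ∧ (∀ A h B, Tri3 g Q A h B ↔ Tri3 v P A h B) ∧
      (∀ x y, Ed (cyc g Q) x y ↔ Ed (cyc v P) x y) ∧ ∀ t, t ∈ g :: Q ↔ t ∈ v :: P := by
  rcases List.mem_cons.1 hg with rfl | hg
  · exact ⟨P, hs, fun _ _ _ => Iff.rfl, fun _ _ => Iff.rfl, fun _ => Iff.rfl⟩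
  · obtain ⟨S, T, rfl⟩ := List.append_of_mem hg
    refine ⟨T ++ v :: S, sim_rot hs, fun A h B => tri3_rot hs.nodup hs.len,
      fun x y => ed_cyc_rot, ?_⟩
    intro t
    simp only [List.mem_cons, List.mem_append]
    tauto

private theorem gh_ext_mono {L L' : List α} {g : α} (h : ∀ t ∈ L', t ∈ L) (hg : g ∈ L')
    (he : Ext1 p L g) : Ext1 p L' g := by
  obtain ⟨-, r, hr⟩ := he
  exact ⟨hg, r, fun t ht => hr t (h t ht)⟩

private theorem gh_ed_mem {v : α} {P : List α} {c d : α} (hn : (v :: P).Nodup)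
    (hl : 2 ≤ P.length) (h : Ed (cyc v P) c d) : c ∈ v :: P ∧ d ∈ v :: P ∧ c ≠ d := by
  rcases ed_tri3 hn hl h with ⟨A, h1⟩ | ⟨B, h1⟩
  · have := tri3_ne hn hl h1
    exact ⟨this.2.2.2.2.1, this.2.2.2.2.2, this.2.2.1⟩
  · have := tri3_ne hn hl h1
    exact ⟨this.2.2.2.2.1, this.2.2.2.1, this.2.1⟩

/-- a hull edge of the polygon is crossed by nothing -/
private theorem gh_vis {v : α} {P : List α} (hn : (v :: P).Nodup) (hl : 2 ≤ P.length)
    {g w : α} (h : ∀ t ∈ v :: P, t ≠ g → t ≠ w → 0 < o p g w t) :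
    Vis p (Ed (cyc v P)) g w := by
  intro c d hcd hX
  obtain ⟨h1, h2, h3⟩ := gh_ed_mem hn hl hcd
  obtain ⟨h4, -⟩ := hX
  have h5 : ∀ t ∈ v :: P, 0 ≤ o p g w t := by
    intro t ht
    by_cases h6 : t = g
    · subst h6; simp
    by_cases h7 : t = w
    · subst h7; simp
    exact (h t ht h6 h7).le
  have := mul_nonneg (h5 c h1) (h5 d h2)
  linarith

private theorem gh_at {g : α} {Q : List α} (hn : (g :: Q).Nodup) {A B : α}
    (h : Tri3 g Q A g B) : Q.head? = some B ∧ Q.getLast? = some A := by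
  have hg : g ∉ Q := (List.nodup_cons.1 hn).1
  rcases h with ⟨S, T, rfl⟩ | ⟨T, rfl, -⟩ | ⟨S, rfl, -⟩ | ⟨-, h1, h2⟩
  · exact absurd (by simp) hg
  · exact absurd (by simp) hg
  · exact absurd (by simp) hg
  · exact ⟨h1, h2⟩

private theorem gh_mem {v A g B : α} {P : List α} (hs : Sim p v P) (h : Tri3 v P A g B) :
    g ∈ v :: P := (tri3_ne hs.nodup hs.len h).2.2.2.2.1

private theorem gh_succ {v A g B : α} {P : List α} (hs : Sim p v P) (h : Tri3 v P A g B) :
    ∃ C, Tri3 v P g B C := by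
  obtain ⟨Q, h1, h2, -, -⟩ := gh_base hs (gh_mem hs h)
  obtain ⟨h3, -⟩ := gh_at h1.nodup ((h2 A g B).2 h)
  match Q, h1, h2, h3 with
  | [b], h1, _, _ => exact absurd h1.len (by simp)
  | b :: c :: T, h1, h2, h3 =>
    simp only [List.head?_cons, Option.some.injEq] at h3
    subst h3
    exact ⟨c, (h2 g b c).1 (Or.inr (Or.inl ⟨T, rfl, rfl⟩))⟩

private theorem gh_pred {v A g B : α} {P : List α} (hs : Sim p v P) (h : Tri3 v P A g B) :
    ∃ C, Tri3 v P C A g := by
  obtain ⟨Q, h1, h2, -, -⟩ := gh_base hs (gh_mem hs h)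
  obtain ⟨-, h3⟩ := gh_at h1.nodup ((h2 A g B).2 h)
  have hl := h1.len
  rcases List.eq_nil_or_concat Q with h4 | ⟨Q', a, h4⟩
  · rw [h4] at hl; simp at hl
  rw [List.concat_eq_append] at h4
  subst h4
  simp only [List.getLast?_append, List.getLast?_singleton, Option.some_or,
    Option.some.injEq] at h3
  subst h3
  rcases List.eq_nil_or_concat Q' with h5 | ⟨D, c, h5⟩
  · rw [h5] at hl; simp at hl
  rw [List.concat_eq_append] at h5
  subst h5
  refine ⟨c, (h2 c a g).1 (Or.inr (Or.inr (Or.inl ⟨D, by simp, rfl⟩)))⟩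

/-- the two ends of a hull edge have the same turn -/
private theorem gh_same (hgp : GP p) {v : α} {P : List α} (hs : Sim p v P) {g w A B A' B' : α}
    (hw : w ∈ v :: P) (hgw : w ≠ g)
    (h : ∀ t ∈ v :: P, t ≠ g → t ≠ w → 0 < o p g w t)
    (h1 : Tri3 v P A g B) (h2 : Tri3 v P A' w B') : 0 < o p A g B ↔ 0 < o p A' w B' := by
  have hn := hs.nodup
  have hl := hs.len
  obtain ⟨a1, a2, a3, a4, a5, a6⟩ := tri3_ne hn hl h1
  obtain ⟨b1, b2, b3, b4, b5, b6⟩ := tri3_ne hn hl h2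
  by_cases c1 : B = w
  · subst c1
    obtain ⟨C, hC⟩ := gh_succ hs h1
    obtain ⟨rfl, rfl⟩ := tri3_unique hn hC h2
    have c4 := h A a4 (Ne.symm a2) a1
    have c5 := h C b6 (Ne.symm b1) (Ne.symm b3)
    have c6 : o p A g B = o p g B A := by unfold o; ring
    rw [c6]
    exact ⟨fun _ => c5, fun _ => c4⟩
  by_cases c2 : A = w
  · subst c2
    obtain ⟨C, hC⟩ := gh_pred hs h1
    obtain ⟨rfl, rfl⟩ := tri3_unique hn hC h2
    have c4 := h B a6 (Ne.symm a3) c1
    have c5 := h C b4 b1 (Ne.symm b2)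
    have c6 : o p A g B = - o p g A B := by unfold o; ring
    have c7 : o p C A g = - o p g A C := by unfold o; ring
    rw [c6, c7]
    exact ⟨fun h => by linarith, fun h => by linarith⟩
  have hA := h A a4 (Ne.symm a2) c2
  have hB := h B a6 (Ne.symm a3) c1
  have hv := gh_vis hn hl h
  obtain ⟨Q, q1, q2, q3, q4⟩ := gh_base hs a5
  obtain ⟨e1, e2⟩ := gh_at q1.nodup ((q2 A g B).2 h1)
  have hwQ : w ∈ Q := by
    rcases List.mem_cons.1 ((q4 w).2 hw) with h5 | h5
    · exact absurd h5 hgw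
    · exact h5
  obtain ⟨S, T, rfl⟩ := List.append_of_mem hwQ
  have hS : S ≠ [] := by
    rintro rfl
    simp only [List.nil_append, List.head?_cons, Option.some.injEq] at e1
    exact c1 e1.symm
  have hT : T ≠ [] := by
    rintro rfl
    simp only [List.getLast?_append, List.getLast?_singleton, Option.some_or,
      Option.some.injEq] at e2
    exact c2 e2.symm
  have hv' : Vis p (Ed (cyc g (S ++ w :: T))) g w := Vis_mono (fun x y => (q3 x y).1) hv
  have key := split_cc hgp q1 hS hT hv' ((q2 A g B).2 h1) ((q2 A' w B').2 h2)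
  have c3 : A' ≠ g := by
    rintro rfl
    obtain ⟨C, hC⟩ := gh_succ hs h2
    have h6 : ∃ C', Tri3 v P C' A' w := gh_pred hs h2
    obtain ⟨C', hC'⟩ := h6
    exact c1 (tri3_unique hn h1 hC').2
  have c4 : B' ≠ g := by
    rintro rfl
    obtain ⟨C', hC'⟩ := gh_succ hs h2
    exact c2 (tri3_unique hn h1 hC').1
  have hA' := h A' b4 c3 (Ne.symm b2)
  have hB' := h B' b6 c4 (Ne.symm b3)
  have f1 : o p A g B ≠ 0 := hgp.ne A g B (Ne.symm a2) a3 a1
  have f2 : o p A' w B' ≠ 0 := hgp.ne A' w B' (Ne.symm b2) b3 b1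
  have g1 : o p g B w = - o p g w B := by unfold o; ring
  have g2 : o p A g w = o p g w A := by unfold o; ring
  have g3 : o p w B' g = o p g w B' := by unfold o; ring
  have g4 : o p A' w g = - o p g w A' := by unfold o; ring
  have k1 : Lf p A g B w ↔ ¬ 0 < o p A g B := by
    rcases lt_or_gt_of_ne f1 with h5 | h5
    · rw [lf_right hgp a1 a2 a3 ⟨Ne.symm hgw, c2, c1⟩ h5, g2]
      exact ⟨fun _ => not_lt.2 h5.le, fun _ => Or.inl hA⟩
    · rw [lf_left hgp a1 a2 a3 ⟨Ne.symm hgw, c2, c1⟩ h5, g1]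
      exact ⟨fun h6 => absurd h6.2 (by linarith), fun h6 => absurd h5 h6⟩
  have k2 : Lf p A' w B' g ↔ ¬ 0 < o p A' w B' := by
    rcases lt_or_gt_of_ne f2 with h5 | h5
    · rw [lf_right hgp b1 b2 b3 ⟨hgw, c3, c4⟩ h5, g3]
      exact ⟨fun _ => not_lt.2 h5.le, fun _ => Or.inr hB'⟩
    · rw [lf_left hgp b1 b2 b3 ⟨hgw, c3, c4⟩ h5, g4]
      exact ⟨fun h6 => absurd h6.1 (by linarith), fun h6 => absurd h5 h6⟩
  rw [k1, k2] at key
  exact not_iff_not.1 key

/-- all supported vertices have the same turn -/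
theorem pos_of_one (hgp : GP p) {v : α} {P : List α} (hs : Sim p v P) {A g B : α}
    (h3 : Tri3 v P A g B) (he : Ext1 p (v :: P) g) (h : 0 < o p A g B) : Pos p v P := by
  classical
  intro A₁ h₁ B₁ h4 h5
  by_contra h6
  have hn := hs.nodup
  have hl := hs.len
  have hl3 : 3 ≤ (v :: P).length := by simp; omega
  obtain ⟨hh, r, hr⟩ := h5
  -- supported left turns
  obtain ⟨m, ⟨m1, m2⟩, m3⟩ := Set.exists_min_image
    {t | Ext1 p (v :: P) t ∧ ∀ A B, Tri3 v P A t B → 0 < o p A t B}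
    (fun t => cr r (p h₁) (p t))
    (Set.Finite.subset (List.finite_toSet (v :: P)) (fun t ht => ht.1.1))
    ⟨g, he, fun A' B' h7 => by
      obtain ⟨rfl, rfl⟩ := tri3_unique hn h3 h7
      exact h⟩
  obtain ⟨u, w, n1, n2, n3, n4, n5, n6, n7⟩ := gh_two hgp hn hl3 m1
  obtain ⟨Am, Bm, hm⟩ := tri3_exists hl m1.1
  have hD : ∀ t, Ext1 p (v :: P) t → (∀ A B, Tri3 v P A t B → 0 < o p A t B) → t ≠ h₁ := by
    rintro t - h7 rfl
    exact h6 (h7 A₁ B₁ h4)
  have hw : ∀ A B, Tri3 v P A w B → 0 < o p A w B := fun A' B' h7 =>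
    (gh_same hgp hs n5.1 n2 n6 hm h7).1 (m2 Am Bm hm)
  have hu : ∀ A B, Tri3 v P A u B → 0 < o p A u B := by
    intro A' B' h7
    have h8 : ∀ t ∈ v :: P, t ≠ u → t ≠ m → 0 < o p u m t := by
      intro t ht h9 h10
      have := n7 t ht h10 h9
      have h11 : o p u m t = - o p m u t := by unfold o; ring
      linarith
    exact (gh_same hgp hs m1.1 (Ne.symm n1) h8 h7 hm).2 (m2 Am Bm hm)
  have q1 := m3 w ⟨n5, hw⟩
  have q2 := m3 u ⟨n4, hu⟩
  have q3 := hD m m1 m2
  have q4 := hD w n5 hw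
  have q5 := hD u n4 hu
  have q6 := n6 h₁ hh (Ne.symm q3) (Ne.symm q4)
  have q7 := n7 h₁ hh (Ne.symm q3) (Ne.symm q5)
  have q8 := n6 u n4.1 n1 n3
  have q9 := hr m m1.1 q3
  have key : o p m w u * cr r (p m) (p h₁) = o p m w h₁ * cr r (p m) (p u) +
      (- o p m u h₁) * cr r (p m) (p w) := by
    unfold o cr; ring
  have q10 : cr r (p m) (p u) = cr r (p h₁) (p u) - cr r (p h₁) (p m) := by unfold cr; ring
  have q11 : cr r (p m) (p w) = cr r (p h₁) (p w) - cr r (p h₁) (p m) := by unfold cr; ring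
  have q12 : cr r (p m) (p h₁) = - cr r (p h₁) (p m) := by unfold cr; ring
  have q13 : 0 ≤ cr r (p m) (p u) := by rw [q10]; linarith
  have q14 : 0 ≤ cr r (p m) (p w) := by rw [q11]; linarith
  have q15 : 0 ≤ o p m w u * cr r (p m) (p h₁) := by
    rw [key]
    have := mul_nonneg q6.le q13
    have := mul_nonneg (by linarith : 0 ≤ - o p m u h₁) q14
    linarith
  have q16 : o p m w u * cr r (p m) (p h₁) < 0 := by
    rw [q12]
    have := mul_pos q8 q9
    linarith
  linarith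

theorem neg_of_one (hgp : GP p) {v : α} {P : List α} (hs : Sim p v P) {A g B : α}
    (h3 : Tri3 v P A g B) (he : Ext1 p (v :: P) g) (h : o p A g B < 0) :
    ∀ A g B, Tri3 v P A g B → Ext1 p (v :: P) g → o p A g B < 0 := by
  intro A' g' B' h1 h2
  obtain ⟨a1, a2, a3, -⟩ := tri3_ne hs.nodup hs.len h1
  rcases lt_or_gt_of_ne (hgp.ne A' g' B' (Ne.symm a2) a3 a1) with h4 | h4
  · exact h4
  · have := pos_of_one hgp hs h1 h2 h4 A g B h3 he
    linarith

/-- tangent vertex of the polygon seen from a supported point -/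
private theorem gh_tan (hgp : GP p) {v z : α} {P : List α} (hs : Sim p v P)
    (hz : Ext1 p (z :: v :: P) z) (hz' : z ∉ v :: P) :
    ∃ A g B, Tri3 v P A g B ∧ Ext1 p (v :: P) g ∧ 0 < o p z g A ∧ 0 < o p z g B ∧
      Vis p (Ed (cyc v P)) g z := by
  have hzv : v ≠ z := fun h => hz' (by simp [h])
  obtain ⟨g, h1, h2, h3⟩ := gh_hn hgp ⟨v, by simp, hzv⟩ hz
  have hg : g ∈ v :: P := by
    rcases List.mem_cons.1 h2.1 with h4 | h4
    · exact absurd h4 h1
    · exact h4
  obtain ⟨A, B, h4⟩ := tri3_exists hs.len hg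
  obtain ⟨a1, a2, a3, a4, a5, a6⟩ := tri3_ne hs.nodup hs.len h4
  have h5 : ∀ t ∈ v :: P, t ≠ g → 0 < o p z g t := fun t ht h6 =>
    h3 t (by simp only [List.mem_cons] at ht ⊢; tauto) (fun h7 => hz' (h7 ▸ ht)) h6
  refine ⟨A, g, B, h4, gh_ext_mono (fun t ht => by
    simp only [List.mem_cons] at ht ⊢; tauto) hg h2, h5 A a4 (Ne.symm a2),
    h5 B a6 (Ne.symm a3), ?_⟩
  intro c d hcd hX
  obtain ⟨k1, k2, -⟩ := gh_ed_mem hs.nodup hs.len hcd
  obtain ⟨k4, -⟩ := hX
  have k5 : ∀ t ∈ v :: P, o p g z t ≤ 0 := by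
    intro t ht
    have k7 : o p g z t = - o p z g t := by unfold o; ring
    by_cases k6 : t = g
    · subst k6; simp
    have := h5 t ht k6
    linarith
  have := mul_nonneg_of_nonpos_of_nonpos (k5 c k1) (k5 d k2)
  linarith

theorem lam_ext_pos (hgp : GP p) {v z : α} {P : List α} (hs : Sim p v P) (hp : Pos p v P)
    (hz : Ext1 p (z :: v :: P) z) (hz' : z ∉ v :: P) : Lam p v P z = 0 := by
  obtain ⟨A, g, B, h1, h2, h3, h4, h5⟩ := gh_tan hgp hs hz hz'
  obtain ⟨a1, a2, a3, a4, a5, a6⟩ := tri3_ne hs.nodup hs.len h1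
  have hne : g ≠ z ∧ A ≠ z ∧ B ≠ z :=
    ⟨fun h => hz' (h ▸ a5), fun h => hz' (h ▸ a4), fun h => hz' (h ▸ a6)⟩
  rw [lam_vis hgp hs h1 hz' h5, b2_eq_zero, lf_left hgp a1 a2 a3 hne (hp A g B h1 h2)]
  rintro ⟨h6, -⟩
  have h7 : o p A g z = - o p z g A := by unfold o; ring
  linarith

theorem lam_ext_neg (hgp : GP p) {v z : α} {P : List α} (hs : Sim p v P)
    (hp : ∀ A g B, Tri3 v P A g B → Ext1 p (v :: P) g → o p A g B < 0)
    (hz : Ext1 p (z :: v :: P) z) (hz' : z ∉ v :: P) : Lam p v P z = 1 := by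
  obtain ⟨A, g, B, h1, h2, h3, h4, h5⟩ := gh_tan hgp hs hz hz'
  obtain ⟨a1, a2, a3, a4, a5, a6⟩ := tri3_ne hs.nodup hs.len h1
  have hne : g ≠ z ∧ A ≠ z ∧ B ≠ z :=
    ⟨fun h => hz' (h ▸ a5), fun h => hz' (h ▸ a4), fun h => hz' (h ▸ a6)⟩
  rw [lam_vis hgp hs h1 hz' h5, b2_eq_one, lf_right hgp a1 a2 a3 hne (hp A g B h1 h2)]
  right
  have h7 : o p g B z = o p z g B := by unfold o; ring
  rw [h7]; exact h4

/-- positive orientation from a common supported vertex (rotation invariance included) -/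
theorem pos_rot {v w : α} {S T : List α} (hs : Sim p v (S ++ w :: T))
    (h : Pos p v (S ++ w :: T)) : Pos p w (T ++ v :: S) := by
  intro A g B h1 h2
  refine h A g B ((tri3_rot hs.nodup hs.len).1 h1) ?_
  refine gh_ext_mono ?_ ?_ h2
  · intro t ht
    simp only [List.mem_cons, List.mem_append] at ht ⊢
    tauto
  · have := h2.1
    simp only [List.mem_cons, List.mem_append] at this ⊢
    tauto

/-! ### three convex vertices -/

private theorem gh_triS {v w s : α} {S T : List α} (h : s ∈ S) :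
    ∃ A B, Tri3 v (S ++ w :: T) A s B ∧ Tri3 v (S ++ [w]) A s B := by
  obtain ⟨S₁, S₂, rfl⟩ := List.append_of_mem h
  rcases List.eq_nil_or_concat S₁ with rfl | ⟨S', a, h1⟩
  · cases S₂ with
    | nil => exact ⟨v, w, Or.inr (Or.inl ⟨T, by simp, rfl⟩), Or.inr (Or.inl ⟨[], by simp, rfl⟩)⟩
    | cons b S₂ => exact ⟨v, b, Or.inr (Or.inl ⟨S₂ ++ w :: T, by simp, rfl⟩),
        Or.inr (Or.inl ⟨S₂ ++ [w], by simp, rfl⟩)⟩
  · rw [List.concat_eq_append] at h1
    subst h1
    cases S₂ with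
    | nil => exact ⟨a, w, Or.inl ⟨S', T, by simp⟩, Or.inl ⟨S', [], by simp⟩⟩
    | cons b S₂ => exact ⟨a, b, Or.inl ⟨S', S₂ ++ w :: T, by simp⟩,
        Or.inl ⟨S', S₂ ++ [w], by simp⟩⟩

private theorem gh_triT {v w s : α} {S T : List α} (h : s ∈ T) :
    ∃ A B, Tri3 v (S ++ w :: T) A s B ∧ Tri3 v (w :: T) A s B := by
  obtain ⟨T₁, T₂, rfl⟩ := List.append_of_mem h
  rcases List.eq_nil_or_concat T₁ with rfl | ⟨T', a, h1⟩
  · cases T₂ with
    | nil => exact ⟨w, v, Or.inr (Or.inr (Or.inl ⟨S, by simp, rfl⟩)),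
        Or.inr (Or.inr (Or.inl ⟨[], by simp, rfl⟩))⟩
    | cons b T₂ => exact ⟨w, b, Or.inl ⟨S, T₂, by simp⟩, Or.inl ⟨[], T₂, by simp⟩⟩
  · rw [List.concat_eq_append] at h1
    subst h1
    cases T₂ with
    | nil => exact ⟨a, v, Or.inr (Or.inr (Or.inl ⟨S ++ w :: T', by simp, rfl⟩)),
        Or.inr (Or.inr (Or.inl ⟨w :: T', by simp, rfl⟩))⟩
    | cons b T₂ => exact ⟨a, b, Or.inl ⟨S ++ w :: T', T₂, by simp⟩,
        Or.inl ⟨w :: T', T₂, by simp⟩⟩

/-- one of three different points of `v, w, R` lies in `R` -/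
private theorem gh_pick {Q : α → Prop} {v w : α} {R : List α} {L : List α}
    (hL : ∀ t ∈ L, t = v ∨ t = w ∨ t ∈ R)
    (h : ∃ a b c, a ≠ b ∧ b ≠ c ∧ a ≠ c ∧ (a ∈ L ∧ Q a) ∧ (b ∈ L ∧ Q b) ∧ (c ∈ L ∧ Q c)) :
    ∃ s ∈ R, Q s := by
  obtain ⟨a, b, c, h1, h2, h3, ⟨h4, k1⟩, ⟨h5, k2⟩, ⟨h6, k3⟩⟩ := h
  rcases hL a h4 with rfl | rfl | h7
  · rcases hL b h5 with h8 | rfl | h8
    · exact absurd h8.symm h1
    · rcases hL c h6 with h9 | h9 | h9
      · exact absurd h9.symm h3
      · exact absurd h9.symm h2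
      · exact ⟨c, h9, k3⟩
    · exact ⟨b, h8, k2⟩
  · rcases hL b h5 with rfl | h8 | h8
    · rcases hL c h6 with h9 | h9 | h9
      · exact absurd h9.symm h2
      · exact absurd h9.symm h3
      · exact ⟨c, h9, k3⟩
    · exact absurd h8.symm h1
    · exact ⟨b, h8, k2⟩
  · exact ⟨a, h7, k1⟩

/-- three convex vertices: there is no chord `v w` on the left such that the vertices between
`v` and `w` are right turns -/
theorem tc (hgp : GP p) {v w A B : α} {S T : List α} (hs : Sim p v (S ++ w :: T))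
    (hpos : Pos p v (S ++ w :: T)) (hS : S ≠ []) (hT : T ≠ [])
    (hv : Vis p (Ed (cyc v (S ++ w :: T))) v w) (h1 : Tri3 v (S ++ w :: T) A v B)
    (hl : Lf p A v B w)
    (hr : ∀ A g B, Tri3 v (S ++ w :: T) A g B → g ∈ S → o p A g B < 0) : False := by
  obtain ⟨hs1, -⟩ := split_sim hs hS hT hv
  have hout := split_out1 hgp hs hS hT hv h1 hl
  -- a supported vertex of the part in `S`
  obtain ⟨a, b, c, e1, e2, e3, e4, e5, e6⟩ := ext_three hgp (L := v :: (S ++ [w])) hs1.nodup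
    (by have := hs1.len; simp only [List.length_cons]; omega)
  obtain ⟨s, hs2, hs3⟩ := gh_pick (Q := Ext1 p (v :: (S ++ [w]))) (v := v) (w := w) (R := S)
    (L := v :: (S ++ [w])) (by
      intro t ht
      simp only [List.mem_cons, List.mem_append, List.not_mem_nil, or_false] at ht
      tauto) ⟨a, b, c, e1, e2, e3, ⟨e4.1, e4⟩, ⟨e5.1, e5⟩, ⟨e6.1, e6⟩⟩
  obtain ⟨A₁, B₁, f1, f2⟩ := gh_triS (v := v) (w := w) (T := T) hs2
  have hneg := neg_of_one hgp hs1 f2 hs3 (hr A₁ s B₁ f1 hs2)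
  -- a supported vertex of the whole polygon in `S`
  obtain ⟨a', b', c', e1', e2', e3', e4', e5', e6'⟩ := ext_three hgp
    (L := v :: (S ++ w :: T)) hs.nodup
    (by have := hs.len; simp only [List.length_cons]; omega)
  have hnd := hs.nodup
  have hTn : ∀ t ∈ T, ¬ Ext1 p (v :: (S ++ w :: T)) t := by
    intro t ht h2
    have h3 : t ∉ v :: (S ++ [w]) := by
      have h5 : v :: (S ++ w :: T) = (v :: (S ++ [w])) ++ T := by simp
      rw [h5, List.nodup_append] at hnd
      intro h6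
      exact hnd.2.2 t h6 t ht rfl
    have h4 : Ext1 p (t :: v :: (S ++ [w])) t := by
      refine gh_ext_mono ?_ (by simp) h2
      intro x hx
      simp only [List.mem_cons, List.mem_append, List.not_mem_nil, or_false] at hx ⊢
      rcases hx with rfl | hx | hx | hx
      · exact Or.inr (Or.inr (Or.inr ht))
      · exact Or.inl hx
      · exact Or.inr (Or.inl hx)
      · exact Or.inr (Or.inr (Or.inl hx))
    have h5 := lam_ext_neg hgp hs1 hneg h4 h3
    rw [hout t ht] at h5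
    exact absurd h5 (by decide)
  obtain ⟨s', hs2', hs3'⟩ := gh_pick (Q := Ext1 p (v :: (S ++ w :: T))) (v := v) (w := w)
    (R := S) (L := v :: (S ++ [w])) (by
      intro t ht
      simp only [List.mem_cons, List.mem_append, List.not_mem_nil, or_false] at ht
      tauto) ⟨a', b', c', e1', e2', e3', by
        refine ⟨?_, e4'⟩
        have h7 := e4'.1
        have h8 := hTn a'
        simp only [List.mem_cons, List.mem_append, List.not_mem_nil, or_false] at h7 ⊢
        tauto, by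
        refine ⟨?_, e5'⟩
        have h7 := e5'.1
        have h8 := hTn b'
        simp only [List.mem_cons, List.mem_append, List.not_mem_nil, or_false] at h7 ⊢
        tauto, by
        refine ⟨?_, e6'⟩
        have h7 := e6'.1
        have h8 := hTn c'
        simp only [List.mem_cons, List.mem_append, List.not_mem_nil, or_false] at h7 ⊢
        tauto⟩
  obtain ⟨A₂, B₂, g1, -⟩ := gh_triS (v := v) (w := w) (T := T) hs2'
  have k1 := hr A₂ s' B₂ g1 hs2'
  have k2 := hpos A₂ s' B₂ g1 hs3'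
  linarith

theorem tc' (hgp : GP p) {v w A B : α} {S T : List α} (hs : Sim p v (S ++ w :: T))
    (hpos : Pos p v (S ++ w :: T)) (hS : S ≠ []) (hT : T ≠ [])
    (hv : Vis p (Ed (cyc v (S ++ w :: T))) v w) (h1 : Tri3 v (S ++ w :: T) A v B)
    (hl : Lf p A v B w)
    (hr : ∀ A g B, Tri3 v (S ++ w :: T) A g B → g ∈ T → o p A g B < 0) : False := by
  obtain ⟨-, hs1⟩ := split_sim hs hS hT hv
  have hout := split_out2 hgp hs hS hT hv h1 hl
  obtain ⟨a, b, c, e1, e2, e3, e4, e5, e6⟩ := ext_three hgp (L := v :: (w :: T)) hs1.nodup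
    (by have := hs1.len; simp only [List.length_cons] at this ⊢; omega)
  obtain ⟨s, hs2, hs3⟩ := gh_pick (Q := Ext1 p (v :: (w :: T))) (v := v) (w := w) (R := T)
    (L := v :: (w :: T)) (by
      intro t ht
      simp only [List.mem_cons] at ht
      tauto) ⟨a, b, c, e1, e2, e3, ⟨e4.1, e4⟩, ⟨e5.1, e5⟩, ⟨e6.1, e6⟩⟩
  obtain ⟨A₁, B₁, f1, f2⟩ := gh_triT (v := v) (w := w) (S := S) hs2
  have hneg := neg_of_one hgp hs1 f2 hs3 (hr A₁ s B₁ f1 hs2)
  obtain ⟨a', b', c', e1', e2', e3', e4', e5', e6'⟩ := ext_three hgp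
    (L := v :: (S ++ w :: T)) hs.nodup
    (by have := hs.len; simp only [List.length_cons]; omega)
  have hnd := hs.nodup
  have hSn : ∀ t ∈ S, ¬ Ext1 p (v :: (S ++ w :: T)) t := by
    intro t ht h2
    have h3 : t ∉ v :: (w :: T) := by
      rw [List.nodup_cons, List.nodup_append] at hnd
      intro h6
      rcases List.mem_cons.1 h6 with rfl | h6
      · exact hnd.1 (by simp [ht])
      · exact hnd.2.2.2 t ht t h6 rfl
    have h4 : Ext1 p (t :: v :: (w :: T)) t := by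
      refine gh_ext_mono ?_ (by simp) h2
      intro x hx
      simp only [List.mem_cons, List.mem_append] at hx ⊢
      rcases hx with rfl | hx | hx | hx
      · exact Or.inr (Or.inl ht)
      · exact Or.inl hx
      · exact Or.inr (Or.inr (Or.inl hx))
      · exact Or.inr (Or.inr (Or.inr hx))
    have h5 := lam_ext_neg hgp hs1 hneg h4 h3
    rw [hout t ht] at h5
    exact absurd h5 (by decide)
  obtain ⟨s', hs2', hs3'⟩ := gh_pick (Q := Ext1 p (v :: (S ++ w :: T))) (v := v) (w := w)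
    (R := T) (L := v :: (w :: T)) (by
      intro t ht
      simp only [List.mem_cons] at ht
      tauto) ⟨a', b', c', e1', e2', e3', by
        refine ⟨?_, e4'⟩
        have h7 := e4'.1
        have h8 := hSn a'
        simp only [List.mem_cons, List.mem_append] at h7 ⊢
        tauto, by
        refine ⟨?_, e5'⟩
        have h7 := e5'.1
        have h8 := hSn b'
        simp only [List.mem_cons, List.mem_append] at h7 ⊢
        tauto, by
        refine ⟨?_, e6'⟩
        have h7 := e6'.1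
        have h8 := hSn c'
        simp only [List.mem_cons, List.mem_append] at h7 ⊢
        tauto⟩
  obtain ⟨A₂, B₂, g1, -⟩ := gh_triT (v := v) (w := w) (S := S) hs2'
  have k1 := hr A₂ s' B₂ g1 hs2'
  have k2 := hpos A₂ s' B₂ g1 hs3'
  linarith

end FPW
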