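import Pool.Agent.Lib.MP_deef39_co_Ord.GLf
import Pool.Agent.Lib.MP_deef39_co_Ord.GCyc

/-! # Ord module GLam2: the orientation aware side of a point, independence of the base -/

set_option autoImplicit false

namespace FPW

variable {α : Type*} {p : α → ℝ × ℝ}

private theorem lam_form {P : List α} (hl : 2 ≤ P.length) :
    ∃ (B : α) (T : List α) (A : α), P = B :: (T ++ [A]) := by
  match P, hl with
  | B :: C :: l, _ =>
    refine ⟨B, (C :: l).dropLast, (C :: l).getLast (List.cons_ne_nil C l), ?_⟩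
    rw [List.dropLast_append_getLast]

private theorem lam_eq {v A B z : α} {T : List α} :
    Lam p v (B :: (T ++ [A])) z =
      xc p v z (cyc v (B :: (T ++ [A]))) + b2 (Lf p A v B z) := by
  have h : (∃ A' B', (B :: (T ++ [A])).head? = some B' ∧
      (B :: (T ++ [A])).getLast? = some A' ∧ Lf p A' v B' z) ↔ Lf p A v B z := by
    have hl : (B :: (T ++ [A])).getLast? = some A := by
      have h2 : B :: (T ++ [A]) = (B :: T) ++ [A] := rfl
      rw [h2, List.getLast?_concat]
    rw [hl]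
    simp only [List.head?_cons, Option.some.injEq]
    constructor
    · rintro ⟨A', B', h1, h2, h3⟩
      rw [h1, h2]
      exact h3
    · intro h3
      exact ⟨A, B, rfl, rfl, h3⟩
  unfold Lam
  rw [b2_congr h]

private theorem lam_add_self (x : ZMod 2) : x + x = 0 := CharTwo.add_self_eq_zero x

theorem lam_pair (hgp : GP p) {v : α} {P : List α} (hs : Sim p v P) {z w : α}
    (hz : z ∉ v :: P) (hw : w ∉ v :: P) :
    Lam p v P z + Lam p v P w = xc p z w (cyc v P) := by
  by_cases hzw : z = w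
  · subst hzw
    rw [xc_self]
    exact lam_add_self _
  obtain ⟨B, T, A, rfl⟩ := lam_form hs.len
  have hn := hs.nodup
  have hvP : v ∉ B :: (T ++ [A]) := (List.nodup_cons.1 hn).1
  have hn2 := (List.nodup_cons.1 hn).2
  have hAB : A ≠ B := by
    rintro rfl
    exact (List.nodup_cons.1 hn2).1 (by simp)
  have hvA : v ≠ A := fun h => hvP (by simp [h])
  have hvB : v ≠ B := fun h => hvP (by simp [h])
  have hz3 : v ≠ z ∧ A ≠ z ∧ B ≠ z :=
    ⟨fun h => hz (by simp [h]), fun h => hz (by simp [h]), fun h => hz (by simp [h])⟩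
  have hw3 : v ≠ w ∧ A ≠ w ∧ B ≠ w :=
    ⟨fun h => hw (by simp [h]), fun h => hw (by simp [h]), fun h => hw (by simp [h])⟩
  have h1 := xc_vert hgp (a := B) (l := T ++ [A]) (b := A) hz3.1 hw3.1 hzw hvP
    (fun h => hz (List.mem_cons_of_mem _ h)) (fun h => hw (List.mem_cons_of_mem _ h))
    (by
      have h2 : B :: (T ++ [A]) = (B :: T) ++ [A] := rfl
      simp)
  have h2 := lf_pair hgp hAB hvA hvB hz3 hw3 hzw
  rw [lam_eq, lam_eq]
  have e : cyc v (B :: (T ++ [A])) = v :: (B :: (T ++ [A]) ++ [v]) := rfl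
  rw [e]
  have h3 := lam_add_self (xc p z w (v :: (B :: (T ++ [A]) ++ [v])))
  have h4 := lam_add_self (b2 (Cone p v z w A) + b2 (Cone p v z w B))
  linear_combination h1 + h2 + h4 - h3

/-- rotation by one step -/
private theorem lam_step (hgp : GP p) {g g' : α} {M : List α} (hs : Sim p g (g' :: M)) {z : α}
    (hz : z ∉ g :: g' :: M) : Lam p g (g' :: M) z = Lam p g' (M ++ [g]) z := by
  match M, hs, hz with
  | h :: l, hs, hz =>
  obtain ⟨m, f, hm⟩ : ∃ m f, h :: l = m ++ [f] :=
    ⟨(h :: l).dropLast, (h :: l).getLast (List.cons_ne_nil h l),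
      (List.dropLast_append_getLast _).symm⟩
  have hf : (h :: l).getLast (List.cons_ne_nil h l) = f := by
    simp only [hm]
    simp
  have hfm : f ∈ h :: l := by
    rw [hm]
    simp
  have hn := hs.nodup
  have hn1 := (List.nodup_cons.1 hn).1
  have hn2 := (List.nodup_cons.1 (List.nodup_cons.1 hn).2).1
  have hgg : g ≠ g' := fun e => hn1 (by simp [e])
  have hgM : g ∉ h :: l := fun e => hn1 (List.mem_cons_of_mem _ e)
  have hzM : z ∉ h :: l := fun e => hz (List.mem_cons_of_mem _ (List.mem_cons_of_mem _ e))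
  have hzg : g ≠ z := fun e => hz (by simp [e])
  have hzg' : g' ≠ z := fun e => hz (by simp [e])
  have hgh : g ≠ h := fun e => hgM (by simp [e])
  have hgh' : g' ≠ h := fun e => hn2 (by simp [e])
  have hzh : h ≠ z := fun e => hzM (by simp [e])
  have hgf : g ≠ f := fun e => hgM (e ▸ hfm)
  have hgf' : g' ≠ f := fun e => hn2 (e ▸ hfm)
  have hzf : f ≠ z := fun e => hzM (e ▸ hfm)
  have e1 : Lam p g (g' :: h :: l) z = xc p g z (cyc g (g' :: h :: l)) + b2 (Lf p f g g' z) := by
    rw [hm, lam_eq]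
  have e2 : Lam p g' (h :: l ++ [g]) z =
      xc p g' z (cyc g' (h :: l ++ [g])) + b2 (Lf p g g' h z) := by
    have : h :: l ++ [g] = h :: (l ++ [g]) := rfl
    rw [this, lam_eq]
  have e3 : xc p g' z (cyc g' (h :: l ++ [g])) = xc p g' z (cyc g (g' :: h :: l)) := by
    have a1 : cyc g (g' :: h :: l) = g :: ([] ++ g' :: (h :: l) ++ [g]) := by simp [cyc]
    have a2 : cyc g' (h :: l ++ [g]) = g' :: ((h :: l) ++ g :: [] ++ [g']) := by simp [cyc]
    rw [a1, a2, xc_rot]
  have e4 : ∀ s t : α, xc p s t (cyc g (g' :: h :: l)) =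
      b2 (X p s t g g') + (b2 (X p s t g' h) + (xc p s t (h :: l) + b2 (X p s t f g))) := by
    intro s t
    have a1 : cyc g (g' :: h :: l) = g :: g' :: h :: (l ++ [g]) := by simp [cyc]
    have a2 : h :: (l ++ [g]) = m ++ [f, g] := by
      have a3 : h :: (l ++ [g]) = (h :: l) ++ [g] := rfl
      rw [a3, hm]
      simp
    rw [a1, xc_cons2, xc_cons2, a2, xc_snoc, ← hm]
  have h5 : xc p g g' (h :: l) = 0 := by
    refine xc_vis ?_
    intro c d hcd
    have a1 : Ed (cyc g (g' :: h :: l)) g g' := Or.inl ⟨rfl, rfl⟩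
    refine hs.plane g g' c d a1 ?_
    have a2 : Ed ((h :: l) ++ [g]) c d := by
      have a3 : (h :: l) ++ [g] = m ++ [f, g] := by
        rw [hm]
        simp
      rw [a3]
      exact (ed_snoc2.2 (Or.inl (hm ▸ hcd)))
    exact Or.inr (Or.inr (Or.inr (Or.inr a2)))
  have h6 := xc_tri hgp hgg hzg' hzg h l hgM hn2 hzM
  rw [hf, h5, xc_comm (s := z)] at h6
  have c1 := cone_par hgp hgg.symm hzg' hzg (a := h) ⟨hgh', hgh, hzh.symm⟩
  have c2 := cone_par hgp hgg hzg hzg' (a := f) ⟨hgf, hgf', hzf.symm⟩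
  have l1 := lf_next hgp (A := f) (g := g) (B := g') (z := z) hgf'.symm hgf hgg
    ⟨hzg, hzf, hzg'⟩
  have l2 := lf_prev hgp (A := g) (g := g') (B := h) (z := z) hgh hgg.symm hgh'
    ⟨hzg', hzg, hzh⟩
  have i1 : InTri p g' g z h ↔ InTri p g g' z h := by
    unfold InTri
    rw [o_swap p g g' h, o_swap p g z h, o_swap p g' z h]
    simp only [Left.neg_pos_iff, Left.neg_neg_iff]
    tauto
  rw [e1, e2, e3, e4, e4, b2_false (P := X p g z g g') not_X_of_eq1,
    b2_false (P := X p g z f g) not_X_of_eq2, b2_false (P := X p g' z g g') not_X_of_eq2,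
    b2_false (P := X p g' z g' h) not_X_of_eq1, l1, l2]
  rw [b2_congr i1] at c1
  rw [b2_congr (X_sw2 (p := p) (a := g') (b := z) (c := g) (d := f))] at c2
  have d1 := lam_add_self (xc p g' z (h :: l))
  have d4 := lam_add_self (b2 (InTri p g g' z f))
  linear_combination h6 + c1 - c2 - d1 + d4

theorem lam_rot (hgp : GP p) {v w : α} {S T : List α} (hs : Sim p v (S ++ w :: T)) {z : α}
    (hz : z ∉ v :: (S ++ w :: T)) : Lam p w (T ++ v :: S) z = Lam p v (S ++ w :: T) z := by
  induction S generalizing v T with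
  | nil => exact (lam_step hgp hs hz).symm
  | cons a S ih =>
    have h1 : Sim p a (S ++ w :: T ++ [v]) := sim_rot1 hs
    have h2 := lam_step hgp (g := v) (g' := a) (M := S ++ w :: T) hs hz
    have e : S ++ w :: T ++ [v] = S ++ w :: (T ++ [v]) := by simp
    rw [e] at h1 h2
    have h3 := ih h1 (by
      intro h
      apply hz
      simp only [List.mem_cons, List.mem_append, List.not_mem_nil, or_false,
        List.cons_append] at h ⊢
      tauto)
    have e2 : T ++ [v] ++ a :: S = T ++ v :: a :: S := by simp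
    rw [e2] at h3
    rw [h3]
    exact h2.symm

theorem lam_at (hgp : GP p) {v : α} {P : List α} (hs : Sim p v P) {A g B z : α}
    (h : Tri3 v P A g B) (hz : z ∉ v :: P) :
    Lam p v P z = xc p g z (cyc v P) + b2 (Lf p A g B z) := by
  rcases h with ⟨S, T, rfl⟩ | ⟨T, rfl, rfl⟩ | ⟨S, rfl, rfl⟩ | ⟨rfl, hB, hA⟩
  · have e : S ++ A :: g :: B :: T = (S ++ [A]) ++ g :: (B :: T) := by simp
    rw [e] at hs hz ⊢
    rw [← lam_rot hgp hs hz]
    have e2 : B :: T ++ v :: (S ++ [A]) = B :: ((T ++ v :: S) ++ [A]) := by simp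
    rw [e2, lam_eq]
    have e3 : cyc g (B :: ((T ++ v :: S) ++ [A])) =
        g :: (B :: T ++ v :: (S ++ [A]) ++ [g]) := by simp [cyc]
    have e4 : cyc v ((S ++ [A]) ++ g :: (B :: T)) =
        v :: ((S ++ [A]) ++ g :: (B :: T) ++ [v]) := rfl
    rw [e3, e4, xc_rot]
  · have e : g :: B :: T = [] ++ g :: (B :: T) := by simp
    rw [e] at hs hz ⊢
    rw [← lam_rot hgp hs hz]
    have e2 : B :: T ++ [A] = B :: (T ++ [A]) := rfl
    rw [e2, lam_eq]
    have e3 : cyc g (B :: (T ++ [A])) = g :: (B :: T ++ A :: [] ++ [g]) := by simp [cyc]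
    have e4 : cyc A ([] ++ g :: (B :: T)) = A :: ([] ++ g :: (B :: T) ++ [A]) := rfl
    rw [e3, e4, xc_rot]
  · have e : S ++ [A, g] = (S ++ [A]) ++ g :: [] := by simp
    rw [e] at hs hz ⊢
    rw [← lam_rot hgp hs hz]
    have e2 : [] ++ B :: (S ++ [A]) = B :: (S ++ [A]) := rfl
    rw [e2, lam_eq]
    have e3 : cyc g (B :: (S ++ [A])) = g :: ([] ++ B :: (S ++ [A]) ++ [g]) := by simp [cyc]
    have e4 : cyc B ((S ++ [A]) ++ g :: []) = B :: ((S ++ [A]) ++ g :: [] ++ [B]) := rfl
    rw [e3, e4, xc_rot]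
  · obtain ⟨B', T, A', rfl⟩ := lam_form hs.len
    rw [lam_eq]
    have hl : (B' :: (T ++ [A'])).getLast? = some A' := by
      have h2 : B' :: (T ++ [A']) = (B' :: T) ++ [A'] := rfl
      rw [h2, List.getLast?_concat]
    rw [hl] at hA
    simp only [List.head?_cons, Option.some.injEq] at hA hB
    rw [hA, hB]

theorem lam_vis (hgp : GP p) {v : α} {P : List α} (hs : Sim p v P) {A g B z : α}
    (h : Tri3 v P A g B) (hz : z ∉ v :: P) (hv : Vis p (Ed (cyc v P)) g z) :
    Lam p v P z = b2 (Lf p A g B z) := by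
  rw [lam_at hgp hs h hz, xc_vis hv, zero_add]

theorem lam_same (hgp : GP p) {v : α} {P : List α} (hs : Sim p v P) {z w : α}
    (hz : z ∉ v :: P) (hw : w ∉ v :: P) (hv : Vis p (Ed (cyc v P)) z w) :
    Lam p v P z = Lam p v P w := by
  have h := lam_pair hgp hs hz hw
  rw [xc_vis hv] at h
  have h2 := lam_add_self (Lam p v P w)
  linear_combination h - h2

end FPW
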