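import Pool.Agent.Lib.MP_deef39_co_Ord.GDef

/-! # Ord module GLf: sector algebra at a vertex

The left sector `Lf p A g B z` is the majority of three signs; with the three term relation for
four directions at `g` all statements of this file are finite checks with booleans.
-/

set_option autoImplicit false

namespace FPW

variable {α : Type*} {p : α → ℝ × ℝ}

/-- sign of a nonzero real as a boolean -/
private noncomputable def sg (x : ℝ) : Bool := decide (0 < x)

private theorem sg_true {x : ℝ} : sg x = true ↔ 0 < x := by simp [sg]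

private theorem sg_false {x : ℝ} (h : x ≠ 0) : sg x = false ↔ x < 0 := by
  simp only [sg, decide_eq_false_iff_not, not_lt]
  exact ⟨fun h1 => lt_of_le_of_ne h1 h, fun h1 => h1.le⟩

private theorem pos_iff {x : ℝ} : 0 < x ↔ sg x = true := sg_true.symm

private theorem pos_neg_iff {x y : ℝ} (h : y ≠ 0) (e : x = -y) : 0 < x ↔ (!sg y) = true := by
  rw [e, Left.neg_pos_iff, Bool.not_eq_true', sg_false h]

private theorem neg_iff {x : ℝ} (h : x ≠ 0) : x < 0 ↔ (!sg x) = true := by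
  rw [Bool.not_eq_true', sg_false h]

private theorem neg_neg_iff' {x y : ℝ} (e : x = -y) : x < 0 ↔ sg y = true := by
  rw [e, Left.neg_neg_iff, sg_true]

/-- the left sector as a boolean: majority of `sg (o g B z)`, `!sg (o g A z)`, `sg (o g A B)` -/
private theorem lf_bool {A g B z : α} (h : o p g A z ≠ 0) :
    Lf p A g B z ↔ ((sg (o p g B z) && !sg (o p g A z)) ||
      ((!sg (o p g A z) && sg (o p g A B)) || (sg (o p g A B) && sg (o p g B z)))) = true := by
  unfold Lf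
  rw [pos_neg_iff h (o_swap' p g A z), pos_iff (x := o p g B z), pos_iff (x := o p g A B),
    Bool.or_eq_true, Bool.or_eq_true, Bool.and_eq_true, Bool.and_eq_true, Bool.and_eq_true]

/-- the cone as a boolean -/
private theorem cone_bool {w s t a : α} (h1 : o p w s t ≠ 0) (h2 : o p w s a ≠ 0)
    (h3 : o p w a t ≠ 0) :
    Cone p w s t a ↔ ((sg (o p w s t) && (sg (o p w s a) && sg (o p w a t))) ||
      (!sg (o p w s t) && (!sg (o p w s a) && !sg (o p w a t)))) = true := by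
  unfold Cone
  rw [neg_iff h1, neg_iff h2, neg_iff h3, pos_iff (x := o p w s t), pos_iff (x := o p w s a),
    pos_iff (x := o p w a t), Bool.or_eq_true, Bool.and_eq_true, Bool.and_eq_true,
    Bool.and_eq_true, Bool.and_eq_true]

private theorem sg_op {x y : ℝ} (h : y ≠ 0) (e : x = -y) : sg x = !sg y := by
  have h1 := pos_neg_iff h e
  rw [pos_iff] at h1
  rcases hx : sg x with _ | _ <;> rcases hy : sg y with _ | _ <;> simp [hx, hy] at h1 ⊢

private theorem b2_four {P Q R S : Prop} {a b c d : Bool} (h1 : P ↔ a = true)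
    (h2 : Q ↔ b = true) (h3 : R ↔ c = true) (h4 : S ↔ d = true) (h : xor a b = xor c d) :
    b2 P + b2 Q = b2 R + b2 S := by
  rw [b2_congr h1, b2_congr h2, b2_congr h3, b2_congr h4]
  revert h
  cases a <;> cases b <;> cases c <;> cases d <;> simp [b2] <;> rfl

private theorem b2_three {P R S : Prop} {a c d : Bool} (h1 : P ↔ a = true)
    (h3 : R ↔ c = true) (h4 : S ↔ d = true) (h : a = xor c d) :
    b2 P = b2 R + b2 S := by
  rw [b2_congr h1, b2_congr h3, b2_congr h4]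
  revert h
  cases a <;> cases c <;> cases d <;> simp [b2] <;> rfl

private theorem pair_b : ∀ AB Az Aw Bz Bw zw : Bool,
    (((AB == zw) && ((Az != Bw) && (Aw == Bz))) || (((AB != zw) && ((Az == Bw) && (Aw != Bz))) ||
      (xor ((Bz && !Az) || ((!Az && AB) || (AB && Bz)))
        ((Bw && !Aw) || ((!Aw && AB) || (AB && Bw))) ==
        xor ((zw && (!Az && Aw)) || (!zw && (!(!Az) && !Aw)))
          ((zw && (!Bz && Bw)) || (!zw && (!(!Bz) && !Bw)))))) = true := by
  decide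

private theorem sg_mul_pos {x y : ℝ} (hx : x ≠ 0) (hy : y ≠ 0) (h : sg x = sg y) :
    0 < x * y := by
  rcases lt_or_gt_of_ne hx with h1 | h1 <;> rcases lt_or_gt_of_ne hy with h2 | h2
  · exact mul_pos_of_neg_of_neg h1 h2
  · rw [(sg_false hx).2 h1, sg_true.2 h2] at h
    exact absurd h (by decide)
  · rw [sg_true.2 h1, (sg_false hy).2 h2] at h
    exact absurd h (by decide)
  · exact mul_pos h1 h2

private theorem sg_mul_neg {x y : ℝ} (hx : x ≠ 0) (hy : y ≠ 0) (h : sg x ≠ sg y) :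
    x * y < 0 := by
  rcases lt_or_gt_of_ne hx with h1 | h1 <;> rcases lt_or_gt_of_ne hy with h2 | h2
  · rw [(sg_false hx).2 h1, (sg_false hy).2 h2] at h
    exact absurd rfl h
  · exact mul_neg_of_neg_of_pos h1 h2
  · exact mul_neg_of_pos_of_neg h1 h2
  · rw [sg_true.2 h1, sg_true.2 h2] at h
    exact absurd rfl h

theorem lf_pair (hgp : GP p) {A g B z w : α} (hAB : A ≠ B) (hA : g ≠ A) (hB : g ≠ B)
    (hz : g ≠ z ∧ A ≠ z ∧ B ≠ z) (hw : g ≠ w ∧ A ≠ w ∧ B ≠ w) (hzw : z ≠ w) :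
    b2 (Lf p A g B z) + b2 (Lf p A g B w) = b2 (Cone p g z w A) + b2 (Cone p g z w B) := by
  have nAB : o p g A B ≠ 0 := hgp.ne g A B hA hAB hB
  have nAz : o p g A z ≠ 0 := hgp.ne g A z hA hz.2.1 hz.1
  have nAw : o p g A w ≠ 0 := hgp.ne g A w hA hw.2.1 hw.1
  have nBz : o p g B z ≠ 0 := hgp.ne g B z hB hz.2.2 hz.1
  have nBw : o p g B w ≠ 0 := hgp.ne g B w hB hw.2.2 hw.1
  have nzw : o p g z w ≠ 0 := hgp.ne g z w hz.1 hzw hw.1
  have nzA : o p g z A ≠ 0 := hgp.ne g z A hz.1 hz.2.1.symm hA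
  have nzB : o p g z B ≠ 0 := hgp.ne g z B hz.1 hz.2.2.symm hB
  have rel : o p g A B * o p g z w - o p g A z * o p g B w + o p g A w * o p g B z = 0 := by
    unfold o
    ring
  have key := pair_b (sg (o p g A B)) (sg (o p g A z)) (sg (o p g A w)) (sg (o p g B z))
    (sg (o p g B w)) (sg (o p g z w))
  have e1 : sg (o p g z A) = !sg (o p g A z) := sg_op nAz (o_swap' p g A z)
  have e2 : sg (o p g z B) = !sg (o p g B z) := sg_op nBz (o_swap' p g B z)
  refine b2_four (lf_bool nAz) (lf_bool nAw) (cone_bool nzw nzA nAw) (cone_bool nzw nzB nBw) ?_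
  rw [e1, e2]
  rw [Bool.or_eq_true, Bool.or_eq_true, beq_iff_eq] at key
  rcases key with k | k | k
  · exfalso
    rw [Bool.and_eq_true, Bool.and_eq_true, beq_iff_eq, bne_iff_ne, beq_iff_eq] at k
    have f1 := sg_mul_pos nAB nzw k.1
    have f2 := sg_mul_neg nAz nBw k.2.1
    have f3 := sg_mul_pos nAw nBz k.2.2
    linarith
  · exfalso
    rw [Bool.and_eq_true, Bool.and_eq_true, bne_iff_ne, beq_iff_eq, bne_iff_ne] at k
    have f1 := sg_mul_neg nAB nzw k.1
    have f2 := sg_mul_pos nAz nBw k.2.1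
    have f3 := sg_mul_neg nAw nBz k.2.2
    linarith
  · exact k

private theorem next_b : ∀ AB Az Bz : Bool,
    ((Bz && !Az) || ((!Az && AB) || (AB && Bz))) =
      xor Bz ((Bz && (!AB && Az)) || (!Bz && (!(!AB) && !Az))) := by
  decide

theorem lf_next (hgp : GP p) {A g B z : α} (hAB : A ≠ B) (hA : g ≠ A) (hB : g ≠ B)
    (hz : g ≠ z ∧ A ≠ z ∧ B ≠ z) :
    b2 (Lf p A g B z) = b2 (0 < o p g B z) + b2 (Cone p g B z A) := by
  have nAB : o p g A B ≠ 0 := hgp.ne g A B hA hAB hB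
  have nBA : o p g B A ≠ 0 := hgp.ne g B A hB hAB.symm hA
  have nAz : o p g A z ≠ 0 := hgp.ne g A z hA hz.2.1 hz.1
  have nBz : o p g B z ≠ 0 := hgp.ne g B z hB hz.2.2 hz.1
  have e1 : sg (o p g B A) = !sg (o p g A B) := sg_op nAB (o_swap' p g A B)
  refine b2_three (lf_bool nAz) pos_iff (cone_bool nBz nBA nAz) ?_
  rw [e1]
  exact next_b _ _ _

private theorem prev_b : ∀ AB Az Bz : Bool,
    ((Bz && !Az) || ((!Az && AB) || (AB && Bz))) =
      xor (!Az) ((Az && (AB && Bz)) || (!Az && (!AB && !Bz))) := by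
  decide

theorem lf_prev (hgp : GP p) {A g B z : α} (hAB : A ≠ B) (hA : g ≠ A) (hB : g ≠ B)
    (hz : g ≠ z ∧ A ≠ z ∧ B ≠ z) :
    b2 (Lf p A g B z) = b2 (0 < o p A g z) + b2 (Cone p g A z B) := by
  have nAB : o p g A B ≠ 0 := hgp.ne g A B hA hAB hB
  have nAz : o p g A z ≠ 0 := hgp.ne g A z hA hz.2.1 hz.1
  have nBz : o p g B z ≠ 0 := hgp.ne g B z hB hz.2.2 hz.1
  refine b2_three (lf_bool nAz) (pos_neg_iff nAz (o_swap p g A z)) (cone_bool nAz nAB nBz) ?_
  exact prev_b _ _ _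

private theorem swap1_b : ∀ AB Az Bz : Bool,
    ((Bz && !Az) || ((!Az && AB) || (AB && Bz))) =
      !((!Bz && !AB) || ((!AB && Az) || (Az && !Bz))) := by
  decide

private theorem iff_not_b {P Q : Prop} {a b : Bool} (h1 : P ↔ a = true) (h2 : Q ↔ b = true)
    (h : a = !b) : P ↔ ¬ Q := by
  rw [h1, h2, h]
  cases b <;> simp

theorem lf_swap1 (hgp : GP p) {A g B z : α} (hAB : A ≠ B) (hA : g ≠ A) (hB : g ≠ B)
    (hz : g ≠ z ∧ A ≠ z ∧ B ≠ z) : Lf p A g B z ↔ ¬ Lf p A g z B := by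
  have nAB : o p g A B ≠ 0 := hgp.ne g A B hA hAB hB
  have nAz : o p g A z ≠ 0 := hgp.ne g A z hA hz.2.1 hz.1
  have nBz : o p g B z ≠ 0 := hgp.ne g B z hB hz.2.2 hz.1
  have e1 : sg (o p g z B) = !sg (o p g B z) := sg_op nBz (o_swap' p g B z)
  refine iff_not_b (lf_bool nAz) (lf_bool nAB) ?_
  rw [e1]
  exact swap1_b _ _ _

private theorem swap2_b : ∀ AB Az Bz : Bool,
    ((Bz && !Az) || ((!Az && AB) || (AB && Bz))) =
      !((!AB && !(!Az)) || ((!(!Az) && !Bz) || (!Bz && !AB))) := by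
  decide

theorem lf_swap2 (hgp : GP p) {A g B z : α} (hAB : A ≠ B) (hA : g ≠ A) (hB : g ≠ B)
    (hz : g ≠ z ∧ A ≠ z ∧ B ≠ z) : Lf p A g B z ↔ ¬ Lf p z g B A := by
  have nAB : o p g A B ≠ 0 := hgp.ne g A B hA hAB hB
  have nAz : o p g A z ≠ 0 := hgp.ne g A z hA hz.2.1 hz.1
  have nzA : o p g z A ≠ 0 := hgp.ne g z A hz.1 hz.2.1.symm hA
  have nBz : o p g B z ≠ 0 := hgp.ne g B z hB hz.2.2 hz.1
  have e1 : sg (o p g z B) = !sg (o p g B z) := sg_op nBz (o_swap' p g B z)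
  have e2 : sg (o p g z A) = !sg (o p g A z) := sg_op nAz (o_swap' p g A z)
  have e3 : sg (o p g B A) = !sg (o p g A B) := sg_op nAB (o_swap' p g A B)
  refine iff_not_b (lf_bool nAz) (lf_bool nzA) ?_
  rw [e1, e2, e3]
  exact swap2_b _ _ _

theorem lf_left (hgp : GP p) {A g B z : α} (hAB : A ≠ B) (hA : g ≠ A) (hB : g ≠ B)
    (hz : g ≠ z ∧ A ≠ z ∧ B ≠ z) (h : 0 < o p A g B) :
    Lf p A g B z ↔ (0 < o p A g z ∧ 0 < o p g B z) := by
  have e1 := o_swap p g A B
  have e2 := o_swap p g A z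
  have e3 := o_swap' p g A z
  unfold Lf
  constructor
  · rintro (⟨h1, h2⟩ | ⟨h1, h2⟩ | ⟨h1, h2⟩)
    · exact ⟨by linarith, h1⟩
    · linarith
    · linarith
  · rintro ⟨h1, h2⟩
    exact Or.inl ⟨h2, by linarith⟩

theorem lf_right (hgp : GP p) {A g B z : α} (hAB : A ≠ B) (hA : g ≠ A) (hB : g ≠ B)
    (hz : g ≠ z ∧ A ≠ z ∧ B ≠ z) (h : o p A g B < 0) :
    Lf p A g B z ↔ (0 < o p A g z ∨ 0 < o p g B z) := by
  have e1 := o_swap p g A B
  have e2 := o_swap p g A z
  have e3 := o_swap' p g A z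
  unfold Lf
  constructor
  · rintro (⟨h1, h2⟩ | ⟨h1, h2⟩ | ⟨h1, h2⟩)
    · exact Or.inr h1
    · exact Or.inl (by linarith)
    · exact Or.inr h2
  · rintro (h1 | h1)
    · exact Or.inr (Or.inl ⟨by linarith, by linarith⟩)
    · exact Or.inr (Or.inr ⟨by linarith, h1⟩)

end FPW
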