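import Pool.Agent.Lib.MP_deef39_co_Ord.GHull

/-! # Ord module GRot: rotation of the base of a weak hull polygon -/

set_option autoImplicit false

namespace FPW

variable {α : Type*} {p : α → ℝ × ℝ}

private theorem mem_cyc_rot {v w t : α} {S T : List α} :
    t ∈ w :: (T ++ v :: S) ↔ t ∈ v :: (S ++ w :: T) := by
  simp only [List.mem_cons, List.mem_append]
  tauto

/-- rotation of the base of a weak hull polygon -/
theorem wh_rot (hgp : GP p) {St : Set (List α)} {V W : Set α} {v w : α} {S T : List α}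
    (h : WH p St V W v (S ++ w :: T)) : WH p St V W w (T ++ v :: S) where
  sim := sim_rot h.sim
  pos := pos_rot h.sim h.pos
  mem := fun t ht => h.mem t (mem_cyc_rot.1 ht)
  wsub := h.wsub
  plane := h.plane
  span := h.span
  nd := h.nd
  fen := fun a b hab => h.fen a b (ed_cyc_rot.1 hab)
  conv := fun A g B h3 => h.conv A g B ((tri3_rot h.sim.nodup h.sim.len).1 h3)
  inn := fun u hu hn => by
    rw [lam_rot hgp h.sim (fun hm => hn (mem_cyc_rot.2 hm))]
    exact h.inn u hu (fun hm => hn (mem_cyc_rot.2 hm))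
  out := fun s hs hw hn => by
    rw [lam_rot hgp h.sim (fun hm => hn (mem_cyc_rot.2 hm))]
    exact h.out s hs hw (fun hm => hn (mem_cyc_rot.2 hm))
  clo := fun l hl c d hcd hc => (h.clo l hl c d hcd hc).imp id mem_cyc_rot.2
  chord := fun l hl c d hcd hw hc hd hne A B h3 =>
    h.chord l hl c d hcd hw (mem_cyc_rot.1 hc) (mem_cyc_rot.1 hd)
      (fun he => hne (ed_cyc_rot.2 he)) A B ((tri3_rot h.sim.nodup h.sim.len).1 h3)
  schord := fun l hl c d hcd hw hw' hc hd hne A B h3 =>
    h.schord l hl c d hcd hw hw' (mem_cyc_rot.1 hc) (mem_cyc_rot.1 hd)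
      (fun he => hne (ed_cyc_rot.2 he)) A B ((tri3_rot h.sim.nodup h.sim.len).1 h3)

end FPW
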