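import Pool.Agent.Lib.MP_deef39_co_Ord.GLam2

/-! # Ord module GSplit: a chord from the base `v` to `w`

The chord splits the polygon `v, S, w, T` into `v, S, w` and `v, w, T`; the sides add up, and the
vertices of one part are not on the left of the other part.
-/

set_option autoImplicit false

namespace FPW

variable {α : Type*} {p : α → ℝ × ℝ}

/-! ### edges of the two parts -/

private theorem gs_ed1 {v w x y : α} {S T : List α} (h : Ed (cyc v (S ++ [w])) x y) :
    Ed (cyc v (S ++ w :: T)) x y ∨ (x = v ∧ y = w) ∨ (x = w ∧ y = v) := by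
  have h1 : cyc v (S ++ [w]) = (v :: S) ++ w :: [v] := by unfold cyc; simp
  have h2 : cyc v (S ++ w :: T) = (v :: S) ++ w :: (T ++ [v]) := by unfold cyc; simp
  rw [h1, ed_mid, ed_cons2] at h
  rw [h2, ed_mid]
  rcases h with h | h | h | h
  · exact Or.inl (Or.inl h)
  · exact Or.inr (Or.inr h)
  · exact Or.inr (Or.inl h)
  · exact h.elim

private theorem gs_ed2 {v w x y : α} {S T : List α} (h : Ed (cyc v (w :: T)) x y) :
    Ed (cyc v (S ++ w :: T)) x y ∨ (x = v ∧ y = w) ∨ (x = w ∧ y = v) := by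
  have h1 : cyc v (w :: T) = v :: w :: (T ++ [v]) := by unfold cyc; simp
  have h2 : cyc v (S ++ w :: T) = (v :: S) ++ w :: (T ++ [v]) := by unfold cyc; simp
  rw [h1, ed_cons2] at h
  rw [h2, ed_mid]
  rcases h with h | h | h
  · exact Or.inr (Or.inl h)
  · exact Or.inr (Or.inr h)
  · exact Or.inl (Or.inr h)

private theorem gs_edT {v w x y : α} {S T : List α} (h : Ed (w :: (T ++ [v])) x y) :
    Ed (cyc v (S ++ w :: T)) x y := by
  have h2 : cyc v (S ++ w :: T) = (v :: S) ++ w :: (T ++ [v]) := by unfold cyc; simp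
  rw [h2, ed_mid]
  exact Or.inr h

private theorem gs_edS {v w x y : α} {S T : List α} (h : Ed (v :: (S ++ [w])) x y) :
    Ed (cyc v (S ++ w :: T)) x y := by
  have h2 : cyc v (S ++ w :: T) = (v :: S) ++ w :: (T ++ [v]) := by unfold cyc; simp
  rw [h2, ed_mid]
  exact Or.inl h

private theorem gs_vis {E E' : α → α → Prop} {v w : α}
    (hE : ∀ x y, E' x y → E x y ∨ (x = v ∧ y = w) ∨ (x = w ∧ y = v)) (hp : Plane p E)
    (hv : Vis p E v w) {a b : α} (hab : E a b) : Vis p E' a b := by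
  intro c d hcd hX
  rcases hE c d hcd with h | ⟨rfl, rfl⟩ | ⟨rfl, rfl⟩
  · exact hp a b c d hab h hX
  · exact hv a b hab (X_comm.1 hX)
  · exact hv a b hab (X_sw1.1 (X_comm.1 hX))

private theorem gs_visc {E E' : α → α → Prop} {v w : α}
    (hE : ∀ x y, E' x y → E x y ∨ (x = v ∧ y = w) ∨ (x = w ∧ y = v))
    (hv : Vis p E v w) : Vis p E' v w := by
  intro c d hcd hX
  rcases hE c d hcd with h | ⟨rfl, rfl⟩ | ⟨rfl, rfl⟩
  · exact hv c d h hX
  · exact (X_ne hX).2.2.1 rfl
  · exact (X_ne hX).2.2.2.1 rfl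

private theorem gs_plane {E E' : α → α → Prop} {v w : α}
    (hE : ∀ x y, E' x y → E x y ∨ (x = v ∧ y = w) ∨ (x = w ∧ y = v)) (hp : Plane p E)
    (hv : Vis p E v w) : Plane p E' := by
  intro a b c d hab hcd
  rcases hE a b hab with h | ⟨rfl, rfl⟩ | ⟨rfl, rfl⟩
  · exact gs_vis hE hp hv h c d hcd
  · exact gs_visc hE hv c d hcd
  · exact fun hX => gs_visc hE hv c d hcd (X_sw1.1 hX)

theorem split_sim {v w : α} {S T : List α} (hs : Sim p v (S ++ w :: T)) (hS : S ≠ [])
    (hT : T ≠ []) (hv : Vis p (Ed (cyc v (S ++ w :: T))) v w) :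
    Sim p v (S ++ [w]) ∧ Sim p v (w :: T) := by
  have hn := hs.nodup
  constructor
  · refine ⟨?_, ?_, gs_plane (fun x y h => gs_ed1 h) hs.plane hv⟩
    · refine hn.sublist ?_
      refine List.Sublist.cons_cons v ?_
      refine List.Sublist.append (List.Sublist.refl S) ?_
      exact List.Sublist.cons_cons w (List.nil_sublist T)
    · cases S with
      | nil => exact absurd rfl hS
      | cons s S => simp
  · refine ⟨?_, ?_, gs_plane (fun x y h => gs_ed2 (S := S) h) hs.plane hv⟩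
    · refine hn.sublist ?_
      refine List.Sublist.cons_cons v ?_
      exact List.sublist_append_right S (w :: T)
    · cases T with
      | nil => exact absurd rfl hT
      | cons s T => simp

/-- `Lam` is constant on a path which does not meet the polygon -/
private theorem gs_const (hgp : GP p) {v : α} {P : List α} (hs : Sim p v P) :
    ∀ (m : List α) (c : α), (∀ t ∈ c :: m, t ∉ v :: P) →
    (∀ a b, Ed (c :: m) a b → Vis p (Ed (cyc v P)) a b) →
    ∀ t ∈ c :: m, Lam p v P c = Lam p v P t := by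
  intro m
  induction m with
  | nil =>
    intro c _ _ t ht
    rw [List.mem_singleton] at ht
    rw [ht]
  | cons d m ih =>
    intro c hc hE t ht
    rcases List.mem_cons.1 ht with h1 | h1
    · rw [h1]
    · have h2 := ih d (fun t ht => hc t (List.mem_cons_of_mem _ ht))
        (fun u v h => hE u v (Or.inr (Or.inr h))) t h1
      rw [← h2]
      exact lam_same hgp hs (hc c List.mem_cons_self) (hc d (by simp))
        (hE c d (Or.inl ⟨rfl, rfl⟩))

/-- the vertices of `T` are not vertices of `v, S, w` -/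
private theorem gs_notin1 {v w : α} {S T : List α} (hn : (v :: (S ++ w :: T)).Nodup) :
    ∀ t ∈ T, t ∉ v :: (S ++ [w]) := by
  intro t ht h
  have h1 : v :: (S ++ w :: T) = (v :: (S ++ [w])) ++ T := by simp
  rw [h1] at hn
  exact (List.nodup_append.1 hn).2.2 t h t ht rfl

/-- the vertices of `S` are not vertices of `v, w, T` -/
private theorem gs_notin2 {v w : α} {S T : List α} (hn : (v :: (S ++ w :: T)).Nodup) :
    ∀ t ∈ S, t ∉ v :: (w :: T) := by
  intro t ht h
  obtain ⟨h1, h2⟩ := List.nodup_cons.1 hn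
  rcases List.mem_cons.1 h with rfl | h3
  · exact h1 (by simp [ht])
  · exact (List.nodup_append.1 h2).2.2 t ht t h3 rfl

/-- head and last of the polygon -/
private theorem gs_ends {v w A B : α} {S T : List α} (hn : (v :: (S ++ w :: T)).Nodup)
    (hl : 2 ≤ (S ++ w :: T).length) (hS : S ≠ []) (hT : T ≠ [])
    (h1 : Tri3 v (S ++ w :: T) A v B) :
    (∃ S', S = B :: S') ∧ (∃ T', T = T' ++ [A]) := by
  cases S with
  | nil => exact absurd rfl hS
  | cons s S =>
    rcases List.eq_nil_or_concat T with h3 | ⟨D, z, h3⟩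
    · exact absurd h3 hT
    · rw [List.concat_eq_append] at h3
      subst h3
      have h4 : Tri3 v (s :: S ++ w :: (D ++ [z])) z v s := by
        refine Or.inr (Or.inr (Or.inr ⟨rfl, by simp, ?_⟩))
        have h5 : s :: S ++ w :: (D ++ [z]) = (s :: S ++ w :: D) ++ [z] := by simp
        rw [h5, List.getLast?_append]
        simp
      obtain ⟨h6, h7⟩ := tri3_unique hn h1 h4
      subst h6
      subst h7
      exact ⟨⟨S, rfl⟩, ⟨D, rfl⟩⟩

/-- neighbours of `w` in the polygon -/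
private theorem gs_ends2 {v w A B : α} {S T : List α} (hn : (v :: (S ++ w :: T)).Nodup)
    (hS : S ≠ []) (hT : T ≠ []) (h1 : Tri3 v (S ++ w :: T) A w B) :
    (∃ S', S = S' ++ [A]) ∧ (∃ T', T = B :: T') := by
  cases T with
  | nil => exact absurd rfl hT
  | cons t T =>
    rcases List.eq_nil_or_concat S with h3 | ⟨D, z, h3⟩
    · exact absurd h3 hS
    · rw [List.concat_eq_append] at h3
      subst h3
      have h4 : Tri3 v ((D ++ [z]) ++ w :: (t :: T)) z w t := by
        refine Or.inl ⟨D, T, by simp⟩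
      obtain ⟨h6, h7⟩ := tri3_unique hn h1 h4
      subst h6
      subst h7
      exact ⟨⟨D, rfl⟩, ⟨T, rfl⟩⟩

/-- the triple at `v` in the part `v, S, w` -/
private theorem gs_tri1 {v w B : α} {S : List α} :
    Tri3 v (B :: S ++ [w]) w v B := by
  refine Or.inr (Or.inr (Or.inr ⟨rfl, by simp, ?_⟩))
  rw [List.getLast?_append]
  simp

/-- the triple at `w` in the part `v, S, w` -/
private theorem gs_tri2 {v w A : α} {S : List α} :
    Tri3 v (S ++ [A] ++ [w]) A w v :=
  Or.inr (Or.inr (Or.inl ⟨S, by simp, rfl⟩))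

/-- the triple at `v` in the part `v, w, T` -/
private theorem gs_tri3 {v w A : α} {T : List α} :
    Tri3 v (w :: (T ++ [A])) A v w := by
  refine Or.inr (Or.inr (Or.inr ⟨rfl, by simp, ?_⟩))
  have h5 : w :: (T ++ [A]) = (w :: T) ++ [A] := by simp
  rw [h5, List.getLast?_append]
  simp

/-- `Lam` of the part `v, S, w` is constant on `T` -/
private theorem gs_same1 (hgp : GP p) {v w : α} {S T : List α}
    (hs : Sim p v (S ++ w :: T)) (hS : S ≠ []) (hT : T ≠ [])
    (hv : Vis p (Ed (cyc v (S ++ w :: T))) v w) {a b : α} (ha : a ∈ T) (hb : b ∈ T) :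
    Lam p v (S ++ [w]) a = Lam p v (S ++ [w]) b := by
  have h1 := (split_sim hs hS hT hv).1
  have hn := gs_notin1 hs.nodup
  have hE : ∀ x y, Ed T x y → Vis p (Ed (cyc v (S ++ [w]))) x y := by
    intro x y hxy
    refine gs_vis (fun x y h => gs_ed1 h) hs.plane hv ?_
    have h3 : cyc v (S ++ w :: T) = v :: (S ++ w :: (T ++ [v])) := by unfold cyc; simp
    refine gs_edT ?_
    cases T with
    | nil => exact absurd rfl hT
    | cons t T =>
      have h4 : w :: (t :: T ++ [v]) = (w :: []) ++ t :: (T ++ [v]) := by simp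
      rw [h4, ed_mid]
      right
      rcases List.eq_nil_or_concat (t :: T) with h5 | ⟨D, z, h5⟩
      · cases h5
      · rw [List.concat_eq_append] at h5
        have h6 : t :: (T ++ [v]) = (D ++ [z]) ++ [v] := by rw [← h5]; simp
        rw [h6, ed_snoc]
        left
        rw [← h5]
        exact hxy
  cases T with
  | nil => exact absurd rfl hT
  | cons t T =>
    have k := gs_const hgp h1 T t hn hE
    rw [← k a ha, ← k b hb]

/-- `Lam` of the part `v, w, T` is constant on `S` -/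
private theorem gs_same2 (hgp : GP p) {v w : α} {S T : List α}
    (hs : Sim p v (S ++ w :: T)) (hS : S ≠ []) (hT : T ≠ [])
    (hv : Vis p (Ed (cyc v (S ++ w :: T))) v w) {a b : α} (ha : a ∈ S) (hb : b ∈ S) :
    Lam p v (w :: T) a = Lam p v (w :: T) b := by
  have h1 := (split_sim hs hS hT hv).2
  have hn := gs_notin2 hs.nodup
  have hE : ∀ x y, Ed S x y → Vis p (Ed (cyc v (w :: T))) x y := by
    intro x y hxy
    refine gs_vis (fun x y h => gs_ed2 (S := S) h) hs.plane hv ?_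
    refine gs_edS ?_
    cases S with
    | nil => exact absurd rfl hS
    | cons t S =>
      have h4 : v :: (t :: S ++ [w]) = (v :: []) ++ t :: (S ++ [w]) := by simp
      rw [h4, ed_mid]
      right
      rcases List.eq_nil_or_concat (t :: S) with h5 | ⟨D, z, h5⟩
      · cases h5
      · rw [List.concat_eq_append] at h5
        have h6 : t :: (S ++ [w]) = (D ++ [z]) ++ [w] := by rw [← h5]; simp
        rw [h6, ed_snoc]
        left
        rw [← h5]
        exact hxy
  cases S with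
  | nil => exact absurd rfl hS
  | cons t S =>
    have k := gs_const hgp h1 S t hn hE
    rw [← k a ha, ← k b hb]

/-- side of the last vertex with respect to the part `v, S, w` -/
private theorem gs_last (hgp : GP p) {v w A B : α} {S T : List α}
    (hs : Sim p v (S ++ w :: T)) (hS : S ≠ []) (hT : T ≠ [])
    (hv : Vis p (Ed (cyc v (S ++ w :: T))) v w) (h1 : Tri3 v (S ++ w :: T) A v B) :
    A ∈ T ∧ Lam p v (S ++ [w]) A = b2 (Lf p w v B A) := by
  obtain ⟨⟨S', rfl⟩, ⟨T', rfl⟩⟩ := gs_ends hs.nodup hs.len hS hT h1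
  have hA : A ∈ T' ++ [A] := by simp
  refine ⟨hA, ?_⟩
  refine lam_vis hgp (split_sim hs hS hT hv).1 gs_tri1 (gs_notin1 hs.nodup A hA) ?_
  exact gs_vis (fun x y h => gs_ed1 h) hs.plane hv (ed_symm (tri3_ed h1).1)

/-- side of the first vertex of `T` with respect to the part `v, S, w` -/
private theorem gs_first (hgp : GP p) {v w A B : α} {S T : List α}
    (hs : Sim p v (S ++ w :: T)) (hS : S ≠ []) (hT : T ≠ [])
    (hv : Vis p (Ed (cyc v (S ++ w :: T))) v w) (h1 : Tri3 v (S ++ w :: T) A w B) :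
    B ∈ T ∧ Lam p v (S ++ [w]) B = b2 (Lf p A w v B) := by
  obtain ⟨⟨S', rfl⟩, ⟨T', rfl⟩⟩ := gs_ends2 hs.nodup hS hT h1
  have hB : B ∈ B :: T' := by simp
  refine ⟨hB, ?_⟩
  refine lam_vis hgp (split_sim hs hS hT hv).1 gs_tri2 (gs_notin1 hs.nodup B hB) ?_
  exact gs_vis (fun x y h => gs_ed1 h) hs.plane hv (tri3_ed h1).2

/-- side of the first vertex of `S` with respect to the part `v, w, T` -/
private theorem gs_head (hgp : GP p) {v w A B : α} {S T : List α}
    (hs : Sim p v (S ++ w :: T)) (hS : S ≠ []) (hT : T ≠ [])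
    (hv : Vis p (Ed (cyc v (S ++ w :: T))) v w) (h1 : Tri3 v (S ++ w :: T) A v B) :
    B ∈ S ∧ Lam p v (w :: T) B = b2 (Lf p A v w B) := by
  obtain ⟨⟨S', rfl⟩, ⟨T', rfl⟩⟩ := gs_ends hs.nodup hs.len hS hT h1
  have hB : B ∈ B :: S' := by simp
  refine ⟨hB, ?_⟩
  refine lam_vis hgp (split_sim hs hS hT hv).2 gs_tri3 (gs_notin2 hs.nodup B hB) ?_
  exact gs_vis (fun x y h => gs_ed2 h) hs.plane hv (tri3_ed h1).2

/-- distinctness at `v` -/
private theorem gs_neV {v w A B : α} {S T : List α}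
    (hs : Sim p v (S ++ w :: T)) (hS : S ≠ []) (hT : T ≠ [])
    (h1 : Tri3 v (S ++ w :: T) A v B) :
    A ≠ B ∧ v ≠ A ∧ v ≠ B ∧ v ≠ w ∧ A ≠ w ∧ B ≠ w := by
  obtain ⟨h2, h3, h4, -⟩ := tri3_ne hs.nodup hs.len h1
  have hn := hs.nodup
  obtain ⟨⟨S', rfl⟩, ⟨T', rfl⟩⟩ := gs_ends hs.nodup hs.len hS hT h1
  have k1 := gs_notin1 hn A (by simp)
  have k2 := gs_notin2 hn B (by simp)
  refine ⟨h2, h3, h4, ?_, ?_, ?_⟩
  · rintro rfl
    exact (List.nodup_cons.1 hn).1 (by simp)
  · rintro rfl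
    exact k1 (by simp)
  · rintro rfl
    exact k2 (by simp)

/-- distinctness at `w` -/
private theorem gs_neW {v w A B : α} {S T : List α}
    (hs : Sim p v (S ++ w :: T)) (hS : S ≠ []) (hT : T ≠ [])
    (h1 : Tri3 v (S ++ w :: T) A w B) :
    A ≠ B ∧ w ≠ A ∧ w ≠ B ∧ w ≠ v ∧ A ≠ v ∧ B ≠ v := by
  obtain ⟨h2, h3, h4, -⟩ := tri3_ne hs.nodup hs.len h1
  have hn := hs.nodup
  obtain ⟨⟨S', rfl⟩, ⟨T', rfl⟩⟩ := gs_ends2 hs.nodup hS hT h1
  have k1 := gs_notin1 hn B (by simp)
  have k2 := gs_notin2 hn A (by simp)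
  refine ⟨h2, h3, h4, ?_, ?_, ?_⟩
  · rintro rfl
    exact (List.nodup_cons.1 hn).1 (by simp)
  · rintro rfl
    exact k2 (by simp)
  · rintro rfl
    exact k1 (by simp)

/-- a chord runs on the same side at both ends -/
theorem split_cc (hgp : GP p) {v w A B A' B' : α} {S T : List α}
    (hs : Sim p v (S ++ w :: T)) (hS : S ≠ []) (hT : T ≠ [])
    (hv : Vis p (Ed (cyc v (S ++ w :: T))) v w) (h1 : Tri3 v (S ++ w :: T) A v B)
    (h2 : Tri3 v (S ++ w :: T) A' w B') : Lf p A v B w ↔ Lf p A' w B' v := by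
  obtain ⟨hA, eA⟩ := gs_last hgp hs hS hT hv h1
  obtain ⟨hB, eB⟩ := gs_first hgp hs hS hT hv h2
  have h3 := gs_same1 hgp hs hS hT hv hA hB
  rw [eA, eB] at h3
  have h4 : Lf p w v B A ↔ Lf p A' w v B' :=
    ⟨fun h => b2_eq_one.1 (h3 ▸ b2_true h), fun h => b2_eq_one.1 (h3 ▸ b2_true h)⟩
  obtain ⟨m1, m2, m3, m4, m5, m6⟩ := gs_neV hs hS hT h1
  obtain ⟨l1, l2, l3, l4, l5, l6⟩ := gs_neW hs hS hT h2
  rw [lf_swap2 hgp m1 m2 m3 ⟨m4, m5, m6⟩, lf_swap1 hgp l1 l2 l3 ⟨l4, l5, l6⟩, h4]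

/-! ### sectors add -/

private theorem gs_sec_b : ∀ AB Az Aw Bz Bw zw : Bool,
    (((AB == zw) && ((Az != Bw) && (Aw == Bz))) || (((AB != zw) && ((Az == Bw) && (Aw != Bz))) ||
      (!((Bw && !Aw) || ((!Aw && AB) || (AB && Bw))) ||
      (((Bz && !Az) || ((!Az && AB) || (AB && Bz))) ==
        xor ((Bz && zw) || ((zw && !Bw) || (!Bw && Bz)))
          ((!zw && !Az) || ((!Az && Aw) || (Aw && !zw))))))) = true := by
  decide

private noncomputable def sg (x : ℝ) : Bool := decide (0 < x)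

private theorem sg_true {x : ℝ} : sg x = true ↔ 0 < x := by simp [sg]

private theorem sg_false {x : ℝ} (h : x ≠ 0) : sg x = false ↔ x < 0 := by
  simp only [sg, decide_eq_false_iff_not, not_lt]
  exact ⟨fun h1 => lt_of_le_of_ne h1 h, fun h1 => h1.le⟩

private theorem sg_op {x y : ℝ} (h : y ≠ 0) (e : x = -y) : sg x = !sg y := by
  rcases lt_or_gt_of_ne h with h1 | h1
  · rw [(sg_false h).2 h1, sg_true.2 (by linarith)]
    rfl
  · have hx : x ≠ 0 := by
      intro h2
      linarith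
    rw [sg_true.2 h1, (sg_false hx).2 (by linarith)]
    rfl

private theorem gs_lf_bool {A g B z : α} (h : o p g A z ≠ 0) :
    Lf p A g B z ↔ ((sg (o p g B z) && !sg (o p g A z)) ||
      ((!sg (o p g A z) && sg (o p g A B)) || (sg (o p g A B) && sg (o p g B z)))) = true := by
  unfold Lf
  have e1 : 0 < o p g z A ↔ (!sg (o p g A z)) = true := by
    rw [Bool.not_eq_true', sg_false h]
    have := o_swap' p g A z
    constructor <;> intro h1 <;> linarith
  rw [e1, ← sg_true (x := o p g B z), ← sg_true (x := o p g A B),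
    Bool.or_eq_true, Bool.or_eq_true, Bool.and_eq_true, Bool.and_eq_true, Bool.and_eq_true]

private theorem gs_mul_pos {x y : ℝ} (hx : x ≠ 0) (hy : y ≠ 0) (h : sg x = sg y) :
    0 < x * y := by
  rcases lt_or_gt_of_ne hx with h1 | h1 <;> rcases lt_or_gt_of_ne hy with h2 | h2
  · exact mul_pos_of_neg_of_neg h1 h2
  · rw [(sg_false hx).2 h1, sg_true.2 h2] at h
    exact absurd h (by decide)
  · rw [sg_true.2 h1, (sg_false hy).2 h2] at h
    exact absurd h (by decide)
  · exact mul_pos h1 h2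

private theorem gs_mul_neg {x y : ℝ} (hx : x ≠ 0) (hy : y ≠ 0) (h : sg x ≠ sg y) :
    x * y < 0 := by
  rcases lt_or_gt_of_ne hx with h1 | h1 <;> rcases lt_or_gt_of_ne hy with h2 | h2
  · rw [(sg_false hx).2 h1, (sg_false hy).2 h2] at h
    exact absurd rfl h
  · exact mul_neg_of_neg_of_pos h1 h2
  · exact mul_neg_of_pos_of_neg h1 h2
  · rw [sg_true.2 h1, sg_true.2 h2] at h
    exact absurd rfl h

private theorem gs_b2 {P R S : Prop} {a c d : Bool} (h1 : P ↔ a = true)
    (h3 : R ↔ c = true) (h4 : S ↔ d = true) (h : a = xor c d) :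
    b2 P = b2 R + b2 S := by
  rw [b2_congr h1, b2_congr h3, b2_congr h4]
  revert h
  cases a <;> cases c <;> cases d <;> (simp [b2]; try rfl)

/-- the left sector is cut into two sectors by a direction inside it -/
private theorem gs_sec (hgp : GP p) {A g B z w : α} (hAB : A ≠ B) (hA : g ≠ A) (hB : g ≠ B)
    (hz : g ≠ z ∧ A ≠ z ∧ B ≠ z) (hw : g ≠ w ∧ A ≠ w ∧ B ≠ w) (hzw : z ≠ w)
    (hl : Lf p A g B w) :
    b2 (Lf p A g B z) = b2 (Lf p w g B z) + b2 (Lf p A g w z) := by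
  have nAB : o p g A B ≠ 0 := hgp.ne g A B hA hAB hB
  have nAz : o p g A z ≠ 0 := hgp.ne g A z hA hz.2.1 hz.1
  have nAw : o p g A w ≠ 0 := hgp.ne g A w hA hw.2.1 hw.1
  have nBz : o p g B z ≠ 0 := hgp.ne g B z hB hz.2.2 hz.1
  have nBw : o p g B w ≠ 0 := hgp.ne g B w hB hw.2.2 hw.1
  have nzw : o p g z w ≠ 0 := hgp.ne g z w hz.1 hzw hw.1
  have nwz : o p g w z ≠ 0 := hgp.ne g w z hw.1 hzw.symm hz.1
  have rel : o p g A B * o p g z w - o p g A z * o p g B w + o p g A w * o p g B z = 0 := by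
    unfold o
    ring
  have key := gs_sec_b (sg (o p g A B)) (sg (o p g A z)) (sg (o p g A w)) (sg (o p g B z))
    (sg (o p g B w)) (sg (o p g z w))
  have e1 : sg (o p g w z) = !sg (o p g z w) := sg_op nzw (o_swap' p g z w)
  have e2 : sg (o p g w B) = !sg (o p g B w) := sg_op nBw (o_swap' p g B w)
  refine gs_b2 (gs_lf_bool nAz) (gs_lf_bool nwz) (gs_lf_bool nAz) ?_
  rw [e1, e2]
  rw [gs_lf_bool nAw] at hl
  rw [hl] at key
  rw [Bool.or_eq_true, Bool.or_eq_true, Bool.or_eq_true, beq_iff_eq] at key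
  rcases key with k | k | k | k
  · exfalso
    rw [Bool.and_eq_true, Bool.and_eq_true, beq_iff_eq, bne_iff_ne, beq_iff_eq] at k
    have f1 := gs_mul_pos nAB nzw k.1
    have f2 := gs_mul_neg nAz nBw k.2.1
    have f3 := gs_mul_pos nAw nBz k.2.2
    linarith
  · exfalso
    rw [Bool.and_eq_true, Bool.and_eq_true, bne_iff_ne, beq_iff_eq, bne_iff_ne] at k
    have f1 := gs_mul_neg nAB nzw k.1
    have f2 := gs_mul_pos nAz nBw k.2.1
    have f3 := gs_mul_neg nAw nBz k.2.2
    linarith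
  · exact absurd k (by decide)
  · rw [k]
    simp only [Bool.not_not]

/-- `Lam` at the base, with the triple at the base -/
private theorem gs_lam {v A B z : α} {P : List α} (hn : (v :: P).Nodup)
    (h1 : Tri3 v P A v B) : Lam p v P z = xc p v z (cyc v P) + b2 (Lf p A v B z) := by
  have hb : P.head? = some B ∧ P.getLast? = some A := by
    have hg : v ∉ P := (List.nodup_cons.1 hn).1
    rcases h1 with ⟨S, T, h⟩ | ⟨T, h, -⟩ | ⟨S, h, -⟩ | ⟨-, h2, h3⟩
    · exact absurd (by rw [h]; simp) hg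
    · exact absurd (by rw [h]; simp) hg
    · exact absurd (by rw [h]; simp) hg
    · exact ⟨h2, h3⟩
  unfold Lam
  rw [b2_congr (Q := Lf p A v B z)]
  constructor
  · rintro ⟨A', B', h2, h3, h4⟩
    rw [hb.1] at h2
    rw [hb.2] at h3
    rw [Option.some.inj h2, Option.some.inj h3]
    exact h4
  · intro h
    exact ⟨A, B, hb.1, hb.2, h⟩

theorem split_lam (hgp : GP p) {v w A B z : α} {S T : List α}
    (hs : Sim p v (S ++ w :: T)) (hS : S ≠ []) (hT : T ≠ [])
    (hv : Vis p (Ed (cyc v (S ++ w :: T))) v w) (h1 : Tri3 v (S ++ w :: T) A v B)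
    (hl : Lf p A v B w) (hz : z ∉ v :: (S ++ w :: T)) :
    Lam p v (S ++ w :: T) z = Lam p v (S ++ [w]) z + Lam p v (w :: T) z := by
  obtain ⟨m1, m2, m3, m4, m5, m6⟩ := gs_neV hs hS hT h1
  obtain ⟨hs1, hs2⟩ := split_sim hs hS hT hv
  obtain ⟨-, -, -, k1, k2, k3⟩ := tri3_ne hs.nodup hs.len h1
  have zA : A ≠ z := fun h => hz (h ▸ k1)
  have zB : B ≠ z := fun h => hz (h ▸ k3)
  have zv : v ≠ z := fun h => hz (h ▸ k2)
  have zw : z ≠ w := by
    rintro rfl
    exact hz (by simp)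
  have hsec := gs_sec hgp m1 m2 m3 ⟨zv, zA, zB⟩ ⟨m4, m5, m6⟩ zw hl
  rw [gs_lam hs.nodup h1, hsec]
  obtain ⟨⟨S', rfl⟩, ⟨T', rfl⟩⟩ := gs_ends hs.nodup hs.len hS hT h1
  rw [gs_lam hs1.nodup gs_tri1, gs_lam hs2.nodup gs_tri3]
  have e1 : cyc v (B :: S' ++ w :: (T' ++ [A])) =
      (v :: B :: S') ++ w :: (T' ++ [A] ++ [v]) := by unfold cyc; simp
  have e2 : cyc v (B :: S' ++ [w]) = (v :: B :: S') ++ w :: [v] := by unfold cyc; simp
  have e3 : cyc v (w :: (T' ++ [A])) = v :: w :: (T' ++ [A] ++ [v]) := by unfold cyc; simp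
  rw [e1, e2, e3, xc_mid, xc_mid (B := [v]), xc_cons2, xc_one, xc_cons2,
    b2_false (P := X p v z w v) not_X_of_eq2, b2_false (P := X p v z v w) not_X_of_eq1]
  ring

theorem split_out1 (hgp : GP p) {v w A B : α} {S T : List α}
    (hs : Sim p v (S ++ w :: T)) (hS : S ≠ []) (hT : T ≠ [])
    (hv : Vis p (Ed (cyc v (S ++ w :: T))) v w) (h1 : Tri3 v (S ++ w :: T) A v B)
    (hl : Lf p A v B w) : ∀ t ∈ T, Lam p v (S ++ [w]) t = 0 := by
  intro t ht
  obtain ⟨hA, eA⟩ := gs_last hgp hs hS hT hv h1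
  obtain ⟨m1, m2, m3, m4, m5, m6⟩ := gs_neV hs hS hT h1
  rw [gs_same1 hgp hs hS hT hv ht hA, eA]
  exact b2_false ((lf_swap2 hgp m1 m2 m3 ⟨m4, m5, m6⟩).1 hl)

theorem split_out2 (hgp : GP p) {v w A B : α} {S T : List α}
    (hs : Sim p v (S ++ w :: T)) (hS : S ≠ []) (hT : T ≠ [])
    (hv : Vis p (Ed (cyc v (S ++ w :: T))) v w) (h1 : Tri3 v (S ++ w :: T) A v B)
    (hl : Lf p A v B w) : ∀ t ∈ S, Lam p v (w :: T) t = 0 := by
  intro t ht
  obtain ⟨hB, eB⟩ := gs_head hgp hs hS hT hv h1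
  obtain ⟨m1, m2, m3, m4, m5, m6⟩ := gs_neV hs hS hT h1
  rw [gs_same2 hgp hs hS hT hv ht hB, eB]
  exact b2_false ((lf_swap1 hgp m1 m2 m3 ⟨m4, m5, m6⟩).1 hl)

end FPW
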