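import Pool.Agent.Lib.MP_deef39_co_Ord.GLam2
import Pool.Agent.Lib.MP_deef39_co_Ord.GSplit
import Pool.Agent.Lib.MP_deef39_co_Ord.GLf
import Pool.Agent.Lib.MP_deef39_co_Ord.GReg

/-! # Ord module GWSpoke: spokes of an ear

The polygon is based at the convex vertex `q` with neighbours `A` (before) and `B` (after); `E` is
the hull chain in the triangle `A q B`. `wh_spoke`: the spokes `q e` are crossed by no polygon edge
and no state edge. `wh_chain_free`: no free vertex of the polygon is a chain vertex.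
-/

set_option autoImplicit false

namespace FPW

variable {α : Type*} {p : α → ℝ × ℝ}

private theorem ws_o1 {a b : α} : ¬ 0 < o p a b b := by
  have h : o p a b b = 0 := by unfold o; ring
  rw [h]
  exact lt_irrefl 0

private theorem ws_o2 {a b : α} : ¬ 0 < o p a b a := by
  have h : o p a b a = 0 := by unfold o; ring
  rw [h]
  exact lt_irrefl 0

private theorem ws_ed_qB {q B : α} {L : List α} : Ed (cyc q (B :: L)) q B :=
  ed_of_split (A := []) (B := L ++ [q])

private theorem ws_ed_Aq {q A B : α} {T : List α} : Ed (cyc q (B :: (T ++ [A]))) A q := by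
  have h : cyc q (B :: (T ++ [A])) = (q :: B :: T) ++ A :: q :: [] := by simp [cyc]
  rw [h]
  exact ed_of_split

private theorem ws_mem {q x : α} {P : List α} (h : x ∈ cyc q P) : x ∈ q :: P := by
  have h' : x ∈ (q :: P) ++ [q] := h
  rcases List.mem_append.1 h' with h1 | h1
  · exact h1
  · rw [List.mem_singleton] at h1
    rw [h1]
    exact List.mem_cons_self

private theorem ws_tri {q A B : α} {T : List α} : Tri3 q (B :: (T ++ [A])) A q B := by
  refine Or.inr (Or.inr (Or.inr ⟨rfl, rfl, ?_⟩))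
  rw [← List.cons_append, List.getLast?_append]
  simp

/-- the predecessor and the successor of a chain vertex -/
private theorem ws_nbr {A B e : α} {E : List α} (he : e ∈ E) : ∃ x y,
    Nx (A :: (E ++ [B])) x e ∧ Nx (A :: (E ++ [B])) e y ∧
      [x, e, y].Sublist (A :: (E ++ [B])) := by
  obtain ⟨E1, E2, rfl⟩ := List.append_of_mem he
  obtain ⟨L1, x, h1⟩ : ∃ L1 x, A :: E1 = L1 ++ [x] :=
    ⟨(A :: E1).dropLast, (A :: E1).getLast (by simp), by
      rw [List.dropLast_append_getLast]⟩
  obtain ⟨y, L2, h2⟩ : ∃ y L2, E2 ++ [B] = y :: L2 := by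
    cases E2 with
    | nil => exact ⟨B, [], rfl⟩
    | cons y E2 => exact ⟨y, E2 ++ [B], rfl⟩
  have h : A :: (E1 ++ e :: E2 ++ [B]) = L1 ++ x :: e :: y :: L2 := by
    calc A :: (E1 ++ e :: E2 ++ [B]) = (A :: E1) ++ e :: (E2 ++ [B]) := by simp
      _ = L1 ++ x :: e :: y :: L2 := by rw [h1, h2]; simp
  rw [h]
  refine ⟨x, y, ⟨L1, y :: L2, rfl⟩, ⟨L1 ++ [x], L2, by simp⟩, ?_⟩
  refine List.sublist_append_of_sublist_right ?_
  exact (((List.nil_sublist L2).cons_cons y).cons_cons e).cons_cons x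

theorem wh_spoke (hgp : GP p) {St : Set (List α)} {V W : Set α} {q A B : α} {T E : List α}
    (h : WH p St V W q (B :: (T ++ [A]))) (hc : Chn p V A q B E) :
    ∀ e ∈ E, Lf p A q B e ∧ Vis p (Ed (cyc q (B :: (T ++ [A])))) q e ∧
      ∀ l ∈ St, Vis p (Ed l) q e := by
  intro e he
  have hn := h.sim.nodup
  have hlen := h.sim.len
  obtain ⟨hAB, hqA, hqB, -, -, -⟩ := tri3_ne hn hlen (ws_tri (q := q) (A := A) (B := B) (T := T))
  have hin := InTri_pos (hc.mem e he).2 hc.left
  have heq : q ≠ e := by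
    rintro rfl
    exact ws_o1 hin.1
  have heA : A ≠ e := by
    rintro rfl
    exact ws_o2 hin.1
  have heB : B ≠ e := by
    rintro rfl
    exact ws_o1 hin.2.1
  refine ⟨(lf_left hgp hAB hqA hqB ⟨heq, heA, heB⟩ hc.left).2 ⟨hin.1, hin.2.1⟩, ?_, ?_⟩
  · intro c d hcd hX
    have hne := X_ne hX
    have hcq : c ≠ q := fun hh => hne.2.2.1 hh.symm
    have hdq : d ≠ q := fun hh => hne.2.2.2.1 hh.symm
    have hcV := h.mem c (ws_mem (ed_mem hcd))
    have hdV := h.mem d (ws_mem (ed_mem' hcd))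
    have hA : ¬ X p q A c d := h.sim.plane _ _ _ _ (ed_symm ws_ed_Aq) hcd
    have hB : ¬ X p q B c d := h.sim.plane _ _ _ _ ws_ed_qB hcd
    exact (reg hgp hc hcq hdq (Or.inl hcV) (Or.inl hdV) hA hB).1 e he hX
  · intro l hl c d hcd hX
    have hne := X_ne hX
    have hcq : c ≠ q := fun hh => hne.2.2.1 hh.symm
    have hdq : d ≠ q := fun hh => hne.2.2.2.1 hh.symm
    have hcV := (h.span l hl c).1 (ed_mem hcd)
    have hdV := (h.span l hl d).1 (ed_mem' hcd)
    have hA : ¬ X p q A c d := h.fen _ _ (ed_symm ws_ed_Aq) l hl c d hcd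
    have hB : ¬ X p q B c d := h.fen _ _ ws_ed_qB l hl c d hcd
    exact (reg hgp hc hcq hdq (Or.inl hcV) (Or.inl hdV) hA hB).1 e he hX

theorem wh_chain_free (hgp : GP p) {St : Set (List α)} {V W : Set α} {q A B : α}
    {T E : List α} (h : WH p St V W q (B :: (T ++ [A]))) (hc : Chn p V A q B E) :
    ∀ e ∈ E, (e ∈ W ∧ e ∉ T) ∨ (e ∉ W ∧ e ∈ T) := by
  intro e he
  obtain ⟨hlf, hvis, -⟩ := wh_spoke hgp h hc e he
  have hn := h.sim.nodup
  have hlen := h.sim.len
  have heV := (hc.mem e he).1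
  have hin := InTri_pos (hc.mem e he).2 hc.left
  have heq : e ≠ q := by
    rintro rfl
    exact ws_o1 hin.1
  have heA : e ≠ A := by
    rintro rfl
    exact ws_o2 hin.1
  have heB : e ≠ B := by
    rintro rfl
    exact ws_o1 hin.2.1
  by_cases heT : e ∈ T
  · refine Or.inr ⟨fun heW => ?_, heT⟩
    obtain ⟨S', T', hT⟩ := List.append_of_mem heT
    obtain ⟨L1, r, h1⟩ : ∃ L1 r, B :: S' = L1 ++ [r] :=
      ⟨(B :: S').dropLast, (B :: S').getLast (by simp), by
        rw [List.dropLast_append_getLast]⟩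
    obtain ⟨r', L2, h2⟩ : ∃ r' L2, T' ++ [A] = r' :: L2 := by
      cases T' with
      | nil => exact ⟨A, [], rfl⟩
      | cons y T' => exact ⟨y, T' ++ [A], rfl⟩
    have hP : B :: (T ++ [A]) = (B :: S') ++ e :: (T' ++ [A]) := by rw [hT]; simp
    have hP' : B :: (T ++ [A]) = L1 ++ r :: e :: r' :: L2 := by
      rw [hP, h1, h2]; simp
    have htri : Tri3 q (B :: (T ++ [A])) r e r' := Or.inl ⟨L1, L2, hP'⟩
    have hconv : 0 < o p r e r' := h.conv _ _ _ htri heW
    obtain ⟨hrr', her, her', hrm, -, hrm'⟩ := tri3_ne hn hlen htri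
    obtain ⟨hed1, hed2⟩ := tri3_ed htri
    have hrP : r ∈ B :: (T ++ [A]) := by rw [hP']; simp
    have hrP' : r' ∈ B :: (T ++ [A]) := by rw [hP']; simp
    have hqP : q ∉ B :: (T ++ [A]) := (List.nodup_cons.1 hn).1
    have hrq : r ≠ q := fun hh => hqP (hh ▸ hrP)
    have hrq' : r' ≠ q := fun hh => hqP (hh ▸ hrP')
    -- the chord `q e`
    have hlf2 : Lf p r e r' q := by
      have hs := h.sim
      have ht1 := ws_tri (q := q) (A := A) (B := B) (T := T)
      rw [hP] at hs hvis ht1 htri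
      exact (split_cc hgp hs (by simp) (by simp) hvis ht1 htri).1 hlf
    obtain ⟨hq1, hq2⟩ := (lf_left hgp hrr' her her' ⟨heq, hrq, hrq'⟩ hconv).1 hlf2
    obtain ⟨x, y, hx, hy, hxy⟩ := ws_nbr (A := A) (B := B) he
    have hxe2 : [x, e].Sublist (A :: (E ++ [B])) :=
      (((List.nil_sublist [y]).cons_cons e).cons_cons x).trans hxy
    have hqx : o p q x e < 0 := hc.ang _ _ hxe2
    have hxye : 0 < o p x e y := hc.conv _ _ _ hxy
    have key : ∀ d, d ∈ q :: B :: (T ++ [A]) → d ≠ e → d ≠ q →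
        Ed (cyc q (B :: (T ++ [A]))) e d → d ≠ x → 0 < o p x e d := by
      intro d hd hde hdq hed hdx
      by_cases hdy : d = y
      · rw [hdy]; exact hxye
      have hA : ¬ X p q A e d := h.sim.plane _ _ _ _ (ed_symm ws_ed_Aq) hed
      have hB : ¬ X p q B e d := h.sim.plane _ _ _ _ ws_ed_qB hed
      exact (reg_left hgp hc hx hy (Or.inl (h.mem d hd)) hde hdq hdx hdy hA hB).1
    have hid : o p x e q * o p r e r' = o p r e q * o p x e r' + o p e r' q * o p x e r := by
      unfold o; ring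
    have hqx' : o p x e q < 0 := by rw [o_rot]; exact hqx
    have hlhs : o p x e q * o p r e r' < 0 := mul_neg_of_neg_of_pos hqx' hconv
    have hr0 : 0 ≤ o p x e r := by
      by_cases hrx : r = x
      · rw [hrx]; unfold o; apply le_of_eq; ring
      · exact (key r hrm her.symm hrq (ed_symm hed1) hrx).le
    have hr0' : 0 ≤ o p x e r' := by
      by_cases hrx : r' = x
      · rw [hrx]; unfold o; apply le_of_eq; ring
      · exact (key r' hrm' her'.symm hrq' hed2 hrx).le
    have h3 := mul_nonneg hq1.le hr0'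
    have h4 := mul_nonneg hq2.le hr0
    linarith
  · refine Or.inl ⟨?_, heT⟩
    by_contra heW
    have heP : e ∉ q :: B :: (T ++ [A]) := by
      simp only [List.mem_cons, List.mem_append, List.not_mem_nil, or_false]
      rintro (hh | hh | hh | hh)
      · exact heq hh
      · exact heB hh
      · exact heT hh
      · exact heA hh
    have h1 := lam_vis hgp h.sim (ws_tri (q := q) (A := A) (B := B) (T := T)) heP hvis
    rw [b2_true hlf, h.out e heV heW heP] at h1
    exact zero_ne_one h1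

end FPW
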