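import Pool.Agent.Lib.MP_deef39_co_Ord.GDef
import Pool.Agent.Lib.MP_deef39_co_Ord.GChain
import Pool.Agent.Lib.MP_deef39_co_Ord.GReg
import Pool.Agent.Lib.MP_deef39_co_Ord.GLf
import Pool.Agent.Lib.MP_deef39_co_Ord.GCyc
import Pool.Agent.Lib.MP_deef39_co_Ord.GLam2
import Pool.Agent.Lib.MP_deef39_co_Ord.GCut
import Pool.Agent.Lib.MP_deef39_co_Ord.GWSpoke

/-! # Ord module GWCut: cutting a convex static vertex of a weak hull polygon -/

set_option autoImplicit false

namespace FPW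

variable {α : Type*} {p : α → ℝ × ℝ}

private theorem gc_sg {x1 x2 x3 x4 x5 x6 : ℝ} (hid : x1 * x6 - x2 * x5 + x3 * x4 = 0)
    (h1 : 0 < x1) (h2 : x2 ≠ 0) (h3 : x3 ≠ 0) (h4 : x4 ≠ 0) (h5 : x5 ≠ 0) (h6 : x6 ≠ 0) :
    ¬ (0 < x6 ∧ ((0 < x2 ∧ ¬ 0 < x5) ∨ (¬ 0 < x2 ∧ 0 < x5)) ∧
      ((0 < x3 ∧ 0 < x4) ∨ (¬ 0 < x3 ∧ ¬ 0 < x4))) ∧
    ¬ (¬ 0 < x6 ∧ ((0 < x2 ∧ 0 < x5) ∨ (¬ 0 < x2 ∧ ¬ 0 < x5)) ∧
      ((0 < x3 ∧ ¬ 0 < x4) ∨ (¬ 0 < x3 ∧ 0 < x4))) := by
  have n2 : ¬ 0 < x2 → x2 < 0 := fun h => lt_of_le_of_ne (not_lt.1 h) h2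
  have n3 : ¬ 0 < x3 → x3 < 0 := fun h => lt_of_le_of_ne (not_lt.1 h) h3
  have n4 : ¬ 0 < x4 → x4 < 0 := fun h => lt_of_le_of_ne (not_lt.1 h) h4
  have n5 : ¬ 0 < x5 → x5 < 0 := fun h => lt_of_le_of_ne (not_lt.1 h) h5
  have n6 : ¬ 0 < x6 → x6 < 0 := fun h => lt_of_le_of_ne (not_lt.1 h) h6
  constructor
  · rintro ⟨a6, a25, a34⟩
    have e1 : 0 < x1 * x6 := mul_pos h1 a6
    have e2 : x2 * x5 < 0 := by
      rcases a25 with ⟨a, b⟩ | ⟨a, b⟩
      · exact mul_neg_of_pos_of_neg a (n5 b)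
      · exact mul_neg_of_neg_of_pos (n2 a) b
    have e3 : 0 < x3 * x4 := by
      rcases a34 with ⟨a, b⟩ | ⟨a, b⟩
      · exact mul_pos a b
      · exact mul_pos_of_neg_of_neg (n3 a) (n4 b)
    linarith
  · rintro ⟨a6, a25, a34⟩
    have e1 : x1 * x6 < 0 := mul_neg_of_pos_of_neg h1 (n6 a6)
    have e2 : 0 < x2 * x5 := by
      rcases a25 with ⟨a, b⟩ | ⟨a, b⟩
      · exact mul_pos a b
      · exact mul_pos_of_neg_of_neg (n2 a) (n5 b)
    have e3 : x3 * x4 < 0 := by
      rcases a34 with ⟨a, b⟩ | ⟨a, b⟩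
      · exact mul_neg_of_pos_of_neg a (n4 b)
      · exact mul_neg_of_neg_of_pos (n3 a) b
    linarith

/-- cyclic order bookkeeping with propositions: directions `q, e, a, d` -/
private theorem gc_bool {P2 P3 P4 P5 P6 : Prop}
    (H1 : ¬ (P6 ∧ ((P2 ∧ ¬ P5) ∨ (¬ P2 ∧ P5)) ∧ ((P3 ∧ P4) ∨ (¬ P3 ∧ ¬ P4))))
    (H2 : ¬ (¬ P6 ∧ ((P2 ∧ P5) ∨ (¬ P2 ∧ ¬ P5)) ∧ ((P3 ∧ ¬ P4) ∨ (¬ P3 ∧ P4))))
    (ha : ¬ (P2 ∧ ¬ P4)) :
    (((P5 ∧ ¬ P6) ∨ (¬ P6 ∧ ¬ P4) ∨ (¬ P4 ∧ P5)) →
      ((P3 ∧ ¬ P6) ∨ (¬ P6 ∧ ¬ P2) ∨ (¬ P2 ∧ P3))) ∧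
    (¬ (P3 ∧ ¬ P5) → ((P3 ∧ ¬ P6) ∨ (¬ P6 ∧ ¬ P2) ∨ (¬ P2 ∧ P3)) →
      ((P5 ∧ ¬ P6) ∨ (¬ P6 ∧ ¬ P4) ∨ (¬ P4 ∧ P5))) := by
  by_cases h2 : P2 <;> by_cases h3 : P3 <;> by_cases h4 : P4 <;> by_cases h5 : P5 <;>
    by_cases h6 : P6 <;> simp_all

private theorem gc_neg {x y : ℝ} (h : x = - y) (hx : x ≠ 0) : 0 < x ↔ ¬ 0 < y := by
  constructor
  · intro h1 h2
    linarith
  · intro h1
    have h3 : y ≠ 0 := by
      intro h4
      exact hx (by rw [h, h4, neg_zero])
    have h2 : y < 0 := lt_of_le_of_ne (not_lt.1 h1) h3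
    linarith

/-- sectors at `g` with predecessor `a`, the successor moves from `q` to `e` -/
private theorem gc_next (hgp : GP p) {g q e a d : α} (hgq : g ≠ q) (hge : g ≠ e) (hga : g ≠ a)
    (hgd : g ≠ d) (hqa : q ≠ a) (hqd : q ≠ d) (hea : e ≠ a) (hed : e ≠ d) (had : a ≠ d)
    (h1 : 0 < o p g q e) (ha : ¬ (0 < o p g q a ∧ 0 < o p g a e)) :
    (Lf p a g e d → Lf p a g q d) ∧
      (¬ (0 < o p g q d ∧ 0 < o p g d e) → Lf p a g q d → Lf p a g e d) := by
  have n2 := hgp.ne g q a hgq hqa hga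
  have n3 := hgp.ne g q d hgq hqd hgd
  have n4 := hgp.ne g e a hge hea hga
  have n5 := hgp.ne g e d hge hed hgd
  have n6 := hgp.ne g a d hga had hgd
  have hid : o p g q e * o p g a d - o p g q a * o p g e d + o p g q d * o p g e a = 0 := by
    unfold o
    ring
  obtain ⟨H1, H2⟩ := gc_sg hid h1 n2 n3 n4 n5 n6
  have e1 : 0 < o p g a e ↔ ¬ 0 < o p g e a :=
    gc_neg (o_swap' (p := p) (a := g) (b := e) (c := a)) (hgp.ne g a e hga hea.symm hge)
  have e2 : 0 < o p g d e ↔ ¬ 0 < o p g e d :=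
    gc_neg (o_swap' (p := p) (a := g) (b := e) (c := d)) (hgp.ne g d e hgd hed.symm hge)
  have e3 : 0 < o p g d a ↔ ¬ 0 < o p g a d :=
    gc_neg (o_swap' (p := p) (a := g) (b := a) (c := d)) (hgp.ne g d a hgd had.symm hga)
  have e4 : 0 < o p g a q ↔ ¬ 0 < o p g q a :=
    gc_neg (o_swap' (p := p) (a := g) (b := q) (c := a)) (hgp.ne g a q hga hqa.symm hgq)
  unfold Lf
  rw [e1] at ha
  rw [e1, e2, e3, e4]
  exact gc_bool H1 H2 ha

private theorem lf_mir {A g B z : α} : Lf (mir p) A g B z ↔ Lf p B g A z := by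
  unfold Lf
  rw [o_mir, o_mir, o_mir]
  have e1 : -o p g B z = o p g z B := by rw [o_swap' (a := g) (b := B) (c := z)]
  have e2 : -o p g z A = o p g A z := by rw [o_swap' (a := g) (b := z) (c := A)]
  have e3 : -o p g A B = o p g B A := by rw [o_swap' (a := g) (b := A) (c := B)]
  rw [e1, e2, e3]
  tauto

/-- sectors at `g` with successor `b`, the predecessor moves from `q` to `e` -/
private theorem gc_prev (hgp : GP p) {g q e b d : α} (hgq : g ≠ q) (hge : g ≠ e) (hgb : g ≠ b)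
    (hgd : g ≠ d) (hqb : q ≠ b) (hqd : q ≠ d) (heb : e ≠ b) (hed : e ≠ d) (hbd : b ≠ d)
    (h1 : 0 < o p g e q) (hb : ¬ (0 < o p g e b ∧ 0 < o p g b q)) :
    (Lf p e g b d → Lf p q g b d) ∧
      (¬ (0 < o p g e d ∧ 0 < o p g d q) → Lf p q g b d → Lf p e g b d) := by
  have h := gc_next (p := mir p) (GP_mir hgp) (g := g) (q := q) (e := e) (a := b) (d := d)
    hgq hge hgb hgd hqb hqd heb hed hbd
  rw [lf_mir, lf_mir] at h
  simp only [o_mir] at h
  have e0 : -o p g q e = o p g e q := by rw [o_swap' (a := g) (b := q) (c := e)]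
  have e1 : -o p g q b = o p g b q := by rw [o_swap' (a := g) (b := q) (c := b)]
  have e2 : -o p g b e = o p g e b := by rw [o_swap' (a := g) (b := b) (c := e)]
  have e3 : -o p g q d = o p g d q := by rw [o_swap' (a := g) (b := q) (c := d)]
  have e4 : -o p g d e = o p g e d := by rw [o_swap' (a := g) (b := d) (c := e)]
  rw [e0, e1, e2, e3, e4] at h
  have h2 := h h1 (fun hh => hb ⟨hh.2, hh.1⟩)
  exact ⟨h2.1, fun hd => h2.2 (fun hh => hd ⟨hh.2, hh.1⟩)⟩

/-- a segment `g d` which does not cross the spoke `q e`, with `d` outside the triangle `q g e`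
does not start between `q` and `e` -/
private theorem gc_cone (hgp : GP p) {g q e d : α} (hqe : q ≠ e) (hqd : q ≠ d) (hed : e ≠ d)
    (h1 : 0 < o p g q e) (hX : ¬ X p q e g d) (ht : ¬ InTri p q g e d) :
    ¬ (0 < o p g q d ∧ 0 < o p g d e) := by
  rintro ⟨ha, hb⟩
  have n1 := hgp.ne e q d hqe.symm hqd hed
  have s1 : o p q g d = - o p g q d := o_swap _ _ _ _
  have s2 : o p g e d = - o p g d e := o_swap' _ _ _ _
  rcases lt_or_gt_of_ne n1 with h3 | h3
  · exact ht (Or.inr ⟨by linarith, by linarith, h3⟩)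
  · apply hX
    have s3 : o p q e g = o p g q e := o_rot _ _ _ _
    have s4 : o p q e d = - o p e q d := o_swap _ _ _ _
    have s5 : o p g d q = - o p g q d := o_swap' _ _ _ _
    constructor
    · rw [s3, s4]
      nlinarith [mul_pos h1 h3]
    · rw [s5]
      nlinarith [mul_pos ha hb]

private theorem gc_cone' (hgp : GP p) {g q e d : α} (hqe : q ≠ e) (hqd : q ≠ d) (hed : e ≠ d)
    (h1 : 0 < o p g e q) (hX : ¬ X p q e g d) (ht : ¬ InTri p q e g d) :
    ¬ (0 < o p g e d ∧ 0 < o p g d q) := by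
  rintro ⟨ha, hb⟩
  have n1 := hgp.ne q e d hqe hed hqd
  have s1 : o p e g d = - o p g e d := o_swap _ _ _ _
  have s2 : o p g q d = - o p g d q := o_swap' _ _ _ _
  rcases lt_or_gt_of_ne n1 with h3 | h3
  · exact ht (Or.inr ⟨h3, by linarith, by linarith⟩)
  · apply hX
    have s3 : o p q e g = - o p g e q := by
      have e1 : o p q e g = o p g q e := o_rot _ _ _ _
      rw [e1]
      exact o_swap' _ _ _ _
    have s5 : o p g d e = - o p g e d := o_swap' _ _ _ _
    constructor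
    · rw [s3]
      nlinarith [mul_pos h1 h3]
    · rw [s5]
      nlinarith [mul_pos ha hb]

/-- consecutive entries of the closed list -/
private theorem gc_tri {v A g B : α} {P S T : List α} (hl : 2 ≤ P.length)
    (h : v :: (P ++ [v]) = S ++ A :: g :: B :: T) : Tri3 v P A g B := by
  rcases S with _ | ⟨s, S⟩
  · simp only [List.nil_append, List.cons.injEq] at h
    obtain ⟨h1, h2⟩ := h
    rcases List.eq_nil_or_concat T with rfl | ⟨T', z, rfl⟩
    · have h3 := congrArg List.length h2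
      simp at h3
      omega
    · have h3 : P ++ [v] = (g :: B :: T') ++ [z] := by
        rw [h2]
        simp
      have h4 := (List.append_inj' h3 rfl).1
      exact Or.inr (Or.inl ⟨T', h4, h1.symm⟩)
  · simp only [List.cons_append, List.cons.injEq] at h
    obtain ⟨_, h2⟩ := h
    rcases List.eq_nil_or_concat T with rfl | ⟨T', z, rfl⟩
    · have h3 : P ++ [v] = (S ++ [A, g]) ++ [B] := by
        rw [h2]
        simp
      obtain ⟨h4, h5⟩ := List.append_inj' h3 rfl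
      simp only [List.cons.injEq, and_true] at h5
      exact Or.inr (Or.inr (Or.inl ⟨S, h4, h5.symm⟩))
    · have h3 : P ++ [v] = (S ++ A :: g :: B :: T') ++ [z] := by
        rw [h2]
        simp
      have h4 := (List.append_inj' h3 rfl).1
      exact Or.inl ⟨S, T', h4⟩

private theorem gc_last (a : α) (L : List α) : ∃ M z, a :: L = M ++ [z] := by
  rcases List.eq_nil_or_concat (a :: L) with h | ⟨M, z, h⟩
  · exact absurd h (List.cons_ne_nil _ _)
  · exact ⟨M, z, by rw [h, List.concat_eq_append]⟩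

private theorem gc_head (L : List α) (a : α) : ∃ z M, L ++ [a] = z :: M := by
  cases L with
  | nil => exact ⟨a, [], rfl⟩
  | cons b L => exact ⟨b, L ++ [a], rfl⟩

private theorem gc_T {q A B : α} {T E : List α} (hlen : 2 ≤ (T ++ A :: E).length) {g : α}
    (hg : g ∈ T) : ∃ a b, Tri3 q (B :: (T ++ [A])) a g b ∧ Tri3 B (T ++ A :: E) a g b := by
  obtain ⟨Ta, Tb, rfl⟩ := List.append_of_mem hg
  obtain ⟨M, a, hM⟩ := gc_last B Ta
  obtain ⟨b, N, hN⟩ := gc_head Tb A
  refine ⟨a, b, Or.inl ⟨M, N, ?_⟩, gc_tri (S := M) (T := N ++ (E ++ [B])) hlen ?_⟩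
  · have h1 : B :: (Ta ++ g :: Tb ++ [A]) = (B :: Ta) ++ g :: (Tb ++ [A]) := by simp
    rw [h1, hM, hN]
    simp
  · have h1 : B :: (Ta ++ g :: Tb ++ A :: E ++ [B]) =
        (B :: Ta) ++ g :: ((Tb ++ [A]) ++ (E ++ [B])) := by simp
    rw [h1, hM, hN]
    simp

private theorem gc_E {A B : α} {T E : List α} (hlen : 2 ≤ (T ++ A :: E).length) {g : α}
    (hg : g ∈ E) : ∃ x y, Tri3 B (T ++ A :: E) x g y ∧ Nx (A :: (E ++ [B])) x g ∧
      Nx (A :: (E ++ [B])) g y ∧ [x, g, y].Sublist (A :: (E ++ [B])) := by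
  obtain ⟨Ea, Eb, rfl⟩ := List.append_of_mem hg
  obtain ⟨M, x, hM⟩ := gc_last A Ea
  obtain ⟨y, N, hN⟩ := gc_head Eb B
  have h0 : A :: (Ea ++ g :: Eb ++ [B]) = M ++ x :: g :: y :: N := by
    have h1 : A :: (Ea ++ g :: Eb ++ [B]) = (A :: Ea) ++ g :: (Eb ++ [B]) := by simp
    rw [h1, hM, hN]
    simp
  refine ⟨x, y, gc_tri (S := (B :: T) ++ M) (T := N) hlen ?_, ⟨M, y :: N, h0⟩,
    ⟨M ++ [x], N, ?_⟩, ?_⟩
  · have h1 : B :: (T ++ A :: (Ea ++ g :: Eb) ++ [B]) =
        (B :: T) ++ (A :: (Ea ++ g :: Eb ++ [B])) := by simp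
    rw [h1, h0]
    simp
  · rw [h0]
    simp
  · rw [h0]
    refine List.sublist_append_of_sublist_right ?_
    exact (((List.nil_sublist N).cons_cons y).cons_cons g).cons_cons x

private theorem gc_inf {L : List α} {a b : α} (S R : List α) (h : Ed L a b) :
    Ed (S ++ L ++ R) a b := by
  obtain ⟨X, Y, h1 | h1⟩ := ed_split h
  · rw [h1]
    have h2 : S ++ (X ++ a :: b :: Y) ++ R = (S ++ X) ++ a :: b :: (Y ++ R) := by simp
    rw [h2]
    exact ed_of_split
  · rw [h1]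
    have h2 : S ++ (X ++ b :: a :: Y) ++ R = (S ++ X) ++ b :: a :: (Y ++ R) := by simp
    rw [h2]
    exact ed_of_split'

private theorem gc_main (hgp : GP p) {St : Set (List α)} {V W : Set α}
    {q A B : α} {T E : List α} (h : WH p St V W q (B :: (T ++ [A]))) (hq : q ∉ W)
    (hl : 0 < o p A q B) (hc : Chn p V A q B E) (hE : ∀ e ∈ E, e ∈ W ∧ e ∉ T)
    (hlen : 2 ≤ (T ++ A :: E).length) (hN : ∀ l ∈ St, l.Nodup)
    (hq1 : ∀ l ∈ St, ∀ d, Ed l q d → d ∉ W) : WH p St V W B (T ++ A :: E) := by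
  have hn := h.sim.nodup
  have hl0 := h.sim.len
  obtain ⟨hsim', hlam', hlamq, hpos'⟩ := ins_cut hgp h.sim hc
    (fun t ht => Or.inl (h.mem t (List.mem_cons_of_mem _ ht))) (fun e he => (hE e he).2) hlen
  have t0 : Tri3 q (B :: (T ++ [A])) A q B :=
    Or.inr (Or.inr (Or.inr ⟨rfl, rfl, by rw [← List.cons_append, List.getLast?_concat]⟩))
  obtain ⟨hAB, hqA, hqB, -, -, -⟩ := tri3_ne hn hl0 t0
  have hmo : ∀ t ∈ B :: (T ++ [A]), t ≠ q := by
    intro t ht he
    rw [he] at ht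
    exact (List.nodup_cons.1 hn).1 ht
  have hmem' : ∀ t ∈ B :: (T ++ A :: E), t ∈ B :: (T ++ [A]) ∨ t ∈ E := by
    intro t ht
    simp only [List.mem_cons, List.mem_append] at ht ⊢
    tauto
  have hmemo : ∀ t ∈ B :: (T ++ [A]), t ∈ B :: (T ++ A :: E) := by
    intro t ht
    simp only [List.mem_cons, List.mem_append] at ht ⊢
    tauto
  have hEn : ∀ e ∈ E, e ∉ q :: B :: (T ++ [A]) := by
    intro e he hm
    have h1 := hc.nodup
    rw [List.mem_cons, List.mem_cons, List.mem_append, List.mem_singleton] at hm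
    rcases hm with h2 | h2 | h2 | h2
    · rw [← h2] at hq
      exact hq (hE e he).1
    · rw [h2] at he
      have h3 := (List.nodup_cons.1 h1).2
      exact (List.disjoint_of_nodup_append h3) he (List.mem_singleton.2 rfl)
    · exact (hE e he).2 h2
    · rw [h2] at he
      exact (List.nodup_cons.1 h1).1 (List.mem_append_left _ he)
  obtain ⟨T1, a', hT1⟩ := gc_last B T
  obtain ⟨b', T0, hT0⟩ := gc_head T A
  obtain ⟨E0, e', hE0⟩ := gc_last A E
  obtain ⟨e1, E1, hE1⟩ := gc_head E B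
  have tA : Tri3 q (B :: (T ++ [A])) a' A q := by
    refine Or.inr (Or.inr (Or.inl ⟨T1, ?_, rfl⟩))
    rw [← List.cons_append, hT1]
    simp
  have tB : Tri3 q (B :: (T ++ [A])) q B b' := by
    refine Or.inr (Or.inl ⟨T0, ?_, rfl⟩)
    rw [hT0]
  have nA : Tri3 B (T ++ A :: E) a' A e1 := by
    refine gc_tri (S := T1) (T := E1) hlen ?_
    have h1 : B :: (T ++ A :: E ++ [B]) = (B :: T) ++ A :: (E ++ [B]) := by simp
    rw [h1, hT1, hE1]
    simp
  have nB : Tri3 B (T ++ A :: E) e' B b' := by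
    refine Or.inr (Or.inr (Or.inr ⟨rfl, ?_, ?_⟩))
    · have h1 : T ++ A :: E = (T ++ [A]) ++ E := by simp
      rw [h1, hT0]
      rfl
    · rw [hE0, ← List.append_assoc, List.getLast?_concat]
  -- spokes
  have eqA : Ed (cyc q (B :: (T ++ [A]))) q A := ed_symm (tri3_ed t0).1
  have eqB : Ed (cyc q (B :: (T ++ [A]))) q B := (tri3_ed t0).2
  have hsp : ∀ e ∈ A :: (E ++ [B]),
      (∀ a b, Ed (cyc q (B :: (T ++ [A]))) a b → ¬ X p q e a b) ∧
        ∀ l ∈ St, ∀ a b, Ed l a b → ¬ X p q e a b := by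
    intro e he
    rw [List.mem_cons, List.mem_append, List.mem_singleton] at he
    rcases he with he | he | he
    · rw [he]
      exact ⟨fun a b hab => h.sim.plane q A a b eqA hab, fun l hl a b hab =>
        h.fen q A eqA l hl a b hab⟩
    · have h1 := wh_spoke hgp h hc e he
      exact ⟨h1.2.1, h1.2.2⟩
    · rw [he]
      exact ⟨fun a b hab => h.sim.plane q B a b eqB hab, fun l hl a b hab =>
        h.fen q B eqB l hl a b hab⟩
  have hvc : ∀ l ∈ St, ∀ c d, Ed l c d → Vis p (Ed (cyc q (B :: (T ++ [A])))) c d := by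
    intro l hl c d hcd a b hab hX
    exact h.fen a b hab l hl c d hcd (X_comm.1 hX)
  have hqn : ∀ d, Ed (cyc q (B :: (T ++ [A]))) q d → d = A ∨ d = B := by
    intro d hd
    rcases ed_tri3 hn hl0 hd with ⟨z, h1⟩ | ⟨z, h1⟩
    · exact Or.inr (tri3_unique hn h1 t0).2
    · exact Or.inl (tri3_unique hn h1 t0).1
  have hqd : ∀ l ∈ St, ∀ d, Ed l q d → ¬ (0 < o p A q d ∧ 0 < o p q B d) := by
    intro l hl' d hd hh
    by_cases hdq : d = q
    · rw [hdq, o_self3] at hh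
      exact lt_irrefl 0 hh.1
    by_cases hdA : d = A
    · rw [hdA, o_self2] at hh
      exact lt_irrefl 0 hh.1
    by_cases hdB : d = B
    · rw [hdB, o_self3] at hh
      exact lt_irrefl 0 hh.2
    have hdW := hq1 l hl' d hd
    have hlf := (lf_left hgp hAB hqA hqB
      ⟨fun hh => hdq hh.symm, fun hh => hdA hh.symm, fun hh => hdB hh.symm⟩ hl).2 hh
    have hdV : d ∈ V := (h.span l hl' d).1 (ed_mem' hd)
    by_cases hdP : d ∈ q :: B :: (T ++ [A])
    · refine h.schord l hl' q d hd hq hdW List.mem_cons_self hdP ?_ A B t0 hlf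
      intro hed
      rcases hqn d hed with h1 | h1
      · exact hdA h1
      · exact hdB h1
    · have h1 := lam_vis hgp h.sim t0 hdP (hvc l hl' q d hd)
      rw [h.out d hdV hdW hdP, b2_true hlf] at h1
      exact zero_ne_one h1
  have hfen : ∀ x y, Nx (A :: (E ++ [B])) x y → ∀ l ∈ St, Vis p (Ed l) x y := by
    intro x y hxy l hl' c d hcd hX
    have hcV : c ∈ V := (h.span l hl' c).1 (ed_mem hcd)
    have hdV : d ∈ V := (h.span l hl' d).1 (ed_mem' hcd)
    by_cases hcq : c = q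
    · rw [hcq] at hcd hX
      have hdq : d ≠ q := fun hh => (X_ne hX).2.1 hh.symm
      exact reg_q hgp hc hdq (hqd l hl' d hcd) x y hxy hX
    by_cases hdq : d = q
    · rw [hdq] at hcd hX
      exact reg_q hgp hc hcq (hqd l hl' c (ed_symm hcd)) x y hxy (X_sw2.1 hX)
    exact (reg hgp hc hcq hdq (Or.inl hcV) (Or.inl hdV) (h.fen q A eqA l hl' c d hcd)
      (h.fen q B eqB l hl' c d hcd)).2 x y hxy hX
  have he1 : Nx (A :: (E ++ [B])) A e1 := ⟨[], E1, by rw [hE1]; rfl⟩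
  have he' : Nx (A :: (E ++ [B])) e' B := ⟨E0, [], by
    rw [← List.cons_append, hE0]
    simp⟩
  have me1 : e1 ∈ A :: (E ++ [B]) := by rw [hE1]; simp
  have me' : e' ∈ A :: (E ++ [B]) := by
    rw [← List.cons_append, hE0]
    simp
  obtain ⟨nA1, nA2, nA3, mA1, -, mA3⟩ := tri3_ne hsim'.nodup hsim'.len nA
  obtain ⟨nB1, nB2, nB3, mB1, -, mB3⟩ := tri3_ne hsim'.nodup hsim'.len nB
  obtain ⟨oA1, oA2, oA3, pA1, -, -⟩ := tri3_ne hn hl0 tA
  obtain ⟨oB1, oB2, oB3, -, -, pB3⟩ := tri3_ne hn hl0 tB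
  have hqe1 : q ≠ e1 := by
    intro hh
    rw [← hh] at mA3
    rcases hmem' q mA3 with h1 | h1
    · exact hmo q h1 rfl
    · exact hEn q h1 List.mem_cons_self
  have hqe' : q ≠ e' := by
    intro hh
    rw [← hh] at mB1
    rcases hmem' q mB1 with h1 | h1
    · exact hmo q h1 rfl
    · exact hEn q h1 List.mem_cons_self
  have sA : 0 < o p A q e1 := by
    have h1 := hc.ang A e1 (by
      rw [hE1]
      exact ((List.nil_sublist E1).cons_cons e1).cons_cons A)
    have h2 : o p A q e1 = - o p q A e1 := o_swap _ _ _ _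
    linarith
  have sB : 0 < o p B e' q := by
    have h1 := hc.ang e' B (by
      have h3 : A :: (E ++ [B]) = E0 ++ [e', B] := by
        rw [← List.cons_append, hE0]
        simp
      rw [h3]
      exact List.sublist_append_right _ _)
    have h2 : o p B e' q = - o p q e' B := o_swap'' _ _ _ _
    linarith
  have cA : ∀ d ∈ V, d ≠ q → d ≠ e1 → ¬ X p q e1 A d →
      ¬ (0 < o p A q d ∧ 0 < o p A d e1) := by
    intro d hd h1 h2 h3
    exact gc_cone hgp hqe1 h1.symm h2.symm sA h3 (hc.emp A e1 he1 d hd)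
  have cB : ∀ d ∈ V, d ≠ q → d ≠ e' → ¬ X p q e' B d →
      ¬ (0 < o p B e' d ∧ 0 < o p B d q) := by
    intro d hd h1 h2 h3
    exact gc_cone' hgp hqe' h1.symm h2.symm sB h3 (hc.emp e' B he' d hd)
  have cA' : ¬ (0 < o p A q a' ∧ 0 < o p A a' e1) :=
    cA a' (h.mem a' pA1) oA1 nA1 ((hsp e1 me1).1 A a' (ed_symm (tri3_ed tA).1))
  have cB' : ¬ (0 < o p B e' b' ∧ 0 < o p B b' q) :=
    cB b' (h.mem b' pB3) oB1.symm nB1.symm ((hsp e' me').1 B b' (tri3_ed tB).2)
  have hLo : ∀ l ∈ St, ∀ c d, Ed l c d → d ∈ W → d ∉ q :: B :: (T ++ [A]) →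
      ∀ a b, Tri3 q (B :: (T ++ [A])) a c b → Lf p a c b d := by
    intro l hl' c d hcd hdW hdP a b ht
    have h1 := lam_vis hgp h.sim ht hdP (hvc l hl' c d hcd)
    rw [h.inn d hdW hdP] at h1
    exact b2_eq_one.1 h1.symm
  have hno : ∀ a c b d, Tri3 q (B :: (T ++ [A])) a c b → d ≠ a → d ≠ b →
      ¬ Ed (cyc q (B :: (T ++ [A]))) c d := by
    intro a c b d ht h1 h2 hed
    rcases ed_tri3 hn hl0 hed with ⟨z, h3⟩ | ⟨z, h3⟩
    · exact h2 (tri3_unique hn h3 ht).2
    · exact h1 (tri3_unique hn h3 ht).1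
  have hTm : ∀ g ∈ T, g ∈ q :: B :: (T ++ [A]) := by
    intro g hg
    simp only [List.mem_cons, List.mem_append]
    tauto
  have hOm : ∀ g ∈ B :: (T ++ [A]), g ∈ q :: B :: (T ++ [A]) := fun g hg =>
    List.mem_cons_of_mem _ hg
  have hcase : ∀ g ∈ B :: (T ++ A :: E), g = B ∨ g ∈ T ∨ g = A ∨ g ∈ E := by
    intro g hg
    simp only [List.mem_cons, List.mem_append] at hg
    exact hg
  have hEV : ∀ z, z ∉ q :: B :: (T ++ [A]) → z ∉ E → z ∈ V →
      Lam p B (T ++ A :: E) z = Lam p q (B :: (T ++ [A])) z := fun z h1 h2 h3 =>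
    hlam' z h1 h2 (fun x y hxy => hc.emp x y hxy z h3)
  have hnm : ∀ z, z ≠ q → z ∉ B :: (T ++ A :: E) → z ∉ q :: B :: (T ++ [A]) ∧ z ∉ E := by
    intro z h1 h2
    constructor
    · intro h3
      rcases List.mem_cons.1 h3 with h4 | h4
      · exact h1 h4
      · exact h2 (hmemo z h4)
    · intro h3
      apply h2
      simp only [List.mem_cons, List.mem_append]
      tauto
  -- the old sector contains the edges with a free end
  have hold : ∀ l ∈ St, ∀ c d, Ed l c d → (c ∈ W ∨ d ∈ W) → c ∈ B :: (T ++ [A]) →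
      d ∈ B :: (T ++ A :: E) → ∀ a b, Tri3 q (B :: (T ++ [A])) a c b → d ≠ a → d ≠ b →
      Lf p a c b d := by
    intro l hl' c d hcd hw hcP hdP a b ht h1 h2
    rcases hmem' d hdP with h3 | h3
    · exact h.chord l hl' c d hcd hw (hOm c hcP) (hOm d h3) (hno a c b d ht h1 h2) a b ht
    · exact hLo l hl' c d hcd (hE d h3).1 (hEn d h3) a b ht
  have holds : ∀ l ∈ St, ∀ c d, Ed l c d → c ∉ W → d ∉ W → c ∈ B :: (T ++ [A]) →
      d ∈ B :: (T ++ A :: E) → ∀ a b, Tri3 q (B :: (T ++ [A])) a c b → d ≠ a → d ≠ b →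
      ¬ Lf p a c b d := by
    intro l hl' c d hcd hcW hdW hcP hdP a b ht h1 h2
    rcases hmem' d hdP with h3 | h3
    · exact h.schord l hl' c d hcd hcW hdW (hOm c hcP) (hOm d h3) (hno a c b d ht h1 h2) a b ht
    · exact absurd (hE d h3).1 hdW
  have hdq' : ∀ d ∈ B :: (T ++ A :: E), d ≠ q := by
    intro d hd hh
    rcases hmem' d hd with h1 | h1
    · exact hmo d h1 hh
    · rw [hh] at h1
      exact hEn q h1 List.mem_cons_self
  have mAo : A ∈ B :: (T ++ [A]) := by simp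
  have mBo : B ∈ B :: (T ++ [A]) := List.mem_cons_self
  refine
    { sim := hsim'
      pos := hpos' h.pos
      mem := ?_
      wsub := h.wsub
      plane := h.plane
      span := h.span
      nd := h.nd
      fen := ?_
      conv := ?_
      inn := ?_
      out := ?_
      clo := ?_
      chord := ?_
      schord := ?_ }
  · intro t ht
    rcases hmem' t ht with h1 | h1
    · exact h.mem t (hOm t h1)
    · exact (hc.mem t h1).1
  · intro a b hab l hl'
    have h1 : cyc B (T ++ A :: E) = (B :: T) ++ A :: (E ++ [B]) := by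
      unfold cyc
      simp
    rw [h1, ed_mid] at hab
    rcases hab with h2 | h2
    · refine h.fen a b ?_ l hl'
      have h3 : cyc q (B :: (T ++ [A])) = [q] ++ ((B :: T) ++ [A]) ++ [q] := by
        unfold cyc
        simp
      rw [h3]
      exact gc_inf _ _ h2
    · obtain ⟨X, Y, h3 | h3⟩ := ed_split h2
      · exact hfen a b ⟨X, Y, h3⟩ l hl'
      · exact Vis_comm.1 (hfen b a ⟨X, Y, h3⟩ l hl')
  · intro A' g B' ht hg
    rcases hcase g (tri3_ne hsim'.nodup hsim'.len ht).2.2.2.2.1 with h1 | h1 | h1 | h1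
    · -- B
      subst h1
      obtain ⟨r1, r2⟩ := tri3_unique hsim'.nodup ht nB
      rw [r1, r2]
      have h2 : 0 < o p q g b' := h.conv q g b' tB hg
      have h3 : o p g b' q = o p q g b' := o_rot _ _ _ _
      have h4 : ¬ 0 < o p g e' b' := fun h5 => cB' ⟨h5, by rw [h3]; exact h2⟩
      have h5 : o p g e' b' ≠ 0 := hgp.ne g e' b' nB2 nB1 nB3
      have h6 : o p e' g b' = - o p g e' b' := o_swap _ _ _ _
      have h7 : o p g e' b' < 0 := lt_of_le_of_ne (not_lt.1 h4) h5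
      linarith
    · obtain ⟨a, b, h2, h3⟩ := gc_T (q := q) (B := B) (E := E) hlen h1
      obtain ⟨r1, r2⟩ := tri3_unique hsim'.nodup ht h3
      rw [r1, r2]
      exact h.conv a g b h2 hg
    · -- A
      subst h1
      obtain ⟨r1, r2⟩ := tri3_unique hsim'.nodup ht nA
      rw [r1, r2]
      have h2 : 0 < o p a' g q := h.conv a' g q tA hg
      have h3 : o p g q a' = o p a' g q := o_rot _ _ _ _
      have h4 : ¬ 0 < o p g a' e1 := fun h5 => cA' ⟨by rw [h3]; exact h2, h5⟩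
      have h5 : o p g a' e1 ≠ 0 := hgp.ne g a' e1 nA2 nA1 nA3
      have h6 : o p a' g e1 = - o p g a' e1 := o_swap _ _ _ _
      have h7 : o p g a' e1 < 0 := lt_of_le_of_ne (not_lt.1 h4) h5
      linarith
    · obtain ⟨x, y, h2, -, -, h3⟩ := gc_E (T := T) hlen h1
      obtain ⟨r1, r2⟩ := tri3_unique hsim'.nodup ht h2
      rw [r1, r2]
      exact hc.conv x g y h3
  · intro u hu hun
    have huq : u ≠ q := fun hh => hq (hh ▸ hu)
    obtain ⟨h1, h2⟩ := hnm u huq hun
    rw [hEV u h1 h2 (h.wsub u hu)]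
    exact h.inn u hu h1
  · intro s hs hsW hsn
    by_cases hsq : s = q
    · rw [hsq]
      exact hlamq
    obtain ⟨h1, h2⟩ := hnm s hsq hsn
    rw [hEV s h1 h2 hs]
    exact h.out s hs hsW h1
  · intro l hl' c d hcd hcW
    rcases h.clo l hl' c d hcd hcW with h1 | h1
    · exact Or.inl h1
    · rcases List.mem_cons.1 h1 with h2 | h2
      · rw [h2] at hcd
        exact absurd hcW (hq1 l hl' c (ed_symm hcd))
      · exact Or.inr (hmemo d h2)
  · -- chord
    intro l hl' c d hcd hw hcP hdP hne A' B' ht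
    have hdc : c ≠ d := ed_ne (hN l hl') hcd
    have hdA : d ≠ A' := fun hh => hne (hh ▸ ed_symm (tri3_ed ht).1)
    have hdB : d ≠ B' := fun hh => hne (hh ▸ (tri3_ed ht).2)
    have hdV : d ∈ V := (h.span l hl' d).1 (ed_mem' hcd)
    have hdq := hdq' d hdP
    rcases hcase c hcP with h1 | h1 | h1 | h1
    · subst h1
      obtain ⟨r1, r2⟩ := tri3_unique hsim'.nodup ht nB
      rw [r1] at hdA
      rw [r2] at hdB
      rw [r1, r2]
      have h2 := hold l hl' c d hcd hw mBo hdP q b' tB hdq hdB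
      exact (gc_prev hgp hqB.symm nB2 nB3 hdc oB1 hdq.symm nB1 hdA.symm hdB.symm sB cB').2
        (cB d hdV hdq hdA ((hsp e' me').2 l hl' c d hcd)) h2
    · obtain ⟨a, b, h2, h3⟩ := gc_T (q := q) (B := B) (E := E) hlen h1
      obtain ⟨r1, r2⟩ := tri3_unique hsim'.nodup ht h3
      rw [r1] at hdA
      rw [r2] at hdB
      rw [r1, r2]
      exact hold l hl' c d hcd hw (List.mem_cons_of_mem _ (List.mem_append_left _ h1)) hdP a b
        h2 hdA hdB
    · subst h1
      obtain ⟨r1, r2⟩ := tri3_unique hsim'.nodup ht nA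
      rw [r1] at hdA
      rw [r2] at hdB
      rw [r1, r2]
      have h2 := hold l hl' c d hcd hw mAo hdP a' q tA hdA hdq
      exact (gc_next hgp hqA.symm nA3 nA2 hdc oA1.symm hdq.symm nA1.symm hdB.symm hdA.symm
        sA cA').2 (cA d hdV hdq hdB ((hsp e1 me1).2 l hl' c d hcd)) h2
    · obtain ⟨x, y, h2, h3, h4, -⟩ := gc_E (T := T) hlen h1
      obtain ⟨r1, r2⟩ := tri3_unique hsim'.nodup ht h2
      rw [r1] at hdA
      rw [r2] at hdB
      rw [r1, r2]
      obtain ⟨g1, g2⟩ := reg_left hgp hc h3 h4 (Or.inl hdV) hdc.symm hdq hdA hdB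
        (h.fen q A eqA l hl' c d hcd) (h.fen q B eqB l hl' c d hcd)
      have h5 : o p c d x = o p x c d := o_rot _ _ _ _
      exact Or.inl ⟨g2, by rw [h5]; exact g1⟩
  · -- schord
    intro l hl' c d hcd hcW hdW hcP hdP hne A' B' ht
    have hdc : c ≠ d := ed_ne (hN l hl') hcd
    have hdA : d ≠ A' := fun hh => hne (hh ▸ ed_symm (tri3_ed ht).1)
    have hdB : d ≠ B' := fun hh => hne (hh ▸ (tri3_ed ht).2)
    have hdq := hdq' d hdP
    rcases hcase c hcP with h1 | h1 | h1 | h1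
    · subst h1
      obtain ⟨r1, r2⟩ := tri3_unique hsim'.nodup ht nB
      rw [r1] at hdA
      rw [r2] at hdB
      rw [r1, r2]
      intro h3
      exact holds l hl' c d hcd hcW hdW mBo hdP q b' tB hdq hdB
        ((gc_prev hgp hqB.symm nB2 nB3 hdc oB1 hdq.symm nB1 hdA.symm hdB.symm sB cB').1 h3)
    · obtain ⟨a, b, h2, h3⟩ := gc_T (q := q) (B := B) (E := E) hlen h1
      obtain ⟨r1, r2⟩ := tri3_unique hsim'.nodup ht h3
      rw [r1] at hdA
      rw [r2] at hdB
      rw [r1, r2]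
      exact holds l hl' c d hcd hcW hdW (List.mem_cons_of_mem _ (List.mem_append_left _ h1))
        hdP a b h2 hdA hdB
    · subst h1
      obtain ⟨r1, r2⟩ := tri3_unique hsim'.nodup ht nA
      rw [r1] at hdA
      rw [r2] at hdB
      rw [r1, r2]
      intro h3
      exact holds l hl' c d hcd hcW hdW mAo hdP a' q tA hdA hdq
        ((gc_next hgp hqA.symm nA3 nA2 hdc oA1.symm hdq.symm nA1.symm hdB.symm hdA.symm
          sA cA').1 h3)
    · exact absurd (hE c h1).1 hcW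

/-- the triangle: a point on the left of the polygon `q, B, A` is inside the triangle -/
private theorem gc_triangle (hgp : GP p) {q A B w : α} (hl : 0 < o p A q B) (hAB : A ≠ B)
    (hqA : q ≠ A) (hqB : q ≠ B) (hwq : w ≠ q) (hwA : w ≠ A) (hwB : w ≠ B)
    (h : Lam p q [B, A] w = 1) : InTri p q A B w := by
  have h1 : Lam p q [B, A] w = b2 (X p q w B A) + b2 (Lf p A q B w) := by
    unfold Lam cyc
    simp only [List.cons_append, List.nil_append, xc_cons2, xc_one, List.head?_cons]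
    have e1 : b2 (X p q w q B) = 0 := b2_false not_X_of_eq1
    have e2 : b2 (X p q w A q) = 0 := b2_false not_X_of_eq2
    have e3 : b2 (∃ A' B', some B = some B' ∧ [B, A].getLast? = some A' ∧ Lf p A' q B' w) =
        b2 (Lf p A q B w) := by
      apply b2_congr
      constructor
      · rintro ⟨A', B', h1, h2, h3⟩
        have h4 : [B, A].getLast? = some A := rfl
        rw [h4] at h2
        rw [Option.some.inj h1, Option.some.inj h2]
        exact h3
      · intro h1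
        exact ⟨A, B, rfl, rfl, h1⟩
    rw [e1, e2, e3]
    ring
  rw [h1] at h
  have h2 := lf_left hgp hAB hqA hqB ⟨hwq.symm, hwA.symm, hwB.symm⟩ hl
  have n1 := hgp.ne A B w hAB hwB.symm hwA.symm
  have s1 : o p q A w = - o p A q w := o_swap _ _ _ _
  have s2 : o p B q w = - o p q B w := o_swap _ _ _ _
  have s3 : o p q w B = - o p q B w := o_swap' _ _ _ _
  have s4 : o p q w A = o p A q w := o_rot _ _ _ _
  have s5 : o p B A q = o p A q B := o_rot' _ _ _ _
  have s6 : o p B A w = - o p A B w := o_swap _ _ _ _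
  by_cases hlf : Lf p A q B w
  · obtain ⟨g1, g2⟩ := h2.1 hlf
    rcases lt_or_gt_of_ne n1 with h3 | h3
    · exact Or.inr ⟨by linarith, h3, by linarith⟩
    · exfalso
      have hX : X p q w B A := by
        constructor
        · rw [s3, s4]
          nlinarith [mul_pos g1 g2]
        · rw [s5, s6]
          nlinarith [mul_pos hl h3]
      rw [b2_true hX, b2_true hlf] at h
      exact absurd h (by decide)
  · exfalso
    rw [b2_false hlf, add_zero, b2_eq_one] at h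
    obtain ⟨hX1, hX2⟩ := h
    rw [s3, s4] at hX1
    rw [s5, s6] at hX2
    have h4 : 0 < o p A B w := by nlinarith
    have h5 : 0 < o p q B w * o p A q w := by nlinarith
    have h6 : ¬ (0 < o p A q w ∧ 0 < o p q B w) := fun hh => hlf (h2.2 hh)
    have hid : o p A q w + o p q B w = o p A q B + o p A B w := by
      unfold o
      ring
    rcases lt_trichotomy (o p A q w) 0 with h7 | h7 | h7
    · have h8 : o p q B w < 0 := by nlinarith
      linarith
    · rw [h7, mul_zero] at h5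
      exact lt_irrefl 0 h5
    · have h8 : 0 < o p q B w := by nlinarith
      exact h6 ⟨h7, h8⟩

/-- cutting the convex static vertex `q` -/
theorem wh_cut [Finite α] (hgp : GP p) {St : Set (List α)} (_hne : St.Nonempty)
    {V W : Set α}
    {q A B : α} {T : List α}
    (h : WH p St V W q (B :: (T ++ [A]))) (hq : q ∉ W) (hl : 0 < o p A q B)
    (hnd : T ≠ [] ∨ ∃ w ∈ W, w ≠ A ∧ w ≠ B) (hq1 : ∀ l ∈ St, ∀ d, Ed l q d → d ∉ W) :
    ∃ E, Chn p V A q B E ∧ ((∃ e ∈ E, e ∈ T ∧ e ∉ W) ∨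
      ((∀ e ∈ E, e ∈ W ∧ e ∉ T) ∧ WH p St V W B (T ++ A :: E))) := by
  obtain ⟨E, hc⟩ := chain hgp V hl
  refine ⟨E, hc, ?_⟩
  have hf := wh_chain_free hgp h hc
  by_cases hex : ∃ e ∈ E, e ∉ W
  · obtain ⟨e, he, heW⟩ := hex
    rcases hf e he with h1 | h1
    · exact absurd h1.1 heW
    · exact Or.inl ⟨e, he, h1.2, heW⟩
  · have hE : ∀ e ∈ E, e ∈ W ∧ e ∉ T := by
      intro e he
      rcases hf e he with h1 | h1
      · exact h1
      · exact absurd ⟨e, he, h1.1⟩ hex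
    refine Or.inr ⟨hE, gc_main hgp h hq hl hc hE ?_ h.nd hq1⟩
    by_contra hlen
    rw [List.length_append, List.length_cons] at hlen
    have hT : T = [] := List.eq_nil_of_length_eq_zero (by omega)
    have hE0 : E = [] := List.eq_nil_of_length_eq_zero (by omega)
    rcases hnd with h1 | ⟨w, hw, hwA, hwB⟩
    · exact h1 hT
    · have t0 : Tri3 q (B :: (T ++ [A])) A q B :=
        Or.inr (Or.inr (Or.inr ⟨rfl, rfl, by rw [← List.cons_append, List.getLast?_concat]⟩))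
      obtain ⟨hAB, hqA, hqB, -, -, -⟩ := tri3_ne h.sim.nodup h.sim.len t0
      have hwq : w ≠ q := fun hh => hq (hh ▸ hw)
      have hwm : w ∉ q :: B :: (T ++ [A]) := by
        rw [hT]
        simp [hwq, hwA, hwB]
      have h2 := h.inn w hw hwm
      rw [hT] at h2
      have h3 := gc_triangle hgp hl hAB hqA hqB hwq hwA hwB h2
      exact hc.emp A B ⟨[], [], by rw [hE0]; rfl⟩ w (h.wsub w hw) h3

end FPW
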