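import Pool.Agent.Lib.MP_deef39_co_Ord.GDef2
import Pool.Agent.Lib.MP_deef39_co_Ord.GHull
import Pool.Agent.Lib.MP_deef39_co_Ord.GRot
import Pool.Agent.Lib.MP_deef39_co_Ord.GArc
import Pool.Agent.Lib.MP_deef39_co_Ord.GWSpoke
import Pool.Agent.Lib.MP_deef39_co_Ord.GWCut

set_option autoImplicit false

namespace FPW

variable {α : Type*} {p : α → ℝ × ℝ}

/-! ## R19 GLoop: the cut loops -/

/-- an inner vertex of the first part of the polygon has the same neighbours when the second
part is changed -/
private theorem tri3_first {x A g B : α} {S R R' : List α} (hn : (x :: (S ++ R)).Nodup)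
    (h : Tri3 x (S ++ R) A g B) (hg : g ∈ S) (hl : S.getLast? ≠ some g) :
    Tri3 x (S ++ R') A g B := by
  obtain ⟨L, M, rfl⟩ := List.append_of_mem hg
  cases M with
  | nil => exact absurd (by simp) hl
  | cons b M =>
    rcases List.eq_nil_or_concat L with h' | ⟨L', a, h'⟩
    · subst h'
      have h1 : ∀ R : List α, Tri3 x (([] ++ g :: b :: M) ++ R) x g b := fun R =>
        Or.inr (Or.inl ⟨M ++ R, by simp, rfl⟩)
      obtain ⟨rfl, rfl⟩ := tri3_unique hn h (h1 R)
      exact h1 R'
    · rw [List.concat_eq_append] at h'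
      subst h'
      have h1 : ∀ R : List α, Tri3 x (((L' ++ [a]) ++ g :: b :: M) ++ R) a g b := fun R =>
        Or.inl ⟨L', M ++ R, by simp⟩
      obtain ⟨rfl, rfl⟩ := tri3_unique hn h (h1 R)
      exact h1 R'

/-- a path of `PS` in the form needed for the connectivity lemmas -/
private theorem ps_path {Q : List α} {x : α} {W : Set α} (hne : (PS p Q x W).Nonempty) :
    ∃ C, Q ++ x :: C ∈ PS p Q x W ∧ (Q ++ x :: C).Nodup ∧ ∀ t, t ∈ C ↔ t ∈ W := by
  obtain ⟨l, hl⟩ := hne
  obtain ⟨C, rfl, h1, h2, h3⟩ := id hl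
  exact ⟨C, hl, h1, h2⟩

/-- the edges of `Q ++ x :: C` at a vertex before `x` do not lead into `C` -/
private theorem ed_front {x c d : α} {C : List α} : ∀ {Q : List α}, (Q ++ x :: C).Nodup →
    c ≠ x → c ∉ C → Ed (Q ++ x :: C) c d → d ∉ C
  | [], hn, hcx, hcC, h => by
    cases C with
    | nil => simp
    | cons b C =>
      rcases h with ⟨h1, -⟩ | ⟨h1, -⟩ | h1
      · exact absurd h1 hcx
      · exact absurd (h1 ▸ List.mem_cons_self) hcC
      · exact absurd (ed_mem h1) hcC
  | a :: Q, hn, hcx, hcC, h => by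
    have hn' : (Q ++ x :: C).Nodup := (List.nodup_cons.1 hn).2
    have haC : a ∉ C := fun hh => (List.nodup_cons.1 hn).1 (by simp [hh])
    cases Q with
    | nil =>
      rcases h with ⟨-, h1⟩ | ⟨h1, -⟩ | h1
      · intro hh
        exact (List.nodup_cons.1 hn').1 (h1 ▸ hh)
      · exact absurd h1 hcx
      · exact ed_front hn' hcx hcC h1
    | cons b Q =>
      rcases h with ⟨-, h1⟩ | ⟨-, h1⟩ | h1
      · intro hh
        have : b ∉ Q ++ x :: C := (List.nodup_cons.1 hn').1
        exact this (by rw [← h1]; simp [hh])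
      · exact h1 ▸ haC
      · exact ed_front hn' hcx hcC h1

/-- cutting the last static vertex -/
theorem cut_last [Finite α] (hgp : GP p) {Q : List α} {x v : α} {V W : Set α}
    (hne : (PS p Q x W).Nonempty) (hW : W.Nontrivial) (hx : x ∉ W) {S E' : List α} {c : α}
    (h : WH p (PS p Q x W) V W x (S ++ c :: E')) (hE' : ∀ e ∈ E', e ∈ W) (hc : c ∉ W)
    (hfree : ∃ f ∈ S, f ∈ W) (hv : S.head? = some v ∨ v ∉ S)
    (hr : ∀ A g B, Tri3 x (S ++ c :: E') A g B → g ∈ S → g ∉ W → g ≠ v → o p A g B < 0)
    (hl : ∀ A B, Tri3 x (S ++ c :: E') A c B → 0 < o p A c B) :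
    ∃ E, (∀ e ∈ E, e ∈ W) ∧ WH p (PS p Q x W) V W x (S ++ (E ++ E')) ∧
      CutStep p (PS p Q x W) V W x (S ++ c :: E') (S ++ (E ++ E')) := by
  obtain ⟨f, hfS, hfW⟩ := hfree
  have hnd := h.sim.nodup
  have hlen := h.sim.len
  have h1 : WH p (PS p Q x W) V W c (E' ++ x :: S) := wh_rot hgp h
  obtain ⟨S', A, rfl⟩ : ∃ S' A, S = S' ++ [A] := by
    rcases List.eq_nil_or_concat S with h' | ⟨S', A, h'⟩
    · rw [h'] at hfS
      exact absurd hfS (by simp)
    · exact ⟨S', A, by rw [h', List.concat_eq_append]⟩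
  obtain ⟨C, hlC, hnC, hWC⟩ := ps_path hne
  have hrot : ∀ {A' g' B' : α}, Tri3 c (E' ++ x :: (S' ++ [A])) A' g' B' ↔
      Tri3 x ((S' ++ [A]) ++ c :: E') A' g' B' := fun {A' g' B'} => tri3_rot hnd hlen
  have hxS : x ∉ S' ++ [A] := by
    intro hh
    exact (List.nodup_cons.1 hnd).1 (List.mem_append_left _ hh)
  have hnd1 := h1.sim.nodup
  have hcx : c ≠ x := by
    rintro rfl
    exact (List.nodup_cons.1 hnd).1 (by simp)
  -- the polygon with base c as B :: (T0 ++ [A])
  obtain ⟨B, R, hBR⟩ : ∃ B R, E' ++ [x] = B :: R := by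
    cases E' with
    | nil => exact ⟨x, [], rfl⟩
    | cons b E1 => exact ⟨b, E1 ++ [x], rfl⟩
  have hpoly : E' ++ x :: (S' ++ [A]) = B :: ((R ++ S') ++ [A]) := by
    have : E' ++ x :: (S' ++ [A]) = (E' ++ [x]) ++ (S' ++ [A]) := by simp
    rw [this, hBR]
    simp
  have hT3 : Tri3 c (E' ++ x :: (S' ++ [A])) A c B := by
    refine Or.inr (Or.inr (Or.inr ⟨rfl, ?_, ?_⟩))
    · rw [hpoly]; rfl
    · rw [hpoly, ← List.cons_append]
      exact List.getLast?_concat
  have hleft : 0 < o p A c B := hl A B (hrot.1 hT3)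
  have h2 : WH p (PS p Q x W) V W c (B :: ((R ++ S') ++ [A])) := hpoly ▸ h1
  have hEW : ∀ e ∈ E', e ∈ W := hE'
  have hBR' : ∀ t, t ∈ B :: R ↔ t ∈ E' ∨ t = x := by
    intro t
    rw [← hBR]
    simp
  have hnd2 : (R ++ S') ≠ [] ∨ ∃ w ∈ W, w ≠ A ∧ w ≠ B := by
    by_cases hR : R = []
    · right
      obtain ⟨w, hw, hwA⟩ := hW.exists_ne A
      refine ⟨w, hw, hwA, ?_⟩
      rintro rfl
      have : E' = [] ∧ w = x := by
        rw [hR] at hBR
        cases E' with
        | nil => exact ⟨rfl, (by simpa using hBR : x = w).symm⟩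
        | cons b E1 => simp at hBR
      exact hx (this.2 ▸ hw)
    · left
      intro hh
      exact hR (List.append_eq_nil_iff.1 hh).1
  have hq1 : ∀ l ∈ PS p Q x W, ∀ d, Ed l c d → d ∉ W := by
    intro l hl1 d hd hdW
    obtain ⟨C1, rfl, hn1, hC1, -⟩ := id hl1
    exact ed_front hn1 hcx (fun hh => hc ((hC1 c).1 hh)) hd ((hC1 d).2 hdW)
  obtain ⟨E, hE, hcase⟩ := wh_cut hgp hne h2 hc hleft hnd2 hq1
  have hsp := wh_spoke hgp h2 hE
  rcases hcase with ⟨e, heE, heT, heW⟩ | ⟨hall, hWH⟩
  · exfalso
    obtain ⟨hs1, hs2, hs3⟩ := hsp e heE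
    rw [← hpoly] at hs2
    rcases List.mem_append.1 heT with heR | heS
    · -- e = x
      have hex : e = x := by
        rcases (hBR' e).1 (List.mem_cons_of_mem _ heR) with h' | h'
        · exact absurd (hEW e h') heW
        · exact h'
      subst hex
      have hE0 : E' ≠ [] := by
        rintro rfl
        simp only [List.nil_append, List.cons.injEq] at hBR
        rw [← hBR.2] at heR
        exact absurd heR (by simp)
      rcases arc_tip hgp h1 hc hx hE0 (by simp) hs2 hs3 hT3 hs1 hlC hnC hWC (Or.inr rfl)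
        with h' | h'
      · obtain ⟨e1, he1⟩ := List.exists_mem_of_ne_nil E' hE0
        exact h' e1 he1 (hEW e1 he1)
      · exact h' f hfS hfW
    · -- e in S'
      obtain ⟨S1, S2, rfl⟩ := List.append_of_mem heS
      have hform : E' ++ x :: ((S1 ++ e :: S2) ++ [A]) =
          (E' ++ x :: S1) ++ e :: (S2 ++ [A]) := by simp
      rw [hform] at h1 hs2 hT3
      have h3 : ∀ t ∈ S2 ++ [A], t ∉ W :=
        arc_conn2 hgp h1 hc heW (by simp) (by simp) hs2 hs3 hT3 hs1 hlC hnC hWC (by simp)
      refine tc' hgp h1.sim h1.pos (by simp) (by simp) hs2 hT3 hs1 ?_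
      intro A' g B' hg3 hg
      rw [← hform] at hg3
      have hgS : g ∈ (S1 ++ e :: S2) ++ [A] := by
        simp only [List.append_assoc, List.cons_append, List.mem_append, List.mem_cons] at hg ⊢
        tauto
      refine hr A' g B' (hrot.1 hg3) hgS (h3 g hg) ?_
      rintro rfl
      rcases hv with hv | hv
      · -- g is the head of the list and a later entry
        have hn1 : ((S1 ++ e :: S2) ++ [A]).Nodup := by
          have := (List.nodup_cons.1 hnd).2
          exact (List.nodup_append.1 this).1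
        cases S1 with
        | nil =>
          have hge : e = g := by simpa using hv
          subst hge
          simp only [List.nil_append, List.cons_append, List.nodup_cons] at hn1
          exact hn1.1 hg
        | cons s S1 =>
          have hge : s = g := by simpa using hv
          subst hge
          simp only [List.cons_append, List.nodup_cons] at hn1
          refine hn1.1 ?_
          simp only [List.append_assoc, List.cons_append, List.mem_append,
            List.mem_cons] at hg ⊢
          tauto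
      · exact hv hgS
  · refine ⟨E, fun e he => (hall e he).1, ?_, ?_⟩
    · cases E' with
      | nil =>
        have hB : B = x ∧ R = [] := by
          simp only [List.nil_append, List.cons.injEq] at hBR
          exact ⟨hBR.1.symm, hBR.2.symm⟩
        obtain ⟨rfl, rfl⟩ := hB
        simpa using hWH
      | cons b E1 =>
        have hB : B = b ∧ R = E1 ++ [x] := by
          simp only [List.cons_append, List.cons.injEq] at hBR
          exact ⟨hBR.1.symm, hBR.2.symm⟩
        obtain ⟨rfl, rfl⟩ := hB
        have h4 : WH p (PS p Q x W) V W B (E1 ++ x :: ((S' ++ [A]) ++ E)) := by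
          simpa using hWH
        have h5 := wh_rot hgp h4
        simpa using h5
    · refine ⟨x :: S', A, c, B, R, E, ?_, ?_, hcx, hc, hleft, hE,
        fun e he => (hall e he).1, fun e he => (hsp e he).2.2⟩
      · have : cyc x ((S' ++ [A]) ++ c :: E') = (x :: S') ++ A :: c :: (E' ++ [x]) := by
          simp [cyc]
        rw [this, hBR]
      · have : cyc x ((S' ++ [A]) ++ (E ++ E')) = (x :: S') ++ A :: (E ++ (E' ++ [x])) := by
          simp [cyc]
        rw [this, hBR]

theorem cutL_loop [Finite α] (hgp : GP p) {Q : List α} {x v : α} {V W : Set α}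
    (hne : (PS p Q x W).Nonempty) (hW : W.Nontrivial) (hx : x ∉ W) (S : List α) :
    ∀ E' : List α, WH p (PS p Q x W) V W x (S ++ E') → (∀ e ∈ E', e ∈ W) →
      (∃ f ∈ S, f ∈ W) → (S.head? = some v ∨ v ∉ S) →
      (∀ A g B, Tri3 x (S ++ E') A g B → g ∈ S → g ∉ W → g ≠ v → S.getLast? ≠ some g →
        o p A g B < 0) →
      ∃ S' D E'', S = S' ++ D ∧ (∀ g ∈ D, g ∉ W) ∧ (∀ e ∈ E'', e ∈ W) ∧
        WH p (PS p Q x W) V W x (S' ++ E'') ∧
        Relation.ReflTransGen (CutStep p (PS p Q x W) V W x) (S ++ E') (S' ++ E'') ∧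
        ∀ A g B, Tri3 x (S' ++ E'') A g B → g ∈ S' → g ∉ W → g ≠ v → o p A g B < 0 := by
  induction S using List.reverseRecOn with
  | nil =>
    intro E' _ _ hf
    obtain ⟨f, hf, _⟩ := hf
    exact absurd hf (by simp)
  | append_singleton S1 c ih =>
    intro E' h hE' hf hv hr
    have hnd := h.sim.nodup
    by_cases hgood : c ∈ W ∨ c = v ∨ ∃ A B, Tri3 x ((S1 ++ [c]) ++ E') A c B ∧ o p A c B < 0
    · refine ⟨S1 ++ [c], [], E', by simp, by simp, hE', h, Relation.ReflTransGen.refl, ?_⟩
      intro A g B h3 hg hgW hgv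
      by_cases hgc : g = c
      · subst hgc
        rcases hgood with h' | h' | ⟨A', B', h', h''⟩
        · exact absurd h' hgW
        · exact absurd h' hgv
        · obtain ⟨rfl, rfl⟩ := tri3_unique hnd h3 h'
          exact h''
      · refine hr A g B h3 hg hgW hgv ?_
        intro hh
        rw [List.getLast?_concat] at hh
        exact hgc (Option.some.inj hh).symm
    · have hcW : c ∉ W := fun hh => hgood (Or.inl hh)
      have hcv : c ≠ v := fun hh => hgood (Or.inr (Or.inl hh))
      have hright : ∀ A B, Tri3 x ((S1 ++ [c]) ++ E') A c B → 0 < o p A c B := by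
        intro A B h3
        have hne3 := tri3_ne hnd h.sim.len h3
        have h0 : o p A c B ≠ 0 := hgp.ne A c B hne3.2.1.symm hne3.2.2.1 hne3.1
        rcases lt_or_gt_of_ne h0 with h' | h'
        · exact absurd (Or.inr (Or.inr ⟨A, B, h3, h'⟩)) hgood
        · exact h'
      obtain ⟨f, hfS, hfW⟩ := hf
      have hfS1 : f ∈ S1 := by
        rcases List.mem_append.1 hfS with h' | h'
        · exact h'
        · rw [List.mem_singleton] at h'
          exact absurd (h' ▸ hfW) hcW
      have hv1 : S1.head? = some v ∨ v ∉ S1 := by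
        rcases hv with h' | h'
        · left
          cases S1 with
          | nil => exact absurd hfS1 (by simp)
          | cons s S1 => simpa using h'
        · exact Or.inr (fun hh => h' (List.mem_append_left _ hh))
      have hform : (S1 ++ [c]) ++ E' = S1 ++ c :: E' := by simp
      have hcS1 : c ∉ S1 := by
        intro hh
        have h' := (List.nodup_append.1 (List.nodup_append.1
          (List.nodup_cons.1 hnd).2).1).2.2
        exact h' c hh c (by simp) rfl
      have hr1 : ∀ A g B, Tri3 x (S1 ++ c :: E') A g B → g ∈ S1 → g ∉ W → g ≠ v →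
          o p A g B < 0 := by
        intro A g B h3 hg hgW hgv
        refine hr A g B (hform ▸ h3) (List.mem_append_left _ hg) hgW hgv ?_
        intro hh
        rw [List.getLast?_concat] at hh
        exact hcS1 ((Option.some.inj hh) ▸ hg)
      obtain ⟨E, hEW, hWH, hcut⟩ := cut_last hgp hne hW hx (hform ▸ h) hE' hcW
        ⟨f, hfS1, hfW⟩ hv1 hr1 (fun A B h3 => hright A B (hform ▸ h3))
      obtain ⟨S', D, E'', hS, hD, hE'', hWH', hrt, hfin⟩ := ih (E ++ E') hWH
        (fun e he => by
          rcases List.mem_append.1 he with h' | h'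
          · exact hEW e h'
          · exact hE' e h')
        ⟨f, hfS1, hfW⟩ hv1
        (fun A g B h3 hg hgW hgv hlast => hr1 A g B
          (tri3_first hWH.sim.nodup h3 hg hlast) hg hgW hgv)
      refine ⟨S', D ++ [c], E'', ?_, ?_, hE'', hWH', ?_, hfin⟩
      · rw [hS]; simp
      · intro g hg
        rcases List.mem_append.1 hg with h' | h'
        · exact hD g h'
        · rw [List.mem_singleton] at h'
          exact h' ▸ hcW
      · rw [hform]
        exact Relation.ReflTransGen.head hcut hrt

end FPW
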