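import Pool.Agent.Lib.MP_deef39_co_Ord.GMir
import Pool.Agent.Lib.MP_deef39_co_Ord.GDef2

/-! # Ord module GMir2: mirror image of a cut -/

set_option autoImplicit false

namespace FPW

variable {α : Type*} {p : α → ℝ × ℝ}

theorem tri3_rev {v A g B : α} {P : List α} :
    Tri3 v P.reverse B g A ↔ Tri3 v P A g B := tri3_mir

theorem cutStep_mir {St : Set (List α)} {V W : Set α} {x : α} {P P' : List α}
    (h : CutStep p St V W x P P') : CutStep (mir p) St V W x P.reverse P'.reverse := by
  obtain ⟨S, A, c, B, R, E, h1, h2, h3, h4, h5, h6, h7, h8⟩ := h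
  refine ⟨R.reverse, B, c, A, S.reverse, E.reverse, ?_, ?_, h3, h4, ?_, chn_mir h6, ?_, ?_⟩
  · rw [← cyc_reverse, h1]
    simp
  · rw [← cyc_reverse, h2]
    simp
  · rw [o_mir, o_swap'']
    linarith
  · intro e he
    exact h7 e (List.mem_reverse.1 he)
  · intro e he l hl
    exact Vis_mir.2 (h8 e (List.mem_reverse.1 he) l hl)

end FPW
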