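import Pool.Agent.Lib.MP_deef39_co_Ord.GHull
import Pool.Agent.Lib.MP_deef39_co_Ord.GArc

set_option autoImplicit false

namespace FPW

variable {α : Type*} {p : α → ℝ × ℝ}

/-! ## R14 the next vertex on the relative hull is a neighbour of the tip -/

private theorem not_ed_cyc {v w : α} {S T : List α} (hn : (v :: (S ++ w :: T)).Nodup)
    (hS : S ≠ []) (hT : T ≠ []) : ¬ Ed (cyc v (S ++ w :: T)) v w := by
  intro h
  obtain ⟨b, S', rfl⟩ : ∃ b S', S = b :: S' := by
    cases S with
    | nil => exact absurd rfl hS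
    | cons b S' => exact ⟨b, S', rfl⟩
  obtain ⟨T', a, rfl⟩ : ∃ T' a, T = T' ++ [a] := by
    rcases List.eq_nil_or_concat T with h' | ⟨T', a, h'⟩
    · exact absurd h' hT
    · exact ⟨T', a, by rw [h', List.concat_eq_append]⟩
  have hvw : v ≠ w := by
    rintro rfl
    simp at hn
  have e : cyc v ((b :: S') ++ w :: (T' ++ [a])) =
      [v] ++ b :: ((S' ++ w :: T') ++ a :: [v]) := by
    simp [cyc]
  rw [e, ed_mid] at h
  rcases h with h | h
  · rcases (by simpa [Ed] using h : (v = v ∧ w = b) ∨ (v = b ∧ w = v)) with h | h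
    · have := h.2
      subst this
      simp at hn
    · exact hvw h.2.symm
  · rw [show b :: ((S' ++ w :: T') ++ a :: [v]) = (b :: (S' ++ w :: T')) ++ a :: [v] by simp,
      ed_mid] at h
    rcases h with h | h
    · have h1 := ed_mem h
      simp only [List.cons_append, List.append_assoc, List.mem_cons, List.mem_append,
        List.nodup_cons] at h1 hn
      exact hn.1 (by simpa using h1)
    · rcases (by simpa [Ed] using h : (v = a ∧ w = v) ∨ (v = v ∧ w = a)) with h | h
      · exact hvw h.2.symm
      · have := h.2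
        subst this
        simp [List.nodup_append, List.nodup_cons] at hn

theorem next_nbr (hgp : GP p) {Q : List α} {v x : α} {W : Set α} {V : Set α} {P : List α}
    (h : RHu p (PS p Q v W) V W v P) {C : List α} (hl : Q ++ v :: x :: C ∈ PS p Q v W)
    (hx : x ∈ P) : P.head? = some x ∨ P.getLast? = some x := by
  obtain ⟨C', hC', hn, hW, hpl⟩ := id hl
  have hC : C' = x :: C := by
    have := List.append_cancel_left hC'
    exact (List.cons.inj this).2.symm
  subst hC
  have hvW : v ∉ W := by
    intro hv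
    have h1 := (hW v).2 hv
    rw [List.nodup_append] at hn
    exact (List.nodup_cons.1 hn.2.1).1 h1
  have hxW : x ∈ W := (hW x).1 (by simp)
  obtain ⟨S, T, rfl⟩ := List.append_of_mem hx
  by_contra hcon
  have hS : S ≠ [] := by
    rintro rfl
    exact hcon (Or.inl (by simp))
  have hT : T ≠ [] := by
    rintro rfl
    exact hcon (Or.inr (by simp))
  have hnd := h.sim.nodup
  have hed : Ed (Q ++ v :: x :: C) v x := ed_of_split
  have hvis : Vis p (Ed (cyc v (S ++ x :: T))) v x := by
    intro c d hcd hX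
    exact h.fen c d hcd _ hl v x hed ⟨by simpa [X, mul_comm] using hX.2, hX.1⟩
  obtain ⟨B, hB⟩ : ∃ B, (S ++ x :: T).head? = some B := by
    cases S with
    | nil => exact absurd rfl hS
    | cons b S' => exact ⟨b, by simp⟩
  obtain ⟨A, hA⟩ : ∃ A, (S ++ x :: T).getLast? = some A := by
    rcases List.eq_nil_or_concat T with h' | ⟨T', a, h'⟩
    · exact absurd h' hT
    · refine ⟨a, ?_⟩
      rw [h', List.concat_eq_append,
        show S ++ x :: (T' ++ [a]) = (S ++ x :: T') ++ [a] by simp]
      exact List.getLast?_concat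
  have h1 : Tri3 v (S ++ x :: T) A v B := Or.inr (Or.inr (Or.inr ⟨rfl, hB, hA⟩))
  have hlf : Lf p A v B x := h.chord _ hl v x hed (Or.inr hxW) (by simp) (by simp)
    (not_ed_cyc hnd hS hT) A B h1
  have hne : ∀ g ∈ S ++ x :: T, g ≠ v := by
    rintro g hg rfl
    exact (List.nodup_cons.1 hnd).1 hg
  rcases arc_next hgp h.toWH hvW hS hT hl hn hW with h2 | h2
  · exact tc hgp h.sim h.pos hS hT hvis h1 hlf (fun A' g B' h3 hg =>
      h.refl A' g B' h3 (h2 g hg) (hne g (by simp [hg])))
  · exact tc' hgp h.sim h.pos hS hT hvis h1 hlf (fun A' g B' h3 hg =>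
      h.refl A' g B' h3 (h2 g hg) (hne g (by simp [hg])))

end FPW
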