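import Pool.Agent.Lib.MP_deef39_co_Ord.GLam2
import Pool.Agent.Lib.MP_deef39_co_Ord.GHull
import Pool.Agent.Lib.MP_deef39_co_Ord.GReg

/-! # Ord module GOpen: insertion of the tip into an open hull polygon -/

set_option autoImplicit false

namespace FPW

variable {α : Type*} {p : α → ℝ × ℝ}

private theorem tele_b : ∀ a e x : Bool, ((!a && e && !x) || (a && !e && x) ||
    (xor (a && !e) (e && !x) == (a && !x))) = true := by decide

private theorem b2_and {P : Prop} {b : Bool} (h : P ↔ b = true) :
    b2 P = if b = true then 1 else 0 := by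
  rw [b2_congr h]
  cases b <;> simp [b2]

private theorem add_ite (a b : Bool) : ((if a = true then 1 else 0 : ZMod 2) +
    (if b = true then 1 else 0)) = if (xor a b) = true then 1 else 0 := by
  cases a <;> cases b <;> rfl

/-- vectors from `q` -/
private theorem pluck (q A e x z : α) :
    o p q A x * o p q e z = o p q A e * o p q x z + o p q A z * o p q e x := by
  unfold o; ring

private theorem dlt {r : ℝ} : decide (r < 0) = true ↔ r < 0 := by simp

private theorem cone_neg {q a b z : α} (h : o p q a b < 0) (hz : o p q b z ≠ 0) :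
    Cone p q a b z ↔ (decide (o p q a z < 0) && !decide (o p q b z < 0)) = true := by
  have e1 : o p q z b = - o p q b z := o_swap' p q b z
  rw [Bool.and_eq_true, Bool.not_eq_true', decide_eq_false_iff_not, dlt]
  unfold Cone
  rw [e1]
  constructor
  · rintro (⟨h1, _, _⟩ | ⟨_, h2, h3⟩)
    · linarith
    · exact ⟨h2, by linarith⟩
  · rintro ⟨h2, h3⟩
    refine Or.inr ⟨h, h2, ?_⟩
    have := lt_of_le_of_ne (not_lt.1 h3) hz.symm
    linarith

private theorem cone_tele {q A e x z : α} (h1 : o p q A e < 0) (h2 : o p q e x < 0)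
    (h3 : o p q A x < 0) (n1 : o p q A z ≠ 0) (n2 : o p q e z ≠ 0) (n3 : o p q x z ≠ 0) :
    b2 (Cone p q A e z) + b2 (Cone p q e x z) = b2 (Cone p q A x z) := by
  rw [b2_and (cone_neg h1 n2), b2_and (cone_neg h2 n3), b2_and (cone_neg h3 n3), add_ite]
  have key := tele_b (decide (o p q A z < 0)) (decide (o p q e z < 0))
    (decide (o p q x z < 0))
  have hp := pluck (p := p) q A e x z
  rw [Bool.or_eq_true, Bool.or_eq_true, beq_iff_eq] at key
  rcases key with (k | k) | k
  · exfalso
    simp only [Bool.and_eq_true, Bool.not_eq_true', decide_eq_false_iff_not,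
      decide_eq_true_eq, not_lt] at k
    obtain ⟨⟨k1, k2⟩, k3⟩ := k
    have k1' := lt_of_le_of_ne k1 n1.symm
    have k3' := lt_of_le_of_ne k3 n3.symm
    have m1 : o p q A x * o p q e z > 0 := mul_pos_of_neg_of_neg h3 k2
    have m2 : o p q A e * o p q x z < 0 := mul_neg_of_neg_of_pos h1 k3'
    have m3 : o p q A z * o p q e x < 0 := mul_neg_of_pos_of_neg k1' h2
    linarith
  · exfalso
    simp only [Bool.and_eq_true, Bool.not_eq_true', decide_eq_false_iff_not,
      decide_eq_true_eq, not_lt] at k
    obtain ⟨⟨k1, k2⟩, k3⟩ := k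
    have k2' := lt_of_le_of_ne k2 n2.symm
    have m1 : o p q A x * o p q e z < 0 := mul_neg_of_neg_of_pos h3 k2'
    have m2 : o p q A e * o p q x z > 0 := mul_pos_of_neg_of_neg h1 k3
    have m3 : o p q A z * o p q e x > 0 := mul_pos_of_neg_of_neg k1 h2
    linarith
  · rw [k]

/-- crossings of `q z` with a chain seen from `q` -/
private theorem fan (hgp : GP p) {q x z : α} (hqz : q ≠ z) (hqx : q ≠ x) (hxz : x ≠ z)
    (E : List α) : ∀ A : α, (∀ t ∈ A :: (E ++ [x]), t ≠ z ∧ t ≠ q) →
    (∀ a b, [a, b].Sublist (A :: (E ++ [x])) → o p q a b < 0) →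
    (∀ a b, Nx (A :: (E ++ [x])) a b → ¬ InTri p q a b z) →
    xc p q z (A :: (E ++ [x])) = b2 (Cone p q A x z) := by
  have hone : ∀ a b : α, a ≠ z → a ≠ q → b ≠ z → b ≠ q → o p q a b < 0 →
      ¬ InTri p q a b z → b2 (X p q z a b) = b2 (Cone p q a b z) := by
    intro a b ha ha' hb hb' hab hi
    have hne : a ≠ b := by
      intro h
      rw [h, o_self3] at hab
      exact lt_irrefl _ hab
    have h1 := cone_par hgp (w := q) (s := a) (t := b) (a := z) ha'.symm hb'.symm hne
      ⟨hqz, ha, hb⟩
    rw [b2_false hi, add_zero] at h1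
    rw [← h1]
    exact b2_congr X_comm
  induction E with
  | nil =>
    intro A hm ha hi
    simp only [List.nil_append] at hm ha hi ⊢
    rw [xc_cons2, xc_one, add_zero]
    refine hone A x (hm A (by simp)).1 (hm A (by simp)).2 hxz hqx.symm
      (ha A x (List.Sublist.refl _)) (hi A x ⟨[], [], rfl⟩)
  | cons e E ih =>
    intro A hm ha hi
    have hm' : ∀ t ∈ e :: (E ++ [x]), t ≠ z ∧ t ≠ q := fun t ht =>
      hm t (List.mem_cons_of_mem _ ht)
    have h1 : xc p q z (e :: (E ++ [x])) = b2 (Cone p q e x z) := by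
      refine ih e hm' (fun a b hab => ha a b (hab.trans (List.sublist_cons_self _ _))) ?_
      rintro a b ⟨S, R, hSR⟩
      exact hi a b ⟨A :: S, R, by rw [List.cons_append, List.cons_append, hSR]⟩
    have hAe : o p q A e < 0 := ha A e (by
      simp only [List.cons_append]
      exact (List.Sublist.cons_cons A (List.Sublist.cons_cons e (List.nil_sublist _))))
    have hex : o p q e x < 0 := ha e x (by
      simp only [List.cons_append]
      refine List.Sublist.cons A (List.Sublist.cons_cons e ?_)
      exact List.sublist_append_right _ _)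
    have hAx : o p q A x < 0 := ha A x (by
      refine List.Sublist.cons_cons A ?_
      exact List.sublist_append_right _ _)
    have hAm := hm A (by simp)
    have hem := hm e (by simp)
    have hAe' : A ≠ e := by
      intro h
      rw [h, o_self3] at hAe
      exact lt_irrefl _ hAe
    simp only [List.cons_append] at hi ⊢
    rw [xc_cons2, h1, hone A e hAm.1 hAm.2 hem.1 hem.2 hAe (hi A e ⟨[], E ++ [x], rfl⟩)]
    exact cone_tele hAe hex hAx (hgp.ne q A z hAm.2.symm hAm.1 hqz)
      (hgp.ne q e z hem.2.symm hem.1 hqz) (hgp.ne q x z hqx hxz hqz)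

private theorem lf_b : ∀ Bz zA AB zx Bx : Bool,
    ((!(Bx || AB)) || ((AB == !zx) && Bz && (!zA == Bx)) ||
      ((AB != !zx) && !Bz && (!zA != Bx)) ||
      (((Bz && zA) || (zA && AB) || (AB && Bz)) ==
        xor ((Bz && zx) || (zx && !Bx) || (!Bx && Bz)) (zA && !zx))) = true := by
  decide

private theorem lf_cone {A q B x z : α} (hl : 0 < o p A q x) (hx : Lf p A q B x)
    (n1 : o p q A z ≠ 0) (n2 : o p q B z ≠ 0) (n3 : o p q x z ≠ 0) (n4 : o p q A B ≠ 0)
    (n5 : o p q B x ≠ 0) :
    b2 (Lf p A q B z) = b2 (Lf p x q B z) + b2 (Cone p q A x z) := by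
  have eAx : o p q A x = - o p A q x := o_swap p A q x
  have exA : o p q x A = o p A q x := o_rot p A q x
  have hAx : o p q A x < 0 := by linarith
  have ezA : o p q z A = - o p q A z := o_swap' p q A z
  have ezx : o p q z x = - o p q x z := o_swap' p q x z
  have exB : o p q x B = - o p q B x := o_swap' p q B x
  have hp := pluck (p := p) q A B x z
  have c1 : Lf p A q B z ↔ ((decide (0 < o p q B z) && decide (0 < o p q z A)) ||
      (decide (0 < o p q z A) && decide (0 < o p q A B)) ||
      (decide (0 < o p q A B) && decide (0 < o p q B z))) = true := by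
    unfold Lf
    simp only [Bool.or_eq_true, Bool.and_eq_true, decide_eq_true_eq, or_assoc]
  have c2 : Lf p x q B z ↔ ((decide (0 < o p q B z) && decide (0 < o p q z x)) ||
      (decide (0 < o p q z x) && !decide (0 < o p q B x)) ||
      (!decide (0 < o p q B x) && decide (0 < o p q B z))) = true := by
    unfold Lf
    have h5 : 0 < o p q x B ↔ ¬ 0 < o p q B x := by
      rw [exB]
      constructor
      · intro h; linarith
      · intro h
        have := lt_of_le_of_ne (not_lt.1 h) n5
        linarith
    rw [h5]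
    simp only [Bool.or_eq_true, Bool.and_eq_true, decide_eq_true_eq, Bool.not_eq_true',
      decide_eq_false_iff_not, or_assoc]
  have c3 : Cone p q A x z ↔ (decide (0 < o p q z A) && !decide (0 < o p q z x)) = true := by
    unfold Cone
    simp only [Bool.and_eq_true, decide_eq_true_eq, Bool.not_eq_true',
      decide_eq_false_iff_not]
    rw [ezA, ezx]
    constructor
    · rintro (⟨h1, _, _⟩ | ⟨_, h2, h3⟩)
      · linarith
      · exact ⟨by linarith, by linarith⟩
    · rintro ⟨h2, h3⟩
      have h4 : 0 < o p q x z := lt_of_le_of_ne (by linarith) n3.symm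
      exact Or.inr ⟨hAx, by linarith, by linarith⟩
  rw [b2_and c1, b2_and c2, b2_and c3, add_ite]
  have key := lf_b (decide (0 < o p q B z)) (decide (0 < o p q z A)) (decide (0 < o p q A B))
    (decide (0 < o p q z x)) (decide (0 < o p q B x))
  rw [Bool.or_eq_true, Bool.or_eq_true, Bool.or_eq_true, beq_iff_eq] at key
  rcases key with ((k | k) | k) | k
  · exfalso
    simp only [Bool.not_eq_true', Bool.or_eq_false_iff, decide_eq_false_iff_not] at k
    rcases hx with ⟨h1, _⟩ | ⟨_, h1⟩ | ⟨h1, _⟩
    · exact k.1 h1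
    · exact k.2 h1
    · exact k.2 h1
  · exfalso
    simp only [Bool.and_eq_true, decide_eq_true_eq, beq_iff_eq] at k
    obtain ⟨⟨k1, k2⟩, k3⟩ := k
    have m1 : 0 < o p q A B * o p q x z := by
      by_cases h : 0 < o p q A B
      · rw [decide_eq_true h] at k1
        have h' : ¬ 0 < o p q z x := by
          intro h'
          rw [decide_eq_true h'] at k1
          exact absurd k1 (by decide)
        have : 0 < o p q x z := lt_of_le_of_ne (by linarith) n3.symm
        exact mul_pos h this
      · rw [decide_eq_false h] at k1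
        have h' : 0 < o p q z x := by
          by_contra h'
          rw [decide_eq_false h'] at k1
          exact absurd k1 (by decide)
        have := lt_of_le_of_ne (not_lt.1 h) n4
        exact mul_pos_of_neg_of_neg this (by linarith)
    have m2 : 0 < o p q A z * o p q B x := by
      by_cases h : 0 < o p q B x
      · rw [decide_eq_true h] at k3
        have h' : ¬ 0 < o p q z A := by
          intro h'
          rw [decide_eq_true h'] at k3
          exact absurd k3 (by decide)
        have : 0 < o p q A z := lt_of_le_of_ne (by linarith) n1.symm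
        exact mul_pos this h
      · rw [decide_eq_false h] at k3
        have h' : 0 < o p q z A := by
          by_contra h'
          rw [decide_eq_false h'] at k3
          exact absurd k3 (by decide)
        have := lt_of_le_of_ne (not_lt.1 h) n5
        exact mul_pos_of_neg_of_neg (by linarith) this
    have m3 : o p q A x * o p q B z < 0 := mul_neg_of_neg_of_pos hAx k2
    linarith
  · exfalso
    simp only [Bool.and_eq_true, bne_iff_ne, Bool.not_eq_true', decide_eq_false_iff_not] at k
    obtain ⟨⟨k1, k2⟩, k3⟩ := k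
    have k2' : o p q B z < 0 := lt_of_le_of_ne (not_lt.1 k2) n2
    have m1 : o p q A B * o p q x z < 0 := by
      by_cases h : 0 < o p q A B
      · rw [decide_eq_true h] at k1
        have h' : 0 < o p q z x := by
          by_contra h'
          rw [decide_eq_false h'] at k1
          exact k1 (by decide)
        exact mul_neg_of_pos_of_neg h (by linarith)
      · rw [decide_eq_false h] at k1
        have h' : ¬ 0 < o p q z x := by
          intro h'
          rw [decide_eq_true h'] at k1
          exact k1 (by decide)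
        have h2 : 0 < o p q x z := lt_of_le_of_ne (by linarith) n3.symm
        have := lt_of_le_of_ne (not_lt.1 h) n4
        exact mul_neg_of_neg_of_pos this h2
    have m2 : o p q A z * o p q B x < 0 := by
      by_cases h : 0 < o p q B x
      · rw [decide_eq_true h] at k3
        have h' : 0 < o p q z A := by
          by_contra h'
          rw [decide_eq_false h'] at k3
          exact absurd k3 (by decide)
        exact mul_neg_of_neg_of_pos (by linarith) h
      · rw [decide_eq_false h] at k3
        have h' : ¬ 0 < o p q z A := by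
          intro h'
          rw [decide_eq_true h'] at k3
          exact absurd k3 (by decide)
        have h2 : 0 < o p q A z := lt_of_le_of_ne (by linarith) n1.symm
        have := lt_of_le_of_ne (not_lt.1 h) n5
        exact mul_neg_of_pos_of_neg h2 this
    have m3 : 0 < o p q A x * o p q B z := mul_pos_of_neg_of_neg hAx k2'
    linarith
  · rw [k]

/-- an interior point of a triangle is not supported -/
private theorem ext_tri {L : List α} {a b c x : α} (hi : InTri p a b c x)
    (ha : a ∈ L) (hb : b ∈ L) (hc : c ∈ L) : ¬ Ext1 p L x := by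
  rintro ⟨_, r, hr⟩
  have hax : a ≠ x := by
    rintro rfl
    rcases hi with ⟨h1, _, _⟩ | ⟨h1, _, _⟩ <;> rw [o_self2] at h1 <;> exact lt_irrefl _ h1
  have hbx : b ≠ x := by
    rintro rfl
    rcases hi with ⟨h1, _, _⟩ | ⟨h1, _, _⟩ <;> rw [o_self3] at h1 <;> exact lt_irrefl _ h1
  have hcx : c ≠ x := by
    rintro rfl
    rcases hi with ⟨_, h1, _⟩ | ⟨_, h1, _⟩ <;> rw [o_self3] at h1 <;> exact lt_irrefl _ h1
  have h1 := hr a ha hax
  have h2 := hr b hb hbx
  have h3 := hr c hc hcx
  have e : o p b c x * cr r (p x) (p a) + o p c a x * cr r (p x) (p b) +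
      o p a b x * cr r (p x) (p c) = 0 := by
    unfold o cr; ring
  rcases hi with ⟨i1, i2, i3⟩ | ⟨i1, i2, i3⟩
  · have m1 := mul_pos i2 h1
    have m2 := mul_pos i3 h2
    have m3 := mul_pos i1 h3
    linarith
  · have m1 := mul_neg_of_neg_of_pos i2 h1
    have m2 := mul_neg_of_neg_of_pos i3 h2
    have m3 := mul_neg_of_neg_of_pos i1 h3
    linarith

private theorem ext_mono {L L' : List α} {g : α} (h : Ext1 p L g) (hg : g ∈ L')
    (hs : ∀ t ∈ L', t ∈ L) : Ext1 p L' g := by
  obtain ⟨_, r, hr⟩ := h
  exact ⟨hg, r, fun t ht htg => hr t (hs t ht) htg⟩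

/-- two chain edges do not cross -/
private theorem chain_plane {L : List α}
    (conv : ∀ x y z, [x, y, z].Sublist L → 0 < o p x y z) {a b c d : α} (h1 : Nx L a b)
    (h2 : Nx L c d) : ¬ X p a b c d := by
  obtain ⟨S, R, rfl⟩ := h1
  obtain ⟨S', R', hL⟩ := h2
  have key : ∀ {S S' R R' : List α} {a b c d : α},
      (∀ x y z, [x, y, z].Sublist (S ++ a :: b :: R) → 0 < o p x y z) →
      S ++ a :: b :: R = S' ++ c :: d :: R' → S.length < S'.length → ¬ X p a b c d := by
    intro S S' R R' a b c d conv hL hlt hX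
    obtain ⟨M, hM⟩ : ∃ M, S' = S ++ a :: M := by
      have h3 : (S ++ a :: b :: R).take S'.length = S' := by
        rw [hL, List.take_left']
        rfl
      rw [List.take_append] at h3
      rw [List.take_of_length_le hlt.le] at h3
      obtain ⟨k, hk⟩ : ∃ k, S'.length - S.length = k + 1 :=
        ⟨S'.length - S.length - 1, by omega⟩
      rw [hk, List.take_succ_cons] at h3
      exact ⟨_, h3.symm⟩
    rw [hM, List.append_assoc, List.append_cancel_left_eq, List.cons_append,
      List.cons.injEq] at hL
    have hL2 := hL.2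
    cases M with
    | nil =>
      rw [List.nil_append, List.cons.injEq] at hL2
      exact (X_ne hX).2.2.2.2.1 hL2.1
    | cons m M =>
      rw [List.cons_append, List.cons.injEq] at hL2
      obtain ⟨_, hR⟩ := hL2
      have s1 : 0 < o p a b c := by
        refine conv a b c ?_
        rw [hR]
        refine List.Sublist.trans ?_ (List.sublist_append_right _ _)
        refine List.Sublist.cons_cons a (List.Sublist.cons_cons b ?_)
        refine List.Sublist.trans ?_ (List.sublist_append_right _ _)
        exact List.Sublist.cons_cons c (List.nil_sublist _)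
      have s2 : 0 < o p a b d := by
        refine conv a b d ?_
        rw [hR]
        refine List.Sublist.trans ?_ (List.sublist_append_right _ _)
        refine List.Sublist.cons_cons a (List.Sublist.cons_cons b ?_)
        refine List.Sublist.trans ?_ (List.sublist_append_right _ _)
        refine List.Sublist.cons c (List.Sublist.cons_cons d (List.nil_sublist _))
      have := hX.1
      have := mul_pos s1 s2
      linarith
  rcases lt_trichotomy S.length S'.length with h | h | h
  · exact key conv hL h
  · obtain ⟨_, h2⟩ := List.append_inj hL h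
    rw [List.cons.injEq] at h2
    intro hX
    exact (X_ne hX).2.2.1 h2.1
  · intro hX
    exact key (S := S') (S' := S) (R := R') (R' := R) (by rw [← hL]; exact conv) hL.symm h
      (X_comm.1 hX)

private theorem ed_nx {L : List α} {a b : α} (h : Ed L a b) : Nx L a b ∨ Nx L b a := by
  obtain ⟨S, R, h1 | h1⟩ := ed_split h
  · exact Or.inl ⟨S, R, h1⟩
  · exact Or.inr ⟨S, R, h1⟩

private theorem ed_old {q A B : α} {T : List α} {c d : α} :
    Ed (cyc q (B :: (T ++ [A]))) c d ↔ Ed (q :: B :: (T ++ [A])) c d ∨
      (c = A ∧ d = q) ∨ (c = q ∧ d = A) := by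
  have h : cyc q (B :: (T ++ [A])) = (q :: B :: T) ++ [A, q] := by
    unfold cyc
    simp
  have h2 : q :: B :: (T ++ [A]) = (q :: B :: T) ++ [A] := by simp
  rw [h, ed_snoc2, h2]

private theorem ed_new {q A B x : α} {T E : List α} {c d : α} :
    Ed (cyc x (q :: B :: (T ++ A :: E))) c d ↔ ((c = x ∧ d = q) ∨ (c = q ∧ d = x)) ∨
      Ed (q :: B :: (T ++ [A])) c d ∨ Ed (A :: (E ++ [x])) c d := by
  have h : cyc x (q :: B :: (T ++ A :: E)) = x :: q :: ((B :: T) ++ A :: (E ++ [x])) := by
    unfold cyc
    simp
  have h2 : q :: ((B :: T) ++ A :: (E ++ [x])) = (q :: B :: T) ++ A :: (E ++ [x]) := by simp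
  have h3 : q :: B :: (T ++ [A]) = (q :: B :: T) ++ [A] := by simp
  rw [h, ed_cons2, h2, ed_mid, h3, or_assoc]

/-- the only edge at the first vertex -/
private theorem ed_first {q B : α} {L : List α} (hn : (q :: B :: L).Nodup) {d : α}
    (h : Ed (q :: B :: L) q d) : d = B := by
  rcases h with ⟨_, h⟩ | ⟨h1, _⟩ | h
  · exact h
  · exact absurd h1 (by
      rintro rfl
      simp at hn)
  · exact absurd (ed_mem h) (List.nodup_cons.1 hn).1

/-- inserting the chain `E` and the point `x` between `A` and `q` (base `q`; the new base is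
`x`, `q` is its successor) -/
theorem ins_openL (hgp : GP p) {V : Set α} {A q B x : α} {E T : List α}
    (hs : Sim p q (B :: (T ++ [A]))) (h : Chn p V A q x E) (hx : x ∉ q :: B :: (T ++ [A]))
    (hxl : Lf p A q B x) (hxv : Vis p (Ed (cyc q (B :: (T ++ [A])))) q x)
    (hV : ∀ t ∈ B :: (T ++ [A]), t ∈ V ∨ t = A) (hE : ∀ e ∈ E, e ∉ B :: T) :
    Sim p x (q :: B :: (T ++ A :: E)) ∧
      (∀ z, z ∉ q :: B :: (T ++ [A]) → z ∉ E → z ≠ x →
        (∀ a b, Nx (A :: (E ++ [x])) a b → ¬ InTri p q a b z) →
        Lam p x (q :: B :: (T ++ A :: E)) z = Lam p q (B :: (T ++ [A])) z) ∧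
      (Pos p q (B :: (T ++ [A])) → Pos p x (q :: B :: (T ++ A :: E))) := by
  have hn := hs.nodup
  have hqE : ∀ e ∈ E, e ≠ q := by
    intro e he h1
    have h2 := (h.mem e he).2
    rw [h1] at h2
    rcases h2 with ⟨h1, _, _⟩ | ⟨h1, _, _⟩ <;> rw [o_self3] at h1 <;> exact lt_irrefl _ h1
  have hqx : q ≠ x := fun h1 => hx (by simp [h1])
  have hAq : A ≠ q := by
    rintro rfl
    exact (List.nodup_cons.1 hn).1 (by simp)
  have hAx : A ≠ x := fun h1 => hx (by simp [h1])
  have hBx : B ≠ x := fun h1 => hx (by simp [h1])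
  have hBq : B ≠ q := by
    rintro rfl
    exact (List.nodup_cons.1 hn).1 (by simp)
  have hAB : A ≠ B := by
    rintro rfl
    exact (List.nodup_cons.1 (List.nodup_cons.1 hn).2).1 (by simp)
  have hnC := h.nodup
  have hAE : A ∉ E := fun h1 => (List.nodup_cons.1 hnC).1 (by simp [h1])
  have hxE : x ∉ E := by
    have h1 := (List.nodup_cons.1 hnC).2
    rw [List.nodup_append] at h1
    intro h2
    exact h1.2.2 x h2 x (by simp) rfl
  have hEn : E.Nodup := (List.nodup_append.1 (List.nodup_cons.1 hnC).2).1
  -- the new list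
  have hnew : (x :: q :: B :: (T ++ A :: E)).Nodup := by
    have e1 : q :: B :: (T ++ A :: E) = (q :: B :: (T ++ [A])) ++ E := by simp
    rw [e1, List.nodup_cons]
    refine ⟨?_, ?_⟩
    · rw [List.mem_append]
      rintro (h1 | h1)
      · exact hx h1
      · exact hxE h1
    · rw [List.nodup_append]
      refine ⟨hn, hEn, ?_⟩
      intro a ha b hb hab
      rw [hab] at ha
      simp only [List.mem_cons, List.mem_append, List.not_mem_nil, or_false] at ha
      rcases ha with h1 | h1 | h1 | h1
      · exact hqE b hb h1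
      · exact hE b hb (by simp [h1])
      · exact hE b hb (by simp [h1])
      · exact hAE (h1 ▸ hb)
  -- chain edges against the other edges
  have hch1 : ∀ a b c d, Nx (A :: (E ++ [x])) a b → Ed (q :: B :: (T ++ [A])) c d →
      ¬ X p a b c d := by
    intro a b c d hab hcd
    have hq : ∀ d, Ed (q :: B :: (T ++ [A])) q d → ¬ X p a b q d := by
      intro d hd
      have h1 := ed_first hn hd
      rw [h1]
      refine reg_q hgp h hBq ?_ a b hab
      rintro ⟨h2, h3⟩
      have e1 : o p q A B = - o p A q B := o_swap p A q B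
      have e2 : o p q x B = - o p q B x := o_swap' p q B x
      rcases hxl with ⟨h4, _⟩ | ⟨_, h4⟩ | ⟨h4, _⟩ <;> linarith
    by_cases hc : c = q
    · rw [hc] at hcd ⊢
      exact hq d hcd
    by_cases hd : d = q
    · rw [hd] at hcd ⊢
      intro h1
      exact hq c (ed_symm hcd) (X_sw2.1 h1)
    have hcd' : Ed (cyc q (B :: (T ++ [A]))) c d := ed_old.2 (Or.inl hcd)
    have hmem : ∀ t, t ∈ q :: B :: (T ++ [A]) → t ≠ q → t ∈ V ∨ t = A ∨ t = x := by
      intro t ht htq
      rcases List.mem_cons.1 ht with h1 | h1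
      · exact absurd h1 htq
      · rcases hV t h1 with h2 | h2
        · exact Or.inl h2
        · exact Or.inr (Or.inl h2)
    refine (reg hgp h hc hd (hmem c (ed_mem hcd) hc) (hmem d (ed_mem' hcd) hd) ?_ ?_).2 a b hab
    · exact hs.plane q A c d (ed_old.2 (Or.inr (Or.inr ⟨rfl, rfl⟩))) hcd'
    · exact hxv c d hcd'
  have hch2 : ∀ a b, Nx (A :: (E ++ [x])) a b → ¬ X p a b q x := by
    rintro a b ⟨S, R, hSR⟩ hX
    have h0 := (X_comm.1 hX).1
    have hangle : ∀ t, t ∈ A :: (E ++ [x]) → 0 ≤ o p q x t := by
      intro t ht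
      rcases List.mem_cons.1 ht with h1 | h1
      · have h2 := h.ang A x (List.Sublist.cons_cons A (List.sublist_append_right _ _))
        rw [h1, o_swap' p q A x]
        linarith
      · rcases List.mem_append.1 h1 with h1 | h1
        · have h2 := h.ang t x (List.Sublist.cons A (by
            have h3 : [t, x] = [t] ++ [x] := rfl
            rw [h3]
            exact List.Sublist.append (List.singleton_sublist.2 h1) (List.Sublist.refl _)))
          rw [o_swap' p q t x]
          linarith
        · rw [List.mem_singleton.1 h1, o_self3]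
    have ha := hangle a (by rw [hSR]; simp)
    have hb := hangle b (by rw [hSR]; simp)
    have := mul_nonneg ha hb
    linarith
  have hsim : Sim p x (q :: B :: (T ++ A :: E)) := by
    refine ⟨hnew, by simp, ?_⟩
    -- wlog style: classes of edges
    have h12 : ∀ a b c d, ((a = x ∧ b = q) ∨ (a = q ∧ b = x)) →
        Ed (q :: B :: (T ++ [A])) c d → ¬ X p a b c d := by
      intro a b c d hab hcd
      have h1 := hxv c d (ed_old.2 (Or.inl hcd))
      rcases hab with ⟨rfl, rfl⟩ | ⟨rfl, rfl⟩
      · intro h2; exact h1 (X_sw1.1 h2)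
      · exact h1
    have h13 : ∀ a b c d, ((a = x ∧ b = q) ∨ (a = q ∧ b = x)) →
        Ed (A :: (E ++ [x])) c d → ¬ X p a b c d := by
      intro a b c d hab hcd hX
      rcases ed_nx hcd with h1 | h1
      · rcases hab with ⟨rfl, rfl⟩ | ⟨rfl, rfl⟩
        · exact hch2 c d h1 (X_comm.1 (X_sw1.1 hX))
        · exact hch2 c d h1 (X_comm.1 hX)
      · rcases hab with ⟨rfl, rfl⟩ | ⟨rfl, rfl⟩
        · exact hch2 d c h1 (X_comm.1 (X_sw1.1 (X_sw2.1 hX)))
        · exact hch2 d c h1 (X_comm.1 (X_sw2.1 hX))
    have h23 : ∀ a b c d, Ed (q :: B :: (T ++ [A])) a b → Ed (A :: (E ++ [x])) c d →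
        ¬ X p a b c d := by
      intro a b c d hab hcd hX
      rcases ed_nx hcd with h1 | h1
      · exact hch1 c d a b h1 hab (X_comm.1 hX)
      · exact hch1 d c a b h1 hab (X_sw1.1 (X_comm.1 hX))
    have h33 : ∀ a b c d, Ed (A :: (E ++ [x])) a b → Ed (A :: (E ++ [x])) c d →
        ¬ X p a b c d := by
      intro a b c d hab hcd hX
      rcases ed_nx hab with h1 | h1 <;> rcases ed_nx hcd with h2 | h2
      · exact chain_plane h.conv h1 h2 hX
      · exact chain_plane h.conv h1 h2 (X_sw2.1 hX)
      · exact chain_plane h.conv h1 h2 (X_sw1.1 hX)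
      · exact chain_plane h.conv h1 h2 (X_sw1.1 (X_sw2.1 hX))
    have h22 : ∀ a b c d, Ed (q :: B :: (T ++ [A])) a b → Ed (q :: B :: (T ++ [A])) c d →
        ¬ X p a b c d := fun a b c d hab hcd =>
      hs.plane a b c d (ed_old.2 (Or.inl hab)) (ed_old.2 (Or.inl hcd))
    have h11 : ∀ a b c d, ((a = x ∧ b = q) ∨ (a = q ∧ b = x)) →
        ((c = x ∧ d = q) ∨ (c = q ∧ d = x)) → ¬ X p a b c d := by
      intro a b c d hab hcd hX
      have hne := X_ne hX
      rcases hab with ⟨rfl, rfl⟩ | ⟨rfl, rfl⟩ <;> rcases hcd with ⟨rfl, rfl⟩ | ⟨rfl, rfl⟩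
      · exact hne.2.2.1 rfl
      · exact hne.2.2.2.1 rfl
      · exact hne.2.2.2.1 rfl
      · exact hne.2.2.1 rfl
    intro a b c d hab hcd hX
    rcases ed_new.1 hab with h1 | h1 | h1 <;> rcases ed_new.1 hcd with h2 | h2 | h2
    · exact h11 a b c d h1 h2 hX
    · exact h12 a b c d h1 h2 hX
    · exact h13 a b c d h1 h2 hX
    · exact h12 c d a b h2 h1 (X_comm.1 hX)
    · exact h22 a b c d h1 h2 hX
    · exact h23 a b c d h1 h2 hX
    · exact h13 c d a b h2 h1 (X_comm.1 hX)
    · exact h23 c d a b h2 h1 (X_comm.1 hX)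
    · exact h33 a b c d h1 h2 hX
  have htold : Tri3 q (B :: (T ++ [A])) A q B := by
    refine Or.inr (Or.inr (Or.inr ⟨rfl, rfl, ?_⟩))
    have : B :: (T ++ [A]) = (B :: T) ++ [A] := by simp
    rw [this, List.getLast?_append]
    simp
  refine ⟨hsim, ?_, ?_⟩
  · intro z hz hzE hzx hzi
    have hznew : z ∉ x :: q :: B :: (T ++ A :: E) := by
      have e1 : q :: B :: (T ++ A :: E) = (q :: B :: (T ++ [A])) ++ E := by simp
      rw [e1, List.mem_cons, List.mem_append]
      rintro (h1 | h1 | h1)
      · exact hzx h1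
      · exact hz h1
      · exact hzE h1
    have hqz : q ≠ z := fun h1 => hz (by simp [h1])
    have hAz : A ≠ z := fun h1 => hz (by simp [h1])
    have hBz : B ≠ z := fun h1 => hz (by simp [h1])
    have htnew : Tri3 x (q :: B :: (T ++ A :: E)) x q B := Or.inr (Or.inl ⟨_, rfl, rfl⟩)
    rw [lam_at hgp hsim htnew hznew, lam_at hgp hs htold hz]
    have hxo : xc p q z (cyc q (B :: (T ++ [A]))) = xc p q z (q :: B :: (T ++ [A])) := by
      have h1 : cyc q (B :: (T ++ [A])) = (q :: B :: T) ++ [A, q] := by
        unfold cyc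
        simp
      have h2 : q :: B :: (T ++ [A]) = (q :: B :: T) ++ [A] := by simp
      rw [h1, xc_snoc, h2, b2_false not_X_of_eq2, add_zero]
    have hxn : xc p q z (cyc x (q :: B :: (T ++ A :: E))) = xc p q z (q :: B :: (T ++ [A])) +
        xc p q z (A :: (E ++ [x])) := by
      have h1 : cyc x (q :: B :: (T ++ A :: E)) = x :: q :: ((B :: T) ++ A :: (E ++ [x])) := by
        unfold cyc
        simp
      have h2 : q :: ((B :: T) ++ A :: (E ++ [x])) = (q :: B :: T) ++ A :: (E ++ [x]) := by
        simp
      have h3 : q :: B :: (T ++ [A]) = (q :: B :: T) ++ [A] := by simp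
      rw [h1, xc_cons2, b2_false not_X_of_eq2, zero_add, h2, xc_mid, h3]
    have hfan := fan hgp hqz hqx hzx.symm E A (by
      intro t ht
      rcases List.mem_cons.1 ht with h1 | h1
      · rw [h1]; exact ⟨hAz, hAq⟩
      · rcases List.mem_append.1 h1 with h1 | h1
        · exact ⟨fun h2 => hzE (h2 ▸ h1), hqE t h1⟩
        · rw [List.mem_singleton.1 h1]
          exact ⟨hzx.symm, hqx.symm⟩) h.ang hzi
    have hlf := lf_cone h.left hxl (hgp.ne q A z hAq.symm hAz hqz)
      (hgp.ne q B z hBq.symm hBz hqz) (hgp.ne q x z hqx hzx.symm hqz)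
      (hgp.ne q A B hAq.symm hAB hBq.symm) (hgp.ne q B x hBq.symm hBx hqx)
    rw [hxo, hxn, hfan, hlf]
    ring
  · intro hpos
    have hlx : Lam p q (B :: (T ++ [A])) x = 1 := by
      rw [lam_vis hgp hs htold hx hxv]
      exact b2_true hxl
    have hxnot : ¬ Ext1 p (x :: q :: B :: (T ++ A :: E)) x := by
      intro h1
      have h2 : Ext1 p (x :: q :: B :: (T ++ [A])) x := by
        refine ext_mono h1 (by simp) ?_
        intro t ht
        simp only [List.mem_cons, List.mem_append, List.not_mem_nil, or_false] at ht ⊢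
        tauto
      have h3 := lam_ext_pos hgp hs hpos h2 hx
      rw [hlx] at h3
      exact absurd h3 (by decide)
    have hEnot : ∀ e ∈ E, ¬ Ext1 p (x :: q :: B :: (T ++ A :: E)) e := by
      intro e he
      exact ext_tri (h.mem e he).2 (by simp) (by simp) (by simp)
    obtain ⟨a, b, c, hab, hbc, hac, ha, hb, hc⟩ := ext_three hgp hnew (by simp)
    have hfind : ∃ g, g ∈ B :: T ∧ Ext1 p (x :: q :: B :: (T ++ A :: E)) g := by
      have hcl : ∀ g, Ext1 p (x :: q :: B :: (T ++ A :: E)) g → g ∈ B :: T ∨ g = q ∨ g = A := by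
        intro g hg
        have h1 := hg.1
        simp only [List.mem_cons, List.mem_append] at h1
        rcases h1 with h1 | h1 | h1 | h1 | h1 | h1
        · exact absurd (h1 ▸ hg) hxnot
        · exact Or.inr (Or.inl h1)
        · exact Or.inl (by simp [h1])
        · exact Or.inl (by simp [h1])
        · exact Or.inr (Or.inr h1)
        · exact absurd hg (hEnot g h1)
      rcases hcl a ha with h1 | h1
      · exact ⟨a, h1, ha⟩
      rcases hcl b hb with h2 | h2
      · exact ⟨b, h2, hb⟩
      rcases hcl c hc with h3 | h3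
      · exact ⟨c, h3, hc⟩
      exfalso
      rcases h1 with rfl | rfl <;> rcases h2 with rfl | rfl <;> rcases h3 with rfl | rfl <;>
        first | exact hab rfl | exact hbc rfl | exact hac rfl
    obtain ⟨g, hg, hge⟩ := hfind
    obtain ⟨S, R, hSR⟩ := List.append_of_mem hg
    obtain ⟨S', A', hS'⟩ : ∃ S' A', q :: S = S' ++ [A'] :=
      ⟨(q :: S).dropLast, (q :: S).getLast (by simp),
        (List.dropLast_append_getLast (by simp)).symm⟩
    obtain ⟨B', R', hR'⟩ : ∃ B' R', R ++ [A] = B' :: R' := by
      cases R with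
      | nil => exact ⟨A, [], rfl⟩
      | cons r R => exact ⟨r, R ++ [A], rfl⟩
    have hPold : B :: (T ++ [A]) = S ++ g :: B' :: R' := by
      have h1 : B :: (T ++ [A]) = (B :: T) ++ [A] := by simp
      rw [h1, hSR, List.append_assoc, List.cons_append, hR']
    have hPnew : q :: B :: (T ++ A :: E) = S' ++ A' :: g :: B' :: (R' ++ E) := by
      have h1 : q :: B :: (T ++ A :: E) = q :: ((B :: (T ++ [A])) ++ E) := by simp
      rw [h1, hPold]
      have h2 : q :: (S ++ g :: B' :: R' ++ E) = (q :: S) ++ g :: B' :: (R' ++ E) := by simp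
      rw [h2, hS']
      simp
    have ht1 : Tri3 x (q :: B :: (T ++ A :: E)) A' g B' := Or.inl ⟨S', R' ++ E, hPnew⟩
    have ht2 : Tri3 q (B :: (T ++ [A])) A' g B' := by
      rcases List.eq_nil_or_concat S with rfl | ⟨S'', s, rfl⟩
      · refine Or.inr (Or.inl ⟨R', by rw [hPold]; rfl, ?_⟩)
        have h1 : [] ++ [q] = S' ++ [A'] := hS'
        exact ((List.append_inj' h1 rfl).2 |> List.cons.inj |>.1).symm
      · refine Or.inl ⟨S'', R', ?_⟩
        have h1 : (q :: S'') ++ [s] = S' ++ [A'] := by
          rw [← hS', List.concat_eq_append]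
          rfl
        have h2 : s = A' := (List.append_inj' h1 rfl).2 |> List.cons.inj |>.1
        rw [hPold, List.concat_eq_append, h2]
        simp
    have hgold : Ext1 p (q :: B :: (T ++ [A])) g := by
      refine ext_mono hge ?_ ?_
      · have h1 : q :: B :: (T ++ [A]) = q :: ((B :: T) ++ [A]) := by simp
        rw [h1]
        exact List.mem_cons_of_mem _ (List.mem_append_left _ hg)
      · intro t ht
        simp only [List.mem_cons, List.mem_append, List.not_mem_nil, or_false] at ht ⊢
        tauto
    exact pos_of_one hgp hsim ht1 hge (hpos A' g B' ht2 hgold)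

end FPW
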