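import Pool.Agent.Lib.MP_deef39_co_Ord.GDef

/-! # Ord module GStart: the convex hull polygon of all points

Gift wrapping: `HN x y` says that all points are strictly on the left of `x y`; the successor map
on the hull vertices is injective, the orbit of `h` is the hull polygon.
-/

set_option autoImplicit false

namespace FPW

variable {α : Type*} {p : α → ℝ × ℝ}

/-- `x y` is a counterclockwise hull edge of `V` -/
private def HN (p : α → ℝ × ℝ) (V : Set α) (x y : α) : Prop :=
  x ∈ V ∧ y ∈ V ∧ x ≠ y ∧ ∀ z ∈ V, z ≠ x → z ≠ y → 0 < o p x y z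

private theorem hn_nx {V : Set α} {a b c d : α} (h : HN p V a b) (hc : c ∈ V) (hd : d ∈ V) :
    ¬ X p a b c d := by
  rintro ⟨h1, -⟩
  have key : ∀ t ∈ V, 0 ≤ o p a b t := by
    intro t ht
    by_cases h2 : t = a
    · subst h2; simp
    by_cases h3 : t = b
    · subst h3; simp
    exact (h.2.2.2 t ht h2 h3).le
  have := mul_nonneg (key c hc) (key d hd)
  linarith

private theorem min_ex {R : α → α → Prop} (M : List α) (hM : M ≠ [])
    (htr : ∀ a ∈ M, ∀ b ∈ M, ∀ c ∈ M, R a b → R b c → R a c)
    (hto : ∀ a ∈ M, ∀ b ∈ M, a ≠ b → R a b ∨ R b a) :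
    ∃ m ∈ M, ∀ z ∈ M, z ≠ m → R m z := by
  induction M with
  | nil => exact absurd rfl hM
  | cons a M ih =>
    by_cases h0 : M = []
    · subst h0
      refine ⟨a, by simp, fun z hz hne => ?_⟩
      simp only [List.mem_singleton] at hz
      exact absurd hz hne
    obtain ⟨m, hm, hmin⟩ := ih h0
      (fun x hx y hy z hz => htr x (List.mem_cons_of_mem _ hx) y (List.mem_cons_of_mem _ hy) z
        (List.mem_cons_of_mem _ hz))
      (fun x hx y hy => hto x (List.mem_cons_of_mem _ hx) y (List.mem_cons_of_mem _ hy))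
    have hm' : m ∈ a :: M := List.mem_cons_of_mem _ hm
    have ha' : a ∈ a :: M := List.mem_cons_self
    by_cases ham : a = m
    · subst ham
      refine ⟨a, ha', fun z hz hne => ?_⟩
      rcases List.mem_cons.1 hz with h1 | h1
      · exact absurd h1 hne
      · exact hmin z h1 hne
    rcases hto a ha' m hm' ham with h1 | h1
    · refine ⟨a, ha', fun z hz hne => ?_⟩
      rcases List.mem_cons.1 hz with h2 | h2
      · exact absurd h2 hne
      · by_cases hzm : z = m
        · subst hzm; exact h1
        · exact htr a ha' m hm' z hz h1 (hmin z h2 hzm)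
    · refine ⟨m, hm', fun z hz hne => ?_⟩
      rcases List.mem_cons.1 hz with h2 | h2
      · subst h2; exact h1
      · exact hmin z h2 hne

private theorem plu (r a b c : ℝ × ℝ) (y : ℝ × ℝ) :
    cr r y b * ((a.1 - y.1) * (c.2 - y.2) - (a.2 - y.2) * (c.1 - y.1)) =
      cr r y a * ((b.1 - y.1) * (c.2 - y.2) - (b.2 - y.2) * (c.1 - y.1)) +
      cr r y c * ((a.1 - y.1) * (b.2 - y.2) - (a.2 - y.2) * (b.1 - y.1)) := by
  unfold cr; ring

private theorem plu_o (r : ℝ × ℝ) (y a b c : α) :
    cr r (p y) (p b) * o p y a c = cr r (p y) (p a) * o p y b c +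
      cr r (p y) (p c) * o p y a b := by
  have := plu r (p a) (p b) (p c) (p y)
  simpa only [o] using this

private theorem hn_first (hgp : GP p) {h : α} {L : List α} (hn : (h :: L).Nodup) (hl : L ≠ [])
    (he : Ext1 p (h :: L) h) : ∃ y, HN p {t | t ∈ h :: L} h y := by
  obtain ⟨-, r, hr⟩ := he
  have hne : ∀ a ∈ L, a ≠ h := by
    rintro a ha rfl
    exact (List.nodup_cons.1 hn).1 ha
  have hr' : ∀ a ∈ L, 0 < cr r (p h) (p a) := fun a ha =>
    hr a (List.mem_cons_of_mem _ ha) (hne a ha)
  obtain ⟨m, hm, hmin⟩ := min_ex (R := fun a b => 0 < o p h a b) L hl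
    (by
      intro a ha b hb c hc hab hbc
      have h1 := plu_o (p := p) r h a b c
      have h2 := mul_pos (hr' a ha) hbc
      have h3 := mul_pos (hr' c hc) hab
      have h4 : 0 < cr r (p h) (p b) * o p h a c := by rw [h1]; exact add_pos h2 h3
      exact (pos_iff_pos_of_mul_pos h4).1 (hr' b hb))
    (by
      intro a ha b hb hab
      have h1 := hgp.ne h a b (hne a ha).symm hab (hne b hb).symm
      rcases lt_or_gt_of_ne h1 with h2 | h2
      · right
        show 0 < o p h b a
        rw [o_swap' p h a b]; linarith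
      · left; exact h2)
  refine ⟨m, by simp, by simp [hm], (hne m hm).symm, ?_⟩
  intro z hz h1 h2
  rcases List.mem_cons.1 hz with h3 | h3
  · exact absurd h3 h1
  · exact hmin z h3 h2

private theorem third {h : α} {L : List α} (hn : (h :: L).Nodup) (hl : 2 ≤ L.length) (x y : α) :
    ∃ z ∈ h :: L, z ≠ x ∧ z ≠ y := by
  by_contra hcon
  push Not at hcon
  have hsub : (h :: L) ⊆ [x, y] := by
    intro z hz
    by_cases h1 : z = x
    · simp [h1]
    · simp [hcon z hz h1]
  have := (List.subperm_of_subset hn hsub).length_le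
  simp at this
  omega

private theorem hn_next (hgp : GP p) {h : α} {L : List α} (hn : (h :: L).Nodup)
    (hl : 2 ≤ L.length) {x y : α} (hxy : HN p {t | t ∈ h :: L} x y) :
    ∃ w, HN p {t | t ∈ h :: L} y w := by
  classical
  set M : List α := (h :: L).filter (fun t => t ≠ y) with hMd
  have hM : ∀ t, t ∈ M ↔ t ∈ h :: L ∧ t ≠ y := by
    intro t; rw [hMd]; simp only [List.mem_filter, decide_eq_true_eq]
  have hxM : x ∈ M := (hM x).2 ⟨hxy.1, hxy.2.2.1⟩
  have hcr : ∀ t, cr ((p y).1 - (p x).1, (p y).2 - (p x).2) (p y) (p t) = o p x y t := by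
    intro t; unfold cr o; ring
  have h0 : ∀ t ∈ M, t ≠ x → 0 < o p x y t := fun t ht h1 =>
    hxy.2.2.2 t ((hM t).1 ht).1 h1 ((hM t).1 ht).2
  have hle : ∀ t ∈ M, 0 ≤ o p x y t := by
    intro t ht
    by_cases h1 : t = x
    · subst h1; simp
    · exact (h0 t ht h1).le
  obtain ⟨m, hm, hmin⟩ := min_ex (R := fun a b => 0 < o p y a b) M (List.ne_nil_of_mem hxM)
    (by
      intro a ha b hb c hc hab hbc
      have h1 := plu_o (p := p) ((p y).1 - (p x).1, (p y).2 - (p x).2) y a b c
      simp only [hcr] at h1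
      by_cases hbx : b = x
      · exfalso
        subst hbx
        have hcb : c ≠ b := by
          rintro rfl
          simp at hbc
        have h2 := h0 c hc hcb
        have h3 : o p y b c = - o p b y c := o_swap p b y c
        rw [h3] at hbc
        linarith
      · have hb0 := h0 b hb hbx
        have hpos : 0 < o p x y b * o p y a c := by
          rw [h1]
          by_cases hax : a = x
          · have hcx : c ≠ x := by
              rintro rfl
              subst hax
              have := o_swap' p y a b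
              rw [this] at hbc
              linarith
            have h2 := mul_pos (h0 c hc hcx) hab
            have h3 := mul_nonneg (hle a ha) hbc.le
            linarith
          · have h2 := mul_pos (h0 a ha hax) hbc
            have h3 := mul_nonneg (hle c hc) hab.le
            linarith
        exact (pos_iff_pos_of_mul_pos hpos).1 hb0)
    (by
      intro a ha b hb hab
      have h1 := hgp.ne y a b ((hM a).1 ha).2.symm hab ((hM b).1 hb).2.symm
      rcases lt_or_gt_of_ne h1 with h2 | h2
      · right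
        show 0 < o p y b a
        rw [o_swap' p y a b]; linarith
      · left; exact h2)
  refine ⟨m, hxy.2.1, ((hM m).1 hm).1, ((hM m).1 hm).2.symm, ?_⟩
  intro z hz h1 h2
  exact hmin z ((hM z).2 ⟨hz, h1⟩) h2

private theorem hn_inj {V : Set α} {x x' y : α} (h : HN p V x y) (h' : HN p V x' y) :
    x = x' := by
  by_contra hne
  have h1 := h.2.2.2 x' h'.1 (Ne.symm hne) h'.2.2.1
  have h2 := h'.2.2.2 x h.1 hne h.2.2.1
  rw [o_swap'' p x y x'] at h2
  linarith

private theorem range_mid {F : ℕ → α} {n : ℕ} {S T : List α} {a b : α}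
    (h : (List.range n).map F = S ++ a :: b :: T) : a = F S.length ∧ b = F (S.length + 1) := by
  have hlen : n = S.length + (T.length + 2) := by
    have := congrArg List.length h
    simpa using this
  constructor
  · have h1 := congrArg (fun l => l[S.length]?) h
    simp only [List.getElem?_map, List.getElem?_range (show S.length < n by omega),
      Option.map_some, List.getElem?_append_right (le_refl S.length), Nat.sub_self,
      List.getElem?_cons_zero, Option.some.injEq] at h1
    exact h1.symm
  · have h1 := congrArg (fun l => l[S.length + 1]?) h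
    simp only [List.getElem?_map, List.getElem?_range (show S.length + 1 < n by omega),
      Option.map_some] at h1
    rw [List.getElem?_append_right (by omega), show S.length + 1 - S.length = 1 by omega,
      List.getElem?_cons_succ, List.getElem?_cons_zero, Option.some.injEq] at h1
    exact h1.symm

/-- the hull polygon -/
private theorem hull_ex [Finite α] (hgp : GP p) {h : α} {L : List α} (hn : (h :: L).Nodup)
    (hl : 2 ≤ L.length) (he : Ext1 p (h :: L) h) :
    ∃ P : List α, (h :: P).Nodup ∧ 2 ≤ P.length ∧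
      ∀ a b, Nx (cyc h P) a b → HN p {t | t ∈ h :: L} a b := by
  classical
  have hL : L ≠ [] := by rintro rfl; simp at hl
  set V : Set α := {t | t ∈ h :: L} with hV
  obtain ⟨y0, hy0⟩ := hn_first hgp hn hL he
  have hnx : ∀ s : {x // ∃ y, HN p V x y}, ∃ t : {x // ∃ y, HN p V x y}, HN p V s.1 t.1 := by
    rintro ⟨x, y, hxy⟩
    exact ⟨⟨y, hn_next hgp hn hl hxy⟩, hxy⟩
  choose g hg using hnx
  have hinj : Function.Injective g := by
    intro s t hst
    have h1 := hg s
    have h2 := hg t
    rw [← hst] at h2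
    exact Subtype.ext (hn_inj h1 h2)
  set s0 : {x // ∃ y, HN p V x y} := ⟨h, y0, hy0⟩ with hs0
  have hper : s0 ∈ Function.periodicPts g := hinj.mem_periodicPts s0
  have hk : 0 < Function.minimalPeriod g s0 := Function.minimalPeriod_pos_of_mem_periodicPts hper
  set k := Function.minimalPeriod g s0 with hkd
  set F : ℕ → α := fun i => (g^[i] s0).1 with hF
  have hF0 : F 0 = h := rfl
  have hFs : ∀ i, HN p V (F i) (F (i + 1)) := by
    intro i
    have : g^[i + 1] s0 = g (g^[i] s0) := Function.iterate_succ_apply' g i s0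
    simp only [hF, this]
    exact hg _
  have hFk : F k = h := by
    have h1 : g^[k] s0 = s0 := Function.iterate_minimalPeriod
    show (g^[k] s0).1 = h
    rw [h1]
  have hFinj : ∀ i < k, ∀ j < k, F i = F j → i = j := by
    intro i hi j hj hij
    have h1 : g^[i] s0 = g^[j] s0 := Subtype.ext hij
    exact Function.iterate_injOn_Iio_minimalPeriod (f := g) (x := s0) hi hj h1
  obtain ⟨m, hm⟩ : ∃ m, k = m + 1 := ⟨k - 1, by omega⟩
  have hcons : h :: (List.range m).map (fun i => F (i + 1)) = (List.range (m + 1)).map F := by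
    rw [List.range_succ_eq_map, List.map_cons, List.map_map, hF0]
    rfl
  have hcyc : cyc h ((List.range m).map (fun i => F (i + 1))) = (List.range (m + 2)).map F := by
    unfold cyc
    rw [← List.cons_append, hcons, List.range_succ (n := m + 1), List.map_append,
      List.map_singleton, show F (m + 1) = h by rw [← hm]; exact hFk]
  refine ⟨(List.range m).map (fun i => F (i + 1)), ?_, ?_, ?_⟩
  · rw [hcons]
    refine List.Nodup.map_on ?_ List.nodup_range
    intro i hi j hj hij
    rw [List.mem_range] at hi hj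
    exact hFinj i (by omega) j (by omega) hij
  · rw [List.length_map, List.length_range]
    by_contra hlt
    have hm01 : m = 0 ∨ m = 1 := by omega
    rcases hm01 with h0 | h0
    · have h1 := hFs 0
      rw [show F (0 + 1) = h by rw [← hFk, hm, h0]] at h1
      exact h1.2.2.1 rfl
    · have h1 := hFs 0
      have h2 := hFs 1
      rw [show F (1 + 1) = h by rw [← hFk, hm, h0]] at h2
      rw [hF0] at h1
      obtain ⟨z, hz, hz1, hz2⟩ := third hn hl h (F 1)
      have h3 := h1.2.2.2 z hz hz1 hz2
      have h4 := h2.2.2.2 z hz hz2 hz1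
      rw [o_swap p h (F 1) z] at h4
      simp only [zero_add] at h3
      linarith
  · rintro a b ⟨S, T, hST⟩
    rw [hcyc] at hST
    obtain ⟨h1, h2⟩ := range_mid hST
    rw [h1, h2]
    exact hFs _

private theorem tri3_nx {v : α} {P : List α} {A g B : α} (h : Tri3 v P A g B) :
    Nx (cyc v P) A g ∧ Nx (cyc v P) g B := by
  unfold cyc
  rcases h with ⟨S, T, rfl⟩ | ⟨T, rfl, rfl⟩ | ⟨S, rfl, rfl⟩ | ⟨rfl, h1, h2⟩
  · exact ⟨⟨v :: S, B :: (T ++ [v]), by simp⟩, ⟨v :: (S ++ [A]), T ++ [v], by simp⟩⟩
  · exact ⟨⟨[], B :: (T ++ [A]), by simp⟩, ⟨[A], T ++ [A], by simp⟩⟩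
  · exact ⟨⟨B :: S, [B], by simp⟩, ⟨B :: (S ++ [A]), [], by simp⟩⟩
  · obtain ⟨T, hT⟩ : ∃ T, P = B :: T := by
      cases P with
      | nil => simp at h1
      | cons a P => simp only [List.head?_cons, Option.some.injEq] at h1; exact ⟨P, by rw [h1]⟩
    have hS : ∃ S, P = S ++ [A] := List.getLast?_eq_some_iff.1 h2
    obtain ⟨S, hS⟩ := hS
    refine ⟨⟨g :: S, [], by rw [hS]; simp⟩, ⟨[], T ++ [g], by rw [hT]; simp⟩⟩

private theorem ed_nx {l : List α} {a b : α} (h : Ed l a b) : Nx l a b ∨ Nx l b a := by
  obtain ⟨S, T, h1 | h1⟩ := ed_split h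
  · exact Or.inl ⟨S, T, h1⟩
  · exact Or.inr ⟨S, T, h1⟩

/-! ## R10 start: convex position of the hull of everything -/

/-- `h` is supported in the set of all points; all other points are free -/
theorem wh_start [Finite α] (hgp : GP p) {St : Set (List α)} {h : α} {L : List α}
    (hn : (h :: L).Nodup) (hl : 2 ≤ L.length) (he : Ext1 p (h :: L) h)
    (hSt : ∀ l ∈ St, l.Perm (h :: L) ∧ Plane p (Ed l)) :
    ∃ P, RHu p St {t | t ∈ h :: L} {t | t ∈ L} h P ∧
      ∀ A g B, Tri3 h P A g B → 0 < o p A g B := by
  obtain ⟨P, hnd, hlen, hP⟩ := hull_ex hgp hn hl he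
  -- all vertices are points
  have hcm : ∀ t ∈ h :: P, t ∈ h :: L := by
    intro t ht
    have hex : ∃ y, Ed (cyc h P) t y := by
      apply ed_exists
      · unfold cyc
        rcases List.mem_cons.1 ht with h1 | h1
        · simp [h1]
        · simp [h1]
      · unfold cyc; simp
    obtain ⟨y, hy⟩ := hex
    rcases ed_nx hy with h1 | h1
    · exact (hP _ _ h1).1
    · exact (hP _ _ h1).2.1
  have hne2 : ∀ A g B, Tri3 h P A g B → A ≠ B := by
    intro A g B h3
    rcases h3 with ⟨S, T, h1⟩ | ⟨T, h1, h2⟩ | ⟨S, h1, h2⟩ | ⟨h0, h1, h2⟩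
    · rintro rfl
      rw [h1] at hnd
      simp [List.nodup_append] at hnd
    · rintro rfl
      rw [h1, h2] at hnd
      simp at hnd
    · rintro rfl
      rw [h1, h2] at hnd
      simp at hnd
    · rintro rfl
      have hndP := (List.nodup_cons.1 hnd).2
      cases P with
      | nil => simp at h1
      | cons a P =>
        simp only [List.head?_cons, Option.some.injEq] at h1
        subst h1
        cases P with
        | nil => simp at hlen
        | cons b P =>
          rw [List.getLast?_cons_cons] at h2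
          have := List.mem_of_getLast? h2
          exact (List.nodup_cons.1 hndP).1 this
  have hpos : ∀ A g B, Tri3 h P A g B → 0 < o p A g B := by
    intro A g B h3
    have h1 := tri3_nx h3
    have h2 := hP _ _ h1.1
    have h4 := hP _ _ h1.2
    exact h2.2.2.2 B h4.2.1 (Ne.symm (hne2 A g B h3)) h4.2.2.1.symm
  have hnoX : ∀ a b c d, Ed (cyc h P) a b → c ∈ h :: L → d ∈ h :: L → ¬ X p a b c d := by
    intro a b c d hab hc hd
    rcases ed_nx hab with h1 | h1
    · exact hn_nx (hP _ _ h1) hc hd
    · intro hX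
      exact hn_nx (hP _ _ h1) hc hd (X_sw1.1 hX)
  have hedm : ∀ a b, Ed (cyc h P) a b → a ∈ h :: L ∧ b ∈ h :: L := by
    intro a b hab
    rcases ed_nx hab with h1 | h1
    · exact ⟨(hP _ _ h1).1, (hP _ _ h1).2.1⟩
    · exact ⟨(hP _ _ h1).2.1, (hP _ _ h1).1⟩
  refine ⟨P, ⟨⟨⟨hnd, hlen, ?_⟩, ?_, ?_, ?_, ?_, ?_, ?_, ?_, ?_, ?_, ?_, ?_, ?_, ?_⟩, ?_⟩, hpos⟩
  · -- plane
    intro a b c d hab hcd
    exact hnoX a b c d hab (hedm c d hcd).1 (hedm c d hcd).2
  · -- pos
    intro A g B h3 _
    exact hpos A g B h3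
  · exact hcm
  · intro t ht
    exact List.mem_cons_of_mem _ ht
  · intro l hl'
    exact (hSt l hl').2
  · intro l hl' t
    exact (hSt l hl').1.mem_iff
  · -- nd
    intro l hl'
    exact (hSt l hl').1.nodup_iff.2 hn
  · -- fen
    intro a b hab l hl' c d hcd
    exact hnoX a b c d hab ((hSt l hl').1.mem_iff.1 (ed_mem hcd))
      ((hSt l hl').1.mem_iff.1 (ed_mem' hcd))
  · intro A g B h3 _
    exact hpos A g B h3
  · -- inn
    intro u hu hu'
    have huV : u ∈ h :: L := List.mem_cons_of_mem _ hu
    have huh : u ≠ h := fun h1 => hu' (by simp [h1])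
    obtain ⟨B, T, hB⟩ : ∃ B T, P = B :: T := by
      cases P with
      | nil => simp at hlen
      | cons a P => exact ⟨a, P, rfl⟩
    obtain ⟨S, A, hA⟩ : ∃ S A, P = S ++ [A] := by
      have hPne : P ≠ [] := by rw [hB]; simp
      exact ⟨P.dropLast, P.getLast hPne, (List.dropLast_append_getLast hPne).symm⟩
    have h1 : Nx (cyc h P) h B := ⟨[], T ++ [h], by unfold cyc; rw [hB]; simp⟩
    have h2 : Nx (cyc h P) A h := ⟨h :: S, [], by unfold cyc; rw [hA]; simp⟩
    have huB : u ≠ B := by
      rintro rfl; exact hu' (by rw [hB]; simp)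
    have huA : u ≠ A := by
      rintro rfl; exact hu' (by rw [hA]; simp)
    have h3 := (hP _ _ h1).2.2.2 u huV huh huB
    have h4 := (hP _ _ h2).2.2.2 u huV huA huh
    have hx : xc p h u (cyc h P) = 0 := by
      apply xc_vis
      intro c d hcd hX
      exact hnoX c d h u hcd (by simp) huV (X_comm.1 hX)
    have hb : ∃ A B, P.head? = some B ∧ P.getLast? = some A ∧ Lf p A h B u := by
      refine ⟨A, B, by rw [hB]; rfl, by rw [hA]; simp, Or.inl ⟨h3, ?_⟩⟩
      rw [← o_rot p A h u] at h4
      exact h4
    unfold Lam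
    rw [hx, b2_true hb, zero_add]
  · intro s hs hs' hs''
    exfalso
    rcases List.mem_cons.1 hs with h1 | h1
    · exact hs'' (by simp [h1])
    · exact hs' h1
  · intro l hl' c d hcd _
    have hd : d ∈ h :: L := (hSt l hl').1.mem_iff.1 (ed_mem' hcd)
    rcases List.mem_cons.1 hd with h1 | h1
    · right; simp [h1]
    · left; exact h1
  · -- chord
    intro l hl' c d hcd _ hc hd hnE A B h3
    have hlnd : l.Nodup := (hSt l hl').1.nodup_iff.2 hn
    have hne := ed_ne hlnd hcd
    have h1 := tri3_nx h3
    have hdV : d ∈ h :: L := (hSt l hl').1.mem_iff.1 (ed_mem' hcd)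
    have hdA : d ≠ A := by
      rintro rfl
      obtain ⟨S, T, hST⟩ := h1.1
      exact hnE (by rw [hST]; exact ed_of_split')
    have hdB : d ≠ B := by
      rintro rfl
      obtain ⟨S, T, hST⟩ := h1.2
      exact hnE (by rw [hST]; exact ed_of_split)
    left
    refine ⟨(hP _ _ h1.2).2.2.2 d hdV hne.symm hdB, ?_⟩
    have := (hP _ _ h1.1).2.2.2 d hdV hdA hne.symm
    rw [← o_rot p A c d] at this
    exact this
  · -- schord
    intro l hl' c d hcd hc hd _ _ _ A B _
    exfalso
    have hlnd : l.Nodup := (hSt l hl').1.nodup_iff.2 hn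
    have hne := ed_ne hlnd hcd
    have h1 : c = h := by
      rcases List.mem_cons.1 ((hSt l hl').1.mem_iff.1 (ed_mem hcd)) with h1 | h1
      · exact h1
      · exact absurd h1 hc
    have h2 : d = h := by
      rcases List.mem_cons.1 ((hSt l hl').1.mem_iff.1 (ed_mem' hcd)) with h1 | h1
      · exact h1
      · exact absurd h1 hd
    exact hne (h1.trans h2.symm)
  · -- refl
    intro A g B h3 hg hgv
    exfalso
    have h1 := tri3_nx h3
    have h2 : g ∈ h :: L := (hP _ _ h1.1).2.1
    rcases List.mem_cons.1 h2 with h4 | h4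
    · exact hgv h4
    · exact hg h4

end FPW
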