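import Pool.Agent.Lib.MP_deef39_co_Ord.GLam2
import Pool.Agent.Lib.MP_deef39_co_Ord.GSplit
import Pool.Agent.Lib.MP_deef39_co_Ord.GChain
import Pool.Agent.Lib.MP_deef39_co_Ord.GReg
import Pool.Agent.Lib.MP_deef39_co_Ord.GOpen

/-! # Ord module GWOpen: opening a slit

`wh_openL`: the polygon with base `q` (static) is slit along the edge `q x` (`x` the next free
vertex), the left side is convex: the corner `A q x` is cut by the hull chain `E` from `A` to `x`.
The new polygon has the base `x`, its successor is `q`.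
-/

set_option autoImplicit false

namespace FPW

variable {α : Type*} {p : α → ℝ × ℝ}

/-! ### lists -/

private theorem wo_nx {L : List α} {a b : α} : Ed L a b ↔ Nx L a b ∨ Nx L b a := by
  constructor
  · intro h
    obtain ⟨S, T, h1 | h1⟩ := ed_split h
    · exact Or.inl ⟨S, T, h1⟩
    · exact Or.inr ⟨S, T, h1⟩
  · rintro (⟨S, T, h1⟩ | ⟨S, T, h1⟩)
    · rw [h1]; exact ed_of_split
    · rw [h1]; exact ed_of_split'

/-- edges of the old polygon -/
private theorem wo_ed_old {q B A : α} {T : List α} {a b : α} :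
    Ed (cyc q (B :: (T ++ [A]))) a b ↔
      Ed (q :: B :: (T ++ [A])) a b ∨ (a = A ∧ b = q) ∨ (a = q ∧ b = A) := by
  have h : cyc q (B :: (T ++ [A])) = (q :: B :: T) ++ [A, q] := by simp [cyc]
  have h2 : q :: B :: (T ++ [A]) = (q :: B :: T) ++ [A] := by simp
  rw [h, h2, ed_snoc2]

/-- edges of the new polygon -/
private theorem wo_ed_new {q B A x : α} {T E : List α} {a b : α} :
    Ed (cyc x (q :: B :: (T ++ A :: E))) a b ↔
      ((a = x ∧ b = q) ∨ (a = q ∧ b = x)) ∨ Ed (q :: B :: (T ++ [A])) a b ∨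
        Ed (A :: (E ++ [x])) a b := by
  have h : cyc x (q :: B :: (T ++ A :: E)) = (x :: q :: B :: T) ++ A :: (E ++ [x]) := by
    simp [cyc]
  rw [h, ed_mid]
  have h2 : (x :: q :: B :: T) ++ [A] = x :: q :: B :: (T ++ [A]) := by simp
  rw [h2, ed_cons2]
  tauto

private theorem wo_ed_q {q B A : α} {T : List α} {d : α}
    (hn : (q :: B :: (T ++ [A])).Nodup) (h : Ed (cyc q (B :: (T ++ [A]))) q d) :
    d = B ∨ d = A := by
  rcases wo_ed_old.1 h with h1 | ⟨h1, _⟩ | ⟨_, h1⟩
  · rcases ed_cons2.1 h1 with ⟨_, h2⟩ | ⟨h2, _⟩ | h2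
    · exact Or.inl h2
    · exfalso
      rw [h2] at hn
      exact (List.nodup_cons.1 hn).1 (by simp)
    · exact absurd (ed_mem h2) (List.nodup_cons.1 hn).1
  · exfalso
    rw [h1] at hn
    exact (List.nodup_cons.1 hn).1 (by simp)
  · exact Or.inr h1

private theorem wo_snoc (a : α) (l : List α) : ∃ S b, a :: l = S ++ [b] := by
  rcases List.eq_nil_or_concat (a :: l) with h1 | ⟨S, b, h1⟩
  · exact absurd h1 (by simp)
  · exact ⟨S, b, by rw [h1, List.concat_eq_append]⟩

private theorem wo_cons (l : List α) (a : α) : ∃ b R, l ++ [a] = b :: R := by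
  cases l with
  | nil => exact ⟨a, [], rfl⟩
  | cons b l => exact ⟨b, l ++ [a], rfl⟩

private theorem wo_last (l : List α) (a : α) : (l ++ [a]).getLast? = some a := by simp

private theorem wo_tri_q0 {q B A : α} {T : List α} : Tri3 q (B :: (T ++ [A])) A q B :=
  Or.inr (Or.inr (Or.inr ⟨rfl, rfl, wo_last (B :: T) A⟩))

private theorem wo_tri_old0 {q B A x : α} {T E : List α} {a c b : α}
    (hn : (q :: B :: (T ++ [A])).Nodup) (hc : c ∈ B :: T)
    (h : Tri3 q (B :: (T ++ [A])) a c b) : Tri3 x (q :: B :: (T ++ A :: E)) a c b := by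
  have hP : q :: B :: (T ++ A :: E) = q :: ((B :: (T ++ [A])) ++ E) := by simp
  rw [hP]
  have hn1 := List.nodup_cons.1 hn
  rcases h with ⟨S, T1, h1⟩ | ⟨T1, h1, rfl⟩ | ⟨S, h1, rfl⟩ | ⟨h1, _⟩
  · left
    exact ⟨q :: S, T1 ++ E, by rw [h1]; simp⟩
  · left
    exact ⟨[], T1 ++ E, by rw [h1]; simp⟩
  · exfalso
    have h2 : (B :: T) ++ [A] = (S ++ [a]) ++ [c] := by
      rw [List.append_assoc]
      exact h1
    have h3 : A = c := by
      have := congrArg List.getLast? h2
      rw [wo_last, wo_last] at this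
      exact Option.some.inj this
    have h4 : ((B :: T) ++ [A]).Nodup := hn1.2
    exact (List.nodup_append.1 h4).2.2 c hc A (by simp) h3.symm
  · exfalso
    apply hn1.1
    rw [← h1]
    have : B :: (T ++ [A]) = (B :: T) ++ [A] := rfl
    rw [this]
    exact List.mem_append_left _ hc

private theorem wo_tri_old {q B A x : α} {T E : List α} {a c b : α}
    (hn : (q :: B :: (T ++ [A])).Nodup) (hn' : (x :: q :: B :: (T ++ A :: E)).Nodup)
    (hc : c ∈ B :: T) (h : Tri3 x (q :: B :: (T ++ A :: E)) a c b) :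
    Tri3 q (B :: (T ++ [A])) a c b := by
  have hm : c ∈ q :: B :: (T ++ [A]) := by
    have : q :: B :: (T ++ [A]) = q :: ((B :: T) ++ [A]) := rfl
    rw [this]
    exact List.mem_cons_of_mem _ (List.mem_append_left _ hc)
  obtain ⟨a', b', hab⟩ := tri3_exists (v := q) (P := B :: (T ++ [A])) (by simp) hm
  obtain ⟨rfl, rfl⟩ := tri3_unique hn' (wo_tri_old0 hn hc hab) h
  exact hab

private theorem wo_tri_A {q B A x : α} {T E : List α} {a b : α}
    (hn' : (x :: q :: B :: (T ++ A :: E)).Nodup)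
    (h : Tri3 x (q :: B :: (T ++ A :: E)) a A b) :
    Tri3 q (B :: (T ++ [A])) a A q ∧ ∃ R, E ++ [x] = b :: R := by
  obtain ⟨S, a', hS⟩ := wo_snoc B T
  have hP : B :: (T ++ [A]) = S ++ [a', A] := by
    have : B :: (T ++ [A]) = (B :: T) ++ [A] := rfl
    rw [this, hS]
    simp
  have hP' : q :: B :: (T ++ A :: E) = (q :: S) ++ a' :: A :: E := by
    have : q :: B :: (T ++ A :: E) = q :: ((B :: T) ++ A :: E) := rfl
    rw [this, hS]
    simp
  have hnew : ∃ b' R, E ++ [x] = b' :: R ∧ Tri3 x (q :: B :: (T ++ A :: E)) a' A b' := by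
    rw [hP']
    cases E with
    | nil => exact ⟨x, [], rfl, Or.inr (Or.inr (Or.inl ⟨q :: S, rfl, rfl⟩))⟩
    | cons e E => exact ⟨e, E ++ [x], rfl, Or.inl ⟨q :: S, E, rfl⟩⟩
  obtain ⟨b', R, h1, h2⟩ := hnew
  obtain ⟨rfl, rfl⟩ := tri3_unique hn' h2 h
  exact ⟨Or.inr (Or.inr (Or.inl ⟨S, hP, rfl⟩)), R, h1⟩

private theorem wo_tri_E {q B A x : α} {T E : List α} {a c b : α}
    (hn' : (x :: q :: B :: (T ++ A :: E)).Nodup) (hc : c ∈ E)
    (h : Tri3 x (q :: B :: (T ++ A :: E)) a c b) :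
    ∃ S R, A :: (E ++ [x]) = S ++ a :: c :: b :: R := by
  obtain ⟨S1, T1, rfl⟩ := List.append_of_mem hc
  obtain ⟨S2, a', hS⟩ := wo_snoc A S1
  have hP' : q :: B :: (T ++ A :: (S1 ++ c :: T1)) = (q :: B :: T ++ S2) ++ a' :: c :: T1 := by
    have h1 : q :: B :: (T ++ A :: (S1 ++ c :: T1)) = q :: B :: T ++ (A :: S1) ++ c :: T1 := by
      simp
    rw [h1, hS]
    simp
  have hL : ∀ R, A :: (S1 ++ c :: T1 ++ [x]) = (A :: S1) ++ c :: R → 
      A :: (S1 ++ c :: T1 ++ [x]) = S2 ++ a' :: c :: R := by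
    intro R h1
    rw [h1, hS]
    simp
  have hnew : ∃ b' R, A :: (S1 ++ c :: T1 ++ [x]) = S2 ++ a' :: c :: b' :: R ∧
      Tri3 x (q :: B :: (T ++ A :: (S1 ++ c :: T1))) a' c b' := by
    rw [hP']
    cases T1 with
    | nil =>
      refine ⟨x, [], hL _ (by simp), Or.inr (Or.inr (Or.inl ⟨q :: B :: T ++ S2, rfl, rfl⟩))⟩
    | cons e T1 =>
      exact ⟨e, T1 ++ [x], hL _ (by simp), Or.inl ⟨q :: B :: T ++ S2, T1, rfl⟩⟩
  obtain ⟨b', R, h1, h2⟩ := hnew
  obtain ⟨rfl, rfl⟩ := tri3_unique hn' h2 h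
  exact ⟨S2, R, h1⟩

private theorem wo_tri_x {q B A x : α} {T E : List α} {a b : α}
    (hn' : (x :: q :: B :: (T ++ A :: E)).Nodup)
    (h : Tri3 x (q :: B :: (T ++ A :: E)) a x b) :
    b = q ∧ Nx (A :: (E ++ [x])) a x := by
  obtain ⟨S, a', hS⟩ := wo_snoc A E
  have h1 : Tri3 x (q :: B :: (T ++ A :: E)) a' x q := by
    right; right; right
    refine ⟨rfl, rfl, ?_⟩
    have h2 : q :: B :: (T ++ A :: E) = (q :: B :: T ++ S) ++ [a'] := by
      have : q :: B :: (T ++ A :: E) = q :: B :: T ++ (A :: E) := rfl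
      rw [this, hS]
      simp
    rw [h2]
    exact wo_last _ _
  obtain ⟨rfl, rfl⟩ := tri3_unique hn' h1 h
  refine ⟨rfl, S, [], ?_⟩
  have : A :: (E ++ [x]) = (A :: E) ++ [x] := rfl
  rw [this, hS]
  simp

private theorem wo_tri_q {q B A x : α} {T E : List α} {a b : α}
    (hn' : (x :: q :: B :: (T ++ A :: E)).Nodup)
    (h : Tri3 x (q :: B :: (T ++ A :: E)) a q b) : a = x ∧ b = B := by
  have h1 : Tri3 x (q :: B :: (T ++ A :: E)) x q B := Or.inr (Or.inl ⟨_, rfl, rfl⟩)
  obtain ⟨h2, h3⟩ := tri3_unique hn' h1 h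
  exact ⟨h2.symm, h3.symm⟩

private theorem wo_mem_new {q B A x c : α} {T E : List α} :
    c ∈ x :: q :: B :: (T ++ A :: E) ↔ c = x ∨ c = q ∨ c ∈ B :: T ∨ c = A ∨ c ∈ E := by
  simp only [List.mem_cons, List.mem_append]
  tauto

private theorem wo_mem_old {q B A c : α} {T : List α} :
    c ∈ q :: B :: (T ++ [A]) ↔ c = q ∨ c ∈ B :: T ∨ c = A := by
  simp only [List.mem_cons, List.mem_append, List.not_mem_nil, or_false]
  tauto

/-! ### directions -/

private theorem wo_intri {a b c z : α} (h : InTri p a b c z) : InTri p b c a z := by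
  rcases h with ⟨h1, h2, h3⟩ | ⟨h1, h2, h3⟩
  · exact Or.inl ⟨h2, h3, h1⟩
  · exact Or.inr ⟨h2, h3, h1⟩

private noncomputable def wsg (x : ℝ) : Bool := decide (0 < x)

private theorem wsg_t {x : ℝ} : wsg x = true ↔ 0 < x := by simp [wsg]

private theorem wsg_f {x : ℝ} (h : x ≠ 0) : wsg x = false ↔ x < 0 := by
  simp only [wsg, decide_eq_false_iff_not, not_lt]
  exact ⟨fun h1 => lt_of_le_of_ne h1 h, fun h1 => h1.le⟩

private theorem wsg_eq {x y : ℝ} (hx : x ≠ 0) (hy : y ≠ 0) :
    (wsg x == wsg y) = true ↔ 0 < x * y := by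
  rw [beq_iff_eq]
  rcases lt_or_gt_of_ne hx with h1 | h1 <;> rcases lt_or_gt_of_ne hy with h2 | h2
  · rw [(wsg_f hx).2 h1, (wsg_f hy).2 h2]
    exact ⟨fun _ => mul_pos_of_neg_of_neg h1 h2, fun _ => rfl⟩
  · rw [(wsg_f hx).2 h1, wsg_t.2 h2]
    refine ⟨fun h => by simp at h, fun h => ?_⟩
    exact absurd h (not_lt.2 (mul_neg_of_neg_of_pos h1 h2).le)
  · rw [wsg_t.2 h1, (wsg_f hy).2 h2]
    refine ⟨fun h => by simp at h, fun h => ?_⟩
    exact absurd h (not_lt.2 (mul_neg_of_pos_of_neg h1 h2).le)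
  · rw [wsg_t.2 h1, wsg_t.2 h2]
    exact ⟨fun _ => mul_pos h1 h2, fun _ => rfl⟩

/-- the Pluecker relation on signs -/
private theorem cyc_id (hgp : GP p) {a g q b d : α} (hga : g ≠ a) (hgq : g ≠ q) (hgb : g ≠ b)
    (hgd : g ≠ d) (haq : a ≠ q) (hab : a ≠ b) (had : a ≠ d) (hqb : q ≠ b) (hqd : q ≠ d)
    (hbd : b ≠ d) :
    ¬ ((((wsg (o p g q b) == wsg (o p g d a)) == (wsg (o p g q a) == wsg (o p g b d))) &&
      ((wsg (o p g q b) == wsg (o p g d a)) != (wsg (o p g q d) == wsg (o p g b a)))) =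
      true) := by
  have n1 : o p g q b ≠ 0 := hgp.ne g q b hgq hqb hgb
  have n2 : o p g q d ≠ 0 := hgp.ne g q d hgq hqd hgd
  have n3 : o p g q a ≠ 0 := hgp.ne g q a hgq haq.symm hga
  have n4 : o p g b d ≠ 0 := hgp.ne g b d hgb hbd hgd
  have n5 : o p g b a ≠ 0 := hgp.ne g b a hgb hab.symm hga
  have n6 : o p g d a ≠ 0 := hgp.ne g d a hgd had.symm hga
  have hid : o p g q b * o p g d a + o p g q a * o p g b d = o p g q d * o p g b a := by
    unfold o; ring
  intro h
  rw [Bool.and_eq_true, beq_iff_eq, bne_iff_ne] at h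
  obtain ⟨h4, h5⟩ := h
  have m1 := wsg_eq n1 n6
  have m2 := wsg_eq n3 n4
  have m3 := wsg_eq n2 n5
  have z1 := mul_ne_zero n1 n6
  have z2 := mul_ne_zero n3 n4
  have z3 := mul_ne_zero n2 n5
  rcases hb : (wsg (o p g q b) == wsg (o p g d a)) with _ | _
  · rw [hb] at h4 h5 m1
    rw [← h4] at m2
    have h6 : (wsg (o p g q d) == wsg (o p g b a)) = true := by
      revert h5
      cases (wsg (o p g q d) == wsg (o p g b a)) <;> simp
    have k3 := m3.1 h6
    have k1 : ¬ 0 < o p g q b * o p g d a := fun h => by simpa using m1.2 h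
    have k2 : ¬ 0 < o p g q a * o p g b d := fun h => by simpa using m2.2 h
    have k1' := lt_of_le_of_ne (not_lt.1 k1) z1
    have k2' := lt_of_le_of_ne (not_lt.1 k2) z2
    linarith
  · rw [hb] at h4 h5 m1
    rw [← h4] at m2
    have h6 : (wsg (o p g q d) == wsg (o p g b a)) = false := by
      revert h5
      cases (wsg (o p g q d) == wsg (o p g b a)) <;> simp
    have k3 : ¬ 0 < o p g q d * o p g b a := fun h => by simpa [h6] using m3.2 h
    have k1 := m1.1 rfl
    have k2 := m2.1 rfl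
    have k3' := lt_of_le_of_ne (not_lt.1 k3) z3
    linarith

/-- cyclic order of four directions at `g` -/
private theorem cyc4 (hgp : GP p) {a g q b d : α} (hga : g ≠ a) (hgq : g ≠ q) (hgb : g ≠ b)
    (hgd : g ≠ d) (haq : a ≠ q) (hab : a ≠ b) (had : a ≠ d) (hqb : q ≠ b) (hqd : q ≠ d)
    (hbd : b ≠ d) (h1 : Lf p a g q b) (h2 : Lf p a g q d) (h3 : ¬ Lf p b g q d) :
    Lf p a g b d := by
  have n1 : o p g q b ≠ 0 := hgp.ne g q b hgq hqb hgb
  have n3 : o p g q a ≠ 0 := hgp.ne g q a hgq haq.symm hga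
  have n4 : o p g b d ≠ 0 := hgp.ne g b d hgb hbd hgd
  have n5 : o p g b a ≠ 0 := hgp.ne g b a hgb hab.symm hga
  have e1 : o p g a q = - o p g q a := o_swap' p g q a
  have e2 : o p g d b = - o p g b d := o_swap' p g b d
  have e3 : o p g b q = - o p g q b := o_swap' p g q b
  have e4 : o p g a b = - o p g b a := o_swap' p g b a
  have hneg : ∀ {x : ℝ}, x ≠ 0 → (0 < -x ↔ wsg x = false) := by
    intro x hx
    rw [wsg_f hx]
    constructor <;> intro h <;> linarith
  have hc := cyc_id hgp hga hgq hgb hgd haq hab had hqb hqd hbd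
  unfold Lf at h1 h2 h3 ⊢
  rw [e1] at h1 h2
  rw [e2, e3] at h3
  rw [e4]
  rw [hneg n3, ← wsg_t, ← wsg_t] at h1 h2
  rw [hneg n4, hneg n1, ← wsg_t] at h3
  rw [hneg n5, ← wsg_t, ← wsg_t]
  revert hc h1 h2 h3
  generalize wsg (o p g q b) = x1
  generalize wsg (o p g q d) = x2
  generalize wsg (o p g q a) = x3
  generalize wsg (o p g b d) = x4
  generalize wsg (o p g b a) = x5
  generalize wsg (o p g d a) = x6
  cases x1 <;> cases x2 <;> cases x3 <;> cases x4 <;> cases x5 <;> cases x6 <;> simp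

/-- cyclic order is transitive -/
private theorem cyc5 (hgp : GP p) {a g q b d : α} (hga : g ≠ a) (hgq : g ≠ q) (hgb : g ≠ b)
    (hgd : g ≠ d) (haq : a ≠ q) (hab : a ≠ b) (had : a ≠ d) (hqb : q ≠ b) (hqd : q ≠ d)
    (hbd : b ≠ d) (h1 : Lf p b g q d) (h2 : Lf p a g q b) : Lf p a g q d := by
  have n1 : o p g q b ≠ 0 := hgp.ne g q b hgq hqb hgb
  have n3 : o p g q a ≠ 0 := hgp.ne g q a hgq haq.symm hga
  have n4 : o p g b d ≠ 0 := hgp.ne g b d hgb hbd hgd
  have e1 : o p g a q = - o p g q a := o_swap' p g q a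
  have e2 : o p g d b = - o p g b d := o_swap' p g b d
  have e3 : o p g b q = - o p g q b := o_swap' p g q b
  have hneg : ∀ {x : ℝ}, x ≠ 0 → (0 < -x ↔ wsg x = false) := by
    intro x hx
    rw [wsg_f hx]
    constructor <;> intro h <;> linarith
  have hc := cyc_id hgp hga hgq hgb hgd haq hab had hqb hqd hbd
  unfold Lf at h1 h2 ⊢
  rw [e1] at h2 ⊢
  rw [e2, e3] at h1
  rw [hneg n3, ← wsg_t, ← wsg_t] at h2 ⊢
  rw [hneg n4, hneg n1, ← wsg_t] at h1
  revert hc h1 h2
  generalize wsg (o p g q b) = x1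
  generalize wsg (o p g q d) = x2
  generalize wsg (o p g q a) = x3
  generalize wsg (o p g b d) = x4
  generalize wsg (o p g b a) = x5
  generalize wsg (o p g d a) = x6
  cases x1 <;> cases x2 <;> cases x3 <;> cases x4 <;> cases x5 <;> cases x6 <;> simp

private theorem lf_rt {A g B z : α} (h : Lf p A g B z) : Lf p B g z A := by
  unfold Lf at h ⊢
  tauto

private theorem wo_insw {a b c z : α} (h : InTri p a b c z) : InTri p b a c z := by
  have e1 : o p b a z = - o p a b z := o_swap p a b z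
  have e2 : o p a c z = - o p c a z := o_swap p c a z
  have e3 : o p c b z = - o p b c z := o_swap p b c z
  unfold InTri at h ⊢
  rw [e1, e2, e3]
  rcases h with ⟨h1, h2, h3⟩ | ⟨h1, h2, h3⟩
  · exact Or.inr ⟨by linarith, by linarith, by linarith⟩
  · exact Or.inl ⟨by linarith, by linarith, by linarith⟩

/-- no direction enters a convex corner without crossing -/
private theorem wo_cv (hgp : GP p) {w s t a : α} (hws : w ≠ s) (hwt : w ≠ t) (hst : s ≠ t)
    (ha : w ≠ a ∧ s ≠ a ∧ t ≠ a) (hX : ¬ X p s t w a) (hI : ¬ InTri p w s t a)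
    (h0 : 0 < o p w s t) : ¬ (0 < o p w s a ∧ 0 < o p w a t) := by
  rintro ⟨h1, h2⟩
  have h3 := cone_par hgp hws hwt hst ha
  have hc : Cone p w s t a := Or.inl ⟨h0, h1, h2⟩
  rw [b2_false hX, b2_false hI, b2_true hc] at h3
  exact absurd h3 (by decide)

private theorem wo_lf_of {a g b z : α} (h0 : 0 < o p g a b)
    (h1 : ¬ (0 < o p g a z ∧ 0 < o p g z b)) (n1 : o p g a z ≠ 0) (n2 : o p g z b ≠ 0) :
    Lf p a g b z := by
  have e1 : o p g z a = - o p g a z := o_swap' p g a z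
  have e2 : o p g b z = - o p g z b := o_swap' p g z b
  by_cases h2 : 0 < o p g a z
  · have h3 : o p g z b < 0 := lt_of_le_of_ne (not_lt.1 fun h => h1 ⟨h2, h⟩) n2
    exact Or.inr (Or.inr ⟨h0, by rw [e2]; linarith⟩)
  · have h3 : o p g a z < 0 := lt_of_le_of_ne (not_lt.1 h2) n1
    exact Or.inr (Or.inl ⟨by rw [e1]; linarith, h0⟩)

private theorem wo_lf_not {a g b z : α} (h0 : 0 < o p g b a)
    (h1 : ¬ (0 < o p g b z ∧ 0 < o p g z a)) : ¬ Lf p a g b z := by
  have e1 : o p g a b = - o p g b a := o_swap' p g b a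
  rintro (h | h | h)
  · exact h1 h
  · have := h.2
    rw [e1] at this
    linarith
  · have := h.1
    rw [e1] at this
    linarith

/-- a direction between `x` and `A` is on the left -/
private theorem wo_cone {A q B x z : α} (hl : 0 < o p A q x) (h : Lf p A q B x)
    (hn : o p q A B ≠ 0) (h1 : 0 < o p A q z) (h2 : 0 < o p q x z) : Lf p A q B z := by
  have e1 : o p q z A = o p A q z := (o_rot p A q z)
  have e2 : o p q x A = o p A q x := (o_rot p A q x)
  by_cases hAB : 0 < o p q A B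
  · right; left
    exact ⟨by rw [e1]; exact h1, hAB⟩
  · have hAB' : o p q A B < 0 := lt_of_le_of_ne (not_lt.1 hAB) hn
    left
    have h3 : 0 < o p q B x := by
      rcases h with h | h | h
      · exact h.1
      · exact absurd h.2 hAB
      · exact absurd h.1 hAB
    refine ⟨?_, by rw [e1]; exact h1⟩
    have hid : o p q x A * o p q B z = o p q z A * o p q B x - o p q x z * o p q A B := by
      unfold o; ring
    rw [e1, e2] at hid
    have h4 : 0 < o p A q x * o p q B z := by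
      rw [hid]
      have := mul_pos h1 h3
      have := mul_neg_of_pos_of_neg h2 hAB'
      linarith
    exact (pos_iff_pos_of_mul_pos h4).1 hl

private theorem wo_notB {A q B x : α} (h : Lf p A q B x) :
    ¬ (0 < o p A q B ∧ 0 < o p q x B) := by
  rintro ⟨h1, h2⟩
  have e1 : o p q A B = - o p A q B := by rw [o_swap]
  have e2 : o p q x B = - o p q B x := o_swap' p q B x
  rcases h with h | h | h
  · have := h.1
    rw [e2] at h2
    linarith
  · have := h.2
    rw [e1] at this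
    linarith
  · have := h.1
    rw [e1] at this
    linarith

/-! ### the slit -/

section
variable {St : Set (List α)} {V W : Set α} {q A B x : α} {T E : List α}

/-- facts about the slit at `q` -/
private structure SL (p : α → ℝ × ℝ) (St : Set (List α)) (V W : Set α) (q A B x : α)
    (T E : List α) : Prop where
  wh : WH p St V W q (B :: (T ++ [A]))
  hq : q ∉ W
  hx : x ∈ W
  hxP : x ∉ q :: B :: (T ++ [A])
  he : ∀ l ∈ St, Ed l q x
  hq1 : ∀ l ∈ St, ∀ d, Ed l q d → d ∈ W → d = x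
  hx1 : ∀ l ∈ St, ∀ d, Ed l x d → d ∉ W → d = q
  hl : 0 < o p A q x
  lf : Lf p A q B x
  vq : Vis p (Ed (cyc q (B :: (T ++ [A])))) q x
  ch : Chn p V A q x E

private theorem sl_eq (h : SL p St V W q A B x T E) :
    q ≠ A ∧ q ≠ B ∧ A ≠ B ∧ x ≠ q ∧ x ≠ A ∧ x ≠ B := by
  have hn := h.wh.sim.nodup
  have hn1 := List.nodup_cons.1 hn
  have hn2 := List.nodup_cons.1 hn1.2
  have hxP := h.hxP
  refine ⟨?_, ?_, ?_, ?_, ?_, ?_⟩
  · rintro rfl
    exact hn1.1 (by simp)
  · rintro rfl
    exact hn1.1 (by simp)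
  · rintro rfl
    exact hn2.1 (by simp)
  · rintro rfl
    exact hxP (by simp)
  · rintro rfl
    exact hxP (by simp)
  · rintro rfl
    exact hxP (by simp)

private theorem sl_edq (_ : SL p St V W q A B x T E) :
    Ed (cyc q (B :: (T ++ [A]))) q A := wo_ed_old.2 (Or.inr (Or.inr ⟨rfl, rfl⟩))

/-- elements of the chain -/
private theorem sl_E (h : SL p St V W q A B x T E) {e : α} (heE : e ∈ E) :
    e ∈ V ∧ 0 < o p A q e ∧ 0 < o p q x e ∧ e ≠ q ∧ e ≠ A ∧ e ≠ x ∧ e ≠ B := by
  obtain ⟨h1, h2⟩ := h.ch.mem e heE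
  obtain ⟨h3, h4, -⟩ := InTri_pos h2 h.hl
  have hnd := h.ch.nodup
  refine ⟨h1, h3, h4, ?_, ?_, ?_, ?_⟩
  · rintro rfl
    simp at h3
  · rintro rfl
    simp at h3
  · rintro rfl
    simp at h4
  · rintro rfl
    exact wo_notB h.lf ⟨h3, h4⟩

/-- static neighbours of `q` are not in the ear -/
private theorem sl_qd (hgp : GP p) (h : SL p St V W q A B x T E) {l : List α} (hlS : l ∈ St)
    {d : α} (hd : Ed l q d) : ¬ (0 < o p A q d ∧ 0 < o p q x d) := by
  obtain ⟨n1, n2, n3, n4, n5, n6⟩ := sl_eq h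
  rintro ⟨h1, h2⟩
  by_cases hdx : d = x
  · rw [hdx] at h2
    simp at h2
  have hdW : d ∉ W := fun hW => hdx (h.hq1 l hlS d hd hW)
  have hdA : d ≠ A := by
    rintro rfl
    simp at h1
  have hdB : d ≠ B := by
    rintro rfl
    exact wo_notB h.lf ⟨h1, h2⟩
  have hdq : d ≠ q := by
    rintro rfl
    simp at h1
  have hlf : Lf p A q B d := wo_cone h.hl h.lf (hgp.ne q A B n1 n3 n2) h1 h2
  have hdV : d ∈ V := (h.wh.span l hlS d).1 (ed_mem' hd)
  by_cases hdP : d ∈ q :: B :: (T ++ [A])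
  · refine h.wh.schord l hlS q d hd h.hq hdW (by simp) hdP ?_ A B wo_tri_q0 hlf
    intro h3
    rcases wo_ed_q h.wh.sim.nodup h3 with h4 | h4
    · exact hdB h4
    · exact hdA h4
  · have hv : Vis p (Ed (cyc q (B :: (T ++ [A])))) q d :=
      fun a b hab hX => h.wh.fen a b hab l hlS q d hd (X_comm.1 hX)
    have h3 := lam_vis hgp h.wh.sim wo_tri_q0 hdP hv
    rw [h.wh.out d hdV hdW hdP, b2_true hlf] at h3
    exact absurd h3 (by decide)

/-- segments which do not cross the sides of the ear -/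
private theorem sl_reg (hgp : GP p) (h : SL p St V W q A B x T E) {c d : α} (hc : c ≠ q)
    (hd : d ≠ q) (hcV : c ∈ V) (hdV : d ∈ V) (h1 : ¬ X p q A c d) (h2 : ¬ X p q x c d) :
    (∀ e ∈ E, ¬ X p q e c d) ∧ ∀ a b, Nx (A :: (E ++ [x])) a b → ¬ X p a b c d :=
  reg hgp h.ch hc hd (Or.inl hcV) (Or.inl hdV) h1 h2

/-- polygon edges: visibility of spokes and chain edges -/
private theorem sl_poly (hgp : GP p) (h : SL p St V W q A B x T E) {c d : α}
    (hcd : Ed (cyc q (B :: (T ++ [A]))) c d) :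
    (∀ e ∈ E, ¬ X p q e c d) ∧ ∀ a b, Nx (A :: (E ++ [x])) a b → ¬ X p a b c d := by
  obtain ⟨n1, n2, n3, n4, n5, n6⟩ := sl_eq h
  have hmem : ∀ {u v}, Ed (cyc q (B :: (T ++ [A]))) u v → u ∈ V := by
    intro u v huv
    have h1 := ed_mem huv
    refine h.wh.mem u ?_
    simp only [cyc, List.mem_cons, List.mem_append, List.not_mem_nil, or_false] at h1 ⊢
    tauto
  have hq0 : ∀ d, Ed (cyc q (B :: (T ++ [A]))) q d → ∀ a b, Nx (A :: (E ++ [x])) a b →
      ¬ X p a b q d := by
    intro d hd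
    have h3 := wo_ed_q h.wh.sim.nodup hd
    refine reg_q hgp h.ch ?_ ?_
    · rcases h3 with rfl | rfl
      · exact n2.symm
      · exact n1.symm
    · rcases h3 with rfl | rfl
      · exact wo_notB h.lf
      · rintro ⟨h4, -⟩
        simp at h4
  by_cases hc : c = q
  · subst hc
    exact ⟨fun e _ hX => (X_ne hX).2.2.1 rfl, hq0 d hcd⟩
  by_cases hd : d = q
  · subst hd
    exact ⟨fun e _ hX => (X_ne hX).2.2.2.1 rfl,
      fun a b hab hX => hq0 c (ed_symm hcd) a b hab (X_sw2.1 hX)⟩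
  exact sl_reg hgp h hc hd (hmem hcd) (hmem (ed_symm hcd))
    (h.wh.sim.plane q A c d (sl_edq h) hcd) (h.vq c d hcd)

/-- state edges: visibility of spokes and chain edges -/
private theorem sl_state (hgp : GP p) (h : SL p St V W q A B x T E) {l : List α}
    (hlS : l ∈ St) {c d : α} (hcd : Ed l c d) :
    (∀ e ∈ E, ¬ X p q e c d) ∧ ∀ a b, Nx (A :: (E ++ [x])) a b → ¬ X p a b c d := by
  have hq0 : ∀ d, d ≠ q → Ed l q d → ∀ a b, Nx (A :: (E ++ [x])) a b →
      ¬ X p a b q d := by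
    intro d hdq hd
    exact reg_q hgp h.ch hdq (sl_qd hgp h hlS hd)
  have hcd' : c ≠ d := ed_ne (h.wh.nd l hlS) hcd
  by_cases hc : c = q
  · subst hc
    exact ⟨fun e _ hX => (X_ne hX).2.2.1 rfl, hq0 d hcd'.symm hcd⟩
  by_cases hd : d = q
  · subst hd
    exact ⟨fun e _ hX => (X_ne hX).2.2.2.1 rfl,
      fun a b hab hX => hq0 c hcd' (ed_symm hcd) a b hab (X_sw2.1 hX)⟩
  exact sl_reg hgp h hc hd ((h.wh.span l hlS c).1 (ed_mem hcd))
    ((h.wh.span l hlS d).1 (ed_mem' hcd)) (h.wh.fen q A (sl_edq h) l hlS c d hcd)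
    (h.wh.plane l hlS q x c d (h.he l hlS) hcd)

/-- the spokes are visible from `q` in the polygon -/
private theorem sl_spoke (hgp : GP p) (h : SL p St V W q A B x T E) {e : α} (heE : e ∈ E) :
    Lf p A q B e ∧ Vis p (Ed (cyc q (B :: (T ++ [A])))) q e := by
  obtain ⟨n1, n2, n3, n4, n5, n6⟩ := sl_eq h
  obtain ⟨-, h2, h3, -⟩ := sl_E h heE
  exact ⟨wo_cone h.hl h.lf (hgp.ne q A B n1 n3 n2) h2 h3,
    fun c d hcd => (sl_poly hgp h hcd).1 e heE⟩

/-- a chain vertex is not a free vertex of the polygon -/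
private theorem sl_free (hgp : GP p) (h : SL p St V W q A B x T E) {e : α} (heE : e ∈ E)
    (heT : e ∈ B :: T) : e ∉ W := by
  intro heW
  obtain ⟨n1, n2, n3, n4, n5, n6⟩ := sl_eq h
  obtain ⟨heV, h2, h3, hq, hA, hx, hB⟩ := sl_E h heE
  obtain ⟨hlf, hv⟩ := sl_spoke hgp h heE
  have heT' : e ∈ T := by
    rcases List.mem_cons.1 heT with h4 | h4
    · exact absurd h4 hB
    · exact h4
  obtain ⟨T1, T2, rfl⟩ := List.append_of_mem heT'
  have hP : B :: (T1 ++ e :: T2 ++ [A]) = (B :: T1) ++ e :: (T2 ++ [A]) := by simp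
  have hs := h.wh.sim
  have ht0 : Tri3 q (B :: (T1 ++ e :: T2 ++ [A])) A q B := wo_tri_q0
  have hem : e ∈ q :: B :: (T1 ++ e :: T2 ++ [A]) := by simp
  have hlen : 2 ≤ (B :: (T1 ++ e :: T2 ++ [A])).length := by
    simp only [List.length_cons, List.length_append]
    omega
  obtain ⟨a, b, hab⟩ := tri3_exists (v := q) (P := B :: (T1 ++ e :: T2 ++ [A])) hlen hem
  have hconv := h.wh.conv a e b hab heW
  obtain ⟨ea, eb⟩ := tri3_ed hab
  have hv' := hv
  have hab' := hab
  rw [hP] at hs ht0 hv' hab'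
  have hcc := (split_cc hgp hs (by simp) (by simp) hv' ht0 hab').1 hlf
  have e1 : o p a e b = o p e b a := (o_rot p a e b).symm
  have hba : 0 < o p e b a := by rw [← e1]; exact hconv
  have hab0 : ¬ 0 < o p e a b := by
    have := o_swap' p e b a
    rw [this]
    linarith
  have h5 : 0 < o p e b q ∧ 0 < o p e q a := by
    rcases hcc with h6 | h6 | h6
    · exact h6
    · exact absurd h6.2 hab0
    · exact absurd h6.1 hab0
  -- the chain neighbours of `e`
  obtain ⟨E1, E2, hE⟩ := List.append_of_mem heE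
  obtain ⟨S, x0, hS⟩ := wo_snoc A E1
  obtain ⟨y0, R, hR⟩ := wo_cons E2 x
  have hL : A :: (E ++ [x]) = S ++ x0 :: e :: y0 :: R := by
    rw [hE]
    have h6 : A :: (E1 ++ e :: E2 ++ [x]) = (A :: E1) ++ e :: (E2 ++ [x]) := by simp
    rw [h6, hS, hR]
    simp
  have hn1 : Nx (A :: (E ++ [x])) x0 e := ⟨S, y0 :: R, by rw [hL]⟩
  have hn2 : Nx (A :: (E ++ [x])) e y0 := ⟨S ++ [x0], R, by rw [hL]; simp⟩
  have hsub : [x0, e, y0].Sublist (A :: (E ++ [x])) := by
    rw [hL]
    refine List.Sublist.trans ?_ (List.sublist_append_right S _)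
    exact List.Sublist.cons_cons _ (List.Sublist.cons_cons _
      (List.Sublist.cons_cons _ (List.nil_sublist _)))
  have hc3 := h.ch.conv x0 e y0 hsub
  have hside : ∀ d, Ed (cyc q (B :: (T1 ++ e :: T2 ++ [A]))) e d → d ≠ e → d ≠ q →
      0 ≤ o p x0 e d := by
    intro d hd hde hdq
    by_cases hd1 : d = x0
    · rw [hd1]; simp
    by_cases hd2 : d = y0
    · rw [hd2]; exact hc3.le
    have hdV : d ∈ V := by
      have h1 := ed_mem' hd
      refine h.wh.mem d ?_
      simp only [cyc, List.mem_cons, List.mem_append, List.not_mem_nil, or_false] at h1 ⊢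
      tauto
    exact (reg_left hgp h.ch hn1 hn2 (Or.inl hdV) hde hdq hd1 hd2
      (h.wh.sim.plane q A e d (sl_edq h) hd) (h.vq e d hd)).1.le
  have hnn := h.wh.sim.nodup
  have hne3 := tri3_ne hnn hlen hab
  have haq : a ≠ q := by
    rintro rfl
    have := h5.2
    simp at this
  have hbq : b ≠ q := by
    rintro rfl
    have := h5.1
    simp at this
  have k1 := hside a (ed_symm ea) hne3.2.1.symm haq
  have k2 := hside b eb hne3.2.2.1.symm hbq
  have hang : o p q x0 e < 0 := by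
    refine h.ch.ang x0 e ?_
    refine List.Sublist.trans ?_ hsub
    exact List.Sublist.cons_cons _ (List.Sublist.cons_cons _ (List.nil_sublist _))
  have e2 : o p x0 e q = o p q x0 e := o_rot p q x0 e
  have hid : o p e b a * o p x0 e q = o p e q a * o p x0 e b + o p e b q * o p x0 e a := by
    unfold o; ring
  have k3 : o p e b a * o p x0 e q < 0 := by
    rw [e2]
    exact mul_neg_of_pos_of_neg hba hang
  have k4 := mul_nonneg h5.2.le k2
  have k5 := mul_nonneg h5.1.le k1
  linarith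

private theorem wo_nx_mem {L : List α} {a b : α} (h : Nx L a b) : a ∈ L ∧ b ∈ L := by
  obtain ⟨S, T, rfl⟩ := h
  exact ⟨by simp, by simp⟩

private theorem wo_nx_sub {L : List α} {a b : α} (h : Nx L a b) : [a, b].Sublist L := by
  obtain ⟨S, T, rfl⟩ := h
  refine List.Sublist.trans ?_ (List.sublist_append_right S _)
  exact List.Sublist.cons_cons _ (List.Sublist.cons_cons _ (List.nil_sublist _))

/-- the spokes are not crossed by the states -/
private theorem sl_spk (hgp : GP p) (h : SL p St V W q A B x T E) {l : List α}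
    (hlS : l ∈ St) {e : α} (he : e ∈ A :: (E ++ [x])) {c d : α} (hcd : Ed l c d) :
    ¬ X p q e c d := by
  simp only [List.mem_cons, List.mem_append, List.not_mem_nil, or_false] at he
  rcases he with rfl | he | rfl
  · exact h.wh.fen q e (sl_edq h) l hlS c d hcd
  · exact (sl_state hgp h hlS hcd).1 e he
  · exact h.wh.plane l hlS q e c d (h.he l hlS) hcd

/-- the chain is visible from the polygon -/
private theorem sl_chv (hgp : GP p) (h : SL p St V W q A B x T E) {a b : α}
    (hn : Nx (A :: (E ++ [x])) a b) : Vis p (Ed (cyc q (B :: (T ++ [A])))) a b :=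
  fun _ _ hcd => (sl_poly hgp h hcd).2 a b hn

end

/-- opening a slit on the left -/
theorem wh_openL [Finite α] (hgp : GP p) {St : Set (List α)} (hne : St.Nonempty)
    {V W : Set α} {q A B x : α} {T : List α}
    (h : WH p St V W q (B :: (T ++ [A]))) (hq : q ∉ W) (hx : x ∈ W)
    (hxP : x ∉ q :: B :: (T ++ [A])) (he : ∀ l ∈ St, Ed l q x)
    (hq1 : ∀ l ∈ St, ∀ d, Ed l q d → d ∈ W → d = x)
    (hx1 : ∀ l ∈ St, ∀ d, Ed l x d → d ∉ W → d = q) (hl : 0 < o p A q x) :
    ∃ E, Chn p V A q x E ∧ ((∃ e ∈ E, e ∈ B :: T ∧ e ∉ W) ∨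
      ((∀ e ∈ E, e ∈ W ∧ e ∉ B :: T) ∧
        WH p St V (W \ {x}) x (q :: B :: (T ++ A :: E)))) := by
  obtain ⟨l0, hl0⟩ := hne
  have hnn := h.sim.nodup
  have hvq : Vis p (Ed (cyc q (B :: (T ++ [A])))) q x :=
    fun a b hab hX => h.fen a b hab l0 hl0 q x (he l0 hl0) (X_comm.1 hX)
  have hlf : Lf p A q B x := by
    have h3 := lam_vis hgp h.sim wo_tri_q0 hxP hvq
    rw [h.inn x hx hxP] at h3
    by_contra hc
    rw [b2_false hc] at h3
    exact absurd h3 (by decide)
  obtain ⟨E, hC⟩ := chain hgp V hl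
  have hsl : SL p St V W q A B x T E := ⟨h, hq, hx, hxP, he, hq1, hx1, hl, hlf, hvq, hC⟩
  refine ⟨E, hC, ?_⟩
  by_cases hce : ∃ e ∈ E, e ∈ B :: T
  · obtain ⟨e, h1, h2⟩ := hce
    exact Or.inl ⟨e, h1, h2, sl_free hgp hsl h1 h2⟩
  right
  have hce' : ∀ e ∈ E, e ∉ B :: T := fun e h1 h2 => hce ⟨e, h1, h2⟩
  obtain ⟨n1, n2, n3, n4, n5, n6⟩ := sl_eq hsl
  have hEP : ∀ e ∈ E, e ∉ q :: B :: (T ++ [A]) := by
    intro e heE h2
    obtain ⟨-, -, -, k1, k2, -, -⟩ := sl_E hsl heE
    rcases wo_mem_old.1 h2 with h3 | h3 | h3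
    · exact k1 h3
    · exact hce' e heE h3
    · exact k2 h3
  have hEW : ∀ e ∈ E, e ∈ W := by
    intro e heE
    by_contra hW
    obtain ⟨h1, h2⟩ := sl_spoke hgp hsl heE
    have h3 := lam_vis hgp h.sim wo_tri_q0 (hEP e heE) h2
    rw [h.out e (sl_E hsl heE).1 hW (hEP e heE), b2_true h1] at h3
    exact absurd h3 (by decide)
  obtain ⟨hsim, hlam, hpos⟩ := ins_openL hgp h.sim hC hxP hlf hvq
    (fun t ht => Or.inl (h.mem t (List.mem_cons_of_mem _ ht))) hce'
  have hn' := hsim.nodup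
  have hAm : A ∈ q :: B :: (T ++ [A]) := by simp
  have hBT : ∀ {c}, c ∈ B :: T → c ∈ q :: B :: (T ++ [A]) := fun hc =>
    wo_mem_old.2 (Or.inr (Or.inl hc))
  -- the second vertex of the chain
  have hf : ∀ {f : α}, (∃ R, E ++ [x] = f :: R) →
      Nx (A :: (E ++ [x])) A f ∧ f ∈ W ∧ f ∉ q :: B :: (T ++ [A]) ∧ f ≠ q ∧ f ≠ A ∧
        0 < o p A q f := by
    rintro f ⟨R, hR⟩
    have h1 : Nx (A :: (E ++ [x])) A f := ⟨[], R, by rw [hR]; rfl⟩
    have h2 := hC.ang A f (wo_nx_sub h1)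
    have hm : f ∈ E ++ [x] := by rw [hR]; simp
    have hm' : f ∈ E ∨ f = x := by simpa using hm
    have e1 : o p A q f = - o p q A f := o_swap p q A f
    refine ⟨h1, ?_, ?_, ?_, ?_, by rw [e1]; linarith⟩
    · rcases hm' with hm' | rfl
      · exact hEW f hm'
      · exact hx
    · rcases hm' with hm' | rfl
      · exact hEP f hm'
      · exact hxP
    · rintro rfl
      simp at h2
    · rintro rfl
      simp at h2
  -- vertices `z` outside of the old polygon are seen on the left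
  have hvis : ∀ {a c b z : α}, Tri3 q (B :: (T ++ [A])) a c b → z ∈ W →
      z ∉ q :: B :: (T ++ [A]) → Vis p (Ed (cyc q (B :: (T ++ [A])))) c z → Lf p a c b z := by
    intro a c b z ht hz hzP hv
    have h3 := lam_vis hgp h.sim ht hzP hv
    rw [h.inn z hz hzP] at h3
    by_contra hc
    rw [b2_false hc] at h3
    exact absurd h3 (by decide)
  have hstv : ∀ {l : List α}, l ∈ St → ∀ {c z : α}, Ed l c z →
      Vis p (Ed (cyc q (B :: (T ++ [A])))) c z :=
    fun {l} hlS {c z} hcz a b hab hX => h.fen a b hab l hlS c z hcz (X_comm.1 hX)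
  -- the corner at `A`
  have hfA : ∀ {a f : α}, Tri3 q (B :: (T ++ [A])) a A q → (∃ R, E ++ [x] = f :: R) →
      Lf p a A q f := by
    intro a f ht hR
    obtain ⟨h1, h2, h3, -⟩ := hf hR
    exact hvis ht h2 h3 (sl_chv hgp hsl h1)
  have hAd : ∀ {l : List α}, l ∈ St → ∀ {f d : α}, (∃ R, E ++ [x] = f :: R) → Ed l A d →
      d ≠ f → d ≠ q → d ≠ A → ¬ Lf p f A q d := by
    intro l hlS f d hR hd h1 h2 h3
    obtain ⟨k1, k2, k3, k4, k5, k6⟩ := hf hR
    refine wo_lf_not k6 ?_
    refine wo_cv hgp n1.symm k5.symm k4.symm ⟨h3.symm, h2.symm, h1.symm⟩ ?_ ?_ k6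
    · exact sl_spk hgp hsl hlS (wo_nx_mem k1).2 hd
    · exact fun hI => hC.emp A f k1 d ((h.span l hlS d).1 (ed_mem' hd)) (wo_insw hI)
  refine ⟨fun e he1 => ⟨hEW e he1, hce' e he1⟩, ?_⟩
  have hedx : Ed (cyc x (q :: B :: (T ++ A :: E))) x q := wo_ed_new.2 (Or.inl (Or.inl ⟨rfl, rfl⟩))
  have hedo : ∀ {c d : α}, c ∈ B :: T → Ed (cyc q (B :: (T ++ [A]))) c d →
      Ed (cyc x (q :: B :: (T ++ A :: E))) c d := by
    intro c d hc hd
    rcases wo_ed_old.1 hd with h1 | ⟨h1, -⟩ | ⟨h1, -⟩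
    · exact wo_ed_new.2 (Or.inr (Or.inl h1))
    · exfalso
      rw [h1] at hc
      have h2 : ((B :: T) ++ [A]).Nodup := (List.nodup_cons.1 hnn).2
      exact (List.nodup_append.1 h2).2.2 A hc A (by simp) rfl
    · exfalso
      rw [h1] at hc
      exact (List.nodup_cons.1 hnn).1
        (by
          have : B :: (T ++ [A]) = (B :: T) ++ [A] := rfl
          rw [this]
          exact List.mem_append_left _ hc)
  refine
    { sim := hsim
      pos := hpos h.pos
      mem := ?_
      wsub := fun t ht => h.wsub t ht.1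
      plane := h.plane
      span := h.span
      nd := h.nd
      fen := ?_
      conv := ?_
      inn := ?_
      out := ?_
      clo := ?_
      chord := ?_
      schord := ?_ }
  · -- mem
    intro t ht
    rcases wo_mem_new.1 ht with rfl | rfl | ht | rfl | ht
    · exact h.wsub _ hx
    · exact h.mem _ (by simp)
    · exact h.mem t (hBT ht)
    · exact h.mem _ hAm
    · exact h.wsub t (hEW t ht)
  · -- fen
    intro a b hab l hlS c d hcd
    rcases wo_ed_new.1 hab with (⟨rfl, rfl⟩ | ⟨rfl, rfl⟩) | h1 | h1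
    · exact h.plane l hlS a b c d (ed_symm (he l hlS)) hcd
    · exact h.plane l hlS a b c d (he l hlS) hcd
    · exact h.fen a b (wo_ed_old.2 (Or.inl h1)) l hlS c d hcd
    · rcases wo_nx.1 h1 with h2 | h2
      · exact (sl_state hgp hsl hlS hcd).2 a b h2
      · exact fun hX => (sl_state hgp hsl hlS hcd).2 b a h2 (X_sw1.1 hX)
  · -- conv
    intro a g b hab hg
    have hgm := (tri3_ne hn' hsim.len hab).2.2.2.2.1
    rcases wo_mem_new.1 hgm with rfl | rfl | hgm | rfl | hgm
    · exact absurd rfl hg.2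
    · exact absurd hg.1 hq
    · exact h.conv a g b (wo_tri_old hnn hn' hgm hab) hg.1
    · obtain ⟨h1, h2⟩ := wo_tri_A hn' hab
      obtain ⟨k1, k2, k3, k4, k5, k6⟩ := hf h2
      have h3 := hfA h1 h2
      obtain ⟨m1, m2, m3, m4, -, -⟩ := tri3_ne hnn h.sim.len h1
      have h4 : b ≠ a := by
        rintro rfl
        exact k3 m4
      exact ((lf_left hgp m1 m2 m3 ⟨k5.symm, h4.symm, k4.symm⟩ (h.conv a g q h1 hg.1)).1 h3).1
    · obtain ⟨S, R, h1⟩ := wo_tri_E hn' hgm hab
      refine hC.conv a g b ?_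
      rw [h1]
      refine List.Sublist.trans ?_ (List.sublist_append_right S _)
      exact List.Sublist.cons_cons _ (List.Sublist.cons_cons _
        (List.Sublist.cons_cons _ (List.nil_sublist _)))
  · -- inn
    intro u hu huP
    have h1 : u ∉ q :: B :: (T ++ [A]) := by
      intro h2
      apply huP
      rcases wo_mem_old.1 h2 with h3 | h3 | h3
      · exact wo_mem_new.2 (Or.inr (Or.inl h3))
      · exact wo_mem_new.2 (Or.inr (Or.inr (Or.inl h3)))
      · exact wo_mem_new.2 (Or.inr (Or.inr (Or.inr (Or.inl h3))))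
    have h2 : u ∉ E := fun h2 => huP (wo_mem_new.2 (Or.inr (Or.inr (Or.inr (Or.inr h2)))))
    rw [hlam u h1 h2 hu.2 (fun a b hab => hC.emp a b hab u (h.wsub u hu.1))]
    exact h.inn u hu.1 h1
  · -- out
    intro u huV hu huP
    have h1 : u ∉ q :: B :: (T ++ [A]) := by
      intro h2
      apply huP
      rcases wo_mem_old.1 h2 with h3 | h3 | h3
      · exact wo_mem_new.2 (Or.inr (Or.inl h3))
      · exact wo_mem_new.2 (Or.inr (Or.inr (Or.inl h3)))
      · exact wo_mem_new.2 (Or.inr (Or.inr (Or.inr (Or.inl h3))))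
    have h2 : u ∉ E := fun h2 => huP (wo_mem_new.2 (Or.inr (Or.inr (Or.inr (Or.inr h2)))))
    have h3 : u ≠ x := fun h3 => huP (wo_mem_new.2 (Or.inl h3))
    rw [hlam u h1 h2 h3 (fun a b hab => hC.emp a b hab u huV)]
    exact h.out u huV (fun h4 => hu ⟨h4, h3⟩) h1
  · -- clo
    intro l hlS c d hcd hc
    rcases h.clo l hlS c d hcd hc.1 with h1 | h1
    · by_cases h2 : d = x
      · exact Or.inr (wo_mem_new.2 (Or.inl h2))
      · exact Or.inl ⟨h1, h2⟩
    · right
      rcases wo_mem_old.1 h1 with h3 | h3 | h3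
      · exact wo_mem_new.2 (Or.inr (Or.inl h3))
      · exact wo_mem_new.2 (Or.inr (Or.inr (Or.inl h3)))
      · exact wo_mem_new.2 (Or.inr (Or.inr (Or.inr (Or.inl h3))))
  · -- chord
    intro l hlS c d hcd hW hc hd hned a b hab
    have hcd' : c ≠ d := ed_ne (h.nd l hlS) hcd
    have hdV : d ∈ V := (h.span l hlS d).1 (ed_mem' hcd)
    have hW' : c ∈ W ∨ d ∈ W := hW.imp (fun h1 => h1.1) (fun h1 => h1.1)
    have hdq : d ≠ q := by
      rintro rfl
      have hcW : c ∈ W := by
        rcases hW with h1 | h1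
        · exact h1.1
        · exact absurd h1.1 hq
      have h1 := hq1 l hlS c (ed_symm hcd) hcW
      subst h1
      exact hned hedx
    rcases wo_mem_new.1 hc with rfl | rfl | hc1 | rfl | hc1
    · -- `c = x`
      obtain ⟨rfl, h1⟩ := wo_tri_x hn' hab
      have h2 := hC.ang a c (wo_nx_sub h1)
      have haq : a ≠ b := by
        rintro rfl
        simp at h2
      have hac : a ≠ c := by
        rintro rfl
        simp at h2
      have had : a ≠ d := by
        rintro rfl
        apply hned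
        exact wo_ed_new.2 (Or.inr (Or.inr (wo_nx.2 (Or.inr h1))))
      have e1 : o p c a b = - o p b a c := o_swap'' p b a c
      have h0 : 0 < o p c a b := by rw [e1]; linarith
      have hX : ¬ X p a b c d := fun hX =>
        sl_spk hgp hsl hlS (wo_nx_mem h1).1 hcd (X_sw1.1 hX)
      have hI : ¬ InTri p c a b d := fun hI =>
        hC.emp a c h1 d hdV (wo_insw (wo_intri hI))
      exact wo_lf_of h0 (wo_cv hgp hac.symm n4 haq ⟨hcd', had, hdq.symm⟩ hX hI h0)
        (hgp.ne c a d hac.symm had hcd') (hgp.ne c d b hcd' hdq n4)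
    · -- `c = q`
      exfalso
      have hdW : d ∈ W := by
        rcases hW with h1 | h1
        · exact absurd h1.1 hq
        · exact h1.1
      have h1 := hq1 l hlS d hcd hdW
      subst h1
      exact hned (ed_symm hedx)
    · -- `c` old
      have hab' := wo_tri_old hnn hn' hc1 hab
      rcases wo_mem_new.1 hd with rfl | rfl | hd | rfl | hd
      · exact hvis hab' hx hxP (hstv hlS hcd)
      · exact absurd rfl hdq
      · exact h.chord l hlS c d hcd hW' (hBT hc1) (hBT hd) (fun h1 => hned (hedo hc1 h1)) a b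
          hab'
      · exact h.chord l hlS c d hcd hW' (hBT hc1) hAm (fun h1 => hned (hedo hc1 h1)) a b hab'
      · exact hvis hab' (hEW d hd) (hEP d hd) (hstv hlS hcd)
    · -- `c = A`
      obtain ⟨hab', hR⟩ := wo_tri_A hn' hab
      obtain ⟨k1, k2, k3, k4, k5, k6⟩ := hf hR
      obtain ⟨m1, m2, m3, m4, -, -⟩ := tri3_ne hnn h.sim.len hab'
      have hdb : d ≠ b := by
        rintro rfl
        apply hned
        exact wo_ed_new.2 (Or.inr (Or.inr (wo_nx.2 (Or.inl k1))))
      have had : a ≠ d := by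
        rintro rfl
        exact hned (ed_symm (tri3_ed hab).1)
      have hld : Lf p a c q d := by
        rcases wo_mem_new.1 hd with rfl | rfl | hd | rfl | hd
        · exact hvis hab' hx hxP (hstv hlS hcd)
        · exact absurd rfl hdq
        · exact h.chord l hlS c d hcd hW' hAm (hBT hd)
            (fun h1 => hned (ed_symm (hedo hd (ed_symm h1)))) a q hab'
        · exact absurd rfl hcd'
        · exact hvis hab' (hEW d hd) (hEP d hd) (hstv hlS hcd)
      have hab2 : a ≠ b := by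
        rintro rfl
        exact k3 m4
      exact cyc4 hgp m2 m3 k5.symm hcd' m1 hab2 had k4.symm hdq.symm hdb.symm (hfA hab' hR) hld
        (hAd hlS hR hcd hdb hdq hcd'.symm)
    · -- `c ∈ E`
      obtain ⟨S, R, h1⟩ := wo_tri_E hn' hc1 hab
      have hn1 : Nx (A :: (E ++ [x])) a c := ⟨S, b :: R, h1⟩
      have hn2 : Nx (A :: (E ++ [x])) c b := ⟨S ++ [a], R, by rw [h1]; simp⟩
      have hda : d ≠ a := by
        rintro rfl
        apply hned
        exact wo_ed_new.2 (Or.inr (Or.inr (wo_nx.2 (Or.inr hn1))))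
      have hdb : d ≠ b := by
        rintro rfl
        apply hned
        exact wo_ed_new.2 (Or.inr (Or.inr (wo_nx.2 (Or.inl hn2))))
      have hmA : A ∈ A :: (E ++ [x]) := by simp
      have hmx : x ∈ A :: (E ++ [x]) := by simp
      obtain ⟨j1, j2⟩ := reg_left hgp hC hn1 hn2 (Or.inl hdV) hcd'.symm hdq hda hdb
        (sl_spk hgp hsl hlS hmA hcd) (sl_spk hgp hsl hlS hmx hcd)
      obtain ⟨m1, m2, m3, -, -, -⟩ := tri3_ne hn' hsim.len hab
      have hconv : 0 < o p a c b := by
        refine hC.conv a c b ?_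
        rw [h1]
        refine List.Sublist.trans ?_ (List.sublist_append_right S _)
        exact List.Sublist.cons_cons _ (List.Sublist.cons_cons _
          (List.Sublist.cons_cons _ (List.nil_sublist _)))
      exact (lf_left hgp m1 m2 m3 ⟨hcd', hda.symm, hdb.symm⟩ hconv).2 ⟨j1, j2⟩
  · -- schord
    intro l hlS c d hcd hcW hdW hc hd hned a b hab
    have hcd' : c ≠ d := ed_ne (h.nd l hlS) hcd
    have hcx : c ≠ x := by
      rintro rfl
      have h1 : d ∉ W := fun h1 => hdW ⟨h1, hcd'.symm⟩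
      have h2 := hx1 l hlS d hcd h1
      subst h2
      exact hned hedx
    have hdx : d ≠ x := by
      rintro rfl
      have h1 : c ∉ W := fun h1 => hcW ⟨h1, hcd'⟩
      have h2 := hx1 l hlS c (ed_symm hcd) h1
      subst h2
      exact hned (ed_symm hedx)
    have hcW' : c ∉ W := fun h1 => hcW ⟨h1, hcx⟩
    have hdW' : d ∉ W := fun h1 => hdW ⟨h1, hdx⟩
    have hcE : c ∉ E := fun h1 => hcW' (hEW c h1)
    have hdE : d ∉ E := fun h1 => hdW' (hEW d h1)
    have hdP : d ∈ q :: B :: (T ++ [A]) := by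
      rcases wo_mem_new.1 hd with h1 | h1 | h1 | h1 | h1
      · exact absurd h1 hdx
      · exact wo_mem_old.2 (Or.inl h1)
      · exact hBT h1
      · rw [h1]; exact hAm
      · exact absurd h1 hdE
    rcases wo_mem_new.1 hc with rfl | rfl | hc | rfl | hc
    · exact absurd rfl hcx
    · -- `c = q`
      obtain ⟨rfl, rfl⟩ := wo_tri_q hn' hab
      by_cases hdA : d = A
      · rw [hdA]
        exact (lf_swap2 hgp n3 n1 n2 ⟨n4.symm, n5.symm, n6.symm⟩).1 hlf
      · intro hl1
        have hdB : d ≠ b := by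
          rintro rfl
          apply hned
          exact wo_ed_new.2 (Or.inr (Or.inl (ed_cons2.2 (Or.inl ⟨rfl, rfl⟩))))
        have h1 : ¬ Ed (cyc c (b :: (T ++ [A]))) c d := by
          intro h2
          rcases wo_ed_q hnn h2 with h3 | h3
          · exact hdB h3
          · exact hdA h3
        refine h.schord l hlS c d hcd hcW' hdW' (by simp) hdP h1 A b wo_tri_q0 ?_
        exact cyc5 hgp n1 n2 n4.symm hcd' n3 n5.symm (Ne.symm hdA) n6.symm (Ne.symm hdB)
          hdx.symm hl1 hlf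
    · -- `c` old
      exact h.schord l hlS c d hcd hcW' hdW' (hBT hc) hdP (fun h1 => hned (hedo hc h1)) a b
        (wo_tri_old hnn hn' hc hab)
    · -- `c = A`
      obtain ⟨hab', hR⟩ := wo_tri_A hn' hab
      obtain ⟨k1, k2, k3, k4, k5, k6⟩ := hf hR
      obtain ⟨m1, m2, m3, m4, -, -⟩ := tri3_ne hnn h.sim.len hab'
      have hfa := hfA hab' hR
      have hab2 : a ≠ b := by
        rintro rfl
        exact k3 m4
      by_cases hdq : d = q
      · rw [hdq]
        exact (lf_swap1 hgp m1 m2 m3 ⟨k5.symm, hab2, k4.symm⟩).1 hfa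
      · intro hl1
        have hdb : d ≠ b := by
          rintro rfl
          exact k3 hdP
        have hdBT : d ∈ B :: T := by
          rcases wo_mem_old.1 hdP with h1 | h1 | h1
          · exact absurd h1 hdq
          · exact h1
          · exact absurd h1.symm hcd'
        have hda : a ≠ d := by
          rintro rfl
          exact hned (ed_symm (tri3_ed hab).1)
        refine h.schord l hlS c d hcd hcW' hdW' hAm hdP
          (fun h1 => hned (ed_symm (hedo hdBT (ed_symm h1)))) a q hab' ?_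
        have j1 : Lf p b c a q := lf_rt (lf_rt hfa)
        have j2 : Lf p d c a b := lf_rt (lf_rt hl1)
        have j3 : Lf p d c a q := cyc5 hgp hcd' m2 k5.symm m3 (Ne.symm hda) hdb hdq hab2 m1
          k4 j1 j2
        exact lf_rt j3
    · exact absurd hc hcE

end FPW
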