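import Pool.Agent.Lib.MP_deef39_co_Ord.GRot

/-! # Ord module GWTake: hull moves and monotonicity -/

set_option autoImplicit false
set_option linter.unusedVariables false

namespace FPW

variable {α : Type*} {p : α → ℝ × ℝ}

private theorem gw_shrink {St : Set (List α)} {V W : Set α} {b q : α} {P : List α}
    (h : WH p St V W b P) (he : Ed (cyc b P) b q)
    (hx1 : ∀ l ∈ St, ∀ d, Ed l b d → d ∉ W → d = q) : WH p St V (W \ {b}) b P where
  sim := h.sim
  pos := h.pos
  mem := h.mem
  wsub := fun t ht => h.wsub t ht.1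
  plane := h.plane
  span := h.span
  nd := h.nd
  fen := h.fen
  conv := fun A g B ht hg => h.conv A g B ht hg.1
  inn := fun u hu hu' => h.inn u hu.1 hu'
  out := by
    intro s hs hs' hsP
    refine h.out s hs (fun hW => hs' ⟨hW, ?_⟩) hsP
    intro hb
    rw [Set.mem_singleton_iff] at hb
    exact hsP (by rw [hb]; exact List.mem_cons_self)
  clo := by
    intro l hl c d hcd hc
    rcases h.clo l hl c d hcd hc.1 with hd | hd
    · by_cases hb : d = b
      · exact Or.inr (by rw [hb]; exact List.mem_cons_self)
      · exact Or.inl ⟨hd, hb⟩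
    · exact Or.inr hd
  chord := by
    intro l hl c d hcd hW
    exact h.chord l hl c d hcd (hW.imp (fun x => x.1) (fun x => x.1))
  schord := by
    intro l hl c d hcd hc hd hcP hdP hne A B ht
    by_cases hcb : c = b
    · subst hcb
      have hdW : d ∉ W := fun hdW => hd ⟨hdW, fun hdb => (ed_ne (h.nd l hl) hcd) hdb.symm⟩
      have := hx1 l hl d hcd hdW
      subst this
      exact absurd he hne
    · have hcW : c ∉ W := fun hcW => hc ⟨hcW, hcb⟩
      by_cases hdb : d = b
      · subst hdb
        have := hx1 l hl c (ed_symm hcd) hcW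
        subst this
        exact absurd (ed_symm he) hne
      · exact h.schord l hl c d hcd hcW (fun hdW => hd ⟨hdW, hdb⟩) hcP hdP hne A B ht

/-- the next vertex is the right neighbour `B` of the tip `q` -/
theorem wh_takeR (hgp : GP p) {St : Set (List α)} {V W : Set α} {q A B : α} {T : List α}
    (h : WH p St V W q (B :: (T ++ [A]))) (hq : q ∉ W) (hB : B ∈ W)
    (hq1 : ∀ l ∈ St, ∀ d, Ed l q d → d ∈ W → d = B)
    (hx1 : ∀ l ∈ St, ∀ d, Ed l B d → d ∉ W → d = q) :
    WH p St V (W \ {B}) B (T ++ [A, q]) := by
  have h' : WH p St V W B (T ++ [A, q]) := by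
    have := wh_rot (S := []) (w := B) (T := T ++ [A]) hgp h
    simpa using this
  refine gw_shrink h' ?_ hx1
  have : cyc B (T ++ [A, q]) = (B :: (T ++ [A])) ++ q :: B :: [] := by simp [cyc]
  rw [this]
  exact ed_of_split'

/-- the next vertex is the left neighbour `A` of the tip `q` -/
theorem wh_takeL (hgp : GP p) {St : Set (List α)} {V W : Set α} {q A B : α} {T : List α}
    (h : WH p St V W q (B :: (T ++ [A]))) (hq : q ∉ W) (hA : A ∈ W)
    (hq1 : ∀ l ∈ St, ∀ d, Ed l q d → d ∈ W → d = A)
    (hx1 : ∀ l ∈ St, ∀ d, Ed l A d → d ∉ W → d = q) :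
    WH p St V (W \ {A}) A (q :: B :: T) := by
  have h' : WH p St V W A (q :: B :: T) := by
    have := wh_rot (S := B :: T) (w := A) (T := []) hgp h
    simpa using this
  refine gw_shrink h' ?_ hx1
  have : cyc A (q :: B :: T) = [] ++ A :: q :: (B :: T ++ [A]) := by simp [cyc]
  rw [this]
  exact ed_of_split

/-- fewer states -/
theorem wh_mono {St St' : Set (List α)} {V W : Set α} {v : α} {P : List α}
    (h : WH p St V W v P) (hs : St' ⊆ St) : WH p St' V W v P where
  sim := h.sim
  pos := h.pos
  mem := h.mem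
  wsub := h.wsub
  plane := fun l hl => h.plane l (hs hl)
  span := fun l hl => h.span l (hs hl)
  nd := fun l hl => h.nd l (hs hl)
  fen := fun a b hab l hl => h.fen a b hab l (hs hl)
  conv := h.conv
  inn := h.inn
  out := h.out
  clo := fun l hl => h.clo l (hs hl)
  chord := fun l hl => h.chord l (hs hl)
  schord := fun l hl => h.schord l (hs hl)

end FPW
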