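import Pool.Agent.Lib.MP_deef39_co_Ord.HOne

/-! # Ord module HCyc: the law for one static edge replaces `TGp`

`J1p`: every class of plane paths with fixed first edge `u z` (`u`, `z` arbitrary) contains a path
whose end sees `u`, so it closes up to a plane polygon. Any edge of the polygon may be removed, so
every chosen vertex can be made an end. Hence `H1p` (or `VLp`) and `J1p` give connectivity.
-/

set_option autoImplicit false

namespace FPW

variable {α : Type*}

/-- every class of plane paths with fixed first edge `u z` contains a path whose end sees `u` -/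
def J1p (p : α → ℝ × ℝ) : Prop :=
  ∀ (u z : α) (B : List α), (u :: z :: B).Nodup → Plane p (Ed (u :: z :: B)) →
    ∃ A y, Reach p (Ed [u, z]) (z :: B) (A ++ [y]) ∧ Vis p (EO (A ++ [y]) (Ed [u, z])) y u

variable {p : α → ℝ × ℝ}

/-- turning a closed polygon by one vertex -/
theorem hc_step {a b : α} {t : List α} (hp : Plane p (Ed ((a :: b :: t) ++ [a]))) :
    Relation.ReflTransGen (U p) (a :: b :: t) ((b :: t) ++ [a]) ∧
      Plane p (Ed (((b :: t) ++ [a]) ++ [b])) := by
  constructor
  · obtain ⟨D, z, hD⟩ : ∃ D z, b :: t = D ++ [z] := by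
      rcases List.eq_nil_or_concat (b :: t) with h | ⟨D, z, h⟩
      · exact absurd h (by simp)
      · exact ⟨D, z, by rw [h, List.concat_eq_append]⟩
    have h1 : Rot p NO (a :: b :: t) (a :: z :: D.reverse) := by
      refine ⟨a, z, ⟨[], D, by rw [hD]; rfl, rfl⟩, ?_⟩
      intro c d hcd hX
      refine hp z a c d ?_ ?_ hX
      · rw [hD]
        have h2 : (a :: (D ++ [z])) ++ [a] = (a :: D) ++ z :: a :: [] := by simp
        rw [h2]
        exact ed_of_split
      · have h2 := eo_no.1 hcd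
        have h3 : (a :: b :: t) ++ [a] = [] ++ (a :: (b :: t) ++ [a]) := by simp
        rw [hD] at h2 ⊢
        have h4 : (a :: (D ++ [z])) ++ [a] = ((a :: D) ++ [z]) ++ [a] := by simp
        rw [h4, ed_snoc]
        left
        exact h2
    have h2 : U p (a :: z :: D.reverse) ((b :: t) ++ [a]) := by
      right
      rw [hD]
      simp
    have h3 : U p (a :: b :: t) (a :: z :: D.reverse) := Or.inl h1
    exact (Relation.ReflTransGen.single h3).tail h2
  · refine Plane_mono ?_ hp
    intro x y hxy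
    have h1 : ((b :: t) ++ [a]) ++ [b] = (b :: t) ++ a :: [b] := by simp
    rw [h1, ed_mid] at hxy
    have h2 : (a :: b :: t) ++ [a] = a :: ((b :: t) ++ [a]) := by simp
    rw [h2]
    rcases hxy with h3 | h3
    · exact ed_cons2.2 (Or.inr (Or.inr h3))
    · rcases ed_cons2.1 h3 with h4 | h4 | h4
      · exact ed_cons2.2 (Or.inl h4)
      · exact ed_cons2.2 (Or.inr (Or.inl h4))
      · exact absurd h4 ed_single

/-- in a closed polygon every vertex can be made the head -/
theorem hc_turn {h : α} {Q : List α} : ∀ (P : List α),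
    (∀ a l, P ++ h :: Q = a :: l → Plane p (Ed ((a :: l) ++ [a]))) →
    Relation.ReflTransGen (U p) (P ++ h :: Q) (h :: (Q ++ P)) := by
  intro P
  induction P generalizing Q with
  | nil =>
    intro _
    simp only [List.nil_append, List.append_nil]
    exact Relation.ReflTransGen.refl
  | cons a P ih =>
    intro hp
    obtain ⟨b, t, hbt⟩ : ∃ b t, P ++ h :: Q = b :: t := by
      cases P with
      | nil => exact ⟨h, Q, rfl⟩
      | cons b P => exact ⟨b, P ++ h :: Q, rfl⟩
    have h1 := hp a (b :: t) (by rw [List.cons_append, hbt])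
    obtain ⟨h2, h3⟩ := hc_step h1
    have h4 : (b :: t) ++ [a] = P ++ h :: (Q ++ [a]) := by
      rw [← hbt]; simp
    have h5 := ih (Q := Q ++ [a]) (by
      intro a' l' hal
      have h6 : a' :: l' = (b :: t) ++ [a] := by rw [h4, hal]
      have h7 : a' = b := by
        rw [List.cons_append] at h6
        exact (List.cons.inj h6).1
      rw [h6, h7]
      exact h3)
    rw [List.cons_append, hbt]
    refine h2.trans ?_
    rw [h4]
    have h6 : h :: (Q ++ a :: P) = h :: (Q ++ [a] ++ P) := by simp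
    rw [h6]
    exact h5

/-- every vertex can be made an end -/
theorem hc_head (hj : J1p p) {l : List α} (hn : l.Nodup) (hp : Plane p (Ed l)) {h : α}
    (hh : h ∈ l) : ∃ Q, Relation.ReflTransGen (U p) l (h :: Q) := by
  cases l with
  | nil => simp at hh
  | cons u l =>
  cases l with
  | nil =>
    have h1 : h = u := by simpa using hh
    subst h1
    exact ⟨[], Relation.ReflTransGen.refl⟩
  | cons z B =>
  obtain ⟨A, y, h1, h2⟩ := hj u z B hn hp
  obtain ⟨B₂, h3, h4⟩ := da_lift (A₀ := [u]) (by simpa using h1)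
  have h4' : Reach p NO (u :: z :: B) (u :: z :: B₂) := h4
  have hpl : Plane p (Ed (u :: z :: B₂)) := plane_no.1 (plane_reach (plane_no.2 hp) h4')
  have hlast : u :: z :: B₂ = (u :: A) ++ [y] := by rw [← h3]; rfl
  have hv : ∀ c d, Ed (u :: z :: B₂) c d → ¬ X p y u c d := by
    intro c d hcd
    refine h2 c d ?_
    rw [h3]
    exact (da_eo (A₀ := [u])).2 hcd
  have hcl : Plane p (Ed ((u :: z :: B₂) ++ [u])) := by
    intro a b c d hab hcd hX
    rw [hlast] at hab hcd hv hpl
    rw [ed_snoc] at hab hcd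
    rcases hab with hab | ⟨rfl, rfl⟩ | ⟨rfl, rfl⟩
    · rcases hcd with hcd | ⟨rfl, rfl⟩ | ⟨rfl, rfl⟩
      · exact hpl a b c d hab hcd hX
      · exact hv a b hab (X_comm.1 hX)
      · exact hv a b hab (X_sw1.1 (X_comm.1 hX))
    · rcases hcd with hcd | ⟨h5, h6⟩ | ⟨h5, h6⟩
      · exact hv c d hcd hX
      · rw [h5] at hX; exact not_X_of_eq1 hX
      · rw [h6] at hX; exact not_X_of_eq2 hX
    · rcases hcd with hcd | ⟨h5, h6⟩ | ⟨h5, h6⟩
      · exact hv c d hcd (X_sw1.1 hX)
      · rw [h6] at hX; exact not_X_of_eq2 hX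
      · rw [h5] at hX; exact not_X_of_eq1 hX
  have hmem : h ∈ u :: z :: B₂ := (reach_perm h4').mem_iff.2 hh
  obtain ⟨P, Q, hPQ⟩ := List.append_of_mem hmem
  have h5 : Relation.ReflTransGen (U p) (P ++ h :: Q) (h :: (Q ++ P)) := by
    refine hc_turn P ?_
    intro a l hal
    rw [← hPQ] at hal
    rw [← hal]
    have h6 : a = u := by
      exact (List.cons.inj hal).1.symm
    rw [h6]
    exact hcl
  refine ⟨Q ++ P, ?_⟩
  have h6 : Relation.ReflTransGen (U p) (u :: z :: B) (u :: z :: B₂) :=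
    Relation.ReflTransGen.mono (fun a b h => Or.inl h) _ _ h4'
  rw [← hPQ] at h5
  exact h6.trans h5

/-- all plane paths on the same set are connected by rotations and reversals -/
theorem hc_conn (hgp : GP p) (h1p : H1p p) (hj : J1p p) {l l' : List α}
    (hn : l.Nodup) (hperm : l'.Perm l) (hp : Plane p (Ed l)) (hp' : Plane p (Ed l')) :
    Relation.ReflTransGen (U p) l l' := by
  by_cases hne : l = []
  · subst hne
    rw [hperm.eq_nil]
  obtain ⟨h, hh, hv⟩ := da_hull hgp hne
  have hn' : l'.Nodup := hperm.nodup_iff.2 hn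
  obtain ⟨Q, hQ⟩ := hc_head hj hn hp hh
  obtain ⟨Q', hQ'⟩ := hc_head hj hn' hp' (hperm.mem_iff.2 hh)
  have q1 := u_perm hQ
  have q1' := u_perm hQ'
  have q2 : Q'.Perm Q := (List.perm_cons h).1 ((q1'.trans hperm).trans q1.symm)
  have h1 := h1_fc hgp h1p Q.length h Q Q' rfl (q1.nodup_iff.2 hn) (u_plane hp hQ)
    (u_plane hp' hQ') q2 (hv_mono (fun t ht => q1.mem_iff.1 ht) hv)
  have h2 : Relation.ReflTransGen (U p) (h :: Q) (h :: Q') :=
    Relation.ReflTransGen.mono (fun a b h => Or.inl h) _ _ h1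
  exact (hQ.trans h2).trans (u_symm hp' hQ')

/-- the connectivity statement for the point family `p` -/
theorem hc_graph (n : ℕ) (p : Fin n → ℝ × ℝ) (hi : Function.Injective p)
    (hc : ∀ i j k : Fin n, i ≠ j → j ≠ k → i ≠ k →
      ¬ Collinear ℝ ({p i, p j, p k} : Set (ℝ × ℝ)))
    (h1p : H1p p) (hj : J1p p) :
    ∀ P : SimpleGraph (Fin n) → Prop,
      (∀ A : SimpleGraph (Fin n), P A ↔
        (A.IsTree ∧ (∀ v : Fin n, (A.neighborSet v).ncard ≤ 2) ∧
          ∀ a b c d : Fin n, A.Adj a b → A.Adj c d → s(a, b) ≠ s(c, d) →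
            ∀ x : ℝ × ℝ, x ∈ segment ℝ (p a) (p b) → x ∈ segment ℝ (p c) (p d) →
              (x = p a ∨ x = p b) ∧ (x = p c ∨ x = p d))) →
      ∀ G H : SimpleGraph (Fin n), P G → P H →
        Relation.ReflTransGen
          (fun A B : SimpleGraph (Fin n) =>
            P A ∧ P B ∧ (A.edgeSet \ B.edgeSet).ncard = 1 ∧
              (B.edgeSet \ A.edgeSet).ncard = 1)
          G H := by
  intro P hP G H hG hH
  have hgp : GP p := gp_of hi hc
  have hlist : ∀ A : SimpleGraph (Fin n), P A → ∃ l : List (Fin n),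
      l.Nodup ∧ (∀ v, v ∈ l) ∧ A = gr l ∧ Plane p (Ed l) := by
    intro A hA
    obtain ⟨h1, h2, h3⟩ := (hP A).1 hA
    obtain ⟨l, hl1, hl2, hl3⟩ := tree_list A h1 h2
    refine ⟨l, hl1, hl2, ?_, ?_⟩
    · ext x y
      rw [gr_adj hl1, hl3]
    · intro a b c d hab hcd hX
      have hne := X_ne hX
      by_cases hs : s(a, b) = s(c, d)
      · rcases Sym2.eq_iff.1 hs with ⟨h4, _⟩ | ⟨h4, _⟩
        · exact hne.2.2.1 h4
        · exact hne.2.2.2.1 h4
      · exact (seg_iff hgp hne.1 hne.2.1 hs).1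
          (h3 a b c d ((hl3 a b).2 hab) ((hl3 c d).2 hcd) hs) hX
  obtain ⟨v0⟩ := ((hP G).1 hG).1.connected.nonempty
  have hback : ∀ l : List (Fin n), l.Nodup → (∀ v, v ∈ l) → Plane p (Ed l) → P (gr l) := by
    intro l h1 h2 h3
    refine (hP _).2 ⟨gr_tree h1 (List.ne_nil_of_mem (h2 v0)) h2, gr_deg h1, ?_⟩
    intro a b c d hab hcd hs
    have h4 := (gr_adj h1).1 hab
    have h5 := (gr_adj h1).1 hcd
    exact (seg_iff hgp (ed_ne h1 h4) (ed_ne h1 h5) hs).2 (h3 a b c d h4 h5)
  obtain ⟨l, hl1, hl2, rfl, hl4⟩ := hlist G hG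
  obtain ⟨l', hl1', hl2', rfl, hl4'⟩ := hlist H hH
  have hperm : l'.Perm l :=
    (List.perm_ext_iff_of_nodup hl1' hl1).2 fun v => ⟨fun _ => hl2 v, fun _ => hl2' v⟩
  have hU : Relation.ReflTransGen (U p) l l' := hc_conn hgp h1p hj hl1 hperm hl4 hl4'
  have hmain : ∀ l₁ : List (Fin n), Relation.ReflTransGen (U p) l l₁ →
      Relation.ReflTransGen
        (fun A B : SimpleGraph (Fin n) =>
          P A ∧ P B ∧ (A.edgeSet \ B.edgeSet).ncard = 1 ∧
            (B.edgeSet \ A.edgeSet).ncard = 1)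
        (gr l) (gr l₁) := by
    intro l₁ h
    induction h with
    | refl => exact Relation.ReflTransGen.refl
    | @tail l₁ l₂ h1 h2 ih =>
      have hP' : ∀ m : List (Fin n), Relation.ReflTransGen (U p) l m → P (gr m) := by
        intro m hm
        have h3 := u_perm hm
        exact hback m (h3.nodup_iff.2 hl1) (fun v => h3.mem_iff.2 (hl2 v)) (u_plane hl4 hm)
      have hn1 : l₁.Nodup := (u_perm h1).nodup_iff.2 hl1
      rcases h2 with h3 | h3
      · obtain ⟨v, z, h4, _⟩ := id h3
        rcases gr_rot hn1 h4 with h5 | h5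
        · rw [h5]
          exact ih
        · exact ih.tail ⟨hP' l₁ h1, hP' l₂ (h1.tail (Or.inl h3)), h5.1, h5.2⟩
      · rw [h3, gr_reverse]
        exact ih
  exact hmain l' hU

end FPW
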