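import Pool.Agent.Lib.MP_deef39_co_Ord.Red

/-! # Ord module HOne: the hull neighbour form of the first statement

`H1p`: every rotation class of plane paths starting in a hull vertex `h` contains a path whose
first edge is an edge of the convex hull. Together with `TGp` this gives connectivity.
-/

set_option autoImplicit false

namespace FPW

variable {α : Type*}

/-- every class of plane paths starting in the hull vertex `h` contains a path whose first edge
is an edge of the convex hull -/
def H1p (p : α → ℝ × ℝ) : Prop :=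
  ∀ (h : α) (l : List α), (h :: l).Nodup → l ≠ [] → Plane p (Ed (h :: l)) →
    HV p {t | t ∈ h :: l} h →
    ∃ x B, Reach p NO (h :: l) (h :: x :: B) ∧
      ((∀ v ∈ B, ¬ 0 < o p h x v) ∨ (∀ v ∈ B, ¬ o p h x v < 0))

variable {p : α → ℝ × ℝ}

/-- the extreme vertex of a nonempty list around a hull vertex -/
theorem h1_ext (hgp : GP p) {h : α} {r : ℝ × ℝ} : ∀ l : List α, (h :: l).Nodup → l ≠ [] →
    (∀ t ∈ l, 0 < cr r (p h) (p t)) →
    ∃ x ∈ l, ∀ v ∈ l, v ≠ x → o p h x v < 0 := by
  intro l
  induction l with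
  | nil => intro _ h1; exact absurd rfl h1
  | cons a l ih =>
    intro hn _ hr
    by_cases hl : l = []
    · subst hl
      refine ⟨a, List.mem_cons_self, ?_⟩
      intro v hv hne
      simp at hv
      exact absurd hv hne
    · have hn' : (h :: l).Nodup := by
        simp only [List.nodup_cons, List.mem_cons, not_or] at hn ⊢
        exact ⟨hn.1.2, hn.2.2⟩
      obtain ⟨x, hx, hx2⟩ := ih hn' hl (fun t ht => hr t (List.mem_cons_of_mem _ ht))
      have hax : a ≠ x := by
        rintro rfl
        simp only [List.nodup_cons, List.mem_cons, not_or] at hn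
        exact hn.2.1 hx
      have hha : h ≠ a := by
        rintro rfl
        simp at hn
      have hhx : h ≠ x := by
        rintro rfl
        exact (List.nodup_cons.1 hn').1 hx
      have hne := hgp.ne h x a hhx hax.symm hha
      rcases lt_or_gt_of_ne hne with h1 | h1
      · refine ⟨x, List.mem_cons_of_mem _ hx, ?_⟩
        intro v hv hvx
        rcases List.mem_cons.1 hv with rfl | hv
        · exact h1
        · exact hx2 v hv hvx
      · refine ⟨a, List.mem_cons_self, ?_⟩
        intro v hv hva
        rcases List.mem_cons.1 hv with rfl | hv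
        · exact absurd rfl hva
        · by_cases hvx : v = x
          · rw [hvx, o_swap']
            linarith
          · have h2 := hx2 v hv hvx
            have h3 : 0 < o p h v x := by
              rw [o_swap']
              linarith
            have h4 := da_trans (hr v (List.mem_cons_of_mem _ hv))
              (hr x (List.mem_cons_of_mem _ hx)) (hr a List.mem_cons_self) h3 h1
            rw [o_swap'] at h4
            linarith

/-- the list sorted by angle around a hull vertex -/
theorem h1_sort (hgp : GP p) {h : α} {r : ℝ × ℝ} (n : ℕ) : ∀ l : List α, l.length = n →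
    (h :: l).Nodup → (∀ t ∈ l, 0 < cr r (p h) (p t)) →
    ∃ Z : List α, Z.Perm l ∧ Z.Pairwise (fun a b => o p h a b < 0) := by
  classical
  induction n with
  | zero =>
    intro l hl _ _
    rw [List.length_eq_zero_iff.1 hl]
    exact ⟨[], List.Perm.refl _, List.Pairwise.nil⟩
  | succ n ih =>
    intro l hl hn hr
    have hne : l ≠ [] := by
      rintro rfl
      simp at hl
    obtain ⟨x, hx, hx2⟩ := h1_ext hgp l hn hne hr
    have hperm : l.Perm (x :: l.erase x) := List.perm_cons_erase hx
    have hnl : l.Nodup := (List.nodup_cons.1 hn).2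
    have hlen : (l.erase x).length = n := by
      rw [List.length_erase_of_mem hx, hl]
      rfl
    have hn' : (h :: l.erase x).Nodup := by
      rw [List.nodup_cons]
      exact ⟨fun h1 => (List.nodup_cons.1 hn).1 (List.mem_of_mem_erase h1), hnl.erase x⟩
    obtain ⟨Z, hZ1, hZ2⟩ := ih (l.erase x) hlen hn'
      (fun t ht => hr t (List.mem_of_mem_erase ht))
    refine ⟨x :: Z, (hZ1.cons x).trans hperm.symm, List.pairwise_cons.2 ⟨?_, hZ2⟩⟩
    intro v hv
    have h1 := hZ1.mem_iff.1 hv
    have h2 := (hnl.mem_erase_iff).1 h1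
    exact hx2 v h2.2 h2.1

/-- two segments on the two sides of a line through `u`, `v` do not cross -/
theorem h1_side {a b c d u v : α} (h1 : 0 ≤ o p u v a) (h2 : 0 ≤ o p u v b)
    (h3 : o p u v c ≤ 0) (h4 : o p u v d ≤ 0) (h5 : 0 < o p u v a ∨ 0 < o p u v b) :
    ¬ X p a b c d := by
  intro hX
  obtain ⟨t, τ, ht0, ht1, hτ0, hτ1, hk⟩ := X_param hX
  have hk := hk u v
  have h6 : 0 < (1 - t) * o p u v a + t * o p u v b := by
    rcases h5 with h5 | h5
    · have := mul_pos (sub_pos.2 ht1) h5
      have := mul_nonneg ht0.le h2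
      linarith
    · have := mul_pos ht0 h5
      have := mul_nonneg (sub_nonneg.2 ht1.le) h1
      linarith
  have h7 : (1 - τ) * o p u v c + τ * o p u v d ≤ 0 := by
    have := mul_nonneg (sub_nonneg.2 hτ1.le) (neg_nonneg.2 h3)
    have := mul_nonneg hτ0.le (neg_nonneg.2 h4)
    nlinarith
  linarith

theorem h1_plane_cons {a b : α} {l : List α} (h1 : Plane p (Ed (b :: l)))
    (h2 : ∀ c d, Ed (b :: l) c d → ¬ X p a b c d) : Plane p (Ed (a :: b :: l)) := by
  intro c d e f hcd hef hX
  rcases ed_cons2.1 hcd with ⟨rfl, rfl⟩ | ⟨rfl, rfl⟩ | k1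
  · rcases ed_cons2.1 hef with ⟨rfl, rfl⟩ | ⟨rfl, rfl⟩ | k2
    · exact not_X_of_eq1 hX
    · exact not_X_of_eq2 hX
    · exact h2 e f k2 hX
  · rcases ed_cons2.1 hef with ⟨rfl, rfl⟩ | ⟨rfl, rfl⟩ | k2
    · exact not_X_of_eq2 hX
    · exact not_X_of_eq1 hX
    · exact h2 e f k2 (X_sw1.1 hX)
  · rcases ed_cons2.1 hef with ⟨rfl, rfl⟩ | ⟨rfl, rfl⟩ | k2
    · exact h2 c d k1 (X_comm.1 hX)
    · exact h2 c d k1 (X_sw1.1 (X_comm.1 hX))
    · exact h1 c d e f k1 k2 hX

/-- edges of a list sorted by angle around `h`, starting in `h`, do not cross -/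
theorem h1_sorted_plane {h : α} : ∀ Z : List α,
    Z.Pairwise (fun a b => o p h a b < 0) → Plane p (Ed (h :: Z)) := by
  intro Z
  induction Z with
  | nil => intro _ a b c d hab; exact absurd hab ed_single
  | cons a Z ih =>
    intro hZ
    obtain ⟨h1, h2⟩ := List.pairwise_cons.1 hZ
    have h3 := ih h2
    have hpl : Plane p (Ed (a :: Z)) := by
      cases Z with
      | nil => intro c d e f hcd; exact absurd hcd ed_single
      | cons b Z =>
        refine h1_plane_cons (Plane_mono (fun x y hxy => ed_cons2.2 (Or.inr (Or.inr hxy))) h3) ?_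
        intro c d hcd
        have h4 : ∀ t ∈ b :: Z, o p h b t ≤ 0 := by
          intro t ht
          rcases List.mem_cons.1 ht with rfl | ht
          · simp
          · exact ((List.pairwise_cons.1 h2).1 t ht).le
        have h5 : 0 < o p h b a := by
          have h6 := h1 b List.mem_cons_self
          rw [o_swap'] at h6
          linarith
        exact h1_side h5.le (by simp) (h4 c (ed_mem hcd)) (h4 d (ed_mem' hcd)) (Or.inl h5)
    refine h1_plane_cons hpl ?_
    intro c d hcd hX
    have h4 : ∀ t ∈ a :: Z, o p h a t ≤ 0 := by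
      intro t ht
      rcases List.mem_cons.1 ht with rfl | ht
      · simp
      · exact (h1 t ht).le
    have h5 := mul_nonneg (neg_nonneg.2 (h4 c (ed_mem hcd))) (neg_nonneg.2 (h4 d (ed_mem' hcd)))
    have h6 := hX.1
    nlinarith

/-- lifting a class on the point set without `h`, mirror form of `da_up` -/
theorem h1_up {h x : α} {B m : List α} (hl : ∀ v ∈ B, 0 < o p h x v)
    (hr : Reach p NO (x :: B) m) :
    ∃ B₂, m = x :: B₂ ∧ Reach p NO (h :: x :: B) (h :: x :: B₂) := by
  have key : Reach p (Ed ([h] ++ [x])) (x :: B) m := by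
    unfold Reach at hr ⊢
    induction hr with
    | refl => exact Relation.ReflTransGen.refl
    | @tail m₁ m₂ h1 h2 ih =>
      refine ih.tail ?_
      obtain ⟨v, z, h3, h4⟩ := h2
      refine ⟨v, z, h3, ?_⟩
      have hmem : ∀ t ∈ m₁, 0 ≤ o p h x t := by
        intro t ht
        have h5 := (reach_perm h1).mem_iff.1 ht
        rcases List.mem_cons.1 h5 with h6 | h6
        · rw [h6]; simp
        · exact (hl t h6).le
      have hz : z ∈ m₁ := by
        obtain ⟨A, hA⟩ := rotL_last h3
        rw [hA]; simp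
      have hv : v ∈ m₁ := by
        obtain ⟨A, B', hA, _⟩ := h3
        rw [hA]; simp
      have h5 := hmem z hz
      have h6 := hmem v hv
      rintro c d (h7 | h7) hX
      · exact h4 c d (Or.inl h7) hX
      · have h8 : (c = h ∧ d = x) ∨ (c = x ∧ d = h) := by
          rcases ed_cons2.1 h7 with h8 | h8 | h8
          · exact Or.inl h8
          · exact Or.inr h8
          · exact h8.elim
        have h9 : X p z v h x := by
          rcases h8 with ⟨rfl, rfl⟩ | ⟨rfl, rfl⟩
          · exact hX
          · exact X_sw2.1 hX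
        have h10 := h9.2
        nlinarith
  exact da_lift (A₀ := [h]) key

/-- the statement proved by induction on the number of points -/
def H1fc (p : α → ℝ × ℝ) (n : ℕ) : Prop :=
  ∀ (h : α) (l l' : List α), l.length = n →
    (h :: l).Nodup → Plane p (Ed (h :: l)) → Plane p (Ed (h :: l')) → l'.Perm l →
    HV p {t | t ∈ h :: l} h → Reach p NO (h :: l) (h :: l')

/-- two paths with the same extreme second vertex -/
theorem h1_same {n : ℕ} (ih : H1fc p n) {h x : α} {B B' : List α} (hn : (h :: x :: B).Nodup)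
    (hl : B.length = n) (hp : Plane p (Ed (h :: x :: B))) (hp' : Plane p (Ed (h :: x :: B')))
    (hperm : B'.Perm B) (hs : (∀ v ∈ B, o p h x v < 0) ∨ (∀ v ∈ B, 0 < o p h x v)) :
    Reach p NO (h :: x :: B) (h :: x :: B') := by
  have hpl : ∀ D : List α, Plane p (Ed (h :: x :: D)) → Plane p (Ed (x :: D)) := by
    intro D hD
    exact Plane_mono (fun a b hab => Or.inr (Or.inr hab)) hD
  have hv : HV p {t | t ∈ x :: B} x := by
    rcases hs with hs | hs
    · refine ⟨((p h).1 - (p x).1, (p h).2 - (p x).2), ?_⟩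
      intro t ht hne
      have ht' : t ∈ B := by
        rcases List.mem_cons.1 ht with h5 | h5
        · exact absurd h5 hne
        · exact h5
      have h6 := hs t ht'
      have h7 : cr ((p h).1 - (p x).1, (p h).2 - (p x).2) (p x) (p t) = - o p h x t := by
        unfold cr o; ring
      rw [h7]
      linarith
    · refine ⟨((p x).1 - (p h).1, (p x).2 - (p h).2), ?_⟩
      intro t ht hne
      have ht' : t ∈ B := by
        rcases List.mem_cons.1 ht with h5 | h5
        · exact absurd h5 hne
        · exact h5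
      have h6 := hs t ht'
      have h7 : cr ((p x).1 - (p h).1, (p x).2 - (p h).2) (p x) (p t) = o p h x t := by
        unfold cr o; ring
      rw [h7]
      exact h6
  have hmid := ih x B B' hl (List.nodup_cons.1 hn).2 (hpl B hp) (hpl B' hp') hperm hv
  rcases hs with hs | hs
  · obtain ⟨B₂, h8, h9⟩ := da_up (h := h) hs hmid
    have h10 : B' = B₂ := by simpa using h8
    subst h10
    exact h9
  · obtain ⟨B₂, h8, h9⟩ := h1_up (h := h) hs hmid
    have h10 : B' = B₂ := by simpa using h8
    subst h10
    exact h9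

/-- strict signs from the weak ones -/
theorem h1_strict (hgp : GP p) {h x v : α} {B : List α} (hn : (h :: x :: B).Nodup)
    (hv : v ∈ B) : o p h x v ≠ 0 := by
  refine hgp.ne h x v ?_ ?_ ?_
  · rintro rfl; simp at hn
  · rintro rfl
    exact (List.nodup_cons.1 (List.nodup_cons.1 hn).2).1 hv
  · rintro rfl
    exact (List.nodup_cons.1 hn).1 (List.mem_cons_of_mem _ hv)

theorem h1_left {n : ℕ} (ih : H1fc p n) {h x y : α} {B C : List α} (hn : (h :: x :: B).Nodup)
    (hl : B.length = n) (hp : Plane p (Ed (h :: x :: B))) (hp' : Plane p (Ed (h :: y :: C)))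
    (hperm : (y :: C).Perm (x :: B)) (hs : ∀ v ∈ B, o p h x v < 0)
    (hs' : ∀ v ∈ C, o p h y v < 0) :
    Reach p NO (h :: x :: B) (h :: y :: C) := by
  have hxy : y = x := by
    by_contra hne
    have h1 : y ∈ B := by
      rcases List.mem_cons.1 (hperm.mem_iff.1 List.mem_cons_self) with h2 | h2
      · exact absurd h2 hne
      · exact h2
    have h2 : x ∈ C := by
      rcases List.mem_cons.1 (hperm.mem_iff.2 List.mem_cons_self) with h3 | h3
      · exact absurd h3.symm hne
      · exact h3
    have h3 := hs y h1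
    have h4 := hs' x h2
    have h5 := o_swap' p h x y
    linarith
  subst hxy
  exact h1_same ih hn hl hp hp' ((List.perm_cons y).1 hperm) (Or.inl hs)

theorem h1_right {n : ℕ} (ih : H1fc p n) {h x y : α} {B C : List α} (hn : (h :: x :: B).Nodup)
    (hl : B.length = n) (hp : Plane p (Ed (h :: x :: B))) (hp' : Plane p (Ed (h :: y :: C)))
    (hperm : (y :: C).Perm (x :: B)) (hs : ∀ v ∈ B, 0 < o p h x v)
    (hs' : ∀ v ∈ C, 0 < o p h y v) :
    Reach p NO (h :: x :: B) (h :: y :: C) := by
  have hxy : y = x := by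
    by_contra hne
    have h1 : y ∈ B := by
      rcases List.mem_cons.1 (hperm.mem_iff.1 List.mem_cons_self) with h2 | h2
      · exact absurd h2 hne
      · exact h2
    have h2 : x ∈ C := by
      rcases List.mem_cons.1 (hperm.mem_iff.2 List.mem_cons_self) with h3 | h3
      · exact absurd h3.symm hne
      · exact h3
    have h3 := hs y h1
    have h4 := hs' x h2
    have h5 := o_swap' p h x y
    linarith
  subst hxy
  exact h1_same ih hn hl hp hp' ((List.perm_cons y).1 hperm) (Or.inr hs)

/-- the link between the two kinds: the path sorted by angle -/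
theorem h1_link (hgp : GP p) {h : α} {l : List α} (hn : (h :: l).Nodup) (hl : l ≠ [])
    (hv : HV p {t | t ∈ h :: l} h) :
    ∃ x y B C, (x :: B).Perm l ∧ (y :: C).Perm l ∧ (∀ v ∈ B, o p h x v < 0) ∧
      (∀ v ∈ C, 0 < o p h y v) ∧ Plane p (Ed (h :: x :: B)) ∧ Plane p (Ed (h :: y :: C)) ∧
      Reach p NO (h :: x :: B) (h :: y :: C) := by
  obtain ⟨r, hr⟩ := hv
  have hr' : ∀ t ∈ l, 0 < cr r (p h) (p t) := by
    intro t ht
    refine hr t (List.mem_cons_of_mem _ ht) ?_
    rintro rfl
    exact (List.nodup_cons.1 hn).1 ht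
  obtain ⟨Z, hZ1, hZ2⟩ := h1_sort hgp l.length l rfl hn hr'
  have hpl := h1_sorted_plane Z hZ2
  cases Z with
  | nil => exact absurd hZ1.symm.eq_nil hl
  | cons x B =>
  rcases List.eq_nil_or_concat B with hB | ⟨D, y, hB⟩
  · subst hB
    refine ⟨x, x, [], [], hZ1, hZ1, by simp, by simp, hpl, hpl, Relation.ReflTransGen.refl⟩
  · rw [List.concat_eq_append] at hB
    subst hB
    have h1 := (List.pairwise_cons.1 hZ2).1
    have h2 : ∀ v ∈ x :: D, o p h v y < 0 := by
      have h3 : ((x :: D) ++ [y]).Pairwise (fun a b => o p h a b < 0) := hZ2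
      intro v hv
      exact (List.pairwise_append.1 h3).2.2 v hv y (by simp)
    have h3 : ∀ v ∈ (x :: D).reverse, 0 < o p h y v := by
      intro v hv
      have h4 := h2 v (List.mem_reverse.1 hv)
      rw [o_swap'] at h4
      linarith
    have hrot : Rot p NO (h :: x :: (D ++ [y])) (h :: y :: (x :: D).reverse) := by
      refine ⟨h, y, ⟨[], x :: D, rfl, rfl⟩, ?_⟩
      intro c d hcd hX
      have hcd := eo_no.1 hcd
      have h4 : ∀ t ∈ h :: x :: (D ++ [y]), 0 ≤ o p h y t := by
        intro t ht
        have h5 : t = h ∨ t ∈ x :: D ∨ t = y := by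
          simp only [List.mem_cons, List.mem_append, List.not_mem_nil, or_false] at ht ⊢
          tauto
        rcases h5 with rfl | h5 | rfl
        · simp
        · exact (h3 t (List.mem_reverse.2 h5)).le
        · simp
      have h5 := mul_nonneg (h4 c (ed_mem hcd)) (h4 d (ed_mem' hcd))
      have h6 := (X_sw1.1 hX).1
      linarith
    have hreach : Reach p NO (h :: x :: (D ++ [y])) (h :: y :: (x :: D).reverse) :=
      Relation.ReflTransGen.single hrot
    refine ⟨x, y, D ++ [y], (x :: D).reverse, hZ1, ?_, h1, h3, hpl, ?_, hreach⟩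
    · exact ((List.perm_cons h).1 (reach_perm hreach)).trans hZ1
    · exact plane_no.1 (plane_reach (plane_no.2 hpl) hreach)

/-- the plane paths starting in a hull vertex are connected by rotations -/
theorem h1_fc (hgp : GP p) (h1p : H1p p) (n : ℕ) : H1fc p n := by
  induction n with
  | zero =>
    intro h l l' hl _ _ _ hperm _
    have h1 : l = [] := List.length_eq_zero_iff.1 hl
    subst h1
    rw [hperm.eq_nil]
    exact Relation.ReflTransGen.refl
  | succ n ih =>
    intro h l l' hl hn hp hp' hperm hv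
    have hne : l ≠ [] := by
      rintro rfl
      simp at hl
    obtain ⟨a, b, D, E, q1, q2, q3, q4, q5, q6, q7⟩ := h1_link hgp hn hne hv
    -- every path is connected with the sorted path
    have key : ∀ m : List α, m.Perm l → Plane p (Ed (h :: m)) →
        Reach p NO (h :: m) (h :: a :: D) := by
      intro m hm hpm
      have hnm : (h :: m).Nodup := (hm.cons h).nodup_iff.2 hn
      have hvm : HV p {t | t ∈ h :: m} h := hv_mono (fun t ht => (hm.cons h).mem_iff.1 ht) hv
      have hmne : m ≠ [] := by
        rintro rfl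
        exact hne hm.symm.eq_nil
      obtain ⟨x, B, h1, h2⟩ := h1p h m hnm hmne hpm hvm
      have h3 := reach_perm h1
      have h4 : (x :: B).Perm m := (List.perm_cons h).1 h3
      have hnB : (h :: x :: B).Nodup := h3.nodup_iff.2 hnm
      have hpB : Plane p (Ed (h :: x :: B)) := plane_no.1 (plane_reach (plane_no.2 hpm) h1)
      have hlB : B.length = n := by
        have h5 := (h4.trans hm).length_eq
        simp only [List.length_cons] at h5
        omega
      refine h1.trans ?_
      rcases h2 with h2 | h2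
      · refine h1_left ih hnB hlB hpB q5 (q1.trans (h4.trans hm).symm) ?_ q3
        intro v hv'
        exact lt_of_le_of_ne (not_lt.1 (h2 v hv')) (h1_strict hgp hnB hv')
      · have h5 : Reach p NO (h :: x :: B) (h :: b :: E) := by
          refine h1_right ih hnB hlB hpB q6 (q2.trans (h4.trans hm).symm) ?_ q4
          intro v hv'
          exact lt_of_le_of_ne (not_lt.1 (h2 v hv')) (h1_strict hgp hnB hv').symm
        exact h5.trans (reach_symm (plane_no.2 q5) q7)
    exact (key l (List.Perm.refl _) hp).trans (reach_symm (plane_no.2 hp') (key l' hperm hp'))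

/-- all plane paths on the same set are connected by rotations and reversals -/
theorem h1_conn (hgp : GP p) (h1p : H1p p) (htg : TGp p) {l l' : List α}
    (hn : l.Nodup) (hperm : l'.Perm l) (hp : Plane p (Ed l)) (hp' : Plane p (Ed l')) :
    Relation.ReflTransGen (U p) l l' := by
  by_cases hne : l = []
  · subst hne
    rw [hperm.eq_nil]
  obtain ⟨h, hh, hv⟩ := da_hull hgp hne
  have hn' : l'.Nodup := hperm.nodup_iff.2 hn
  obtain ⟨Q, hQ⟩ := da_h1 htg hn hp hh hv
  obtain ⟨Q', hQ'⟩ := da_h1 htg hn' hp' (hperm.mem_iff.2 hh)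
    (hv_mono (fun t ht => hperm.mem_iff.1 ht) hv)
  have q1 := u_perm hQ
  have q1' := u_perm hQ'
  have q2 : Q'.Perm Q := (List.perm_cons h).1 ((q1'.trans hperm).trans q1.symm)
  have h1 := h1_fc hgp h1p Q.length h Q Q' rfl (q1.nodup_iff.2 hn) (u_plane hp hQ)
    (u_plane hp' hQ') q2 (hv_mono (fun t ht => q1.mem_iff.1 ht) hv)
  have h2 : Relation.ReflTransGen (U p) (h :: Q) (h :: Q') :=
    Relation.ReflTransGen.mono (fun a b h => Or.inl h) _ _ h1
  exact (hQ.trans h2).trans (u_symm hp' hQ')

/-- the connectivity statement for the point family `p` -/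
theorem h1_graph (n : ℕ) (p : Fin n → ℝ × ℝ) (hi : Function.Injective p)
    (hc : ∀ i j k : Fin n, i ≠ j → j ≠ k → i ≠ k →
      ¬ Collinear ℝ ({p i, p j, p k} : Set (ℝ × ℝ)))
    (h1p : H1p p) (htg : TGp p) :
    ∀ P : SimpleGraph (Fin n) → Prop,
      (∀ A : SimpleGraph (Fin n), P A ↔
        (A.IsTree ∧ (∀ v : Fin n, (A.neighborSet v).ncard ≤ 2) ∧
          ∀ a b c d : Fin n, A.Adj a b → A.Adj c d → s(a, b) ≠ s(c, d) →
            ∀ x : ℝ × ℝ, x ∈ segment ℝ (p a) (p b) → x ∈ segment ℝ (p c) (p d) →
              (x = p a ∨ x = p b) ∧ (x = p c ∨ x = p d))) →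
      ∀ G H : SimpleGraph (Fin n), P G → P H →
        Relation.ReflTransGen
          (fun A B : SimpleGraph (Fin n) =>
            P A ∧ P B ∧ (A.edgeSet \ B.edgeSet).ncard = 1 ∧
              (B.edgeSet \ A.edgeSet).ncard = 1)
          G H := by
  intro P hP G H hG hH
  have hgp : GP p := gp_of hi hc
  have hlist : ∀ A : SimpleGraph (Fin n), P A → ∃ l : List (Fin n),
      l.Nodup ∧ (∀ v, v ∈ l) ∧ A = gr l ∧ Plane p (Ed l) := by
    intro A hA
    obtain ⟨h1, h2, h3⟩ := (hP A).1 hA
    obtain ⟨l, hl1, hl2, hl3⟩ := tree_list A h1 h2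
    refine ⟨l, hl1, hl2, ?_, ?_⟩
    · ext x y
      rw [gr_adj hl1, hl3]
    · intro a b c d hab hcd hX
      have hne := X_ne hX
      by_cases hs : s(a, b) = s(c, d)
      · rcases Sym2.eq_iff.1 hs with ⟨h4, _⟩ | ⟨h4, _⟩
        · exact hne.2.2.1 h4
        · exact hne.2.2.2.1 h4
      · exact (seg_iff hgp hne.1 hne.2.1 hs).1
          (h3 a b c d ((hl3 a b).2 hab) ((hl3 c d).2 hcd) hs) hX
  obtain ⟨v0⟩ := ((hP G).1 hG).1.connected.nonempty
  have hback : ∀ l : List (Fin n), l.Nodup → (∀ v, v ∈ l) → Plane p (Ed l) → P (gr l) := by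
    intro l h1 h2 h3
    refine (hP _).2 ⟨gr_tree h1 (List.ne_nil_of_mem (h2 v0)) h2, gr_deg h1, ?_⟩
    intro a b c d hab hcd hs
    have h4 := (gr_adj h1).1 hab
    have h5 := (gr_adj h1).1 hcd
    exact (seg_iff hgp (ed_ne h1 h4) (ed_ne h1 h5) hs).2 (h3 a b c d h4 h5)
  obtain ⟨l, hl1, hl2, rfl, hl4⟩ := hlist G hG
  obtain ⟨l', hl1', hl2', rfl, hl4'⟩ := hlist H hH
  have hperm : l'.Perm l :=
    (List.perm_ext_iff_of_nodup hl1' hl1).2 fun v => ⟨fun _ => hl2 v, fun _ => hl2' v⟩
  have hU : Relation.ReflTransGen (U p) l l' := h1_conn hgp h1p htg hl1 hperm hl4 hl4'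
  have hmain : ∀ l₁ : List (Fin n), Relation.ReflTransGen (U p) l l₁ →
      Relation.ReflTransGen
        (fun A B : SimpleGraph (Fin n) =>
          P A ∧ P B ∧ (A.edgeSet \ B.edgeSet).ncard = 1 ∧
            (B.edgeSet \ A.edgeSet).ncard = 1)
        (gr l) (gr l₁) := by
    intro l₁ h
    induction h with
    | refl => exact Relation.ReflTransGen.refl
    | @tail l₁ l₂ h1 h2 ih =>
      have hP' : ∀ m : List (Fin n), Relation.ReflTransGen (U p) l m → P (gr m) := by
        intro m hm
        have h3 := u_perm hm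
        exact hback m (h3.nodup_iff.2 hl1) (fun v => h3.mem_iff.2 (hl2 v)) (u_plane hl4 hm)
      have hn1 : l₁.Nodup := (u_perm h1).nodup_iff.2 hl1
      rcases h2 with h3 | h3
      · obtain ⟨v, z, h4, _⟩ := id h3
        rcases gr_rot hn1 h4 with h5 | h5
        · rw [h5]
          exact ih
        · exact ih.tail ⟨hP' l₁ h1, hP' l₂ (h1.tail (Or.inl h3)), h5.1, h5.2⟩
      · rw [h3, gr_reverse]
        exact ih
  exact hmain l' hU

end FPW
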