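import Pool.Agent.Lib.MP_deef39_co_Ord.GChain
import Pool.Agent.Lib.MP_deef39_co_Ord.GMir
import Pool.Agent.Lib.MP_deef39_co_PW.RotB

/-! # Ord module KLen: euclidean lengths of paths and hull chains

`dd p a b` euclidean distance, `pl p l` length of the path `l`. `pl_rot`: length after a rotation.
`chn_len`: a hull chain in the triangle `A q B` is shorter than `A q B`.
-/

set_option autoImplicit false

namespace FPW

variable {α : Type*}

/-- euclidean distance -/
noncomputable def dd (p : α → ℝ × ℝ) (a b : α) : ℝ :=
  Real.sqrt (((p b).1 - (p a).1) ^ 2 + ((p b).2 - (p a).2) ^ 2)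

/-- length of a path -/
noncomputable def pl (p : α → ℝ × ℝ) : List α → ℝ
  | a :: b :: l => dd p a b + pl p (b :: l)
  | [_] => 0
  | [] => 0

/-- length of a vector -/
noncomputable def nm (x y : ℝ) : ℝ := Real.sqrt (x ^ 2 + y ^ 2)

variable {p : α → ℝ × ℝ}

theorem nm_nonneg (x y : ℝ) : 0 ≤ nm x y := Real.sqrt_nonneg _

theorem nm_sq (x y : ℝ) : nm x y * nm x y = x ^ 2 + y ^ 2 :=
  Real.mul_self_sqrt (by positivity)

/-- Cauchy-Schwarz and its defect -/
theorem nm_cs (x y z w : ℝ) : x * z + y * w ≤ nm x y * nm z w := by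
  have h1 := nm_sq x y
  have h2 := nm_sq z w
  have h3 := mul_nonneg (nm_nonneg x y) (nm_nonneg z w)
  have h4 : (x * z + y * w) ^ 2 ≤ (nm x y * nm z w) ^ 2 := by
    have e : (nm x y * nm z w) ^ 2 = (nm x y * nm x y) * (nm z w * nm z w) := by ring
    rw [e, h1, h2]
    nlinarith [sq_nonneg (x * w - y * z)]
  exact le_of_sq_le_sq' h4 h3
where
  le_of_sq_le_sq' {a b : ℝ} (h : a ^ 2 ≤ b ^ 2) (hb : 0 ≤ b) : a ≤ b := abs_le_of_sq_le_sq' h hb |>.2

theorem nm_add (x y z w : ℝ) : nm (x + z) (y + w) ≤ nm x y + nm z w := by
  have h1 := nm_sq x y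
  have h2 := nm_sq z w
  have h3 := nm_sq (x + z) (y + w)
  have h4 := nm_cs x y z w
  have h5 := nm_nonneg x y
  have h6 := nm_nonneg z w
  have h7 := nm_nonneg (x + z) (y + w)
  by_contra h
  push Not at h
  nlinarith

/-- strict triangle inequality for vectors which are not parallel -/
theorem nm_add_lt {x y z w : ℝ} (h : x * w - y * z ≠ 0) : nm (x + z) (y + w) < nm x y + nm z w := by
  have h1 := nm_sq x y
  have h2 := nm_sq z w
  have h3 := nm_sq (x + z) (y + w)
  have h5 := nm_nonneg x y
  have h6 := nm_nonneg z w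
  have h7 := nm_nonneg (x + z) (y + w)
  have h4 : x * z + y * w < nm x y * nm z w := by
    have h8 : (x * z + y * w) ^ 2 < (nm x y * nm z w) ^ 2 := by
      have e : (nm x y * nm z w) ^ 2 = (nm x y * nm x y) * (nm z w * nm z w) := by ring
      rw [e, h1, h2]
      have h9 : 0 < (x * w - y * z) ^ 2 := by positivity
      nlinarith
    exact lt_of_pow_lt_pow_left₀ 2 (mul_nonneg h5 h6) h8
  by_contra h'
  push Not at h'
  nlinarith

theorem nm_smul {t : ℝ} (ht : 0 ≤ t) (x y : ℝ) : nm (t * x) (t * y) = t * nm x y := by
  unfold nm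
  have e : (t * x) ^ 2 + (t * y) ^ 2 = t ^ 2 * (x ^ 2 + y ^ 2) := by ring
  rw [e, Real.sqrt_mul (by positivity), Real.sqrt_sq ht]

theorem dd_nm (a b : α) : dd p a b = nm ((p b).1 - (p a).1) ((p b).2 - (p a).2) := rfl

theorem dd_nonneg (a b : α) : 0 ≤ dd p a b := Real.sqrt_nonneg _

theorem dd_comm (a b : α) : dd p a b = dd p b a := by
  unfold dd
  congr 1
  ring

theorem dd_self (a : α) : dd p a a = 0 := by
  unfold dd
  simp

theorem dd_tri (a b c : α) : dd p a c ≤ dd p a b + dd p b c := by
  have h := nm_add ((p b).1 - (p a).1) ((p b).2 - (p a).2) ((p c).1 - (p b).1)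
    ((p c).2 - (p b).2)
  have e1 : (p b).1 - (p a).1 + ((p c).1 - (p b).1) = (p c).1 - (p a).1 := by ring
  have e2 : (p b).2 - (p a).2 + ((p c).2 - (p b).2) = (p c).2 - (p a).2 := by ring
  rw [e1, e2] at h
  exact h

theorem dd_tri_lt {a b c : α} (ho : o p a b c ≠ 0) : dd p a c < dd p a b + dd p b c := by
  have h := nm_add_lt (x := (p b).1 - (p a).1) (y := (p b).2 - (p a).2)
    (z := (p c).1 - (p b).1) (w := (p c).2 - (p b).2) (by
      intro h0
      apply ho
      unfold o
      linarith)
  have e1 : (p b).1 - (p a).1 + ((p c).1 - (p b).1) = (p c).1 - (p a).1 := by ring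
  have e2 : (p b).2 - (p a).2 + ((p c).2 - (p b).2) = (p c).2 - (p a).2 := by ring
  rw [e1, e2] at h
  exact h

theorem dd_pos {a b : α} (hgp : GP p) (h : a ≠ b) : 0 < dd p a b := by
  refine Real.sqrt_pos.2 ?_
  rcases eq_or_ne (p b).1 (p a).1 with h1 | h1
  · have h2 : (p b).2 - (p a).2 ≠ 0 := by
      intro h2
      exact h (hgp.inj (Prod.ext h1.symm (by linarith)))
    positivity
  · have h2 : (p b).1 - (p a).1 ≠ 0 := sub_ne_zero.2 h1
    positivity

theorem dd_mir (a b : α) : dd (mir p) a b = dd p a b := by
  unfold dd mir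
  congr 1
  ring

/-! ### lengths of paths -/

theorem pl_cons2 (a b : α) (l : List α) : pl p (a :: b :: l) = dd p a b + pl p (b :: l) := rfl

theorem pl_single (a : α) : pl p [a] = 0 := rfl

theorem pl_nil : pl p ([] : List α) = 0 := rfl

theorem pl_nonneg : ∀ l : List α, 0 ≤ pl p l := by
  intro l
  induction l with
  | nil => simp [pl]
  | cons a l ih =>
    cases l with
    | nil => simp [pl]
    | cons b l =>
      rw [pl_cons2]
      exact add_nonneg (dd_nonneg a b) ih

theorem pl_mid (A B : List α) (v : α) : pl p (A ++ v :: B) = pl p (A ++ [v]) + pl p (v :: B) := by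
  induction A with
  | nil => simp [pl_single]
  | cons a A ih =>
    cases A with
    | nil =>
      simp only [List.cons_append, List.nil_append, pl_cons2, pl_single]
      ring
    | cons b A =>
      simp only [List.cons_append, pl_cons2] at ih ⊢
      rw [ih]
      ring

theorem pl_snoc (A : List α) (v z : α) : pl p ((A ++ [v]) ++ [z]) = pl p (A ++ [v]) + dd p v z := by
  have h1 : (A ++ [v]) ++ [z] = A ++ v :: [z] := by simp
  rw [h1, pl_mid, pl_cons2, pl_single]
  ring

theorem pl_reverse (l : List α) : pl p l.reverse = pl p l := by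
  induction l with
  | nil => rfl
  | cons a l ih =>
    cases l with
    | nil => rfl
    | cons b l =>
      have h1 : (a :: b :: l).reverse = (l.reverse ++ [b]) ++ [a] := by simp
      have h2 : l.reverse ++ [b] = (b :: l).reverse := by simp
      rw [h1, pl_snoc, h2, ih, pl_cons2, dd_comm b a]
      ring

/-- length after a rotation which is not trivial -/
theorem pl_rot {A B : List α} {v b z : α} :
    pl p (A ++ v :: z :: (b :: B).reverse) =
      pl p (A ++ v :: ((b :: B) ++ [z])) - dd p v b + dd p v z := by
  have h1 : z :: (b :: B).reverse = ((b :: B) ++ [z]).reverse := by simp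
  rw [pl_mid, pl_mid A ((b :: B) ++ [z]), pl_cons2, List.cons_append, pl_cons2, h1, pl_reverse,
    List.cons_append]
  ring

theorem pl_mir (l : List α) : pl (mir p) l = pl p l := by
  induction l with
  | nil => rfl
  | cons a l ih =>
    cases l with
    | nil => rfl
    | cons b l => rw [pl_cons2, pl_cons2, ih, dd_mir]

/-! ### hull chains -/

theorem sub_cons {A x y : α} {R : List α} (hx : x ≠ A) (h : [x, y].Sublist (A :: R)) :
    [A, x, y].Sublist (A :: R) := by
  rcases List.sublist_cons_iff.1 h with h1 | ⟨r, h1, _⟩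
  · exact h1.cons_cons A
  · exact absurd (List.cons.inj h1).1 hx

theorem sub_snoc {B x y : α} {R : List α} (hy : y ≠ B) (h : [x, y].Sublist (R ++ [B])) :
    [x, y, B].Sublist (R ++ [B]) := by
  have h1 : [y, x].Sublist (B :: R.reverse) := by
    have := h.reverse
    simpa using this
  have h2 := sub_cons hy h1
  have := h2.reverse
  simpa using this

/-- the distance from the line `A q` does not decrease along the chain -/
theorem chn_up {V : Set α} {A q B : α} {E : List α} (h : Chn p V A q B E) {x y : α}
    (hs : [x, y].Sublist (A :: (E ++ [B]))) : o p A q x ≤ o p A q y := by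
  have hmem : ∀ z ∈ A :: (E ++ [B]), 0 ≤ o p A q z ∧ o p A q z ≤ o p A q B := by
    intro z hz
    have h0 := h.left
    rcases List.mem_cons.1 hz with rfl | hz
    · simp only [o_self2]
      exact ⟨le_refl _, h0.le⟩
    · rcases List.mem_append.1 hz with hz | hz
      · obtain ⟨h1, h2, h3⟩ := InTri_pos (h.mem z hz).2 h0
        have h4 := o_add p A q B z
        exact ⟨h1.le, by linarith⟩
      · have : z = B := by simpa using hz
        rw [this]
        exact ⟨h0.le, le_refl _⟩
  have hx := hmem x (hs.subset (by simp))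
  have hy := hmem y (hs.subset (by simp))
  by_cases hxA : x = A
  · rw [hxA, o_self2]
    exact hy.1
  by_cases hyB : y = B
  · rw [hyB]
    exact hx.2
  have s1 := sub_cons hxA hs
  have s2 : [x, y, B].Sublist (A :: (E ++ [B])) := by
    have := sub_snoc (R := A :: E) hyB (by simpa using hs)
    simpa using this
  have s3 : [A, x, y, B].Sublist (A :: (E ++ [B])) := by
    rcases List.sublist_cons_iff.1 s2 with h1 | ⟨r, h1, _⟩
    · exact h1.cons_cons A
    · exact absurd (List.cons.inj h1).1 hxA
  have k1 := h.conv A x y s1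
  have k2 := h.conv x y B s2
  have k3 := h.conv A x B ((by simp : [A, x, B].Sublist [A, x, y, B]).trans s3)
  have k4 := h.conv A y B ((by simp : [A, y, B].Sublist [A, x, y, B]).trans s3)
  have e1 : o p A q y * o p A x B = o p A q x * o p A y B + o p A q B * o p A x y := by
    unfold o; ring
  have e2 : o p A x y + o p A y B = o p A x B + o p x y B := by unfold o; ring
  have h5 : o p A q x * o p A x y ≤ o p A q B * o p A x y :=
    mul_le_mul_of_nonneg_right hx.2 k1.le
  have h6 : 0 ≤ o p A q x * o p x y B := mul_nonneg hx.1 k2.le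
  have h7 : o p A q x * o p A x B ≤ o p A q y * o p A x B := by
    rw [e1]
    nlinarith
  exact le_of_mul_le_mul_right h7 k3

/-- the distance from the line `q B` does not increase along the chain -/
theorem chn_down {V : Set α} {A q B : α} {E : List α} (h : Chn p V A q B E) {x y : α}
    (hs : [x, y].Sublist (A :: (E ++ [B]))) : o p q B y ≤ o p q B x := by
  have h1 := chn_up (chn_mir h) (x := y) (y := x) (by
    have := hs.reverse
    simpa using this)
  rw [o_mir, o_mir] at h1
  have e1 : o p q B y = - o p B q y := by unfold o; ring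
  have e2 : o p q B x = - o p B q x := by unfold o; ring
  rw [e1, e2]
  exact h1

/-- an edge in the cone of the two sides -/
theorem cone_le {A q B x y : α} (h1 : o p A q x ≤ o p A q y) (h2 : o p q B y ≤ o p q B x)
    (h0 : 0 < o p A q B) :
    o p A q B * dd p x y ≤ (o p q B x - o p q B y) * dd p A q +
      (o p A q y - o p A q x) * dd p q B := by
  have ha : 0 ≤ o p q B x - o p q B y := by linarith
  have hb : 0 ≤ o p A q y - o p A q x := by linarith
  rw [dd_nm, dd_nm, dd_nm, ← nm_smul h0.le, ← nm_smul ha, ← nm_smul hb]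
  have h3 := nm_add ((o p q B x - o p q B y) * ((p q).1 - (p A).1))
    ((o p q B x - o p q B y) * ((p q).2 - (p A).2))
    ((o p A q y - o p A q x) * ((p B).1 - (p q).1))
    ((o p A q y - o p A q x) * ((p B).2 - (p q).2))
  have e1 : o p A q B * ((p y).1 - (p x).1) = (o p q B x - o p q B y) * ((p q).1 - (p A).1) +
      (o p A q y - o p A q x) * ((p B).1 - (p q).1) := by unfold o; ring
  have e2 : o p A q B * ((p y).2 - (p x).2) = (o p q B x - o p q B y) * ((p q).2 - (p A).2) +
      (o p A q y - o p A q x) * ((p B).2 - (p q).2) := by unfold o; ring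
  rw [e1, e2]
  exact h3

theorem cone_lt {A q B x y : α} (h1 : o p A q x < o p A q y) (h2 : o p q B y < o p q B x)
    (h0 : 0 < o p A q B) :
    o p A q B * dd p x y < (o p q B x - o p q B y) * dd p A q +
      (o p A q y - o p A q x) * dd p q B := by
  have ha : 0 < o p q B x - o p q B y := by linarith
  have hb : 0 < o p A q y - o p A q x := by linarith
  rw [dd_nm, dd_nm, dd_nm, ← nm_smul h0.le, ← nm_smul ha.le, ← nm_smul hb.le]
  have h3 := nm_add_lt (x := (o p q B x - o p q B y) * ((p q).1 - (p A).1))
    (y := (o p q B x - o p q B y) * ((p q).2 - (p A).2))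
    (z := (o p A q y - o p A q x) * ((p B).1 - (p q).1))
    (w := (o p A q y - o p A q x) * ((p B).2 - (p q).2)) (by
      have e : (o p q B x - o p q B y) * ((p q).1 - (p A).1) *
          ((o p A q y - o p A q x) * ((p B).2 - (p q).2)) -
          (o p q B x - o p q B y) * ((p q).2 - (p A).2) *
          ((o p A q y - o p A q x) * ((p B).1 - (p q).1)) =
          (o p q B x - o p q B y) * (o p A q y - o p A q x) * o p A q B := by
        have e' : ((p q).1 - (p A).1) * ((p B).2 - (p q).2) -
            ((p q).2 - (p A).2) * ((p B).1 - (p q).1) = o p A q B := by unfold o; ring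
        rw [← e']; ring
      rw [e]
      exact (mul_pos (mul_pos ha hb) h0).ne')
  have e1 : o p A q B * ((p y).1 - (p x).1) = (o p q B x - o p q B y) * ((p q).1 - (p A).1) +
      (o p A q y - o p A q x) * ((p B).1 - (p q).1) := by unfold o; ring
  have e2 : o p A q B * ((p y).2 - (p x).2) = (o p q B x - o p q B y) * ((p q).2 - (p A).2) +
      (o p A q y - o p A q x) * ((p B).2 - (p q).2) := by unfold o; ring
  rw [e1, e2]
  exact h3

theorem cone_pl {A q B : α} (h0 : 0 < o p A q B) : ∀ (R : List α) (x : α),
    (∀ y z, Nx (x :: (R ++ [B])) y z → o p A q y ≤ o p A q z ∧ o p q B z ≤ o p q B y) →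
    o p A q B * pl p (x :: (R ++ [B])) ≤ o p q B x * dd p A q +
      (o p A q B - o p A q x) * dd p q B := by
  intro R
  induction R with
  | nil =>
    intro x hR
    obtain ⟨h1, h2⟩ := hR x B ⟨[], [], rfl⟩
    have h3 := cone_le h1 h2 h0
    have e : o p q B B = 0 := by unfold o; ring
    rw [e] at h3
    simp only [List.nil_append, pl_cons2, pl_single]
    linarith
  | cons y R ih =>
    intro x hR
    obtain ⟨h1, h2⟩ := hR x y ⟨[], R ++ [B], rfl⟩
    have h3 := cone_le h1 h2 h0
    have h4 := ih y (fun a b hab => hR a b (by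
      obtain ⟨S, T, hST⟩ := hab
      exact ⟨x :: S, T, by simp [hST]⟩))
    rw [List.cons_append, pl_cons2]
    nlinarith

theorem nx_sub {L : List α} {x y : α} (h : Nx L x y) : [x, y].Sublist L := by
  obtain ⟨S, T, rfl⟩ := h
  have h1 : [x, y].Sublist (x :: y :: T) := by simp
  exact h1.trans (List.sublist_append_right S _)

/-- a hull chain in the triangle `A q B` is shorter than `A q B` -/
theorem chn_len {V : Set α} {A q B : α} {E : List α} (h : Chn p V A q B E) :
    pl p (A :: (E ++ [B])) < dd p A q + dd p q B := by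
  have h0 := h.left
  have hN : ∀ y z, Nx (A :: (E ++ [B])) y z →
      o p A q y ≤ o p A q z ∧ o p q B z ≤ o p q B y := fun y z hyz =>
    ⟨chn_up h (nx_sub hyz), chn_down h (nx_sub hyz)⟩
  have hgoal : o p A q B * pl p (A :: (E ++ [B])) < o p A q B * (dd p A q + dd p q B) := by
    cases E with
    | nil =>
      have h1 : o p A q A < o p A q B := by simpa using h0
      have h2 : o p q B B < o p q B A := by
        have e1 : o p q B B = 0 := by unfold o; ring
        have e2 : o p q B A = o p A q B := by unfold o; ring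
        rw [e1, e2]; exact h0
      have h3 := cone_lt h1 h2 h0
      have e1 : o p q B B = 0 := by unfold o; ring
      have e2 : o p q B A = o p A q B := by unfold o; ring
      have e3 : o p A q A = 0 := by unfold o; ring
      rw [e1, e2, e3] at h3
      simp only [List.nil_append, pl_cons2, pl_single]
      linarith
    | cons e E =>
      obtain ⟨h1, h2, h3⟩ := InTri_pos (h.mem e List.mem_cons_self).2 h0
      have h4 := o_add p A q B e
      have k1 : o p A q A < o p A q e := by simpa using h1
      have k2 : o p q B e < o p q B A := by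
        have e2 : o p q B A = o p A q B := by unfold o; ring
        rw [e2]; linarith
      have h5 := cone_lt k1 k2 h0
      have h6 := cone_pl h0 E e (fun a b hab => hN a b (by
        obtain ⟨S, T, hST⟩ := hab
        exact ⟨A :: S, T, by simp [hST]⟩))
      have e2 : o p q B A = o p A q B := by unfold o; ring
      have e3 : o p A q A = 0 := by unfold o; ring
      rw [e2, e3] at h5
      rw [List.cons_append, pl_cons2]
      nlinarith
  exact lt_of_mul_lt_mul_left hgoal h0.le

end FPW
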