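import Pool.Agent.Lib.MP_deef39_co_Ord.HOne
import Pool.Agent.Lib.MP_deef39_co_Ord.Red2

/-! # Ord module LRed: connectivity from the statement on hull neighbours, by levels

`LRn p n`: `L, R` hull neighbours of a set of `n + 1` points: every plane path from `L` is
connected (fixed start `L`, rotations at all vertices) to a path ending in `R`. It may be proved
with the help of `H1fc p m` (all plane paths from a hull vertex are connected) for all `m < n`,
and `TGp p` with the help of `H1fc p m` for all `m`.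
-/

set_option autoImplicit false

namespace FPW

variable {α : Type*}

/-- the statement on the first edge for sets of `n + 1` points -/
def H1n (p : α → ℝ × ℝ) (n : ℕ) : Prop :=
  ∀ (h : α) (l : List α), l.length = n → (h :: l).Nodup → l ≠ [] → Plane p (Ed (h :: l)) →
    HV p {t | t ∈ h :: l} h →
    ∃ x B, Reach p NO (h :: l) (h :: x :: B) ∧
      ((∀ v ∈ B, ¬ 0 < o p h x v) ∨ (∀ v ∈ B, ¬ o p h x v < 0))

/-- `L R` a hull edge, all other points on the right of `L R`: every path from `L` is connected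
to a path ending in `R` -/
def LRn (p : α → ℝ × ℝ) (n : ℕ) : Prop :=
  ∀ (L R : α) (l : List α), l.length = n → (L :: l).Nodup → Plane p (Ed (L :: l)) → R ∈ l →
    (∀ t ∈ l, ¬ 0 < o p L R t) → ∃ l', Reach p NO (L :: l) (L :: (l' ++ [R]))

/-- the same with all other points on the left of `L R` -/
def LLn (p : α → ℝ × ℝ) (n : ℕ) : Prop :=
  ∀ (L R : α) (l : List α), l.length = n → (L :: l).Nodup → Plane p (Ed (L :: l)) → R ∈ l →
    (∀ t ∈ l, ¬ o p L R t < 0) → ∃ l', Reach p NO (L :: l) (L :: (l' ++ [R]))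

variable {p : α → ℝ × ℝ}

/-- rotation at `L` when the end `R` is a hull neighbour of `L` -/
theorem lr_rot {L R : α} {l' : List α}
    (hs : (∀ t ∈ L :: (l' ++ [R]), ¬ 0 < o p L R t) ∨ (∀ t ∈ L :: (l' ++ [R]), ¬ o p L R t < 0)) :
    Rot p NO (L :: (l' ++ [R])) (L :: R :: l'.reverse) := by
  refine ⟨L, R, ⟨[], l', rfl, rfl⟩, ?_⟩
  intro c d hcd hX
  have hcd' : Ed (L :: (l' ++ [R])) c d := by
    rcases hcd with h | h
    · exact h
    · exact h.elim
  have hc := ed_mem hcd'
  have hd := ed_mem' hcd'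
  have h1 := hX.1
  have e1 : o p R L c = - o p L R c := by unfold o; ring
  have e2 : o p R L d = - o p L R d := by unfold o; ring
  rw [e1, e2] at h1
  rcases hs with hs | hs
  · have h3 := not_lt.1 (hs c hc)
    have h4 := not_lt.1 (hs d hd)
    nlinarith [mul_nonneg (neg_nonneg.2 h3) (neg_nonneg.2 h4)]
  · have h3 := not_lt.1 (hs c hc)
    have h4 := not_lt.1 (hs d hd)
    nlinarith [mul_nonneg h3 h4]

theorem lr_same (L R : α) : o p L R R = 0 := by unfold o; ring

theorem lr_same' (L R : α) : o p L R L = 0 := by unfold o; ring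

theorem h1n_of_lrn (hgp : GP p) {n : ℕ} (h : LRn p n) : H1n p n := by
  intro L l hl hn hne hp hv
  obtain ⟨x, y, B, C, q1, q2, q3, q4, q5, q6, q7⟩ := h1_link hgp hn hne hv
  have hx : x ∈ l := q1.mem_iff.1 List.mem_cons_self
  have hs : ∀ t ∈ l, ¬ 0 < o p L x t := by
    intro t ht
    rcases List.mem_cons.1 (q1.mem_iff.2 ht) with rfl | h2
    · rw [lr_same]
      exact lt_irrefl _
    · exact not_lt.2 (q3 t h2).le
  obtain ⟨l', h1⟩ := h L x l hl hn hp hx hs
  have h2 := reach_perm h1
  have hs' : ∀ t ∈ L :: (l' ++ [x]), ¬ 0 < o p L x t := by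
    intro t ht
    rcases List.mem_cons.1 (h2.mem_iff.1 ht) with rfl | h3
    · rw [lr_same']
      exact lt_irrefl _
    · exact hs t h3
  refine ⟨x, l'.reverse, h1.tail (lr_rot (Or.inl hs')), Or.inl ?_⟩
  intro v hv'
  exact hs' v (by simp [List.mem_reverse.1 hv'])

theorem h1n_of_lln (hgp : GP p) {n : ℕ} (h : LLn p n) : H1n p n := by
  intro L l hl hn hne hp hv
  obtain ⟨x, y, B, C, q1, q2, q3, q4, q5, q6, q7⟩ := h1_link hgp hn hne hv
  have hy : y ∈ l := q2.mem_iff.1 List.mem_cons_self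
  have hs : ∀ t ∈ l, ¬ o p L y t < 0 := by
    intro t ht
    rcases List.mem_cons.1 (q2.mem_iff.2 ht) with rfl | h2
    · rw [lr_same]
      exact lt_irrefl _
    · exact not_lt.2 (q4 t h2).le
  obtain ⟨l', h1⟩ := h L y l hl hn hp hy hs
  have h2 := reach_perm h1
  have hs' : ∀ t ∈ L :: (l' ++ [y]), ¬ o p L y t < 0 := by
    intro t ht
    rcases List.mem_cons.1 (h2.mem_iff.1 ht) with rfl | h3
    · rw [lr_same']
      exact lt_irrefl _
    · exact hs t h3
  refine ⟨y, l'.reverse, h1.tail (lr_rot (Or.inr hs')), Or.inr ?_⟩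
  intro v hv'
  exact hs' v (by simp [List.mem_reverse.1 hv'])

theorem fs_zero : H1fc p 0 := by
  intro h l l' hl _ _ _ hperm _
  have h1 : l = [] := List.length_eq_zero_iff.1 hl
  subst h1
  rw [hperm.eq_nil]
  exact Relation.ReflTransGen.refl

/-- one level of the induction -/
theorem fs_step (hgp : GP p) {n : ℕ} (ih : H1fc p n) (h1p : H1n p (n + 1)) :
    H1fc p (n + 1) := by
  intro h l l' hl hn hp hp' hperm hv
  have hne : l ≠ [] := by
    rintro rfl
    simp at hl
  obtain ⟨a, b, D, E, q1, q2, q3, q4, q5, q6, q7⟩ := h1_link hgp hn hne hv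
  have key : ∀ m : List α, m.Perm l → Plane p (Ed (h :: m)) →
      Reach p NO (h :: m) (h :: a :: D) := by
    intro m hm hpm
    have hnm : (h :: m).Nodup := (hm.cons h).nodup_iff.2 hn
    have hvm : HV p {t | t ∈ h :: m} h := hv_mono (fun t ht => (hm.cons h).mem_iff.1 ht) hv
    have hmne : m ≠ [] := by
      rintro rfl
      exact hne hm.symm.eq_nil
    obtain ⟨x, B, h1, h2⟩ := h1p h m (hm.length_eq.trans hl) hnm hmne hpm hvm
    have h3 := reach_perm h1
    have h4 : (x :: B).Perm m := (List.perm_cons h).1 h3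
    have hnB : (h :: x :: B).Nodup := h3.nodup_iff.2 hnm
    have hpB : Plane p (Ed (h :: x :: B)) := plane_no.1 (plane_reach (plane_no.2 hpm) h1)
    have hlB : B.length = n := by
      have h5 := (h4.trans hm).length_eq
      simp only [List.length_cons] at h5
      omega
    refine h1.trans ?_
    rcases h2 with h2 | h2
    · refine h1_left ih hnB hlB hpB q5 (q1.trans (h4.trans hm).symm) ?_ q3
      intro v hv'
      exact lt_of_le_of_ne (not_lt.1 (h2 v hv')) (h1_strict hgp hnB hv')
    · have h5 : Reach p NO (h :: x :: B) (h :: b :: E) := by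
        refine h1_right ih hnB hlB hpB q6 (q2.trans (h4.trans hm).symm) ?_ q4
        intro v hv'
        exact lt_of_le_of_ne (not_lt.1 (h2 v hv')) (h1_strict hgp hnB hv').symm
      exact h5.trans (reach_symm (plane_no.2 q5) q7)
  exact (key l (List.Perm.refl _) hp).trans (reach_symm (plane_no.2 hp') (key l' hperm hp'))

/-- all levels -/
theorem fs_all (hgp : GP p) (hlr : ∀ n, (∀ m < n, H1fc p m) → H1n p n) (n : ℕ) :
    H1fc p n := by
  induction n using Nat.strong_induction_on with
  | _ n ih =>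
    cases n with
    | zero => exact fs_zero
    | succ n => exact fs_step hgp (ih n (Nat.lt_succ_self n)) (hlr (n + 1) ih)

/-- all plane paths on the same set are connected by rotations and reversals -/
theorem fs_conn (hgp : GP p) (hfs : ∀ m, H1fc p m) (htg : TGp p) {l l' : List α}
    (hn : l.Nodup) (hperm : l'.Perm l) (hp : Plane p (Ed l)) (hp' : Plane p (Ed l')) :
    Relation.ReflTransGen (U p) l l' := by
  by_cases hne : l = []
  · subst hne
    rw [hperm.eq_nil]
  obtain ⟨h, hh, hv⟩ := da_hull hgp hne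
  have hn' : l'.Nodup := hperm.nodup_iff.2 hn
  obtain ⟨Q, hQ⟩ := da_h1 htg hn hp hh hv
  obtain ⟨Q', hQ'⟩ := da_h1 htg hn' hp' (hperm.mem_iff.2 hh)
    (hv_mono (fun t ht => hperm.mem_iff.1 ht) hv)
  have q1 := u_perm hQ
  have q1' := u_perm hQ'
  have q2 : Q'.Perm Q := (List.perm_cons h).1 ((q1'.trans hperm).trans q1.symm)
  have h1 := hfs Q.length h Q Q' rfl (q1.nodup_iff.2 hn) (u_plane hp hQ)
    (u_plane hp' hQ') q2 (hv_mono (fun t ht => q1.mem_iff.1 ht) hv)
  have h2 : Relation.ReflTransGen (U p) (h :: Q) (h :: Q') :=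
    Relation.ReflTransGen.mono (fun a b h => Or.inl h) _ _ h1
  exact (hQ.trans h2).trans (u_symm hp' hQ')

/-- the frozen statement for the point family `p` from the two statements of the cascade -/
theorem lr_graph (n : ℕ) (p : Fin n → ℝ × ℝ) (hi : Function.Injective p)
    (hc : ∀ i j k : Fin n, i ≠ j → j ≠ k → i ≠ k →
      ¬ Collinear ℝ ({p i, p j, p k} : Set (ℝ × ℝ)))
    (hlr : ∀ m, (∀ k < m, H1fc p k) → LRn p m) (htg : (∀ m, H1fc p m) → TGp p) :
    ∀ P : SimpleGraph (Fin n) → Prop,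
      (∀ A : SimpleGraph (Fin n), P A ↔
        (A.IsTree ∧ (∀ v : Fin n, (A.neighborSet v).ncard ≤ 2) ∧
          ∀ a b c d : Fin n, A.Adj a b → A.Adj c d → s(a, b) ≠ s(c, d) →
            ∀ x : ℝ × ℝ, x ∈ segment ℝ (p a) (p b) → x ∈ segment ℝ (p c) (p d) →
              (x = p a ∨ x = p b) ∧ (x = p c ∨ x = p d))) →
      ∀ G H : SimpleGraph (Fin n), P G → P H →
        Relation.ReflTransGen
          (fun A B : SimpleGraph (Fin n) =>
            P A ∧ P B ∧ (A.edgeSet \ B.edgeSet).ncard = 1 ∧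
              (B.edgeSet \ A.edgeSet).ncard = 1)
          G H := by
  have hgp := gp_of hi hc
  have hfs : ∀ m, H1fc p m := fun m =>
    fs_all hgp (fun k hk => h1n_of_lrn hgp (hlr k hk)) m
  exact graph_of_conn n p hgp fun _ _ h1 h2 h3 h4 => fs_conn hgp hfs (htg hfs) h1 h2 h3 h4

/-- the same with the mirrored form of the statement on hull neighbours -/
theorem ll_graph (n : ℕ) (p : Fin n → ℝ × ℝ) (hi : Function.Injective p)
    (hc : ∀ i j k : Fin n, i ≠ j → j ≠ k → i ≠ k →
      ¬ Collinear ℝ ({p i, p j, p k} : Set (ℝ × ℝ)))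
    (hlr : ∀ m, (∀ k < m, H1fc p k) → LLn p m) (htg : (∀ m, H1fc p m) → TGp p) :
    ∀ P : SimpleGraph (Fin n) → Prop,
      (∀ A : SimpleGraph (Fin n), P A ↔
        (A.IsTree ∧ (∀ v : Fin n, (A.neighborSet v).ncard ≤ 2) ∧
          ∀ a b c d : Fin n, A.Adj a b → A.Adj c d → s(a, b) ≠ s(c, d) →
            ∀ x : ℝ × ℝ, x ∈ segment ℝ (p a) (p b) → x ∈ segment ℝ (p c) (p d) →
              (x = p a ∨ x = p b) ∧ (x = p c ∨ x = p d))) →
      ∀ G H : SimpleGraph (Fin n), P G → P H →
        Relation.ReflTransGen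
          (fun A B : SimpleGraph (Fin n) =>
            P A ∧ P B ∧ (A.edgeSet \ B.edgeSet).ncard = 1 ∧
              (B.edgeSet \ A.edgeSet).ncard = 1)
          G H := by
  have hgp := gp_of hi hc
  have hfs : ∀ m, H1fc p m := fun m =>
    fs_all hgp (fun k hk => h1n_of_lln hgp (hlr k hk)) m
  exact graph_of_conn n p hgp fun _ _ h1 h2 h3 h4 => fs_conn hgp hfs (htg hfs) h1 h2 h3 h4

end FPW
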