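import Pool.Agent.Lib.MP_deef39_co_PW.RotB

/-! # Ord module Leaf: the extremal principle for rotation classes

`rho P x` is the rank of `x` as the next vertex after the prefix `P`. In every class of rotations
(with obstacles `O`) there is a state `l` such that no vertex `v` seen by the end `z` of `l` has
`rho (prefix up to v) z < rho (prefix up to v) (successor of v)`.
-/

set_option autoImplicit false

namespace FPW

variable {α : Type*} {p : α → ℝ × ℝ}

/-- the list of ranks of the entries of `l`, each with respect to the prefix before it, if `l`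
stands after the prefix `P` -/
def rkey (rho : List α → α → ℕ) : List α → List α → List ℕ
  | _, [] => []
  | P, x :: l => rho P x :: rkey rho (P ++ [x]) l

theorem rkey_append (rho : List α → α → ℕ) (P A B : List α) :
    rkey rho P (A ++ B) = rkey rho P A ++ rkey rho (P ++ A) B := by
  induction A generalizing P with
  | nil => simp [rkey]
  | cons a A ih => simp [rkey, ih]

private theorem lt_append {L M M' : List ℕ} {a b : ℕ} (h : a < b) :
    L ++ a :: M < L ++ b :: M' := by
  induction L with
  | nil => exact List.Lex.rel h
  | cons c L ih => exact List.Lex.cons ih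

theorem ord_leaf {O : α → α → Prop} (l₀ : List α)
    (rho : List α → α → ℕ) :
    ∃ l, Reach p O l₀ l ∧ ∀ (A B : List α) (v x z : α), l = A ++ v :: x :: (B ++ [z]) →
      Vis p (EO l O) z v → rho (A ++ [v]) x ≤ rho (A ++ [v]) z := by
  have hfin : {l : List α | Reach p O l₀ l}.Finite := by
    have h1 : {l : List α | l.Perm l₀}.Finite := by
      classical
      refine (List.finite_toSet l₀.permutations).subset ?_
      intro l hl
      exact List.mem_permutations.2 hl
    exact h1.subset fun l hl => reach_perm hl
  obtain ⟨l, hl, hmin⟩ := Set.exists_min_image {l : List α | Reach p O l₀ l}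
    (fun l => rkey rho [] l) hfin ⟨l₀, Relation.ReflTransGen.refl⟩
  refine ⟨l, hl, ?_⟩
  rintro A B v x z rfl hv
  by_contra hlt
  have hrot : Rot p O (A ++ v :: x :: (B ++ [z])) (A ++ v :: z :: (x :: B).reverse) :=
    ⟨v, z, ⟨A, x :: B, rfl, rfl⟩, hv⟩
  have h1 := hmin _ (hl.tail hrot)
  refine absurd h1 (not_le.2 ?_)
  have h2 : ∀ (y : α) (M : List α), rkey rho [] (A ++ v :: y :: M) =
      rkey rho [] (A ++ [v]) ++ rho (A ++ [v]) y :: rkey rho (A ++ [v] ++ [y]) M := by
    intro y M
    have h3 : A ++ v :: y :: M = (A ++ [v]) ++ y :: M := by simp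
    rw [h3, rkey_append]
    rfl
  rw [h2, h2]
  exact lt_append (not_le.1 hlt)

end FPW
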