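import Pool.Agent.Lib.MP_deef39_co_Ord.Red

/-! # Ord module Multi: the multi-step form of the order rule

States are lists `Q ++ x :: C`, `O` is the set of obstacles. `MS p O Acc rho L m`: for every
reachable list `Q ++ x :: B`, `B` of length `m`, the class of rotations with pivots from `x` on
contains a state which is accepted or whose end is an improvement at a vertex of `Q`.
`MS m` implies `MS (m + 1)`; for `Q = []` one gets an accepted state.
-/

set_option autoImplicit false

namespace FPW

variable {α : Type*} {p : α → ℝ × ℝ}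

/-- lifting a class with static beginning `Q` to the full lists -/
theorem ms_lift {O : α → α → Prop} {x : α} {Q B m : List α}
    (h : Reach p (EO (Q ++ [x]) O) (x :: B) m) :
    ∃ C, m = x :: C ∧ Reach p O (Q ++ x :: B) (Q ++ x :: C) := by
  unfold Reach at h
  induction h with
  | refl => exact ⟨B, rfl, Relation.ReflTransGen.refl⟩
  | @tail m₁ m' _ h2 ih =>
    obtain ⟨B₂, rfl, h3⟩ := ih
    obtain ⟨v, z, h4, h5⟩ := h2
    have hh := rotL_head h4
    rw [List.head?_cons] at hh
    obtain ⟨A, B, h6, h7⟩ := h4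
    have hm' : ∃ B₃, m' = x :: B₃ := by
      cases m' with
      | nil => simp at hh
      | cons a B₃ =>
        rw [List.head?_cons] at hh
        exact ⟨B₃, by rw [Option.some.inj hh]⟩
    obtain ⟨B₃, rfl⟩ := hm'
    refine ⟨B₃, rfl, h3.tail ⟨v, z, ⟨Q ++ A, B, ?_, ?_⟩, ?_⟩⟩
    · rw [h6, List.append_assoc]
    · rw [h7, List.append_assoc]
    · refine Vis_mono ?_ h5
      rintro a b (hab | hab)
      · rcases ed_mid.1 hab with h8 | h8
        · exact Or.inr (Or.inl h8)
        · exact Or.inl h8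
      · exact Or.inr (Or.inr hab)

/-- the edges with a static beginning -/
theorem ms_eo {O : α → α → Prop} {x : α} {Q B : List α} {a b : α} :
    EO (x :: B) (EO (Q ++ [x]) O) a b ↔ EO (Q ++ x :: B) O a b := by
  unfold EO
  rw [ed_mid (A := Q) (B := B)]
  tauto

/-- a class inside a class -/
theorem ms_sub {O : α → α → Prop} {x w : α} {Q B m : List α}
    (h : Reach p (EO (Q ++ [x] ++ [w]) O) (w :: B) m) :
    ∃ C, m = w :: C ∧ Reach p (EO (Q ++ [x]) O) (x :: w :: B) (x :: w :: C) := by
  refine ms_lift (Q := [x]) (reach_mono ?_ h)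
  rintro a b (hab | hab | hab)
  · left
    have h1 : Q ++ [x] ++ [w] = Q ++ x :: [w] := by simp
    rw [h1, ed_mid]
    exact Or.inr hab
  · left
    have h1 : Q ++ [x] ++ [w] = Q ++ x :: [w] := by simp
    rw [h1, ed_mid]
    exact Or.inl hab
  · exact Or.inr hab

/-- the end is an improvement at a vertex of `Q` -/
def ImpS (p : α → ℝ × ℝ) (O : α → α → Prop) (rho : List α → α → ℕ) (Q l : List α) : Prop :=
  ∃ (A D : List α) (v w z : α), l = A ++ v :: w :: (D ++ [z]) ∧ A.length < Q.length ∧
    Vis p (EO l O) z v ∧ rho (A ++ [v]) z < rho (A ++ [v]) w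

/-- multi-step form of the rule with `m` free vertices -/
def MS (p : α → ℝ × ℝ) (O : α → α → Prop) (Acc : List α → Prop) (rho : List α → α → ℕ)
    (L : List α) (m : ℕ) : Prop :=
  ∀ (Q B : List α) (x : α), B.length = m → Reach p O L (Q ++ x :: B) →
    ∃ C, Reach p (EO (Q ++ [x]) O) (x :: B) (x :: C) ∧
      (Acc (Q ++ x :: C) ∨ ImpS p O rho Q (Q ++ x :: C))

theorem ms_step {O : α → α → Prop} {Acc : List α → Prop} {rho : List α → α → ℕ}
    {L : List α} {m : ℕ} (h : MS p O Acc rho L m) : MS p O Acc rho L (m + 1) := by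
  intro Q B x hB hr
  -- the set of next vertices
  have hfin : {l : List α | Reach p (EO (Q ++ [x]) O) (x :: B) l}.Finite := by
    have h1 : {l : List α | l.Perm (x :: B)}.Finite := by
      classical
      refine (List.finite_toSet (x :: B).permutations).subset ?_
      intro l hl
      exact List.mem_permutations.2 hl
    exact h1.subset fun l hl => reach_perm hl
  obtain ⟨l, hl, hmin⟩ := Set.exists_min_image
    {l : List α | Reach p (EO (Q ++ [x]) O) (x :: B) l}
    (fun l => (l.tail.head?.map (rho (Q ++ [x]))).getD 0) hfin ⟨_, Relation.ReflTransGen.refl⟩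
  obtain ⟨C₀, rfl, hC₀⟩ := ms_lift hl
  have hlen : C₀.length = m + 1 := by
    have h1 := (reach_perm hl).length_eq
    simp only [List.length_cons] at h1
    omega
  cases C₀ with
  | nil => simp at hlen
  | cons w C =>
  have hC : C.length = m := by simpa using hlen
  have hr' : Reach p O L ((Q ++ [x]) ++ w :: C) := by
    have h1 : Reach p O L (Q ++ x :: w :: C) := hr.trans hC₀
    have h2 : Q ++ x :: w :: C = (Q ++ [x]) ++ w :: C := by simp
    rw [← h2]
    exact h1
  obtain ⟨C', h1, h2⟩ := h (Q ++ [x]) C w hC hr'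
  obtain ⟨C'', h3, h4⟩ := ms_sub h1
  have h5 : C'' = C' := by simpa using h3.symm
  subst h5
  have h6 : Reach p (EO (Q ++ [x]) O) (x :: B) (x :: w :: C'') := hl.trans h4
  have h7 : Q ++ [x] ++ w :: C'' = Q ++ x :: w :: C'' := by simp
  rw [h7] at h2
  refine ⟨w :: C'', h6, ?_⟩
  rcases h2 with h2 | ⟨A, D, v, w', z, h8, h9, h10, h11⟩
  · exact Or.inl h2
  · by_cases hA : A.length < Q.length
    · exact Or.inr ⟨A, D, v, w', z, h8, hA, h10, h11⟩
    · exfalso
      have hAQ : Q.length = A.length := by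
        simp only [List.length_append, List.length_cons, List.length_nil] at h9
        omega
      obtain ⟨rfl, h12⟩ := List.append_inj h8 hAQ
      simp only [List.cons.injEq] at h12
      obtain ⟨rfl, rfl, h13⟩ := h12
      have h14 : Rot p (EO (Q ++ [x]) O) (x :: w :: C'') (x :: z :: (w :: D).reverse) := by
        refine ⟨x, z, ⟨[], w :: D, ?_, rfl⟩, ?_⟩
        · simp [h13]
        · refine Vis_mono ?_ h10
          intro a b hab
          exact ms_eo.1 hab
      have h15 := hmin _ (h6.tail h14)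
      simp only [List.tail_cons, List.head?_cons, Option.map_some, Option.getD_some] at h15
      omega

theorem ms_le {O : α → α → Prop} {Acc : List α → Prop} {rho : List α → α → ℕ}
    {L : List α} {m₀ m : ℕ} (h : MS p O Acc rho L m₀) (hm : m₀ ≤ m) : MS p O Acc rho L m := by
  induction m, hm using Nat.le_induction with
  | base => exact h
  | succ m _ ih => exact ms_step ih

/-- the class of `x :: B` contains an accepted state (`m₀` free vertices are enough) -/
theorem ms_acc {O : α → α → Prop} {Acc : List α → Prop} {rho : List α → α → ℕ} {x : α}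
    {B : List α} {m₀ : ℕ} (h : MS p O Acc rho (x :: B) m₀) (hm : m₀ ≤ B.length) :
    ∃ C, Reach p O (x :: B) (x :: C) ∧ Acc (x :: C) := by
  obtain ⟨C, h1, h2⟩ := ms_le h hm [] B x rfl Relation.ReflTransGen.refl
  refine ⟨C, ?_, ?_⟩
  · refine reach_mono ?_ h1
    intro a b hab
    exact Or.inr hab
  · rcases h2 with h2 | ⟨A, D, v, w, z, -, h3, -, -⟩
    · exact h2
    · simp at h3

/-- accepted states for `VLp` -/
def AccV (p : α → ℝ × ℝ) (h x : α) (l : List α) : Prop :=
  ∃ A z, l = A ++ [z] ∧ 0 < o p h x z ∧ Vis p (EO (A ++ [z]) (Ed [h, x])) z h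

/-- accepted states for `TGp` -/
def AccT (p : α → ℝ × ℝ) (h : α) (A l : List α) : Prop :=
  ∃ D z g, l = D ++ [z] ∧ g ∈ A ∧ Vis p (EO (D ++ [z]) (Ed (A ++ [h]))) z g

/-- multi-step order rule for `VLp` -/
def VLm (p : α → ℝ × ℝ) : Prop :=
  ∀ (h x : α) (B : List α), (h :: x :: B).Nodup → Plane p (Ed (h :: x :: B)) →
    HV p {t | t ∈ h :: x :: B} h → (∃ v ∈ B, 0 < o p h x v) →
    ∃ (rho : List α → α → ℕ) (m₀ : ℕ), m₀ ≤ B.length ∧
      MS p (Ed [h, x]) (AccV p h x) rho (x :: B) m₀

/-- multi-step order rule for `TGp` -/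
def TGm (p : α → ℝ × ℝ) : Prop :=
  ∀ (h : α) (A B : List α), (A ++ h :: B).Nodup → A ≠ [] → B ≠ [] →
    Plane p (Ed (A ++ h :: B)) → HV p {t | t ∈ A ++ h :: B} h →
    ∃ (rho : List α → α → ℕ) (m₀ : ℕ), m₀ ≤ B.length ∧
      MS p (Ed (A ++ [h])) (AccT p h A) rho (h :: B) m₀

theorem vlp_of_multi (h : VLm p) : VLp p := by
  intro a x B hn hp hv hex
  obtain ⟨rho, m₀, hm, hr⟩ := h a x B hn hp hv hex
  obtain ⟨C, h1, A, z, h2, h3, h4⟩ := ms_acc hr hm
  exact ⟨A, z, h2 ▸ h1, h3, h4⟩

theorem tgp_of_multi (h : TGm p) : TGp p := by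
  intro a A B hn hA hp hv
  by_cases hB : B = []
  · subst hB
    rcases List.eq_nil_or_concat A with h1 | ⟨A', g, h1⟩
    · exact absurd h1 hA
    · rw [List.concat_eq_append] at h1
      subst h1
      refine ⟨[], a, g, Relation.ReflTransGen.refl, by simp, ?_⟩
      intro c d hcd
      have h2 : Ed (A' ++ [g] ++ [a]) c d := by
        rcases hcd with h3 | h3
        · exact absurd h3 ed_single
        · exact h3
      refine hp a g c d ?_ h2
      have h4 : A' ++ [g] ++ [a] = A' ++ g :: a :: [] := by simp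
      rw [h4]
      exact ed_of_split'
  · obtain ⟨rho, m₀, hm, hr⟩ := h a A B hn hA hB hp hv
    obtain ⟨C, h1, D, z, g, h2, h3, h4⟩ := ms_acc hr hm
    exact ⟨D, z, g, h2 ▸ h1, h3, h4⟩

end FPW
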