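import Pool.Agent.Lib.MP_deef39_co_PW.Lst

/-! # Ord module Par: parity of crossings (discrete Jordan curve theorem)

`xc p s t l`: number (mod 2) of the edges of the path `l` crossed by the segment `s t`.
`xc_tri`: for three points `s, t, r` outside the list the three numbers add up to the number of
ends of `l` inside the triangle; so for a closed list (first entry = last entry) they add up to
zero: `xc s t l = 0` is an equivalence relation (same side of the polygon).
`xc_vert`: the sides at a vertex `w` of a closed list.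
-/

set_option autoImplicit false

namespace FPW

variable {α : Type*} {p : α → ℝ × ℝ}

open Classical in
/-- truth value mod 2 -/
noncomputable def b2 (P : Prop) : ZMod 2 := if P then 1 else 0

theorem b2_true {P : Prop} (h : P) : b2 P = 1 := by simp [b2, h]

theorem b2_false {P : Prop} (h : ¬ P) : b2 P = 0 := by simp [b2, h]

theorem b2_congr {P Q : Prop} (h : P ↔ Q) : b2 P = b2 Q := by rw [propext h]

theorem b2_add_self (P : Prop) : b2 P + b2 P = 0 := CharTwo.add_self_eq_zero _

theorem b2_eq_zero {P : Prop} : b2 P = 0 ↔ ¬ P := by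
  by_cases h : P <;> simp [b2, h]

theorem b2_eq_one {P : Prop} : b2 P = 1 ↔ P := by
  by_cases h : P <;> simp [b2, h]

/-- crossings (mod 2) of the segment `s t` with the path `l` -/
noncomputable def xc (p : α → ℝ × ℝ) (s t : α) : List α → ZMod 2
  | a :: b :: l => b2 (X p s t a b) + xc p s t (b :: l)
  | [_] => 0
  | [] => 0

theorem xc_cons2 {s t a b : α} {l : List α} :
    xc p s t (a :: b :: l) = b2 (X p s t a b) + xc p s t (b :: l) := rfl

@[simp] theorem xc_one {s t a : α} : xc p s t [a] = 0 := rfl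

@[simp] theorem xc_nil {s t : α} : xc p s t [] = 0 := rfl

theorem xc_mid {s t v : α} {A B : List α} :
    xc p s t (A ++ v :: B) = xc p s t (A ++ [v]) + xc p s t (v :: B) := by
  induction A with
  | nil => simp
  | cons a A ih =>
    cases A with
    | nil =>
      simp only [List.cons_append, List.nil_append, xc_cons2, xc_one, add_zero]
    | cons c A =>
      simp only [List.cons_append, xc_cons2] at ih ⊢
      rw [ih]
      ring

theorem xc_comm {s t : α} {l : List α} : xc p s t l = xc p t s l := by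
  induction l with
  | nil => rfl
  | cons a l ih =>
    cases l with
    | nil => rfl
    | cons b l =>
      rw [xc_cons2, xc_cons2, ih, b2_congr X_sw1]

theorem xc_vis {s t : α} {l : List α} (h : Vis p (Ed l) s t) : xc p s t l = 0 := by
  induction l with
  | nil => rfl
  | cons a l ih =>
    cases l with
    | nil => rfl
    | cons b l =>
      rw [xc_cons2, ih (fun c d hcd => h c d (Or.inr (Or.inr hcd))),
        b2_false (h a b (Or.inl ⟨rfl, rfl⟩)), add_zero]

theorem xc_self {s : α} {l : List α} : xc p s s l = 0 := xc_vis Vis_self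

theorem xc_snoc {s t a b : α} {A : List α} :
    xc p s t (A ++ [a, b]) = xc p s t (A ++ [a]) + b2 (X p s t a b) := by
  have h : A ++ [a, b] = A ++ a :: [b] := by simp
  rw [h, xc_mid, xc_cons2, xc_one, add_zero]

theorem xc_reverse {s t : α} {l : List α} : xc p s t l.reverse = xc p s t l := by
  induction l with
  | nil => rfl
  | cons a l ih =>
    cases l with
    | nil => rfl
    | cons b l =>
      have h : (a :: b :: l).reverse = l.reverse ++ [b, a] := by simp
      rw [h, xc_snoc, xc_cons2]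
      have h2 : l.reverse ++ [b] = (b :: l).reverse := by simp
      rw [h2, ih, b2_congr X_sw2, add_comm]

private theorem tri_b : ∀ D S T R A₁ A₂ A₃ B₁ B₂ B₃ : Bool,
    ((D && !A₁ && !A₂ && !A₃) || (!D && A₁ && A₂ && A₃) || (D && !B₁ && !B₂ && !B₃) ||
      (!D && B₁ && B₂ && B₃) || (A₂ == S && A₃ == T && A₁ == R) ||
      (A₂ != S && A₃ != T && A₁ != R) || (B₂ == S && B₃ == T && B₁ == R) ||
      (B₂ != S && B₃ != T && B₁ != R) ||
      (xor (xor ((A₁ != B₁) && (S != T)) ((A₂ != B₂) && (T != R))) ((A₃ != B₃) && (R != S)) ==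
        xor ((A₁ == A₂) && (A₂ == A₃)) ((B₁ == B₂) && (B₂ == B₃)))) = true := by
  decide

/-- boolean core of the triangle lemma -/
private theorem tri_bool (D S T R A₁ A₂ A₃ B₁ B₂ B₃ : Bool)
    (h1 : ¬ (D = true ∧ A₁ = false ∧ A₂ = false ∧ A₃ = false))
    (h2 : ¬ (D = false ∧ A₁ = true ∧ A₂ = true ∧ A₃ = true))
    (h3 : ¬ (D = true ∧ B₁ = false ∧ B₂ = false ∧ B₃ = false))
    (h4 : ¬ (D = false ∧ B₁ = true ∧ B₂ = true ∧ B₃ = true))
    (h5 : ¬ (A₂ = S ∧ A₃ = T ∧ A₁ = R)) (h6 : ¬ (A₂ ≠ S ∧ A₃ ≠ T ∧ A₁ ≠ R))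
    (h7 : ¬ (B₂ = S ∧ B₃ = T ∧ B₁ = R)) (h8 : ¬ (B₂ ≠ S ∧ B₃ ≠ T ∧ B₁ ≠ R)) :
    xor (xor ((A₁ != B₁) && (S != T)) ((A₂ != B₂) && (T != R))) ((A₃ != B₃) && (R != S)) =
      xor ((A₁ == A₂) && (A₂ == A₃)) ((B₁ == B₂) && (B₂ == B₃)) := by
  have key := tri_b D S T R A₁ A₂ A₃ B₁ B₂ B₃
  rw [Bool.or_eq_true, beq_iff_eq] at key
  rcases key with key | key
  · exfalso
    rw [Bool.or_eq_true, Bool.or_eq_true, Bool.or_eq_true, Bool.or_eq_true, Bool.or_eq_true,
      Bool.or_eq_true, Bool.or_eq_true] at key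
    rcases key with ((((((k | k) | k) | k) | k) | k) | k) | k
    · exact h1 (by simpa only [Bool.and_eq_true, Bool.not_eq_true', and_assoc] using k)
    · exact h2 (by simpa only [Bool.and_eq_true, Bool.not_eq_true', and_assoc] using k)
    · exact h3 (by simpa only [Bool.and_eq_true, Bool.not_eq_true', and_assoc] using k)
    · exact h4 (by simpa only [Bool.and_eq_true, Bool.not_eq_true', and_assoc] using k)
    · exact h5 (by simpa only [Bool.and_eq_true, beq_iff_eq, and_assoc] using k)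
    · exact h6 (by simpa only [Bool.and_eq_true, bne_iff_ne, and_assoc] using k)
    · exact h7 (by simpa only [Bool.and_eq_true, beq_iff_eq, and_assoc] using k)
    · exact h8 (by simpa only [Bool.and_eq_true, bne_iff_ne, and_assoc] using k)
  · exact key

/-- sign of a nonzero real as a boolean -/
private noncomputable def sg (x : ℝ) : Bool := decide (0 < x)

private theorem sg_true {x : ℝ} : sg x = true ↔ 0 < x := by simp [sg]

private theorem sg_false {x : ℝ} (h : x ≠ 0) : sg x = false ↔ x < 0 := by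
  simp only [sg, decide_eq_false_iff_not, not_lt]
  exact ⟨fun h1 => lt_of_le_of_ne h1 h, fun h1 => h1.le⟩

private theorem sg_ne {x y : ℝ} (hx : x ≠ 0) (hy : y ≠ 0) : sg x ≠ sg y ↔ x * y < 0 := by
  rcases lt_or_gt_of_ne hx with h1 | h1 <;> rcases lt_or_gt_of_ne hy with h2 | h2
  · rw [(sg_false hx).2 h1, (sg_false hy).2 h2]
    simp only [ne_eq, not_true_eq_false, false_iff, not_lt]
    exact (mul_pos_of_neg_of_neg h1 h2).le
  · rw [(sg_false hx).2 h1, sg_true.2 h2]
    simp only [ne_eq, Bool.false_eq_true, not_false_eq_true, true_iff]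
    exact mul_neg_of_neg_of_pos h1 h2
  · rw [sg_true.2 h1, (sg_false hy).2 h2]
    simp only [ne_eq, Bool.true_eq_false, not_false_eq_true, true_iff]
    exact mul_neg_of_pos_of_neg h1 h2
  · rw [sg_true.2 h1, sg_true.2 h2]
    simp only [ne_eq, not_true_eq_false, false_iff, not_lt]
    exact (mul_pos h1 h2).le

private theorem b2_xor {P Q R : Prop} {a b c : Bool} (h1 : P ↔ a = true) (h2 : Q ↔ b = true)
    (h3 : R ↔ c = true) :
    b2 P + b2 Q + b2 R = if xor (xor a b) c = true then 1 else 0 := by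
  rw [b2_congr h1, b2_congr h2, b2_congr h3]
  cases a <;> cases b <;> cases c <;> simp [b2] <;> rfl

private theorem b2_xor2 {P Q : Prop} {a b : Bool} (h1 : P ↔ a = true) (h2 : Q ↔ b = true) :
    b2 P + b2 Q = if xor a b = true then 1 else 0 := by
  rw [b2_congr h1, b2_congr h2]
  cases a <;> cases b <;> (simp [b2]; try rfl)

/-- a triangle and a segment: the number of crossings is the number of end points inside -/
theorem tri_par (hgp : GP p) {s t r a b : α} (hst : s ≠ t) (htr : t ≠ r) (hsr : s ≠ r)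
    (ha : s ≠ a ∧ t ≠ a ∧ r ≠ a) (hb : s ≠ b ∧ t ≠ b ∧ r ≠ b) :
    b2 (X p s t a b) + b2 (X p t r a b) + b2 (X p r s a b) =
      b2 (InTri p s t r a) + b2 (InTri p s t r b) := by
  by_cases hab : a = b
  · subst hab
    rw [b2_false fun h => (X_ne h).2.1 rfl, b2_false fun h => (X_ne h).2.1 rfl,
      b2_false fun h => (X_ne h).2.1 rfl, b2_add_self]
    simp
  have nA1 : o p s t a ≠ 0 := hgp.ne s t a hst ha.2.1 ha.1
  have nA2 : o p t r a ≠ 0 := hgp.ne t r a htr ha.2.2 ha.2.1
  have nA3 : o p r s a ≠ 0 := hgp.ne r s a hsr.symm ha.1 ha.2.2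
  have nB1 : o p s t b ≠ 0 := hgp.ne s t b hst hb.2.1 hb.1
  have nB2 : o p t r b ≠ 0 := hgp.ne t r b htr hb.2.2 hb.2.1
  have nB3 : o p r s b ≠ 0 := hgp.ne r s b hsr.symm hb.1 hb.2.2
  have nS : o p a b s ≠ 0 := hgp.ne a b s hab hb.1.symm ha.1.symm
  have nT : o p a b t ≠ 0 := hgp.ne a b t hab hb.2.1.symm ha.2.1.symm
  have nR : o p a b r ≠ 0 := hgp.ne a b r hab hb.2.2.symm ha.2.2.symm
  have nD : o p s t r ≠ 0 := hgp.ne s t r hst htr hsr
  have sA := o_add p s t r a
  have sB := o_add p s t r b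
  have bA := o_bary p s t r a b a
  have bB := o_bary p s t r a b b
  rw [o_self2, mul_zero] at bA
  rw [o_self3, mul_zero] at bB
  have key := tri_bool (sg (o p s t r)) (sg (o p a b s)) (sg (o p a b t)) (sg (o p a b r))
    (sg (o p s t a)) (sg (o p t r a)) (sg (o p r s a))
    (sg (o p s t b)) (sg (o p t r b)) (sg (o p r s b))
    (by
      rintro ⟨h1, h2, h3, h4⟩
      rw [sg_true] at h1
      rw [sg_false nA1] at h2
      rw [sg_false nA2] at h3
      rw [sg_false nA3] at h4
      linarith)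
    (by
      rintro ⟨h1, h2, h3, h4⟩
      rw [sg_false nD] at h1
      rw [sg_true] at h2 h3 h4
      linarith)
    (by
      rintro ⟨h1, h2, h3, h4⟩
      rw [sg_true] at h1
      rw [sg_false nB1] at h2
      rw [sg_false nB2] at h3
      rw [sg_false nB3] at h4
      linarith)
    (by
      rintro ⟨h1, h2, h3, h4⟩
      rw [sg_false nD] at h1
      rw [sg_true] at h2 h3 h4
      linarith)
    (by
      rintro ⟨h1, h2, h3⟩
      have e1 : ¬ (o p t r a * o p a b s < 0) := fun h => (sg_ne nA2 nS).2 h h1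
      have e2 : ¬ (o p r s a * o p a b t < 0) := fun h => (sg_ne nA3 nT).2 h h2
      have e3 : ¬ (o p s t a * o p a b r < 0) := fun h => (sg_ne nA1 nR).2 h h3
      have f1 := lt_of_le_of_ne (not_lt.1 e1) (mul_ne_zero nA2 nS).symm
      have f2 := lt_of_le_of_ne (not_lt.1 e2) (mul_ne_zero nA3 nT).symm
      have f3 := lt_of_le_of_ne (not_lt.1 e3) (mul_ne_zero nA1 nR).symm
      linarith)
    (by
      rintro ⟨h1, h2, h3⟩
      have e1 := (sg_ne nA2 nS).1 h1
      have e2 := (sg_ne nA3 nT).1 h2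
      have e3 := (sg_ne nA1 nR).1 h3
      linarith)
    (by
      rintro ⟨h1, h2, h3⟩
      have e1 : ¬ (o p t r b * o p a b s < 0) := fun h => (sg_ne nB2 nS).2 h h1
      have e2 : ¬ (o p r s b * o p a b t < 0) := fun h => (sg_ne nB3 nT).2 h h2
      have e3 : ¬ (o p s t b * o p a b r < 0) := fun h => (sg_ne nB1 nR).2 h h3
      have f1 := lt_of_le_of_ne (not_lt.1 e1) (mul_ne_zero nB2 nS).symm
      have f2 := lt_of_le_of_ne (not_lt.1 e2) (mul_ne_zero nB3 nT).symm
      have f3 := lt_of_le_of_ne (not_lt.1 e3) (mul_ne_zero nB1 nR).symm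
      linarith)
    (by
      rintro ⟨h1, h2, h3⟩
      have e1 := (sg_ne nB2 nS).1 h1
      have e2 := (sg_ne nB3 nT).1 h2
      have e3 := (sg_ne nB1 nR).1 h3
      linarith)
  have hX : ∀ {u v : α} (x y z w : ℝ), x ≠ 0 → y ≠ 0 → z ≠ 0 → w ≠ 0 →
      ((X p u v a b) ↔ (x * y < 0 ∧ z * w < 0)) →
      (X p u v a b ↔ ((sg x != sg y) && (sg z != sg w)) = true) := by
    intro u v x y z w hx hy hz hw h
    rw [h, Bool.and_eq_true, bne_iff_ne, bne_iff_ne, sg_ne hx hy, sg_ne hz hw]
  have hI : ∀ (x y z : ℝ) (c : α), x ≠ 0 → y ≠ 0 → z ≠ 0 →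
      (InTri p s t r c ↔ ((0 < x ∧ 0 < y ∧ 0 < z) ∨ (x < 0 ∧ y < 0 ∧ z < 0))) →
      (InTri p s t r c ↔ ((sg x == sg y) && (sg y == sg z)) = true) := by
    intro x y z c hx hy hz h
    rw [h, Bool.and_eq_true, beq_iff_eq, beq_iff_eq]
    constructor
    · rintro (⟨h1, h2, h3⟩ | ⟨h1, h2, h3⟩)
      · rw [sg_true.2 h1, sg_true.2 h2, sg_true.2 h3]
        exact ⟨rfl, rfl⟩
      · rw [(sg_false hx).2 h1, (sg_false hy).2 h2, (sg_false hz).2 h3]
        exact ⟨rfl, rfl⟩
    · rintro ⟨h1, h2⟩
      rcases lt_or_gt_of_ne hx with h3 | h3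
      · right
        rw [(sg_false hx).2 h3] at h1
        rw [← h1] at h2
        exact ⟨h3, (sg_false hy).1 h1.symm, (sg_false hz).1 h2.symm⟩
      · left
        rw [sg_true.2 h3] at h1
        rw [← h1] at h2
        exact ⟨h3, sg_true.1 h1.symm, sg_true.1 h2.symm⟩
  rw [b2_xor (hX _ _ _ _ nA1 nB1 nS nT Iff.rfl) (hX _ _ _ _ nA2 nB2 nT nR Iff.rfl)
    (hX _ _ _ _ nA3 nB3 nR nS Iff.rfl), b2_xor2 (hI _ _ _ _ nA1 nA2 nA3 Iff.rfl)
    (hI _ _ _ _ nB1 nB2 nB3 Iff.rfl), key]

/-- triangle and path: crossings = number of ends of the path inside the triangle -/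
theorem xc_tri (hgp : GP p) {s t r : α} (hst : s ≠ t) (htr : t ≠ r) (hsr : s ≠ r) (a : α)
    (l : List α) (hs : s ∉ a :: l) (ht : t ∉ a :: l) (hr : r ∉ a :: l) :
    xc p s t (a :: l) + xc p t r (a :: l) + xc p r s (a :: l) =
      b2 (InTri p s t r a) + b2 (InTri p s t r ((a :: l).getLast (List.cons_ne_nil a l))) := by
  induction l generalizing a with
  | nil =>
    simp only [xc_one, List.getLast_singleton, b2_add_self]
    simp
  | cons b l ih =>
    simp only [List.mem_cons, not_or] at hs ht hr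
    have h1 := ih b (by simp only [List.mem_cons, not_or]; exact hs.2)
      (by simp only [List.mem_cons, not_or]; exact ht.2)
      (by simp only [List.mem_cons, not_or]; exact hr.2)
    have h2 := tri_par hgp hst htr hsr (a := a) (b := b) ⟨hs.1, ht.1, hr.1⟩
      ⟨hs.2.1, ht.2.1, hr.2.1⟩
    rw [xc_cons2, xc_cons2, xc_cons2, List.getLast_cons_cons]
    have h3 : b2 (InTri p s t r a) + b2 (InTri p s t r ((b :: l).getLast
        (List.cons_ne_nil b l))) = (b2 (InTri p s t r a) + b2 (InTri p s t r b)) +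
        (b2 (InTri p s t r b) + b2 (InTri p s t r ((b :: l).getLast
        (List.cons_ne_nil b l)))) := by
      have h4 := b2_add_self (InTri p s t r b)
      linear_combination -h4
    rw [h3, ← h1, ← h2]
    ring

/-- closed polygon: `same side` is an equivalence relation -/
theorem xc_closed (hgp : GP p) {s t r a : α} {l : List α} (hst : s ≠ t) (htr : t ≠ r)
    (hsr : s ≠ r) (hs : s ∉ a :: l) (ht : t ∉ a :: l) (hr : r ∉ a :: l) :
    xc p s t (a :: (l ++ [a])) + xc p t r (a :: (l ++ [a])) + xc p r s (a :: (l ++ [a])) = 0 := by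
  have hm : ∀ u : α, u ∉ a :: l → u ∉ a :: (l ++ [a]) := by
    intro u hu h
    simp only [List.mem_cons, List.mem_append, List.not_mem_nil, or_false] at h hu
    tauto
  have h := xc_tri hgp hst htr hsr a (l ++ [a]) (hm s hs) (hm t ht) (hm r hr)
  rw [h]
  have h2 : (a :: (l ++ [a])).getLast (List.cons_ne_nil a (l ++ [a])) = a := by
    simp
  rw [h2]
  exact b2_add_self _

/-- `a` lies in the open convex cone with apex `w` spanned by `s` and `t` -/
def Cone (p : α → ℝ × ℝ) (w s t a : α) : Prop :=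
  (0 < o p w s t ∧ 0 < o p w s a ∧ 0 < o p w a t) ∨
    (o p w s t < 0 ∧ o p w s a < 0 ∧ o p w a t < 0)

theorem cone_comm {w s t a : α} : Cone p w s t a ↔ Cone p w t s a := by
  unfold Cone
  rw [o_swap' p w s t, o_swap' p w s a, o_swap' p w a t]
  simp only [Left.neg_pos_iff, Left.neg_neg_iff]
  constructor
  · rintro (⟨h1, h2, h3⟩ | ⟨h1, h2, h3⟩)
    · right
      have e1 := o_swap' p w t s
      have e2 := o_swap' p w t a
      have e3 := o_swap' p w a s
      exact ⟨by linarith, by linarith, by linarith⟩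
    · left
      have e1 := o_swap' p w t s
      have e2 := o_swap' p w t a
      have e3 := o_swap' p w a s
      exact ⟨by linarith, by linarith, by linarith⟩
  · rintro (⟨h1, h2, h3⟩ | ⟨h1, h2, h3⟩)
    · right
      have e1 := o_swap' p w t s
      have e2 := o_swap' p w t a
      have e3 := o_swap' p w a s
      exact ⟨by linarith, by linarith, by linarith⟩
    · left
      have e1 := o_swap' p w t s
      have e2 := o_swap' p w t a
      have e3 := o_swap' p w a s
      exact ⟨by linarith, by linarith, by linarith⟩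

/-- closed polygon, without distinctness -/
theorem xc_closed' (hgp : GP p) {s t r a : α} {l : List α} (hs : s ∉ a :: l)
    (ht : t ∉ a :: l) (hr : r ∉ a :: l) :
    xc p s t (a :: (l ++ [a])) + xc p t r (a :: (l ++ [a])) + xc p r s (a :: (l ++ [a])) = 0 := by
  by_cases h1 : s = t
  · subst h1
    rw [xc_self, xc_comm (s := r), zero_add]
    exact CharTwo.add_self_eq_zero _
  by_cases h2 : t = r
  · subst h2
    rw [xc_self, xc_comm (s := t) (t := s), add_zero]
    exact CharTwo.add_self_eq_zero _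
  by_cases h3 : s = r
  · subst h3
    rw [xc_self, xc_comm (s := t), add_zero]
    exact CharTwo.add_self_eq_zero _
  exact xc_closed hgp h1 h2 h3 hs ht hr

/-- transitivity of `same side` -/
theorem xc_trans (hgp : GP p) {s t r a : α} {l : List α} (hs : s ∉ a :: l)
    (ht : t ∉ a :: l) (hr : r ∉ a :: l) (h1 : xc p s t (a :: (l ++ [a])) = 0)
    (h2 : xc p t r (a :: (l ++ [a])) = 0) : xc p s r (a :: (l ++ [a])) = 0 := by
  have h := xc_closed' hgp hs ht hr
  rw [h1, h2, zero_add, zero_add, xc_comm] at h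
  exact h

/-- a path which does not cross the polygon stays on one side -/
theorem xc_walk (hgp : GP p) {a : α} {l : List α} (m : List α) : ∀ (c : α),
    (∀ t ∈ c :: m, t ∉ a :: l) → (∀ u v, Ed (c :: m) u v → xc p u v (a :: (l ++ [a])) = 0) →
    ∀ t ∈ c :: m, xc p c t (a :: (l ++ [a])) = 0 := by
  induction m with
  | nil =>
    intro c _ _ t ht
    rw [List.mem_singleton] at ht
    rw [ht]
    exact xc_self
  | cons d m ih =>
    intro c hc hE t ht
    rcases List.mem_cons.1 ht with h1 | h1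
    · rw [h1]
      exact xc_self
    · have h2 := ih d (fun t ht => hc t (List.mem_cons_of_mem _ ht))
        (fun u v h => hE u v (Or.inr (Or.inr h))) t h1
      exact xc_trans hgp (hc c List.mem_cons_self) (hc d (by simp)) (hc t ht)
        (hE c d (Or.inl ⟨rfl, rfl⟩)) h2

private theorem cone_b : ∀ D A B C : Bool,
    ((D && !A && !B && !C) || (!D && A && B && C) ||
      (xor ((D != C) && (A == B)) ((A == C) && (C == B)) == ((D == A) && (D == B)))) = true := by
  decide

/-- `a` in the cone: inside the triangle or beyond the side `s t` -/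
theorem cone_par (hgp : GP p) {w s t a : α} (hws : w ≠ s) (hwt : w ≠ t) (hst : s ≠ t)
    (ha : w ≠ a ∧ s ≠ a ∧ t ≠ a) :
    b2 (X p s t w a) + b2 (InTri p w s t a) = b2 (Cone p w s t a) := by
  have nD : o p w s t ≠ 0 := hgp.ne w s t hws hst hwt
  have nA : o p w s a ≠ 0 := hgp.ne w s a hws ha.2.1 ha.1
  have nB : o p w a t ≠ 0 := hgp.ne w a t ha.1 ha.2.2.symm hwt
  have nC : o p s t a ≠ 0 := hgp.ne s t a hst ha.2.2 ha.2.1
  have hadd := o_add p w s t a
  have e1 : o p t w a = o p w a t := (o_rot p t w a).symm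
  have e2 : o p s t w = o p w s t := o_rot p w s t
  have e3 : o p w a s = - o p w s a := o_swap' p w s a
  rw [e1] at hadd
  have key := cone_b (sg (o p w s t)) (sg (o p w s a)) (sg (o p w a t)) (sg (o p s t a))
  have key2 : xor ((sg (o p w s t) != sg (o p s t a)) && (sg (o p w s a) == sg (o p w a t)))
      ((sg (o p w s a) == sg (o p s t a)) && (sg (o p s t a) == sg (o p w a t))) =
      ((sg (o p w s t) == sg (o p w s a)) && (sg (o p w s t) == sg (o p w a t))) := by
    rw [Bool.or_eq_true, Bool.or_eq_true, beq_iff_eq] at key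
    rcases key with (k | k) | k
    · exfalso
      simp only [Bool.and_eq_true, Bool.not_eq_true', and_assoc] at k
      obtain ⟨k1, k2, k3, k4⟩ := k
      rw [sg_true] at k1
      rw [sg_false nA] at k2
      rw [sg_false nB] at k3
      rw [sg_false nC] at k4
      linarith
    · exfalso
      simp only [Bool.and_eq_true, Bool.not_eq_true', and_assoc] at k
      obtain ⟨k1, k2, k3, k4⟩ := k
      rw [sg_false nD] at k1
      rw [sg_true] at k2 k3 k4
      linarith
    · exact k
  have hX : X p s t w a ↔ ((sg (o p w s t) != sg (o p s t a)) &&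
      (sg (o p w s a) == sg (o p w a t))) = true := by
    rw [Bool.and_eq_true, bne_iff_ne, beq_iff_eq, sg_ne nD nC]
    unfold X
    rw [e2, e3]
    refine and_congr Iff.rfl ?_
    have h1 := sg_ne nA nB
    constructor
    · intro h
      by_contra hne
      have := h1.1 hne
      linarith
    · intro h
      have h2 : ¬ (o p w s a * o p w a t < 0) := fun h3 => h1.2 h3 h
      have h3 := lt_of_le_of_ne (not_lt.1 h2) (mul_ne_zero nA nB).symm
      linarith
  have sgeq : ∀ x y : ℝ, x ≠ 0 → y ≠ 0 → (sg x = sg y ↔ (0 < x ∧ 0 < y) ∨ (x < 0 ∧ y < 0)) := by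
    intro x y hx hy
    constructor
    · intro h
      rcases lt_or_gt_of_ne hx with h3 | h3
      · right
        rw [(sg_false hx).2 h3] at h
        exact ⟨h3, (sg_false hy).1 h.symm⟩
      · left
        rw [sg_true.2 h3] at h
        exact ⟨h3, sg_true.1 h.symm⟩
    · rintro (⟨h1, h2⟩ | ⟨h1, h2⟩)
      · rw [sg_true.2 h1, sg_true.2 h2]
      · rw [(sg_false hx).2 h1, (sg_false hy).2 h2]
  have hI : InTri p w s t a ↔ ((sg (o p w s a) == sg (o p s t a)) &&
      (sg (o p s t a) == sg (o p w a t))) = true := by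
    rw [Bool.and_eq_true, beq_iff_eq, beq_iff_eq, sgeq _ _ nA nC, sgeq _ _ nC nB]
    unfold InTri
    rw [e1]
    constructor
    · rintro (⟨h1, h2, h3⟩ | ⟨h1, h2, h3⟩)
      · exact ⟨Or.inl ⟨h1, h2⟩, Or.inl ⟨h2, h3⟩⟩
      · exact ⟨Or.inr ⟨h1, h2⟩, Or.inr ⟨h2, h3⟩⟩
    · rintro ⟨⟨h1, h2⟩ | ⟨h1, h2⟩, ⟨h3, h4⟩ | ⟨h3, h4⟩⟩
      · exact Or.inl ⟨h1, h2, h4⟩
      · linarith
      · linarith
      · exact Or.inr ⟨h1, h2, h4⟩
  have hC : Cone p w s t a ↔ ((sg (o p w s t) == sg (o p w s a)) &&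
      (sg (o p w s t) == sg (o p w a t))) = true := by
    rw [Bool.and_eq_true, beq_iff_eq, beq_iff_eq, sgeq _ _ nD nA, sgeq _ _ nD nB]
    unfold Cone
    constructor
    · rintro (⟨h1, h2, h3⟩ | ⟨h1, h2, h3⟩)
      · exact ⟨Or.inl ⟨h1, h2⟩, Or.inl ⟨h1, h3⟩⟩
      · exact ⟨Or.inr ⟨h1, h2⟩, Or.inr ⟨h1, h3⟩⟩
    · rintro ⟨⟨h1, h2⟩ | ⟨h1, h2⟩, ⟨h3, h4⟩ | ⟨h3, h4⟩⟩
      · exact Or.inl ⟨h1, h2, h4⟩
      · linarith
      · linarith
      · exact Or.inr ⟨h1, h2, h4⟩
  rw [b2_xor2 hX hI, b2_congr hC, key2]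
  by_cases h : ((sg (o p w s t) == sg (o p w s a)) && (sg (o p w s t) == sg (o p w a t))) = true
  · rw [if_pos h, b2_true h]
  · rw [if_neg h, b2_false h]

/-- open path starting in the apex `w` of the triangle `w s t` -/
theorem xc_open (hgp : GP p) {w s t a : α} {l : List α} (hws : w ≠ s) (hwt : w ≠ t)
    (hst : s ≠ t) (hw : w ∉ a :: l) (hs : s ∉ a :: l) (ht : t ∉ a :: l) :
    xc p s t (w :: a :: l) + xc p w s (a :: l) + xc p w t (a :: l) =
      b2 (Cone p w s t a) +
        b2 (InTri p w s t ((a :: l).getLast (List.cons_ne_nil a l))) := by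
  have h1 := xc_tri hgp hws hst hwt a l hw hs ht
  have h2 := cone_par hgp hws hwt hst (a := a) ⟨fun h => hw (by simp [h]),
    fun h => hs (by simp [h]), fun h => ht (by simp [h])⟩
  rw [xc_cons2]
  rw [xc_comm (s := t) (t := w)] at h1
  linear_combination h1 + h2

/-- the sides at a vertex `w` of the closed polygon `w, a, .., b` -/
theorem xc_vert (hgp : GP p) {w s t a b : α} {l : List α} (hws : w ≠ s) (hwt : w ≠ t)
    (hst : s ≠ t) (hw : w ∉ a :: l) (hs : s ∉ a :: l) (ht : t ∉ a :: l)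
    (hb : (a :: l).getLast (List.cons_ne_nil a l) = b) :
    xc p s t (w :: (a :: l ++ [w])) + xc p w s (w :: (a :: l ++ [w])) +
      xc p w t (w :: (a :: l ++ [w])) = b2 (Cone p w s t a) + b2 (Cone p w s t b) := by
  have hbm : b ∈ a :: l := hb ▸ List.getLast_mem _
  obtain ⟨m, hm⟩ : ∃ m, a :: l = m ++ [b] := by
    refine ⟨(a :: l).dropLast, ?_⟩
    rw [← hb]
    exact (List.dropLast_append_getLast _).symm
  have e : ∀ u v : α, xc p u v (a :: l ++ [w]) = xc p u v (a :: l) + b2 (X p u v b w) := by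
    intro u v
    rw [hm]
    have h3 : m ++ [b] ++ [w] = m ++ [b, w] := by simp
    rw [h3, xc_snoc]
  have e2 : ∀ u v : α, xc p u v (w :: (a :: l ++ [w])) =
      b2 (X p u v w a) + xc p u v (a :: l) + b2 (X p u v b w) := by
    intro u v
    have h3 : w :: (a :: l ++ [w]) = w :: a :: (l ++ [w]) := by simp
    rw [h3, xc_cons2]
    have h4 : a :: (l ++ [w]) = a :: l ++ [w] := by simp
    rw [h4, e]
    ring
  have h1 := xc_open hgp hws hwt hst hw hs ht
  rw [xc_cons2, hb] at h1
  have h2 := cone_par hgp hws hwt hst (a := b) ⟨fun h => hw (h ▸ hbm),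
    fun h => hs (h ▸ hbm), fun h => ht (h ▸ hbm)⟩
  rw [e2, e2, e2, b2_false (P := X p w s w a) not_X_of_eq1,
    b2_false (P := X p w s b w) not_X_of_eq2, b2_false (P := X p w t w a) not_X_of_eq1,
    b2_false (P := X p w t b w) not_X_of_eq2, b2_congr (X_sw2 (p := p) (a := s) (b := t)
      (c := b) (d := w))]
  linear_combination h1 + h2

/-- rotation of a closed list -/
theorem xc_rot {s t a w : α} {A B : List α} :
    xc p s t (a :: (A ++ w :: B ++ [a])) = xc p s t (w :: (B ++ a :: A ++ [w])) := by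
  have h1 : a :: (A ++ w :: B ++ [a]) = (a :: A) ++ w :: (B ++ [a]) := by simp
  have h2 : w :: (B ++ a :: A ++ [w]) = (w :: B) ++ a :: (A ++ [w]) := by simp
  rw [h1, h2, xc_mid, xc_mid (A := w :: B)]
  have h3 : (a :: A) ++ [w] = a :: (A ++ [w]) := by simp
  have h4 : w :: (B ++ [a]) = (w :: B) ++ [a] := by simp
  rw [h3, h4, add_comm]

end FPW
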