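import Pool.Agent.Lib.MP_deef39_co_Ord.Leaf
import Pool.Agent.Lib.MP_deef39_co_DA.Fin

/-! # Ord module Red: order rules for single plane paths imply connectivity -/

set_option autoImplicit false

namespace FPW

variable {α : Type*}

/-- the end `z` of `l` sees a vertex `v` of `l` and is strictly better than the successor `x`
of `v` with respect to the rank `rho (prefix up to v)` -/
def Imp (p : α → ℝ × ℝ) (O : α → α → Prop) (rho : List α → α → ℕ) (l : List α) : Prop :=
  ∃ (A B : List α) (v x z : α), l = A ++ v :: x :: (B ++ [z]) ∧ Vis p (EO l O) z v ∧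
    rho (A ++ [v]) z < rho (A ++ [v]) x

/-- order rule for `VLp`: for a hull vertex `h` and a fixed first edge `h x` with a point on its
left there are ranks such that every plane path with this first edge either ends in a vertex on
the left of `h x` which sees `h`, or has an improving rotation -/
def VLr (p : α → ℝ × ℝ) : Prop :=
  ∀ (h x : α) (B : List α), (h :: x :: B).Nodup → Plane p (Ed (h :: x :: B)) →
    HV p {t | t ∈ h :: x :: B} h → (∃ v ∈ B, 0 < o p h x v) →
    ∃ rho : List α → α → ℕ, ∀ C : List α, C.Perm B → Plane p (Ed (h :: x :: C)) →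
      (∃ A z, x :: C = A ++ [z] ∧ 0 < o p h x z ∧ Vis p (EO (A ++ [z]) (Ed [h, x])) z h) ∨
        Imp p (Ed [h, x]) rho (x :: C)

/-- order rule for `TGp`: for a fixed arm `A` followed by the hull vertex `h` there are ranks such
that in every plane path starting with the arm either the end sees a vertex of the arm, or there
is an improving rotation -/
def TGr (p : α → ℝ × ℝ) : Prop :=
  ∀ (h : α) (A B : List α), (A ++ h :: B).Nodup → A ≠ [] → B ≠ [] →
    Plane p (Ed (A ++ h :: B)) → HV p {t | t ∈ A ++ h :: B} h →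
    ∃ rho : List α → α → ℕ, ∀ C : List α, C.Perm B → Plane p (Ed (A ++ h :: C)) →
      (∃ D z g, h :: C = D ++ [z] ∧ g ∈ A ∧ Vis p (EO (D ++ [z]) (Ed (A ++ [h]))) z g) ∨
        Imp p (Ed (A ++ [h])) rho (h :: C)

section
variable {p : α → ℝ × ℝ}

/-- in every class there is a state without improving rotation -/
theorem ord_least {O : α → α → Prop} (l₀ : List α) (rho : List α → α → ℕ) :
    ∃ l, Reach p O l₀ l ∧ ¬ Imp p O rho l := by
  obtain ⟨l, h1, h2⟩ := ord_leaf (p := p) (O := O) l₀ rho
  refine ⟨l, h1, ?_⟩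
  rintro ⟨A, B, v, x, z, h3, h4, h5⟩
  exact absurd (h2 A B v x z h3 h4) (not_le.2 h5)

/-- states of a class of paths with a fixed beginning -/
theorem ord_state {x : α} {A₀ B m : List α} (hp : Plane p (Ed (A₀ ++ x :: B)))
    (h : Reach p (Ed (A₀ ++ [x])) (x :: B) m) :
    ∃ C, m = x :: C ∧ C.Perm B ∧ Plane p (Ed (A₀ ++ x :: C)) := by
  obtain ⟨C, h1, h2⟩ := da_lift h
  subst h1
  refine ⟨C, rfl, (List.perm_cons x).1 (reach_perm h), ?_⟩
  exact plane_no.1 (plane_reach (plane_no.2 hp) h2)

theorem vlp_of_rule (h : VLr p) : VLp p := by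
  intro a x B hn hp hv hex
  obtain ⟨rho, hr⟩ := h a x B hn hp hv hex
  obtain ⟨l, h1, h2⟩ := ord_least (p := p) (O := Ed [a, x]) (x :: B) rho
  obtain ⟨C, h3, h4, h5⟩ := ord_state (A₀ := [a]) hp h1
  subst h3
  rcases hr C h4 h5 with ⟨A, z, h6, h7, h8⟩ | h6
  · exact ⟨A, z, h6 ▸ h1, h7, h8⟩
  · exact absurd h6 h2

theorem tgp_of_rule (h : TGr p) : TGp p := by
  intro a A B hn hA hp hv
  by_cases hB : B = []
  · subst hB
    rcases List.eq_nil_or_concat A with h1 | ⟨A', g, h1⟩
    · exact absurd h1 hA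
    · rw [List.concat_eq_append] at h1
      subst h1
      refine ⟨[], a, g, Relation.ReflTransGen.refl, by simp, ?_⟩
      intro c d hcd
      have h2 : Ed (A' ++ [g] ++ [a]) c d := by
        rcases hcd with h3 | h3
        · exact absurd h3 ed_single
        · exact h3
      refine hp a g c d ?_ h2
      have h4 : A' ++ [g] ++ [a] = A' ++ g :: a :: [] := by simp
      rw [h4]
      exact ed_of_split'
  · obtain ⟨rho, hr⟩ := h a A B hn hA hB hp hv
    obtain ⟨l, h1, h2⟩ := ord_least (p := p) (O := Ed (A ++ [a])) (a :: B) rho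
    obtain ⟨C, h3, h4, h5⟩ := ord_state hp h1
    subst h3
    rcases hr C h4 h5 with ⟨D, z, g, h6, h7, h8⟩ | h6
    · exact ⟨D, z, g, h6 ▸ h1, h7, h8⟩
    · exact absurd h6 h2

end

/-- the frozen statement for the point family `p` from the two order rules -/
theorem ord_graph (n : ℕ) (p : Fin n → ℝ × ℝ) (hi : Function.Injective p)
    (hc : ∀ i j k : Fin n, i ≠ j → j ≠ k → i ≠ k →
      ¬ Collinear ℝ ({p i, p j, p k} : Set (ℝ × ℝ)))
    (hvl : VLr p) (htg : TGr p) :
    ∀ P : SimpleGraph (Fin n) → Prop,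
      (∀ A : SimpleGraph (Fin n), P A ↔
        (A.IsTree ∧ (∀ v : Fin n, (A.neighborSet v).ncard ≤ 2) ∧
          ∀ a b c d : Fin n, A.Adj a b → A.Adj c d → s(a, b) ≠ s(c, d) →
            ∀ x : ℝ × ℝ, x ∈ segment ℝ (p a) (p b) → x ∈ segment ℝ (p c) (p d) →
              (x = p a ∨ x = p b) ∧ (x = p c ∨ x = p d))) →
      ∀ G H : SimpleGraph (Fin n), P G → P H →
        Relation.ReflTransGen
          (fun A B : SimpleGraph (Fin n) =>
            P A ∧ P B ∧ (A.edgeSet \ B.edgeSet).ncard = 1 ∧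
              (B.edgeSet \ A.edgeSet).ncard = 1)
          G H :=
  da_graph n p hi hc (vlp_of_rule hvl) (tgp_of_rule htg)

end FPW
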