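import Pool.Agent.Lib.MP_deef39_co_Ord.Multi

/-! # Ord module WT: weak traps

A weak trap is a nonempty set `W` of states without accepted state such that for every pivot `v`
of a state of `W` seen by its end `z` some state of `W` has the prefix `.., v, z`. A class without
accepted state is a weak trap, so `VLp` and `TGp` follow if there are no weak traps.
-/

set_option autoImplicit false

namespace FPW

variable {α : Type*} {p : α → ℝ × ℝ}

/-- weak trap -/
def WT (p : α → ℝ × ℝ) (O : α → α → Prop) (Acc : List α → Prop) (W : Set (List α)) : Prop :=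
  W.Nonempty ∧ (∀ l ∈ W, ¬ Acc l) ∧
    ∀ (A B : List α) (v z : α), A ++ v :: (B ++ [z]) ∈ W →
      Vis p (EO (A ++ v :: (B ++ [z])) O) z v → ∃ C, A ++ v :: z :: C ∈ W

/-- a class without accepted state is a weak trap -/
theorem wt_reach {O : α → α → Prop} {Acc : List α → Prop} {l₀ : List α}
    (h : ∀ l, Reach p O l₀ l → ¬ Acc l) : WT p O Acc {l | Reach p O l₀ l} := by
  refine ⟨⟨l₀, Relation.ReflTransGen.refl⟩, h, ?_⟩
  intro A B v z h1 h2
  exact ⟨B.reverse, Relation.ReflTransGen.tail h1 ⟨v, z, ⟨A, B, rfl, rfl⟩, h2⟩⟩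

/-- the states for `VLp` -/
def StV (p : α → ℝ × ℝ) (h x : α) (B : List α) : Set (List α) :=
  {l | ∃ C, l = x :: C ∧ C.Perm B ∧ Plane p (Ed (h :: x :: C))}

/-- the states for `TGp` -/
def StT (p : α → ℝ × ℝ) (h : α) (A B : List α) : Set (List α) :=
  {l | ∃ C, l = h :: C ∧ C.Perm B ∧ Plane p (Ed (A ++ h :: C))}

/-- no weak traps for `VLp` -/
def NWv (p : α → ℝ × ℝ) : Prop :=
  ∀ (h x : α) (B : List α), (h :: x :: B).Nodup → Plane p (Ed (h :: x :: B)) →
    HV p {t | t ∈ h :: x :: B} h → (∃ v ∈ B, 0 < o p h x v) →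
    ∀ W, W ⊆ StV p h x B → ¬ WT p (Ed [h, x]) (AccV p h x) W

/-- no weak traps for `TGp` -/
def NWt (p : α → ℝ × ℝ) : Prop :=
  ∀ (h : α) (A B : List α), (A ++ h :: B).Nodup → A ≠ [] → B ≠ [] →
    Plane p (Ed (A ++ h :: B)) → HV p {t | t ∈ A ++ h :: B} h →
    ∀ W, W ⊆ StT p h A B → ¬ WT p (Ed (A ++ [h])) (AccT p h A) W

theorem vlp_of_nw (hw : NWv p) : VLp p := by
  intro a x B hn hp hv hex
  by_contra hno
  refine hw a x B hn hp hv hex {l | Reach p (Ed [a, x]) (x :: B) l} ?_ (wt_reach ?_)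
  · intro l hl
    exact ord_state (A₀ := [a]) hp hl
  · rintro l hl ⟨A, z, rfl, h2, h3⟩
    exact hno ⟨A, z, hl, h2, h3⟩

theorem tgp_of_nw (hw : NWt p) : TGp p := by
  intro a A B hn hA hp hv
  by_cases hB : B = []
  · subst hB
    rcases List.eq_nil_or_concat A with h1 | ⟨A', g, h1⟩
    · exact absurd h1 hA
    · rw [List.concat_eq_append] at h1
      subst h1
      refine ⟨[], a, g, Relation.ReflTransGen.refl, by simp, ?_⟩
      intro c d hcd
      have h2 : Ed (A' ++ [g] ++ [a]) c d := by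
        rcases hcd with h3 | h3
        · exact absurd h3 ed_single
        · exact h3
      refine hp a g c d ?_ h2
      have h4 : A' ++ [g] ++ [a] = A' ++ g :: a :: [] := by simp
      rw [h4]
      exact ed_of_split'
  · by_contra hno
    refine hw a A B hn hA hB hp hv {l | Reach p (Ed (A ++ [a])) (a :: B) l} ?_ (wt_reach ?_)
    · intro l hl
      exact ord_state hp hl
    · rintro l hl ⟨D, z, g, rfl, h2, h3⟩
      exact hno ⟨D, z, g, hl, h2, h3⟩

/-- restriction of a weak trap to a prefix `Q`: all states have the prefix `Q` and the condition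
holds for the pivots after `Q` -/
theorem wt_sub {O : α → α → Prop} {Acc : List α → Prop} {W : Set (List α)}
    (h : WT p O Acc W) {Q C₀ : List α} (hQ : Q ++ C₀ ∈ W) :
    ∃ W' ⊆ W, Q ++ C₀ ∈ W' ∧ (∀ l ∈ W', ∃ C, l = Q ++ C) ∧
      ∀ (A B : List α) (v z : α), Q ++ A ++ v :: (B ++ [z]) ∈ W' →
        Vis p (EO (Q ++ A ++ v :: (B ++ [z])) O) z v → ∃ C, Q ++ A ++ v :: z :: C ∈ W' := by
  refine ⟨{l | l ∈ W ∧ ∃ C, l = Q ++ C}, fun l hl => hl.1, ⟨hQ, C₀, rfl⟩, fun l hl => hl.2, ?_⟩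
  intro A B v z h1 h2
  obtain ⟨C, hC⟩ := h.2.2 (Q ++ A) B v z h1.1 h2
  exact ⟨C, hC, A ++ v :: z :: C, by simp⟩

/-- a rule excludes weak traps -/
theorem not_wt_of_rule {O : α → α → Prop} {Acc : List α → Prop} {W : Set (List α)}
    (rho : List α → α → ℕ) (hf : W.Finite) (h : ∀ l ∈ W, Acc l ∨ Imp p O rho l) :
    ¬ WT p O Acc W := by
  rintro ⟨hne, hacc, hst⟩
  obtain ⟨l, hl, hmin⟩ := Set.exists_min_image W (fun l => rkey rho [] l) hf hne
  rcases h l hl with h1 | ⟨A, B, v, x, z, h3, h4, h5⟩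
  · exact hacc l hl h1
  · have h6 : l = A ++ v :: ((x :: B) ++ [z]) := by rw [h3]; rfl
    obtain ⟨C, hC⟩ := hst A (x :: B) v z (h6 ▸ hl) (h6 ▸ h4)
    have h7 := hmin _ hC
    refine absurd h7 (not_le.2 ?_)
    have h8 : ∀ (y : α) (M : List α), rkey rho [] (A ++ v :: y :: M) =
        rkey rho [] (A ++ [v]) ++ rho (A ++ [v]) y :: rkey rho (A ++ [v] ++ [y]) M := by
      intro y M
      have h9 : A ++ v :: y :: M = (A ++ [v]) ++ y :: M := by simp
      rw [h9, rkey_append]
      rfl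
    show rkey rho [] (A ++ v :: z :: C) < rkey rho [] l
    rw [h3, h8, h8]
    generalize rkey rho [] (A ++ [v]) = L
    induction L with
    | nil => exact List.Lex.rel h5
    | cons c L ih => exact List.Lex.cons ih

end FPW
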