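import Pool.Agent.Lib.MP_deef39_co_Ord.Red2

/-! # Ord module Walk: the dual form of the order rule

`Inv Q U Lt`: `Q` is the static path (the last entry is the tip), `U` the set of unvisited points,
`Lt s y`: the static point `s` (not the tip) lights `y`. In a class without accepted state the
tip `v` lights all points of `U` which are not next vertices of the class. `WInv p Inv`: the
invariant can be kept for some next vertex `w` (against an arbitrary nonempty set `X` of
completable next vertices), and at the end the last point sees a lamp which lights it. Then there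
is an accepted state.
-/

set_option autoImplicit false

namespace FPW

variable {α : Type*} {p : α → ℝ × ℝ}

/-- `x` is a completable next vertex after the static path `Q` with unvisited set `U` -/
def Cpl (p : α → ℝ × ℝ) (Q : List α) (U : Set α) (x : α) : Prop :=
  ∃ C : List α, (x :: C).Nodup ∧ (∀ t, t ∈ x :: C ↔ t ∈ U) ∧ Plane p (Ed (Q ++ x :: C))

/-- the lamps after the step from the tip `v`, next vertices `X` -/
def nextL (Q : List α) (v : α) (U X : Set α) (Lt : α → α → Prop) : α → α → Prop :=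
  fun s y => (s ∈ Q ∧ Lt s y) ∨ (s = v ∧ y ∈ U ∧ y ∉ X)

/-- invariant of the walk -/
structure WInv (p : α → ℝ × ℝ) (Inv : List α → Set α → (α → α → Prop) → Prop) : Prop where
  step : ∀ (Q : List α) (v : α) (U : Set α) (Lt : α → α → Prop) (X : Set α),
    Inv (Q ++ [v]) U Lt → (Q ++ [v]).Nodup → (∀ t ∈ Q ++ [v], t ∉ U) → U.Nontrivial →
    X ⊆ U → X.Nonempty → (∀ x ∈ X, Cpl p (Q ++ [v]) U x) →
    ∃ w ∈ X, Inv (Q ++ [v] ++ [w]) (U \ {w}) (nextL Q v U X Lt)
  fin : ∀ (Q : List α) (v y : α) (Lt : α → α → Prop), Inv (Q ++ [v]) {y} Lt →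
    (Q ++ [v] ++ [y]).Nodup → Plane p (Ed (Q ++ [v] ++ [y])) →
    ∃ s ∈ Q, Lt s y ∧ Vis p (Ed (Q ++ [v] ++ [y])) y s

/-- no end of the class sees a lamp which lights it -/
def LOk (p : α → ℝ × ℝ) (Q : List α) (v : α) (B : List α) (Lt : α → α → Prop) : Prop :=
  ∀ (C : List α) (z : α), Reach p (Ed (Q ++ [v])) (v :: B) (v :: (C ++ [z])) →
    ∀ s ∈ Q, Lt s z → ¬ Vis p (Ed (Q ++ v :: (C ++ [z]))) z s

private theorem walk_sub {x w : α} {Q B m : List α}
    (h : Reach p (Ed (Q ++ [x] ++ [w])) (w :: B) m) :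
    ∃ C, m = w :: C ∧ Reach p (Ed (Q ++ [x])) (x :: w :: B) (x :: w :: C) := by
  have h1 : Reach p (EO (Q ++ [x] ++ [w]) NO) (w :: B) m :=
    reach_mono (fun a b hab => eo_no.1 hab) h
  obtain ⟨C, h2, h3⟩ := ms_sub h1
  exact ⟨C, h2, reach_mono (fun a b hab => eo_no.2 hab) h3⟩

theorem walk_false {Inv : List α → Set α → (α → α → Prop) → Prop} (hI : WInv p Inv) (n : ℕ) :
    ∀ (Q : List α) (v : α) (B : List α) (Lt : α → α → Prop), B.length = n + 1 →
      (Q ++ v :: B).Nodup → Plane p (Ed (Q ++ v :: B)) → Inv (Q ++ [v]) {t | t ∈ B} Lt →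
      LOk p Q v B Lt → False := by
  induction n with
  | zero =>
    intro Q v B Lt hB hn hp hinv hok
    obtain ⟨y, rfl⟩ := List.length_eq_one_iff.1 hB
    have h0 : {t | t ∈ [y]} = ({y} : Set α) := by
      ext t
      simp
    rw [h0] at hinv
    have h1 : Q ++ [v] ++ [y] = Q ++ v :: [y] := by simp
    obtain ⟨s, hs, h2, h3⟩ := hI.fin Q v y Lt hinv (by rw [h1]; exact hn) (by rw [h1]; exact hp)
    refine hok [] y Relation.ReflTransGen.refl s hs h2 ?_
    rw [h1] at h3
    exact h3
  | succ n ih =>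
    intro Q v B Lt hB hn hp hinv hok
    set X : Set α := {x | ∃ C, Reach p (Ed (Q ++ [v])) (v :: B) (v :: x :: C)} with hX
    have hmem : ∀ x C, Reach p (Ed (Q ++ [v])) (v :: B) (v :: x :: C) → (x :: C).Perm B :=
      fun x C h => (List.perm_cons v).1 (reach_perm h)
    have hpl : ∀ x C, Reach p (Ed (Q ++ [v])) (v :: B) (v :: x :: C) →
        Plane p (Ed (Q ++ v :: x :: C)) := by
      intro x C h
      obtain ⟨C', h1, -, h2⟩ := ord_state (A₀ := Q) hp h
      have h3 : x :: C = C' := by simpa using h1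
      rw [h3]
      exact h2
    have hXU : X ⊆ {t | t ∈ B} := by
      rintro x ⟨C, hC⟩
      exact (hmem x C hC).mem_iff.1 (by simp)
    have hXne : X.Nonempty := by
      cases B with
      | nil => simp at hB
      | cons b B => exact ⟨b, B, Relation.ReflTransGen.refl⟩
    have hB' : B.Nodup := (List.nodup_cons.1 (List.nodup_append.1 hn).2.1).2
    have hnt : ({t | t ∈ B} : Set α).Nontrivial := by
      match B, hB, hB' with
      | a :: b :: B, _, h2 =>
        refine ⟨a, by simp, b, by simp, ?_⟩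
        rintro rfl
        simp at h2
      | [_], hB, _ => simp at hB
      | [], hB, _ => simp at hB
    have hcpl : ∀ x ∈ X, Cpl p (Q ++ [v]) {t | t ∈ B} x := by
      rintro x ⟨C, hC⟩
      refine ⟨C, (hmem x C hC).nodup_iff.2 hB', fun t => (hmem x C hC).mem_iff, ?_⟩
      have h1 : Q ++ [v] ++ x :: C = Q ++ v :: x :: C := by simp
      rw [h1]
      exact hpl x C hC
    have hnQ : (Q ++ [v]).Nodup := by
      refine hn.sublist ?_
      exact List.Sublist.append (List.Sublist.refl _)
        (List.Sublist.cons_cons _ (List.nil_sublist _))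
    have hdis : ∀ t ∈ Q ++ [v], t ∉ ({t | t ∈ B} : Set α) := by
      intro t ht htB
      have htB' : t ∈ B := htB
      rcases List.mem_append.1 ht with h1 | h1
      · exact (List.nodup_append.1 hn).2.2 t h1 t (List.mem_cons_of_mem _ htB') rfl
      · rw [List.mem_singleton] at h1
        rw [h1] at htB'
        exact (List.nodup_cons.1 (List.nodup_append.1 hn).2.1).1 htB'
    obtain ⟨w, ⟨C, hC⟩, hw⟩ := hI.step Q v _ Lt X hinv hnQ hdis hnt hXU hXne hcpl
    have hperm := hmem w C hC
    have hset : ({t | t ∈ B} \ {w} : Set α) = {t | t ∈ C} := by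
      ext t
      simp only [Set.mem_sdiff, Set.mem_ofPred_eq, Set.mem_singleton_iff]
      have h1 : t ∈ B ↔ t = w ∨ t ∈ C := by
        rw [← hperm.mem_iff, List.mem_cons]
      have h2 : w ∉ C := (List.nodup_cons.1 (hperm.nodup_iff.2 hB')).1
      constructor
      · rintro ⟨h3, h4⟩
        rcases h1.1 h3 with h5 | h5
        · exact absurd h5 h4
        · exact h5
      · intro h3
        refine ⟨h1.2 (Or.inr h3), ?_⟩
        rintro rfl
        exact h2 h3
    rw [hset] at hw
    have e1 : Q ++ [v] ++ w :: C = Q ++ v :: w :: C := by simp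
    have hperm2 : (Q ++ v :: w :: C).Perm (Q ++ v :: B) :=
      List.Perm.append_left Q ((List.perm_cons v).2 hperm)
    refine ih (Q ++ [v]) w C (nextL Q v {t | t ∈ B} X Lt) ?_ ?_ ?_ hw ?_
    · have := hperm.length_eq
      simp only [List.length_cons] at this
      omega
    · rw [e1]
      exact hperm2.nodup_iff.2 hn
    · rw [e1]
      exact hpl w C hC
    · intro C' z hr s hs hL hvis
      obtain ⟨C₂, h1, h2⟩ := walk_sub hr
      have h3 : C₂ = C' ++ [z] := by simpa using h1.symm
      subst h3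
      have h4 : Reach p (Ed (Q ++ [v])) (v :: B) (v :: (w :: C' ++ [z])) := hC.trans h2
      have e2 : Q ++ [v] ++ w :: (C' ++ [z]) = Q ++ v :: (w :: C' ++ [z]) := by simp
      rw [e2] at hvis
      rcases hL with ⟨h5, h6⟩ | ⟨rfl, h5, h6⟩
      · exact hok (w :: C') z h4 s h5 h6 hvis
      · apply h6
        refine ⟨(w :: C').reverse, h4.tail ⟨s, z, ⟨[], w :: C', rfl, rfl⟩, ?_⟩⟩
        refine Vis_mono ?_ hvis
        intro a b hab
        exact da_eo.1 hab

/-- `VLp` from an invariant -/
theorem vlp_of_walk (H : ∀ (h x : α) (B : List α), (h :: x :: B).Nodup →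
      Plane p (Ed (h :: x :: B)) → HV p {t | t ∈ h :: x :: B} h → (∃ v ∈ B, 0 < o p h x v) →
      ∃ Inv : List α → Set α → (α → α → Prop) → Prop, WInv p Inv ∧
        Inv ([h] ++ [x]) {t | t ∈ B} (fun s y => s = h ∧ 0 < o p h x y)) : VLp p := by
  intro h x B hn hp hv hex
  obtain ⟨Inv, hI, h0⟩ := H h x B hn hp hv hex
  by_contra hno
  obtain ⟨v, hvB, -⟩ := hex
  have hlen : B.length = (B.length - 1) + 1 := by
    have := List.length_pos_of_mem hvB
    omega
  refine walk_false hI (B.length - 1) [h] x B _ hlen hn hp h0 ?_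
  intro C z hr s hs hL hvis
  obtain ⟨rfl, hL2⟩ := hL
  refine hno ⟨x :: C, z, hr, hL2, ?_⟩
  refine Vis_mono ?_ hvis
  intro a b hab
  exact (da_eo (A₀ := [s])).1 hab

/-- `TGp` from an invariant -/
theorem tgp_of_walk (H : ∀ (h : α) (A B : List α), (A ++ h :: B).Nodup → A ≠ [] → B ≠ [] →
      Plane p (Ed (A ++ h :: B)) → HV p {t | t ∈ A ++ h :: B} h →
      ∃ Inv : List α → Set α → (α → α → Prop) → Prop, WInv p Inv ∧
        Inv (A ++ [h]) {t | t ∈ B} (fun s _ => s ∈ A)) : TGp p := by
  intro a A B hn hA hp hv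
  by_cases hB : B = []
  · subst hB
    rcases List.eq_nil_or_concat A with h1 | ⟨A', g, h1⟩
    · exact absurd h1 hA
    · rw [List.concat_eq_append] at h1
      subst h1
      refine ⟨[], a, g, Relation.ReflTransGen.refl, by simp, ?_⟩
      intro c d hcd
      have h2 : Ed (A' ++ [g] ++ [a]) c d := by
        rcases hcd with h3 | h3
        · exact absurd h3 ed_single
        · exact h3
      refine hp a g c d ?_ h2
      have h4 : A' ++ [g] ++ [a] = A' ++ g :: a :: [] := by simp
      rw [h4]
      exact ed_of_split'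
  · obtain ⟨Inv, hI, h0⟩ := H a A B hn hA hB hp hv
    by_contra hno
    have hlen : B.length = (B.length - 1) + 1 := by
      have := List.length_pos_iff.2 hB
      omega
    refine walk_false hI (B.length - 1) A a B _ hlen hn hp h0 ?_
    intro C z hr s hs hL hvis
    refine hno ⟨a :: C, z, s, hr, hL, ?_⟩
    refine Vis_mono ?_ hvis
    intro c d hcd
    exact da_eo.1 hcd

end FPW
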